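import Pool.Agent.Run7.h326.SP10

set_option autoImplicit false

open Finset Filter

namespace Run7.h326.SP

open Run7.h326.VL
open Pool.Agent.H303R3.ET (Conc)

/-- asymptotic bases have many elements -/
theorem basis_growth {A : Set ℕ} {h : ℕ} (hA : ∃ n₀, ∀ n ≥ n₀, 1 ≤ r A h n) :
    ∀ᶠ N : ℕ in atTop, (1 / 2 : ℝ) * N ≤ ((cut A N).card : ℝ) ^ h := by
  classical
  obtain ⟨n₀, hn₀⟩ := hA
  filter_upwards [eventually_ge_atTop (2 * n₀)] with N hN
  have h1 : (range N) \ (range n₀) ⊆ (tp (Fin h) (cut A N)).image sm := by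
    intro n hn
    rw [Finset.mem_sdiff, Finset.mem_range, Finset.mem_range, not_lt] at hn
    have h2 := hn₀ n hn.2
    unfold r at h2
    have h3 : (Mset A h n).Nonempty := by
      by_contra h4
      rw [Set.not_nonempty_iff_eq_empty] at h4
      rw [h4] at h2
      simp at h2
    obtain ⟨s, hs1, hs2, hs3⟩ := h3
    obtain ⟨c, hc⟩ := exists_tuple (γ := Fin h) (s := s) (by simpa using hs1)
    have hsm : sm c = n := by
      rw [← sum_ms, hc, hs3]
    refine mem_image.2 ⟨c, ?_, hsm⟩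
    rw [mem_tp]
    intro i
    rw [mem_cut]
    constructor
    · have : c i ≤ sm c := single_le_sum (f := c) (fun _ _ => Nat.zero_le _) (mem_univ i)
      omega
    · apply hs2
      rw [← hc, mem_ms]
      exact ⟨i, rfl⟩
  have h4 := (card_le_card h1).trans card_image_le
  have h5 : (tp (Fin h) (cut A N)).card = (cut A N).card ^ h := by
    unfold tp
    rw [Fintype.card_piFinset]
    simp
  rw [h5, card_sdiff_of_subset (range_subset_range.2 (by omega)), card_range, card_range] at h4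
  have h6 : N ≤ 2 * (cut A N).card ^ h := by omega
  have h7 : (N : ℝ) ≤ 2 * ((cut A N).card : ℝ) ^ h := by exact_mod_cast h6
  linarith

theorem cut_card (A : Set ℕ) (N : ℕ) : (cut A N).card = {a : ℕ | a ∈ A ∧ a < N}.ncard := by
  rw [← Set.ncard_coe_finset]
  congr 1
  ext a
  rw [mem_coe, mem_cut]
  exact and_comm

/-- `A` is an asymptotic basis, or has many elements -/
def Thick (A : Set ℕ) (h : ℕ) (c : ℝ) : Prop :=
  (∃ n₀, ∀ n ≥ n₀, 1 ≤ r A h n) ∨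
    ∀ᶠ N : ℕ in atTop, c * N ≤ ({a : ℕ | a ∈ A ∧ a < N}.ncard : ℝ) ^ h

theorem thick_cut {A : Set ℕ} {h : ℕ} {c : ℝ} (hA : Thick A h c) :
    ∀ᶠ N : ℕ in atTop, min c (1 / 2) * N ≤ ((cut A N).card : ℝ) ^ h := by
  rcases hA with hA | hA
  · filter_upwards [basis_growth hA] with N hN
    refine le_trans ?_ hN
    have : min c (1 / 2) ≤ 1 / 2 := min_le_right _ _
    gcongr
  · filter_upwards [hA] with N hN
    rw [cut_card]
    refine le_trans ?_ hN
    have : min c (1 / 2) ≤ c := min_le_left _ _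
    gcongr

theorem final_one {h : ℕ} (hh : 2 ≤ h) {A : Set ℕ} {c : ℝ} (hc : 0 < c) (hA : Thick A h c)
    {P : ℕ → ℝ} (hP : Conc P) {κ : ℝ} (hκ : κ < 1 - 1 / (h.choose (h / 2) : ℝ))
    (hd : ∀ᶠ N : ℕ in atTop, ∑ n ∈ range N, ((r A h n : ℝ) - P n) ^ 2 ≤
      κ * ∑ n ∈ range N, (r A h n : ℝ)) :
    (∀ B : ℝ, ∃ᶠ N : ℕ in atTop, B * N < ∑ n ∈ range N, (r A h n : ℝ) ^ 2) ∧
      ∀ K : ℕ, ∃ n, K < r A h n := by
  have key : ∀ B : ℝ, ∃ᶠ N : ℕ in atTop, B * N < ∑ n ∈ range N, (r A h n : ℝ) ^ 2 := by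
    intro B hcon
    refine sing_main hh (lt_min hc (by norm_num : (0 : ℝ) < 1 / 2)) (thick_cut hA) hP hκ hd
      (B := B) ?_
    filter_upwards [hcon] with N hN
    exact not_lt.1 hN
  refine ⟨key, ?_⟩
  by_contra hcon
  push Not at hcon
  obtain ⟨K, hK⟩ := hcon
  obtain ⟨N, hN⟩ := (key ((K : ℝ) ^ 2)).exists
  have h2 : ∑ n ∈ range N, (r A h n : ℝ) ^ 2 ≤ ∑ n ∈ range N, (K : ℝ) ^ 2 := by
    apply sum_le_sum
    intro n _
    have : (r A h n : ℝ) ≤ K := by exact_mod_cast hK n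
    gcongr
  rw [sum_const, card_range, nsmul_eq_mul] at h2
  linarith

theorem final_gap {h : ℕ} (hh : 2 ≤ h) (c B V : ℝ) (hc : 0 < c) :
    ∃ δ : ℝ, 0 < δ ∧ ∀ A : Set ℕ, Thick A h c →
      (∀ᶠ N : ℕ in atTop, ∑ n ∈ range N, (r A h n : ℝ) ^ 2 ≤ B * N) →
      ∀ g : Polynomial ℤ, g ≠ 0 → ∑ i ∈ g.support, (g.coeff i : ℝ) ^ 2 ≤ V →
      ∀ᶠ N : ℕ in atTop, δ * N ≤ ∑ n ∈ range N,
        (∑ j ∈ g.support, (g.coeff j : ℝ) * (r A h (n + j) : ℝ)) ^ 2 := by
  obtain ⟨δ, hδ, h1⟩ := gap hh (min c (1 / 2)) (max B 0) (max V 0)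
    (lt_min hc (by norm_num)) (le_max_right _ _) (le_max_right _ _)
  refine ⟨δ, hδ, fun A hA hB g hg hgV => ?_⟩
  refine h1 A (thick_cut hA) ?_ g hg (hgV.trans (le_max_left _ _))
  filter_upwards [hB] with N hN
  refine hN.trans ?_
  have : B ≤ max B 0 := le_max_left _ _
  gcongr

theorem final_count {h : ℕ} (hh : 2 ≤ h) (c : ℝ) (K V : ℕ) (hc : 0 < c) :
    ∃ δ : ℝ, 0 < δ ∧ ∀ A : Set ℕ, Thick A h c → (∀ n, r A h n ≤ K) →
      ∀ g : Polynomial ℤ, g ≠ 0 → ∑ i ∈ g.support, (g.coeff i) ^ 2 ≤ (V : ℤ) →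
      ∀ᶠ N : ℕ in atTop, δ * N ≤ ({n : ℕ | n < N ∧
        ∑ j ∈ g.support, g.coeff j * (r A h (n + j) : ℤ) ≠ 0}.ncard : ℝ) := by
  classical
  obtain ⟨δ, hδ, h1⟩ := final_gap hh c ((K : ℝ) ^ 2) V hc
  refine ⟨δ / (((V : ℝ) * K) ^ 2 + 1), by positivity, fun A hA hK g hg hgV => ?_⟩
  have hgV' : ∑ i ∈ g.support, (g.coeff i : ℝ) ^ 2 ≤ (V : ℝ) := by exact_mod_cast hgV
  have hB : ∀ᶠ N : ℕ in atTop, ∑ n ∈ range N, (r A h n : ℝ) ^ 2 ≤ (K : ℝ) ^ 2 * N := by
    refine Eventually.of_forall fun N => ?_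
    have h2 : ∑ n ∈ range N, (r A h n : ℝ) ^ 2 ≤ ∑ n ∈ range N, (K : ℝ) ^ 2 := by
      apply sum_le_sum
      intro n _
      have : (r A h n : ℝ) ≤ K := by exact_mod_cast hK n
      gcongr
    rw [sum_const, card_range, nsmul_eq_mul] at h2
    linarith
  filter_upwards [h1 A hA hB g hg hgV'] with N hN
  have hset : {n : ℕ | n < N ∧ ∑ j ∈ g.support, g.coeff j * (r A h (n + j) : ℤ) ≠ 0} =
      (((range N).filter (fun n => ∑ j ∈ g.support, g.coeff j * (r A h (n + j) : ℤ) ≠ 0) :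
        Finset ℕ) : Set ℕ) := by
    ext n
    simp
  rw [hset, Set.ncard_coe_finset]
  have hle : ∀ n, (∑ j ∈ g.support, (g.coeff j : ℝ) * (r A h (n + j) : ℝ)) ^ 2 ≤
      if ∑ j ∈ g.support, g.coeff j * (r A h (n + j) : ℤ) ≠ 0 then ((V : ℝ) * K) ^ 2 + 1 else 0 := by
    intro n
    split_ifs with h2
    · have h3 : |∑ j ∈ g.support, (g.coeff j : ℝ) * (r A h (n + j) : ℝ)| ≤ (V : ℝ) * K := by
        calc |∑ j ∈ g.support, (g.coeff j : ℝ) * (r A h (n + j) : ℝ)|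
            ≤ ∑ j ∈ g.support, |(g.coeff j : ℝ) * (r A h (n + j) : ℝ)| := abs_sum_le_sum_abs _ _
          _ ≤ ∑ j ∈ g.support, (g.coeff j : ℝ) ^ 2 * K := by
              refine sum_le_sum fun j _ => ?_
              rw [abs_mul, abs_of_nonneg (Nat.cast_nonneg (r A h (n + j)) : (0 : ℝ) ≤ _)]
              have h4 : |(g.coeff j : ℝ)| ≤ (g.coeff j : ℝ) ^ 2 := by
                have h5 : |g.coeff j| ≤ g.coeff j ^ 2 := by
                  rw [← sq_abs]
                  exact Int.le_self_sq _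
                exact_mod_cast h5
              have h6 : (r A h (n + j) : ℝ) ≤ K := by exact_mod_cast hK _
              gcongr
          _ = (∑ j ∈ g.support, (g.coeff j : ℝ) ^ 2) * K := by rw [sum_mul]
          _ ≤ (V : ℝ) * K := by gcongr
      rw [← sq_abs]
      have h7 : |∑ j ∈ g.support, (g.coeff j : ℝ) * (r A h (n + j) : ℝ)| ^ 2 ≤
          ((V : ℝ) * K) ^ 2 := by gcongr
      linarith
    · push Not at h2
      have h3 : ∑ j ∈ g.support, (g.coeff j : ℝ) * (r A h (n + j) : ℝ) = 0 := by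
        have := congrArg (fun z : ℤ => (z : ℝ)) h2
        push_cast at this
        exact this
      rw [h3]
      simp
  have hsum : ∑ n ∈ range N, (∑ j ∈ g.support, (g.coeff j : ℝ) * (r A h (n + j) : ℝ)) ^ 2 ≤
      ((range N).filter (fun n => ∑ j ∈ g.support, g.coeff j * (r A h (n + j) : ℤ) ≠ 0)).card *
        (((V : ℝ) * K) ^ 2 + 1) := by
    refine (sum_le_sum fun n _ => hle n).trans (le_of_eq ?_)
    rw [← sum_filter, sum_const, nsmul_eq_mul]
  rw [div_mul_eq_mul_div, div_le_iff₀ (by positivity)]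
  linarith

end Run7.h326.SP
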