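import Mathlib
/-!
# Digits in base `q` and their positions modulo `h`
-/

set_option autoImplicit false

open Finset

namespace Run7.h326.NC

/-- the order `h` and the base `q` -/
structure Par where
  h : ℕ
  q : ℕ
  two_le : 2 ≤ h
  three_le : 3 ≤ q
  cop : ∀ b, 1 ≤ b → b ≤ h → Nat.Coprime b q

theorem par_exists (h : ℕ) (hh : 2 ≤ h) : ∃ H : Par, H.h = h := by
  refine ⟨⟨h, h.factorial + 1, hh, ?_, ?_⟩, rfl⟩
  · have := Nat.factorial_le hh
    simp only [Nat.factorial_two] at this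
    omega
  · intro b hb hbh
    have h1 : b ∣ h.factorial := Nat.dvd_factorial (by omega) hbh
    have h2 : Nat.Coprime h.factorial (h.factorial + 1) := by simp
    exact Nat.Coprime.coprime_dvd_left h1 h2

namespace Par

variable (H : Par)

/-- the base -/
def g : ℕ := H.q ^ H.h

theorem q_pos : 0 < H.q := by have := H.three_le; omega

theorem h_pos : 0 < H.h := by have := H.two_le; omega

theorem g_pos : 0 < H.g := pow_pos H.q_pos _

theorem g_pow (s : ℕ) : H.g ^ s = H.q ^ (H.h * s) := by rw [g, pow_mul]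

theorem q_le_g : H.q ≤ H.g := by
  have := Nat.pow_le_pow_right H.q_pos (show 1 ≤ H.h from H.h_pos)
  rwa [pow_one] at this

theorem nine_le_g : 9 ≤ H.g := by
  have h1 : H.q ^ 2 ≤ H.g := Nat.pow_le_pow_right H.q_pos H.two_le
  have h2 := H.three_le
  nlinarith

/-- the digit at position `v` -/
def dig (v x : ℕ) : ℕ := x / H.q ^ v % H.q

theorem dig_lt (v x : ℕ) : H.dig v x < H.q := Nat.mod_lt _ H.q_pos

theorem mod_succ (v x : ℕ) : x % H.q ^ (v + 1) = x % H.q ^ v + H.q ^ v * H.dig v x :=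
  Nat.mod_pow_succ

theorem dig_add_of_lt {m v : ℕ} (a b : ℕ) (hv : v < m) :
    H.dig v (a + H.q ^ m * b) = H.dig v a := by
  unfold dig
  obtain ⟨k, hk⟩ : ∃ k, m = v + (k + 1) := ⟨m - v - 1, by omega⟩
  have e : a + H.q ^ m * b = a + H.q ^ v * (H.q * (H.q ^ k * b)) := by
    rw [hk]
    ring
  rw [e, Nat.add_mul_div_left _ _ (pow_pos H.q_pos v), Nat.add_mul_mod_self_left]

theorem dig_add_of_le {m v a : ℕ} (b : ℕ) (ha : a < H.q ^ m) (hv : m ≤ v) :
    H.dig v (a + H.q ^ m * b) = H.dig (v - m) b := by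
  unfold dig
  obtain ⟨k, hk⟩ : ∃ k, v = m + k := ⟨v - m, by omega⟩
  subst hk
  rw [pow_add, ← Nat.div_div_eq_div_mul, Nat.add_mul_div_left _ _ (pow_pos H.q_pos m),
    Nat.div_eq_of_lt ha, zero_add, Nat.add_sub_cancel_left]

theorem dig_mod_of_lt {m v : ℕ} (x : ℕ) (hv : v < m) : H.dig v (x % H.q ^ m) = H.dig v x := by
  conv_rhs => rw [← Nat.mod_add_div x (H.q ^ m)]
  rw [H.dig_add_of_lt _ _ hv]

theorem dig_of_lt {v x : ℕ} (hx : x < H.q ^ v) : H.dig v x = 0 := by
  unfold dig
  rw [Nat.div_eq_of_lt hx, Nat.zero_mod]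

theorem dig_mod_of_le {m v : ℕ} (x : ℕ) (hv : m ≤ v) : H.dig v (x % H.q ^ m) = 0 := by
  apply H.dig_of_lt
  exact (Nat.mod_lt _ (pow_pos H.q_pos m)).trans_le (Nat.pow_le_pow_right H.q_pos hv)

theorem dig_div (m v x : ℕ) : H.dig v (x / H.q ^ m) = H.dig (v + m) x := by
  unfold dig
  rw [Nat.div_div_eq_div_mul, ← pow_add, add_comm]

/-- nonzero digits only at the positions `≡ c` -/
def Dg (c x : ℕ) : Prop := ∀ v, v % H.h ≠ c → H.dig v x = 0

/-- no nonzero digits at the positions `≡ c` -/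
def Wg (c x : ℕ) : Prop := ∀ v, v % H.h = c → H.dig v x = 0

variable {H}

theorem Dg.zero (c : ℕ) : H.Dg c 0 := by
  intro v _
  simp [dig]

theorem Wg.zero (c : ℕ) : H.Wg c 0 := by
  intro v _
  simp [dig]

theorem Dg.mod {c x : ℕ} (hx : H.Dg c x) (m : ℕ) : H.Dg c (x % H.q ^ m) := by
  intro v hv
  rcases Nat.lt_or_ge v m with h | h
  · rw [H.dig_mod_of_lt x h]
    exact hx v hv
  · exact H.dig_mod_of_le x h

theorem Dg.div {c x : ℕ} (hx : H.Dg c x) (m : ℕ) : H.Dg c (x / H.q ^ (H.h * m)) := by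
  intro v hv
  rw [H.dig_div]
  apply hx
  rwa [Nat.add_mul_mod_self_left]

theorem Dg.add {c a b m : ℕ} (ha : H.Dg c a) (hb : H.Dg c b) (hlt : a < H.q ^ (H.h * m)) :
    H.Dg c (a + H.q ^ (H.h * m) * b) := by
  intro v hv
  rcases Nat.lt_or_ge v (H.h * m) with h | h
  · rw [H.dig_add_of_lt _ _ h]
    exact ha v hv
  · rw [H.dig_add_of_le _ hlt h]
    apply hb
    obtain ⟨k, hk⟩ : ∃ k, v = H.h * m + k := ⟨v - H.h * m, by omega⟩
    subst hk
    rw [Nat.add_sub_cancel_left]
    rwa [add_comm, Nat.add_mul_mod_self_left] at hv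

theorem Dg.mod_succ {c x v : ℕ} (hx : H.Dg c x) (hv : v % H.h ≠ c) :
    x % H.q ^ (v + 1) = x % H.q ^ v := by
  rw [H.mod_succ, hx v hv, mul_zero, add_zero]

theorem Wg.mod_succ {c x v : ℕ} (hx : H.Wg c x) (hv : v % H.h = c) :
    x % H.q ^ (v + 1) = x % H.q ^ v := by
  rw [H.mod_succ, hx v hv, mul_zero, add_zero]

/-- uniqueness of the decomposition, modulo powers of `q` -/
theorem uniq_mod {x x' : Fin H.h → ℕ} (hx : ∀ c : Fin H.h, H.Dg c (x c))
    (hx' : ∀ c : Fin H.h, H.Dg c (x' c)) (V : ℕ)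
    (hs : ∑ c, x c ≡ ∑ c, x' c [MOD H.q ^ V]) :
    ∀ v ≤ V, ∀ c, x c ≡ x' c [MOD H.q ^ v] := by
  intro v
  induction v with
  | zero =>
    intro _ c
    rw [pow_zero]
    exact Nat.modEq_one
  | succ v ih =>
    intro hv c
    have ih' := ih (by omega)
    have key : ∀ c : Fin H.h, v % H.h ≠ c → x c ≡ x' c [MOD H.q ^ (v + 1)] := by
      intro c hc
      unfold Nat.ModEq
      rw [(hx c).mod_succ hc, (hx' c).mod_succ hc]
      exact ih' c
    by_cases hc : v % H.h = c
    · have h1 : ∑ c, x c ≡ ∑ c, x' c [MOD H.q ^ (v + 1)] := hs.of_dvd (pow_dvd_pow _ hv)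
      rw [← Finset.add_sum_erase univ x (mem_univ c), ← Finset.add_sum_erase univ x' (mem_univ c)]
        at h1
      have h2 : ∑ c ∈ univ.erase c, x c ≡ ∑ c ∈ univ.erase c, x' c [MOD H.q ^ (v + 1)] := by
        apply Nat.ModEq.sum
        intro c' hc'
        apply key
        intro h
        have : c' = c := by
          apply Fin.ext
          omega
        exact (mem_erase.1 hc').1 this
      exact Nat.ModEq.add_right_cancel h2 h1
    · exact key c hc

theorem uniq_of_lt {x x' : Fin H.h → ℕ} (hx : ∀ c : Fin H.h, H.Dg c (x c))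
    (hx' : ∀ c : Fin H.h, H.Dg c (x' c))
    {V : ℕ} (hl : ∀ c, x c < H.q ^ V) (hl' : ∀ c, x' c < H.q ^ V)
    (hs : ∑ c, x c ≡ ∑ c, x' c [MOD H.q ^ V]) : x = x' := by
  funext c
  exact Nat.ModEq.eq_of_lt_of_lt (uniq_mod hx hx' V hs V le_rfl c) (hl c) (hl' c)

theorem uniq {x x' : Fin H.h → ℕ} (hx : ∀ c : Fin H.h, H.Dg c (x c))
    (hx' : ∀ c : Fin H.h, H.Dg c (x' c))
    (hs : ∑ c, x c = ∑ c, x' c) : x = x' := by
  have hq : 1 < H.q := by have := H.three_le; omega
  have h0 : ∀ c, x c < H.q ^ (∑ c, x c) := fun c =>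
    (Finset.single_le_sum (f := x) (fun _ _ => Nat.zero_le _) (mem_univ c)).trans_lt
      (Nat.lt_pow_self hq)
  have h0' : ∀ c, x' c < H.q ^ (∑ c, x c) := fun c => by
    rw [hs]
    exact (Finset.single_le_sum (f := x') (fun _ _ => Nat.zero_le _) (mem_univ c)).trans_lt
      (Nat.lt_pow_self hq)
  exact uniq_of_lt hx hx' h0 h0' (by rw [hs])

/-- the hash property -/
theorem hash_inj {c b x x' w w' V : ℕ} (hb : Nat.Coprime b H.q) (hx : H.Dg c x) (hx' : H.Dg c x')
    (hw : H.Wg c w) (hw' : H.Wg c w') (hs : x + b * w ≡ x' + b * w' [MOD H.q ^ V]) :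
    ∀ v ≤ V, x ≡ x' [MOD H.q ^ v] ∧ w ≡ w' [MOD H.q ^ v] := by
  intro v
  induction v with
  | zero =>
    intro _
    rw [pow_zero]
    exact ⟨Nat.modEq_one, Nat.modEq_one⟩
  | succ v ih =>
    intro hv
    obtain ⟨h1, h2⟩ := ih (by omega)
    have h3 : x + b * w ≡ x' + b * w' [MOD H.q ^ (v + 1)] := hs.of_dvd (pow_dvd_pow _ hv)
    by_cases hc : v % H.h = c
    · have h4 : w ≡ w' [MOD H.q ^ (v + 1)] := by
        unfold Nat.ModEq
        rw [hw.mod_succ hc, hw'.mod_succ hc]
        exact h2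
      exact ⟨Nat.ModEq.add_right_cancel (h4.mul_left b) h3, h4⟩
    · have h4 : x ≡ x' [MOD H.q ^ (v + 1)] := by
        unfold Nat.ModEq
        rw [hx.mod_succ hc, hx'.mod_succ hc]
        exact h1
      refine ⟨h4, ?_⟩
      have h5 : b * w ≡ b * w' [MOD H.q ^ (v + 1)] := Nat.ModEq.add_left_cancel h4 h3
      exact Nat.ModEq.cancel_left_of_coprime (Nat.Coprime.pow_left _ hb.symm) h5

theorem add_lt {c x w V : ℕ} (hx : H.Dg c x) (hw : H.Wg c w) (hxV : x < H.q ^ V)
    (hwV : w < H.q ^ V) : x + w < H.q ^ V := by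
  have key : ∀ v, x % H.q ^ v + w % H.q ^ v < H.q ^ v := by
    intro v
    induction v with
    | zero => simp [Nat.mod_one]
    | succ v ih =>
      have hx1 := H.dig_lt v x
      have hw1 := H.dig_lt v w
      by_cases hc : v % H.h = c
      · rw [hw.mod_succ hc, H.mod_succ v x, pow_succ]
        have h1 := Nat.mul_le_mul_left (H.q ^ v) (Nat.succ_le_of_lt hx1)
        rw [Nat.mul_succ] at h1
        omega
      · rw [hx.mod_succ hc, H.mod_succ v w, pow_succ]
        have h1 := Nat.mul_le_mul_left (H.q ^ v) (Nat.succ_le_of_lt hw1)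
        rw [Nat.mul_succ] at h1
        omega
  have := key V
  rwa [Nat.mod_eq_of_lt hxV, Nat.mod_eq_of_lt hwV] at this

variable (H)

/-- a number with given digits -/
def num (a : ℕ → ℕ) (K : ℕ) : ℕ := ∑ v ∈ range K, H.q ^ v * a v

theorem num_succ (a : ℕ → ℕ) (K : ℕ) : H.num a (K + 1) = H.num a K + H.q ^ K * a K := by
  unfold num
  rw [sum_range_succ]

theorem num_lt {a : ℕ → ℕ} (ha : ∀ v, a v < H.q) (K : ℕ) : H.num a K < H.q ^ K := by
  induction K with
  | zero => simp [num]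
  | succ K ih =>
    rw [num_succ, pow_succ]
    have := ha K
    nlinarith

theorem dig_num {a : ℕ → ℕ} (ha : ∀ v, a v < H.q) (K u : ℕ) :
    H.dig u (H.num a K) = if u < K then a u else 0 := by
  induction K with
  | zero => simp [num, dig]
  | succ K ih =>
    rw [num_succ]
    rcases Nat.lt_or_ge u K with h | h
    · rw [H.dig_add_of_lt _ _ h, ih, if_pos h, if_pos (by omega)]
    · rw [H.dig_add_of_le _ (H.num_lt ha K) h]
      rcases Nat.eq_or_lt_of_le h with h1 | h1
      · subst h1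
        rw [Nat.sub_self, if_pos (by omega), dig, pow_zero, Nat.div_one, Nat.mod_eq_of_lt (ha K)]
      · rw [if_neg (by omega)]
        apply H.dig_of_lt
        refine (ha K).trans_le ?_
        have := Nat.pow_le_pow_right H.q_pos (show 1 ≤ u - K by omega)
        rwa [pow_one] at this

theorem num_dig (x K : ℕ) : H.num (fun v => H.dig v x) K = x % H.q ^ K := by
  induction K with
  | zero => simp [num, Nat.mod_one]
  | succ K ih => rw [num_succ, ih, H.mod_succ]

/-- the part of `x` with the digits at the positions `≡ c` -/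
def part (c K x : ℕ) : ℕ := H.num (fun v => if v % H.h = c then H.dig v x else 0) K

/-- the part of `x` with the digits at the other positions -/
def copart (c K x : ℕ) : ℕ := H.num (fun v => if v % H.h = c then 0 else H.dig v x) K

theorem part_Dg (c K x : ℕ) : H.Dg c (H.part c K x) := by
  intro v hv
  unfold part
  rw [H.dig_num]
  · simp [hv]
  · intro v
    split_ifs
    · exact H.dig_lt _ _
    · exact H.q_pos

theorem copart_Wg (c K x : ℕ) : H.Wg c (H.copart c K x) := by
  intro v hv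
  unfold copart
  rw [H.dig_num]
  · simp [hv]
  · intro v
    split_ifs
    · exact H.q_pos
    · exact H.dig_lt _ _

theorem part_lt (c K x : ℕ) : H.part c K x < H.q ^ K := by
  apply H.num_lt
  intro v
  split_ifs
  · exact H.dig_lt _ _
  · exact H.q_pos

theorem copart_lt (c K x : ℕ) : H.copart c K x < H.q ^ K := by
  apply H.num_lt
  intro v
  split_ifs
  · exact H.q_pos
  · exact H.dig_lt _ _

theorem part_add_copart (c K x : ℕ) : H.part c K x + H.copart c K x = x % H.q ^ K := by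
  rw [← H.num_dig x K]
  unfold part copart num
  rw [← sum_add_distrib]
  apply sum_congr rfl
  intro v _
  beta_reduce
  split_ifs <;> simp

theorem sum_part (K x : ℕ) : ∑ c : Fin H.h, H.part c K x = x % H.q ^ K := by
  rw [← H.num_dig x K]
  unfold part num
  rw [sum_comm]
  apply sum_congr rfl
  intro v _
  have hv : v % H.h < H.h := Nat.mod_lt _ H.h_pos
  rw [sum_eq_single (⟨v % H.h, hv⟩ : Fin H.h)]
  · simp
  · intro c _ hc
    beta_reduce
    rw [if_neg, mul_zero]
    intro h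
    apply hc
    apply Fin.ext
    exact h.symm
  · intro h
    exact absurd (mem_univ _) h

/-- existence of the decomposition -/
theorem exists_split (R : ℕ) : ∃ x : Fin H.h → ℕ, (∀ c : Fin H.h, H.Dg c (x c)) ∧ ∑ c, x c = R := by
  refine ⟨fun c => H.part c R R, fun c => H.part_Dg c R R, ?_⟩
  rw [H.sum_part, Nat.mod_eq_of_lt]
  exact Nat.lt_pow_self (by have := H.three_le; omega)

theorem exists_split_lt (R K : ℕ) (hR : R < H.q ^ K) : ∃ x : Fin H.h → ℕ,
    (∀ c : Fin H.h, H.Dg c (x c)) ∧ (∀ c, x c < H.q ^ K) ∧ ∑ c, x c = R := by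
  refine ⟨fun c => H.part c K R, fun c => H.part_Dg c K R, fun c => H.part_lt c K R, ?_⟩
  rw [H.sum_part, Nat.mod_eq_of_lt hR]

theorem ext_dig {x x' K : ℕ} (hx : x < H.q ^ K) (hx' : x' < H.q ^ K)
    (h : ∀ v < K, H.dig v x = H.dig v x') : x = x' := by
  have h1 := H.num_dig x K
  have h2 := H.num_dig x' K
  rw [Nat.mod_eq_of_lt hx] at h1
  rw [Nat.mod_eq_of_lt hx'] at h2
  rw [← h1, ← h2]
  unfold num
  apply sum_congr rfl
  intro v hv
  beta_reduce
  rw [h v (mem_range.1 hv)]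

section fin

open scoped Classical

/-- numbers below `g ^ s` with nonzero digits only at the positions `≡ c` -/
noncomputable def D (c s : ℕ) : Finset ℕ := (range (H.g ^ s)).filter (fun x => H.Dg c x)

/-- numbers below `g ^ s` without nonzero digits at the positions `≡ c` -/
noncomputable def W (c s : ℕ) : Finset ℕ := (range (H.g ^ s)).filter (fun x => H.Wg c x)

end fin

theorem mem_D {c s x : ℕ} : x ∈ H.D c s ↔ x < H.g ^ s ∧ H.Dg c x := by
  classical
  simp [D]

theorem mem_W {c s x : ℕ} : x ∈ H.W c s ↔ x < H.g ^ s ∧ H.Wg c x := by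
  classical
  simp [W]

theorem card_D_le (c : Fin H.h) (s : ℕ) : (H.D c s).card ≤ H.q ^ s := by
  have h1 : (H.D c s).card ≤ (univ : Finset (Fin s → Fin H.q)).card := by
    apply card_le_card_of_injOn
      (fun x => fun j : Fin s => (⟨H.dig (c + H.h * j) x, H.dig_lt _ _⟩ : Fin H.q))
    · intro x _
      simp
    · intro x hx x' hx' heq
      have hx := (H.mem_D).1 (mem_coe.1 hx)
      have hx' := (H.mem_D).1 (mem_coe.1 hx')
      rw [H.g_pow] at hx hx'
      apply H.ext_dig hx.1 hx'.1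
      intro v hv
      by_cases hc : v % H.h = c
      · have h2 : v / H.h < s := by
          rw [Nat.div_lt_iff_lt_mul H.h_pos]
          rwa [mul_comm]
        have h3 := congrFun heq ⟨v / H.h, h2⟩
        simp only [Fin.mk.injEq] at h3
        rw [← hc, Nat.mod_add_div] at h3
        exact h3
      · rw [hx.2 v hc, hx'.2 v hc]
  refine h1.trans (le_of_eq ?_)
  rw [card_univ, Fintype.card_fun, Fintype.card_fin, Fintype.card_fin]

theorem le_card_W (c : Fin H.h) (s : ℕ) : H.q ^ (s * (H.h - 1)) ≤ (H.W c s).card := by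
  have h1 : H.g ^ s ≤ (H.D c s).card * (H.W c s).card := by
    rw [← card_product]
    have h2 : range (H.g ^ s) ⊆ ((H.D c s) ×ˢ (H.W c s)).image (fun x => x.1 + x.2) := by
      intro R hR
      rw [mem_range] at hR
      rw [mem_image]
      refine ⟨(H.part c (H.h * s) R, H.copart c (H.h * s) R), ?_, ?_⟩
      · rw [mem_product, H.mem_D, H.mem_W, H.g_pow]
        exact ⟨⟨H.part_lt _ _ _, H.part_Dg _ _ _⟩, ⟨H.copart_lt _ _ _, H.copart_Wg _ _ _⟩⟩
      · rw [H.g_pow] at hR
        rw [H.part_add_copart, Nat.mod_eq_of_lt hR]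
    have h3 := (card_le_card h2).trans card_image_le
    rwa [card_range] at h3
  have h2 : H.g ^ s = H.q ^ s * H.q ^ (s * (H.h - 1)) := by
    rw [H.g_pow, ← pow_add]
    congr 1
    obtain ⟨k, hk⟩ : ∃ k, H.h = k + 1 := ⟨H.h - 1, by have := H.two_le; omega⟩
    rw [hk, Nat.add_sub_cancel]
    ring
  rw [h2] at h1
  have h3 := h1.trans (Nat.mul_le_mul_right _ (H.card_D_le c s))
  exact Nat.le_of_mul_le_mul_left h3 (pow_pos H.q_pos s)

end Par

end Run7.h326.NC
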