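import Pool.Agent.Run7.h326.NC1
/-!
# The hashing lemma
-/

set_option autoImplicit false

open Finset

namespace Run7.h326.NC

/-- tagged residues -/
abbrev Tag (H : Par) := Fin H.h × ℕ

variable {H : Par}

/-- tuples of elements of `S` -/
def tup (S : Finset (Tag H)) (k : ℕ) : Finset (Fin k → Tag H) := Fintype.piFinset (fun _ => S)

theorem mem_tup {S : Finset (Tag H)} {k : ℕ} {f : Fin k → Tag H} : f ∈ tup S k ↔ ∀ t, f t ∈ S := by
  simp [tup]

/-- number of tuples with prescribed sum -/
def R (S : Finset (Tag H)) (M k n : ℕ) : ℕ :=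
  ((tup S k).filter (fun f => ∑ t, (f t).2 ≡ n [MOD M])).card

/-- number of extensions of a tuple in a block -/
noncomputable def cx (M s : ℕ) (v : Tag H → ℕ) (n : ℕ) {k : ℕ} (f : Fin k → Tag H) : ℕ :=
  ((Fintype.piFinset (fun t => H.D (f t).1 s)).filter
    (fun x => ∑ t, ((f t).2 + M * (x t + v (f t))) ≡ n [MOD M * H.g ^ s])).card

theorem sum_split (M : ℕ) {k : ℕ} (a x : Fin k → ℕ) :
    ∑ t, (a t + M * x t) = ∑ t, a t + M * ∑ t, x t := by
  rw [sum_add_distrib, mul_sum]

theorem modEq_of_ext {M s n k : ℕ} {v : Tag H → ℕ} {f : Fin k → Tag H} {x : Fin k → ℕ}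
    (h : ∑ t, ((f t).2 + M * (x t + v (f t))) ≡ n [MOD M * H.g ^ s]) :
    ∑ t, (f t).2 ≡ n [MOD M] := by
  have h1 := Nat.ModEq.of_mul_right _ h
  rw [sum_split M (fun t => (f t).2) (fun t => x t + v (f t))] at h1
  unfold Nat.ModEq at h1 ⊢
  rwa [Nat.add_mul_mod_self_left] at h1

theorem cx_eq_zero {M s n k : ℕ} {v : Tag H → ℕ} {f : Fin k → Tag H}
    (h : ¬ ∑ t, (f t).2 ≡ n [MOD M]) : cx M s v n f = 0 := by
  rw [cx, card_eq_zero, filter_eq_empty_iff]
  intro x _ h1
  exact h (modEq_of_ext h1)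

theorem cx_congr {M s n k : ℕ} {v v' : Tag H → ℕ} {f : Fin k → Tag H}
    (h : ∀ t, v (f t) = v' (f t)) : cx M s v n f = cx M s v' n f := by
  unfold cx
  simp only [h]

/-- averaging over the hash value of one element of the tuple -/
theorem avg (M s n k : ℕ) (hM : 0 < M) (hk : k + 1 ≤ H.h) (v : Tag H → ℕ)
    (f : Fin (k + 1) → Tag H) (t0 : Fin (k + 1)) :
    ∑ w ∈ H.W (f t0).1 s, cx M s (Function.update v (f t0) w) n f ≤ H.q ^ (s * k) := by
  classical
  set e := f t0 with he
  have h1 : ∑ w ∈ H.W e.1 s, cx M s (Function.update v e w) n f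
      = ((H.W e.1 s ×ˢ Fintype.piFinset (fun t => H.D (f t).1 s)).filter (fun y =>
        ∑ t, ((f t).2 + M * (y.2 t + Function.update v e y.1 (f t))) ≡ n
          [MOD M * H.g ^ s])).card := by
    rw [card_filter, sum_product]
    apply sum_congr rfl
    intro w _
    rw [cx, card_filter]
  rw [h1]
  have h2 : ∀ y y' : ℕ × (Fin (k + 1) → ℕ), (∀ j : Fin k, y.2 (t0.succAbove j)
      = y'.2 (t0.succAbove j)) → H.Wg e.1 y.1 → H.Wg e.1 y'.1 → H.Dg e.1 (y.2 t0) →
      H.Dg e.1 (y'.2 t0) → y.1 < H.g ^ s → y'.1 < H.g ^ s → y.2 t0 < H.g ^ s →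
      y'.2 t0 < H.g ^ s →
      ∑ t, ((f t).2 + M * (y.2 t + Function.update v e y.1 (f t)))
        ≡ ∑ t, ((f t).2 + M * (y'.2 t + Function.update v e y'.1 (f t))) [MOD M * H.g ^ s] →
      y = y' := by
    rintro ⟨w, x⟩ ⟨w', x'⟩ hoff hw hw' hx hx' hwl hwl' hxl hxl' hmod
    simp only at hoff hw hw' hx hx' hwl hwl' hxl hxl' hmod
    rw [sum_split M (fun t => (f t).2) (fun t => x t + Function.update v e w (f t)),
      sum_split M (fun t => (f t).2) (fun t => x' t + Function.update v e w' (f t))] at hmod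
    have hmod2 := Nat.ModEq.mul_left_cancel' hM.ne' (Nat.ModEq.add_left_cancel' _ hmod)
    have key : ∀ (x : Fin (k + 1) → ℕ) (w : ℕ), ∑ t, (x t + Function.update v e w (f t))
        = (x t0 + (univ.filter (fun t => f t = e)).card * w) +
          (∑ j : Fin k, x (t0.succAbove j) + ∑ t ∈ univ.filter (fun t => ¬ f t = e), v (f t)) := by
      intro x w
      have e1 : ∑ t, Function.update v e w (f t) = (univ.filter (fun t => f t = e)).card * w +
          ∑ t ∈ univ.filter (fun t => ¬ f t = e), v (f t) := by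
        have : ∀ t, Function.update v e w (f t) = if f t = e then w else v (f t) := by
          intro t
          rw [Function.update_apply]
        simp only [this]
        rw [sum_ite, sum_const, smul_eq_mul]
      rw [sum_add_distrib, e1, Fin.sum_univ_succAbove x t0]
      ring
    rw [key x w, key x' w'] at hmod2
    have e2 : ∑ j : Fin k, x (t0.succAbove j) = ∑ j : Fin k, x' (t0.succAbove j) :=
      sum_congr rfl (fun j _ => hoff j)
    rw [e2] at hmod2
    have hmod3 := Nat.ModEq.add_right_cancel' _ hmod2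
    have hb1 : 1 ≤ (univ.filter (fun t => f t = e)).card := by
      rw [Nat.one_le_iff_ne_zero, Ne, card_eq_zero]
      intro h0
      have : t0 ∈ univ.filter (fun t => f t = e) := by
        rw [mem_filter]
        exact ⟨mem_univ _, he.symm⟩
      rw [h0] at this
      exact absurd this (notMem_empty _)
    have hb2 : (univ.filter (fun t => f t = e)).card ≤ H.h := by
      refine (card_filter_le _ _).trans ?_
      rw [card_univ, Fintype.card_fin]
      exact hk
    rw [H.g_pow] at hmod3 hwl hwl' hxl hxl'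
    obtain ⟨h3, h4⟩ := Par.hash_inj (H.cop _ hb1 hb2) hx hx' hw hw' hmod3 _ le_rfl
    have h3' := Nat.ModEq.eq_of_lt_of_lt h3 hxl hxl'
    have h4' := Nat.ModEq.eq_of_lt_of_lt h4 hwl hwl'
    rw [Prod.mk.injEq]
    refine ⟨h4', ?_⟩
    funext t
    rcases Fin.eq_self_or_eq_succAbove t0 t with h | ⟨j, h⟩
    · rw [h]
      exact h3'
    · rw [h]
      exact hoff j
  calc _ ≤ (Fintype.piFinset (fun j : Fin k => H.D (f (t0.succAbove j)).1 s)).card := by
        apply card_le_card_of_injOn (fun y => fun j => y.2 (t0.succAbove j))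
        · intro y hy
          rw [mem_coe, mem_filter, mem_product, Fintype.mem_piFinset] at hy
          rw [mem_coe, Fintype.mem_piFinset]
          intro j
          exact hy.1.2 _
        · intro y hy y' hy' heq
          rw [mem_coe, mem_filter, mem_product, Fintype.mem_piFinset, H.mem_W] at hy hy'
          have a1 := H.mem_D.1 (hy.1.2 t0)
          have a2 := H.mem_D.1 (hy'.1.2 t0)
          exact h2 y y' (fun j => congrFun heq j) hy.1.1.2 hy'.1.1.2 a1.2 a2.2 hy.1.1.1 hy'.1.1.1
            a1.1 a2.1 (hy.2.trans hy'.2.symm)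
    _ = ∏ j : Fin k, (H.D (f (t0.succAbove j)).1 s).card := Fintype.card_piFinset _
    _ ≤ ∏ _j : Fin k, H.q ^ s := prod_le_prod' (fun j _ => H.card_D_le _ s)
    _ = H.q ^ (s * k) := by
        rw [prod_const, card_univ, Fintype.card_fin, ← pow_mul]

/-- new tuples -/
def newt (S : Finset (Tag H)) (e : Tag H) (k : ℕ) : Finset (Fin k → Tag H) :=
  tup (insert e S) k \ tup S k

theorem exists_of_mem_newt {S : Finset (Tag H)} {e : Tag H} {k : ℕ} {f : Fin k → Tag H}
    (h : f ∈ newt S e k) : ∃ t, f t = e := by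
  rw [newt, mem_sdiff, mem_tup, mem_tup] at h
  by_contra hcon
  push Not at hcon
  apply h.2
  intro t
  have := h.1 t
  rw [mem_insert] at this
  exact this.resolve_left (hcon t)

theorem tup_subset {S S' : Finset (Tag H)} (h : S ⊆ S') (k : ℕ) : tup S k ⊆ tup S' k := by
  intro f hf
  rw [mem_tup] at hf ⊢
  exact fun t => h (hf t)

theorem tup_insert (S : Finset (Tag H)) (e : Tag H) (k : ℕ) :
    tup (insert e S) k = tup S k ∪ newt S e k := by
  rw [newt, union_sdiff_of_subset (tup_subset (subset_insert _ _) k)]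

theorem disj_newt (S : Finset (Tag H)) (e : Tag H) (k : ℕ) : Disjoint (tup S k) (newt S e k) :=
  disjoint_sdiff

/-- number of new tuples with prescribed sum -/
def nw (S : Finset (Tag H)) (e : Tag H) (M k n : ℕ) : ℕ :=
  ((newt S e k).filter (fun f => ∑ t, (f t).2 ≡ n [MOD M])).card

theorem R_insert (S : Finset (Tag H)) (e : Tag H) (M k n : ℕ) :
    R (insert e S) M k n = R S M k n + nw S e M k n := by
  rw [R, tup_insert, filter_union, card_union_of_disjoint, R, nw]
  exact disjoint_filter_filter (disj_newt S e k)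

/-- number of extended tuples -/
noncomputable def Z (M s : ℕ) (v : Tag H → ℕ) (S : Finset (Tag H)) (k n : ℕ) : ℕ :=
  ∑ f ∈ tup S k, cx M s v n f

/-- number of new extended tuples -/
noncomputable def Zn (M s : ℕ) (v : Tag H → ℕ) (S : Finset (Tag H)) (e : Tag H) (k n : ℕ) : ℕ :=
  ∑ f ∈ newt S e k, cx M s v n f

theorem Z_insert {M s : ℕ} {v : Tag H → ℕ} {S : Finset (Tag H)} {e : Tag H} (he : e ∉ S) (w : ℕ)
    (k n : ℕ) : Z M s (Function.update v e w) (insert e S) k n
      = Z M s v S k n + Zn M s (Function.update v e w) S e k n := by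
  rw [Z, tup_insert, sum_union (disj_newt S e k), Z, Zn]
  congr 1
  apply sum_congr rfl
  intro f hf
  rw [mem_tup] at hf
  apply cx_congr
  intro t
  apply Function.update_of_ne
  intro h
  exact he (h ▸ hf t)

theorem avg_new (M s n k : ℕ) (hM : 0 < M) (hk : k + 1 ≤ H.h) (v : Tag H → ℕ)
    (S : Finset (Tag H)) (e : Tag H) :
    ∑ w ∈ H.W e.1 s, Zn M s (Function.update v e w) S e (k + 1) n
      ≤ H.q ^ (s * k) * nw S e M (k + 1) n := by
  unfold Zn nw
  rw [sum_comm]
  calc ∑ f ∈ newt S e (k + 1), ∑ w ∈ H.W e.1 s, cx M s (Function.update v e w) n f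
      ≤ ∑ f ∈ newt S e (k + 1), (if ∑ t, (f t).2 ≡ n [MOD M] then H.q ^ (s * k) else 0) := by
        apply sum_le_sum
        intro f hf
        split_ifs with h
        · obtain ⟨t0, rfl⟩ := exists_of_mem_newt hf
          exact avg M s n k hM hk v f t0
        · apply le_of_eq
          apply sum_eq_zero
          intro w _
          exact cx_eq_zero h
    _ = _ := by
        rw [← sum_filter, sum_const, smul_eq_mul, mul_comm]

theorem exp_le_quad {z : ℝ} (h0 : 0 ≤ z) (h1 : z ≤ 1) : Real.exp z ≤ 1 + z + z ^ 2 := by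
  have := Real.abs_exp_sub_one_sub_id_le (x := z) (by rw [abs_of_nonneg h0]; exact h1)
  have := (abs_le.1 this).2
  linarith

theorem exp_avg {W : Finset ℕ} {a : ℕ → ℝ} {K δ lam Q : ℝ} (ha : ∀ w ∈ W, 0 ≤ a w)
    (hs : ∑ w ∈ W, a w ≤ K * δ) (hK : K ≤ W.card) (hδ : 0 ≤ δ) (hQ : K * δ ≤ Q)
    (hl : 0 ≤ lam) (hlQ : lam * Q ≤ 1) :
    ∑ w ∈ W, Real.exp (lam * a w) ≤ W.card * Real.exp (lam * (1 + lam * Q) * δ) := by
  have hmax : ∀ w ∈ W, a w ≤ Q := fun w hw => (single_le_sum ha hw).trans (hs.trans hQ)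
  have h1 : ∀ w ∈ W, Real.exp (lam * a w) ≤ 1 + lam * (1 + lam * Q) * a w := by
    intro w hw
    have ha0 := ha w hw
    have hm := hmax w hw
    have h2 : lam * a w ≤ lam * Q := mul_le_mul_of_nonneg_left hm hl
    refine (exp_le_quad (mul_nonneg hl ha0) (h2.trans hlQ)).trans ?_
    have h3 : (lam * a w) ^ 2 ≤ (lam * a w) * (lam * Q) := by
      rw [pow_two]
      exact mul_le_mul_of_nonneg_left h2 (mul_nonneg hl ha0)
    nlinarith
  rcases W.eq_empty_or_nonempty with h0 | h0
  · subst h0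
    simp
  · have hQ0 : 0 ≤ Q := by
      obtain ⟨w, hw⟩ := h0
      exact (ha w hw).trans (hmax w hw)
    have hc : 0 ≤ lam * (1 + lam * Q) := mul_nonneg hl (by nlinarith [mul_nonneg hl hQ0])
    calc ∑ w ∈ W, Real.exp (lam * a w) ≤ ∑ w ∈ W, (1 + lam * (1 + lam * Q) * a w) :=
          sum_le_sum h1
      _ = W.card + lam * (1 + lam * Q) * ∑ w ∈ W, a w := by
          rw [sum_add_distrib, ← mul_sum, sum_const, nsmul_eq_mul, mul_one]
      _ ≤ W.card + lam * (1 + lam * Q) * (W.card * δ) := by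
          have h2 : K * δ ≤ W.card * δ := mul_le_mul_of_nonneg_right hK hδ
          have h3 := mul_le_mul_of_nonneg_left (hs.trans h2) hc
          linarith
      _ = W.card * (lam * (1 + lam * Q) * δ + 1) := by ring
      _ ≤ W.card * Real.exp (lam * (1 + lam * Q) * δ) :=
          mul_le_mul_of_nonneg_left (Real.add_one_le_exp _) (Nat.cast_nonneg _)

theorem zero_mem_W (c s : ℕ) : 0 ∈ H.W c s := by
  rw [H.mem_W]
  exact ⟨pow_pos H.g_pos s, Par.Wg.zero c⟩

theorem choose_v (M s : ℕ) (hM : 0 < M) (lam Q : ℕ → ℝ) (I N : Finset ℕ)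
    (hI : ∀ k ∈ I, k + 2 ≤ H.h) (hlam : ∀ k, 0 ≤ lam k) (hlQ : ∀ k, lam k * Q k ≤ 1)
    (P : Finset (Tag H))
    (hP : ∀ S : Finset (Tag H), ∀ e : Tag H, insert e S ⊆ P → e ∉ S → ∀ k ∈ I, ∀ n,
      ((H.q ^ (s * (k + 1)) * nw S e M (k + 2) n : ℕ) : ℝ) ≤ Q k) (S : Finset (Tag H)) :
    S ⊆ P → ∀ w : ℕ → ℕ → ℝ, (∀ k n, 0 ≤ w k n) →
    ∃ v : Tag H → ℕ, (∀ e, v e ∈ H.W e.1 s) ∧
      ∑ k ∈ I, ∑ n ∈ N, w k n * Real.exp (lam k * Z M s v S (k + 2) n)
      ≤ ∑ k ∈ I, ∑ n ∈ N, w k n * Real.exp (lam k * (1 + lam k * Q k) * R S M (k + 2) n) := by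
  induction S using Finset.induction_on with
  | empty =>
    intro _ w hw
    have h0 : ∀ k, tup (∅ : Finset (Tag H)) (k + 2) = ∅ := by
      intro k
      rw [eq_empty_iff_forall_notMem]
      intro f hf
      rw [mem_tup] at hf
      exact absurd (hf 0) (notMem_empty _)
    refine ⟨fun _ => 0, fun e => zero_mem_W _ _, ?_⟩
    simp [Z, R, h0]
  | insert e S he ih =>
    intro hS w hw
    obtain ⟨v, hv, hvsum⟩ := ih ((subset_insert _ _).trans hS) (fun k n => w k n *
      Real.exp (lam k * (1 + lam k * Q k) * nw S e M (k + 2) n))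
      (fun k n => mul_nonneg (hw k n) (Real.exp_pos _).le)
    set T : ℝ := ∑ k ∈ I, ∑ n ∈ N, w k n *
      Real.exp (lam k * (1 + lam k * Q k) * R (insert e S) M (k + 2) n) with hT
    have hstep : ∑ b ∈ H.W e.1 s, ∑ k ∈ I, ∑ n ∈ N, w k n *
        Real.exp (lam k * Z M s (Function.update v e b) (insert e S) (k + 2) n)
        ≤ (H.W e.1 s).card * T := by
      calc _ = ∑ k ∈ I, ∑ n ∈ N, (w k n * Real.exp (lam k * Z M s v S (k + 2) n)) *
            ∑ b ∈ H.W e.1 s,
              Real.exp (lam k * Zn M s (Function.update v e b) S e (k + 2) n) := by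
            rw [sum_comm]
            apply sum_congr rfl
            intro k _
            rw [sum_comm]
            apply sum_congr rfl
            intro n _
            rw [mul_sum]
            apply sum_congr rfl
            intro b _
            rw [Z_insert he, Nat.cast_add, mul_add, Real.exp_add]
            ring
        _ ≤ ∑ k ∈ I, ∑ n ∈ N, (w k n * Real.exp (lam k * Z M s v S (k + 2) n)) *
            ((H.W e.1 s).card *
              Real.exp (lam k * (1 + lam k * Q k) * nw S e M (k + 2) n)) := by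
            apply sum_le_sum
            intro k hk
            apply sum_le_sum
            intro n _
            apply mul_le_mul_of_nonneg_left _ (mul_nonneg (hw k n) (Real.exp_pos _).le)
            have hkh := hI k hk
            have hs := avg_new M s n (k + 1) hM (by omega) v S e
            have hPk := hP S e hS he k hk n
            push_cast at hPk
            refine exp_avg (K := (H.q : ℝ) ^ (s * (k + 1))) (fun b _ => Nat.cast_nonneg _)
              (by exact_mod_cast hs) ?_ (Nat.cast_nonneg _) hPk (hlam k) (hlQ k)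
            have h1 : H.q ^ (s * (k + 1)) ≤ (H.W e.1 s).card := by
              refine le_trans (Nat.pow_le_pow_right H.q_pos ?_) (H.le_card_W e.1 s)
              apply Nat.mul_le_mul_left
              omega
            exact_mod_cast h1
        _ = (H.W e.1 s).card * ∑ k ∈ I, ∑ n ∈ N, (w k n *
            Real.exp (lam k * (1 + lam k * Q k) * nw S e M (k + 2) n)) *
              Real.exp (lam k * Z M s v S (k + 2) n) := by
            rw [mul_sum]
            apply sum_congr rfl
            intro k _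
            rw [mul_sum]
            apply sum_congr rfl
            intro n _
            ring
        _ ≤ (H.W e.1 s).card * T := by
            apply mul_le_mul_of_nonneg_left _ (Nat.cast_nonneg _)
            refine hvsum.trans (le_of_eq ?_)
            rw [hT]
            apply sum_congr rfl
            intro k _
            apply sum_congr rfl
            intro n _
            rw [R_insert, Nat.cast_add, mul_add (lam k * (1 + lam k * Q k)), Real.exp_add]
            ring
    obtain ⟨b, hb, hb2⟩ : ∃ b ∈ H.W e.1 s, ∑ k ∈ I, ∑ n ∈ N, w k n *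
        Real.exp (lam k * Z M s (Function.update v e b) (insert e S) (k + 2) n) ≤ T := by
      apply exists_le_of_sum_le ⟨0, zero_mem_W _ _⟩
      refine hstep.trans (le_of_eq ?_)
      rw [sum_const, nsmul_eq_mul]
    refine ⟨Function.update v e b, ?_, hb2⟩
    intro e'
    by_cases h : e' = e
    · subst h
      rw [Function.update_self]
      exact hb
    · rw [Function.update_of_ne h]
      exact hv e'

/-- the extended set -/
noncomputable def ext (M s : ℕ) (S : Finset (Tag H)) (v : Tag H → ℕ) : Finset (Tag H) :=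
  S.biUnion (fun e => (H.D e.1 s).image (fun x => (e.1, e.2 + M * (x + v e))))

theorem mem_ext {M s : ℕ} {S : Finset (Tag H)} {v : Tag H → ℕ} {e' : Tag H} :
    e' ∈ ext M s S v ↔ ∃ e ∈ S, ∃ x ∈ H.D e.1 s, e' = (e.1, e.2 + M * (x + v e)) := by
  simp only [ext, mem_biUnion, mem_image]
  constructor
  · rintro ⟨e, he, x, hx, h⟩
    exact ⟨e, he, x, hx, h.symm⟩
  · rintro ⟨e, he, x, hx, h⟩
    exact ⟨e, he, x, hx, h.symm⟩

theorem R_ext_le (M s : ℕ) (S : Finset (Tag H)) (v : Tag H → ℕ) (k n : ℕ) :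
    R (ext M s S v) (M * H.g ^ s) k n ≤ Z M s v S k n := by
  classical
  have hsub : (tup (ext M s S v) k).filter (fun f => ∑ t, (f t).2 ≡ n [MOD M * H.g ^ s]) ⊆
      (tup S k).biUnion (fun f => ((Fintype.piFinset (fun t => H.D (f t).1 s)).filter
        (fun x => ∑ t, ((f t).2 + M * (x t + v (f t))) ≡ n [MOD M * H.g ^ s])).image
          (fun x => fun t => ((f t).1, (f t).2 + M * (x t + v (f t))))) := by
    intro f' hf'
    rw [mem_filter, mem_tup] at hf'
    obtain ⟨h1, h2⟩ := hf'
    have h3 : ∀ t, ∃ y : Tag H × ℕ, y.1 ∈ S ∧ y.2 ∈ H.D y.1.1 s ∧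
        f' t = (y.1.1, y.1.2 + M * (y.2 + v y.1)) := by
      intro t
      obtain ⟨e, he, x, hx, h⟩ := mem_ext.1 (h1 t)
      exact ⟨(e, x), he, hx, h⟩
    choose y hy1 hy2 hy3 using h3
    rw [mem_biUnion]
    refine ⟨fun t => (y t).1, mem_tup.2 hy1, ?_⟩
    rw [mem_image]
    refine ⟨fun t => (y t).2, ?_, ?_⟩
    · rw [mem_filter, Fintype.mem_piFinset]
      refine ⟨hy2, ?_⟩
      refine Eq.trans ?_ h2
      congr 1
      apply sum_congr rfl
      intro t _
      rw [hy3 t]
    · funext t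
      exact (hy3 t).symm
  rw [R, Z]
  refine (card_le_card hsub).trans (card_biUnion_le.trans (sum_le_sum fun f _ => ?_))
  exact card_image_le

theorem R_mod (S : Finset (Tag H)) (M k n : ℕ) : R S M k (n % M) = R S M k n := by
  unfold R
  congr 1
  apply filter_congr
  intro f _
  unfold Nat.ModEq
  rw [Nat.mod_mod]

theorem sum_range_mod (f : ℕ → ℝ) (M K : ℕ) :
    ∑ n ∈ range (M * K), f (n % M) = K * ∑ n ∈ range M, f n := by
  induction K with
  | zero => simp
  | succ K ih =>
    rw [Nat.mul_succ, sum_range_add, ih]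
    have h1 : ∑ x ∈ range M, f ((M * K + x) % M) = ∑ x ∈ range M, f x := by
      apply sum_congr rfl
      intro x hx
      rw [Nat.mul_add_mod, Nat.mod_eq_of_lt (mem_range.1 hx)]
    rw [h1]
    push_cast
    ring

/-- The hashing lemma. -/
theorem hash (M s : ℕ) (hM : 0 < M) (lam Q : ℕ → ℝ) (I : Finset ℕ)
    (hI : ∀ k ∈ I, k + 2 ≤ H.h) (hlam : ∀ k, 0 ≤ lam k) (hlQ : ∀ k, lam k * Q k ≤ 1)
    (P : Finset (Tag H))
    (hP : ∀ S : Finset (Tag H), ∀ e : Tag H, insert e S ⊆ P → e ∉ S → ∀ k ∈ I, ∀ n,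
      ((H.q ^ (s * (k + 1)) * nw S e M (k + 2) n : ℕ) : ℝ) ≤ Q k) :
    ∃ v : Tag H → ℕ, (∀ e, v e ∈ H.W e.1 s) ∧
      ∑ k ∈ I, ∑ n ∈ range (M * H.g ^ s),
        Real.exp (lam k * R (ext M s P v) (M * H.g ^ s) (k + 2) n)
      ≤ (H.g ^ s : ℕ) * ∑ k ∈ I, ∑ n ∈ range M,
          Real.exp (lam k * (1 + lam k * Q k) * R P M (k + 2) n) := by
  obtain ⟨v, hv, hsum⟩ := choose_v M s hM lam Q I (range (M * H.g ^ s)) hI hlam hlQ P hP P
    (Subset.refl _) (fun _ _ => 1) (fun _ _ => zero_le_one)
  refine ⟨v, hv, ?_⟩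
  simp only [one_mul] at hsum
  refine le_trans (sum_le_sum fun k _ => sum_le_sum fun n _ => ?_) (hsum.trans (le_of_eq ?_))
  · apply Real.exp_le_exp.2
    apply mul_le_mul_of_nonneg_left _ (hlam k)
    exact_mod_cast R_ext_le M s P v (k + 2) n
  · rw [mul_sum]
    apply sum_congr rfl
    intro k _
    rw [← sum_range_mod (fun n => Real.exp (lam k * (1 + lam k * Q k) * R P M (k + 2) n)) M]
    apply sum_congr rfl
    intro n _
    rw [R_mod]

/-- new tuples are few -/
theorem nw_le {S : Finset (Tag H)} {e : Tag H} {M k B : ℕ} (hM : 0 < M)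
    (hB : ∀ n, R (insert e S) M k n ≤ B) (n : ℕ) : nw S e M (k + 1) n ≤ (k + 1) * B := by
  classical
  have hsub : (newt S e (k + 1)).filter (fun f => ∑ t, (f t).2 ≡ n [MOD M]) ⊆
      (univ : Finset (Fin (k + 1))).biUnion (fun t0 =>
        ((tup (insert e S) k).filter (fun f => ∑ t, (f t).2 ≡ n + (M - 1) * e.2 [MOD M])).image
          (fun f' => t0.insertNth e f')) := by
    intro f hf
    rw [mem_filter] at hf
    obtain ⟨t0, ht0⟩ := exists_of_mem_newt hf.1
    have hf1 := (mem_sdiff.1 hf.1).1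
    rw [mem_tup] at hf1
    rw [mem_biUnion]
    refine ⟨t0, mem_univ _, mem_image.2 ⟨fun j => f (t0.succAbove j), ?_, ?_⟩⟩
    · rw [mem_filter, mem_tup]
      refine ⟨fun j => hf1 _, ?_⟩
      have h1 := hf.2
      rw [Fin.sum_univ_succAbove _ t0, ht0] at h1
      apply Nat.ModEq.add_left_cancel' e.2
      refine h1.trans ?_
      have e1 : e.2 + (n + (M - 1) * e.2) = n + M * e.2 := by
        obtain ⟨M', rfl⟩ : ∃ M', M = M' + 1 := ⟨M - 1, by omega⟩
        rw [Nat.add_sub_cancel]
        ring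
      rw [e1]
      unfold Nat.ModEq
      rw [Nat.add_mul_mod_self_left]
    · funext t
      rcases Fin.eq_self_or_eq_succAbove t0 t with h | ⟨j, h⟩
      · rw [h, Fin.insertNth_apply_same, ht0]
      · rw [h, Fin.insertNth_apply_succAbove]
  refine (card_le_card hsub).trans (card_biUnion_le.trans ?_)
  refine (sum_le_sum (fun t0 _ => card_image_le.trans (hB _))).trans ?_
  rw [sum_const, card_univ, Fintype.card_fin, smul_eq_mul]

theorem R_mono {S S' : Finset (Tag H)} (h : S ⊆ S') (M k n : ℕ) : R S M k n ≤ R S' M k n :=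
  card_le_card (filter_subset_filter _ (tup_subset h k))

end Run7.h326.NC
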