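import Pool.Agent.Run7.h326.NC2
/-!
# The tower of hashed digit sets
-/

set_option autoImplicit false

open Finset

namespace Run7.h326.NC

namespace Par

variable (H : Par)

/-- an exponent -/
def E : ℕ := 10 * H.h ^ 3

/-- slowly growing parameter -/
def el (i : ℕ) : ℕ := Nat.log (H.q ^ H.E) (i + 1) + 2

/-- block lengths -/
def s (i : ℕ) : ℕ := 2 * H.el i

/-- block positions -/
def m : ℕ → ℕ
  | 0 => 0
  | i + 1 => m i + H.s i

/-- moduli -/
def M (i : ℕ) : ℕ := H.g ^ H.m i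

theorem el_ge (i : ℕ) : 2 ≤ H.el i := by simp [el]

theorem el_mono {i j : ℕ} (h : i ≤ j) : H.el i ≤ H.el j := by
  unfold el
  have := Nat.log_mono_right (b := H.q ^ H.E) (Nat.add_le_add_right h 1)
  omega

theorem s_mono {i j : ℕ} (h : i ≤ j) : H.s i ≤ H.s j := Nat.mul_le_mul_left _ (H.el_mono h)

theorem s_ge (i : ℕ) : 4 ≤ H.s i := by
  have := H.el_ge i
  unfold s
  omega

theorem m_succ (i : ℕ) : H.m (i + 1) = H.m i + H.s i := rfl

theorem m_mono {i j : ℕ} (h : i ≤ j) : H.m i ≤ H.m j := by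
  induction j, h using Nat.le_induction with
  | base => exact le_rfl
  | succ j _ ih => rw [m_succ]; omega

theorem m_ge (i : ℕ) : 4 * i ≤ H.m i := by
  induction i with
  | zero => exact Nat.zero_le _
  | succ i ih =>
    have := H.s_ge i
    rw [m_succ]
    omega

theorem M_pos (i : ℕ) : 0 < H.M i := pow_pos H.g_pos _

theorem M_succ (i : ℕ) : H.M (i + 1) = H.M i * H.g ^ H.s i := by
  rw [M, m_succ, pow_add, M]

theorem M_dvd {i j : ℕ} (h : i ≤ j) : H.M i ∣ H.M j := pow_dvd_pow _ (H.m_mono h)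

theorem M_le {i j : ℕ} (h : i ≤ j) : H.M i ≤ H.M j := Nat.le_of_dvd (H.M_pos j) (H.M_dvd h)

/-- bounds for the numbers of `(k + 1)`-tuples -/
def Bb : ℕ → ℕ → ℕ
  | 0 => fun _ => H.h
  | k + 1 => fun i => (H.h ^ (k + 2) + ∑ j ∈ range i,
      H.q ^ (H.s j * (k + 1)) * ((k + 2) * Bb k j)) * (H.h + H.g * H.m i)

/-- reciprocal exponential parameters -/
def Xx (k i : ℕ) : ℕ :=
  H.h ^ (k + 2) + ∑ j ∈ range i, H.q ^ (H.s j * (k + 1)) * ((k + 2) * H.Bb k j)

theorem Bb_zero (i : ℕ) : H.Bb 0 i = H.h := rfl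

theorem Bb_succ (k i : ℕ) : H.Bb (k + 1) i = H.Xx k i * (H.h + H.g * H.m i) := rfl

theorem Xx_succ (k i : ℕ) : H.Xx k (i + 1)
    = H.Xx k i + H.q ^ (H.s i * (k + 1)) * ((k + 2) * H.Bb k i) := by
  unfold Xx
  rw [sum_range_succ, add_assoc]

theorem Xx_pos (k i : ℕ) : 0 < H.Xx k i := by
  unfold Xx
  have := pow_pos H.h_pos (k + 2)
  omega

end Par

variable {H : Par}

/-- invariants of the tower -/
def Good (H : Par) (i : ℕ) (S : Finset (Tag H)) : Prop :=
  (∀ e ∈ S, e.2 < H.M i) ∧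
    ∑ k ∈ range (H.h - 1), ∑ n ∈ range (H.M i),
      Real.exp ((1 / (H.Xx k i : ℝ)) * R S (H.M i) (k + 2) n) ≤ Real.exp H.h * H.M i

theorem card_tup (S : Finset (Tag H)) (k : ℕ) : (tup S k).card = S.card ^ k := by
  rw [tup, Fintype.card_piFinset, prod_const, card_univ, Fintype.card_fin]

/-- the starting set -/
def S0 (H : Par) : Finset (Tag H) := univ.image (fun c => (c, 0))

theorem mem_S0 {e : Tag H} : e ∈ S0 H ↔ e.2 = 0 := by
  unfold S0
  rw [mem_image]
  constructor
  · rintro ⟨c, _, rfl⟩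
    rfl
  · intro h
    exact ⟨e.1, mem_univ _, by rw [← h]⟩

theorem card_S0 : (S0 H).card ≤ H.h := by
  refine card_image_le.trans ?_
  rw [card_univ, Fintype.card_fin]

theorem good_zero : Good H 0 (S0 H) := by
  have hM : H.M 0 = 1 := by simp [Par.M, Par.m]
  refine ⟨?_, ?_⟩
  · intro e he
    rw [mem_S0] at he
    rw [he, hM]
    exact Nat.one_pos
  · rw [hM]
    simp only [range_one, sum_singleton, Nat.cast_one, mul_one]
    have h1 : ∀ k ∈ range (H.h - 1),
        Real.exp ((1 / (H.Xx k 0 : ℝ)) * R (S0 H) 1 (k + 2) 0) ≤ Real.exp 1 := by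
      intro k _
      apply Real.exp_le_exp.2
      have h2 : R (S0 H) 1 (k + 2) 0 ≤ H.Xx k 0 := by
        refine (card_filter_le _ _).trans ?_
        rw [card_tup]
        unfold Par.Xx
        rw [range_zero, sum_empty, add_zero]
        exact Nat.pow_le_pow_left card_S0 _
      have h3 : (0 : ℝ) < H.Xx k 0 := by exact_mod_cast H.Xx_pos k 0
      rw [one_div, inv_mul_le_iff₀ h3, mul_one]
      exact_mod_cast h2
    refine (sum_le_sum h1).trans ?_
    rw [sum_const, card_range, nsmul_eq_mul]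
    have h4 : ((H.h - 1 : ℕ) : ℝ) ≤ Real.exp (H.h - 1 : ℕ) := by
      have := Real.add_one_le_exp ((H.h - 1 : ℕ) : ℝ)
      linarith
    calc ((H.h - 1 : ℕ) : ℝ) * Real.exp 1 ≤ Real.exp (H.h - 1 : ℕ) * Real.exp 1 :=
          mul_le_mul_of_nonneg_right h4 (Real.exp_pos _).le
      _ = Real.exp H.h := by
          rw [← Real.exp_add]
          congr 1
          have := H.h_pos
          have h5 : H.h - 1 + 1 = H.h := by omega
          exact_mod_cast h5

theorem R_one_le {i : ℕ} {S : Finset (Tag H)} (hS : ∀ e ∈ S, e.2 < H.M i) (n : ℕ) :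
    R S (H.M i) 1 n ≤ H.h := by
  calc R S (H.M i) 1 n ≤ (univ : Finset (Fin H.h)).card := by
        apply card_le_card_of_injOn (fun f => (f 0).1)
        · intro f _
          simp
        · intro f hf f' hf' heq
          rw [mem_coe, mem_filter, mem_tup] at hf hf'
          rw [Fin.sum_univ_one] at hf hf'
          have h1 := Nat.ModEq.eq_of_lt_of_lt (hf.2.trans hf'.2.symm) (hS _ (hf.1 0))
            (hS _ (hf'.1 0))
          funext t
          have : t = 0 := Subsingleton.elim _ _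
          rw [this]
          exact Prod.ext heq h1
    _ = H.h := by rw [card_univ, Fintype.card_fin]

theorem good_bound {i : ℕ} {S : Finset (Tag H)} (h : Good H i S) :
    ∀ k, k < H.h → ∀ n, R S (H.M i) (k + 1) n ≤ H.Bb k i := by
  intro k hk n
  rcases k with _ | k
  · rw [H.Bb_zero]
    exact R_one_le h.1 n
  · rw [H.Bb_succ, ← R_mod]
    have hX : (0 : ℝ) < H.Xx k i := by exact_mod_cast H.Xx_pos k i
    have hM : (0 : ℝ) < H.M i := by exact_mod_cast H.M_pos i
    have h1 : Real.exp ((1 / (H.Xx k i : ℝ)) * R S (H.M i) (k + 2) (n % H.M i))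
        ≤ Real.exp H.h * H.M i := by
      refine le_trans ?_ h.2
      refine le_trans ?_ (single_le_sum (f := fun k => ∑ n ∈ range (H.M i),
        Real.exp ((1 / (H.Xx k i : ℝ)) * R S (H.M i) (k + 2) n)) ?_ (mem_range.2
          (show k < H.h - 1 by omega)))
      · exact single_le_sum (f := fun n =>
          Real.exp ((1 / (H.Xx k i : ℝ)) * R S (H.M i) (k + 2) n))
          (fun _ _ => (Real.exp_pos _).le) (mem_range.2 (Nat.mod_lt n (H.M_pos i)))
      · intro k _
        exact sum_nonneg (fun _ _ => (Real.exp_pos _).le)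
    have h2 : (H.M i : ℝ) ≤ Real.exp (H.g * H.m i) := by
      have h3 : (H.g : ℝ) ≤ Real.exp H.g := by
        have := Real.add_one_le_exp (H.g : ℝ)
        linarith
      calc (H.M i : ℝ) = (H.g : ℝ) ^ H.m i := by
            unfold Par.M
            push_cast
            rfl
        _ ≤ (Real.exp H.g) ^ H.m i := pow_le_pow_left₀ (Nat.cast_nonneg _) h3 _
        _ = Real.exp (H.g * H.m i) := by
            rw [← Real.exp_nat_mul]
            ring_nf
    have h4 := h1.trans (mul_le_mul_of_nonneg_left h2 (Real.exp_pos _).le)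
    rw [← Real.exp_add] at h4
    have h5 := Real.exp_le_exp.1 h4
    rw [one_div, inv_mul_le_iff₀ hX] at h5
    exact_mod_cast h5

theorem good_succ (i : ℕ) (S : Finset (Tag H)) (h : Good H i S) :
    ∃ v : Tag H → ℕ, (∀ e, v e ∈ H.W e.1 (H.s i)) ∧
      Good H (i + 1) (ext (H.M i) (H.s i) S v) := by
  set Q : ℕ → ℝ := fun k => ((H.q ^ (H.s i * (k + 1)) * ((k + 2) * H.Bb k i) : ℕ) : ℝ) with hQ
  have hX : ∀ k i, (0 : ℝ) < H.Xx k i := fun k i => by exact_mod_cast H.Xx_pos k i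
  have hXs : ∀ k, (H.Xx k (i + 1) : ℝ) = H.Xx k i + Q k := by
    intro k
    rw [H.Xx_succ, hQ]
    push_cast
    ring
  have hQ0 : ∀ k, 0 ≤ Q k := fun k => Nat.cast_nonneg _
  have hbd := good_bound h
  obtain ⟨v, hv, hsum⟩ := hash (H.M i) (H.s i) (H.M_pos i) (fun k => 1 / (H.Xx k (i + 1) : ℝ)) Q
    (range (H.h - 1)) (fun k hk => by
      have := mem_range.1 hk
      omega) (fun k => by
      have := hX k (i + 1)
      positivity) (fun k => by
      have h1 := hX k (i + 1)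
      have h2 := hX k i
      have h3 := hXs k
      rw [one_div, inv_mul_le_iff₀ h1, mul_one]
      linarith) S (by
      intro S' e hS' _ k hk n
      have hk := mem_range.1 hk
      simp only [hQ]
      rw [Nat.cast_le]
      have h1 : nw S' e (H.M i) (k + 1 + 1) n ≤ (k + 1 + 1) * H.Bb k i := by
        apply nw_le (H.M_pos i)
        intro n'
        exact (R_mono hS' _ _ _).trans (hbd k (by omega) n')
      exact Nat.mul_le_mul_left _ h1)
  refine ⟨v, hv, ?_, ?_⟩
  · intro e' he'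
    obtain ⟨e, he, x, hx, rfl⟩ := mem_ext.1 he'
    simp only
    have h1 := h.1 e he
    have h2 := H.mem_D.1 hx
    have h3 := H.mem_W.1 (hv e)
    rw [H.g_pow] at h2 h3
    have h4 := Par.add_lt h2.2 h3.2 h2.1 h3.1
    rw [← H.g_pow] at h4
    rw [H.M_succ]
    calc e.2 + H.M i * (x + v e) < H.M i + H.M i * (x + v e) := by omega
      _ = H.M i * (x + v e + 1) := by ring
      _ ≤ H.M i * H.g ^ H.s i := Nat.mul_le_mul_left _ h4
  · rw [H.M_succ]
    refine hsum.trans ?_
    have h2 : ∑ k ∈ range (H.h - 1), ∑ n ∈ range (H.M i),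
        Real.exp (1 / (H.Xx k (i + 1) : ℝ) * (1 + 1 / (H.Xx k (i + 1) : ℝ) * Q k) *
          R S (H.M i) (k + 2) n) ≤ Real.exp H.h * H.M i := by
      refine le_trans (sum_le_sum fun k _ => sum_le_sum fun n _ => ?_) h.2
      apply Real.exp_le_exp.2
      apply mul_le_mul_of_nonneg_right _ (Nat.cast_nonneg _)
      have h3 := hX k (i + 1)
      have h4 := hX k i
      have h5 := hXs k
      have h6 := hQ0 k
      have e1 : 1 / (H.Xx k (i + 1) : ℝ) * (1 + 1 / (H.Xx k (i + 1) : ℝ) * Q k)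
          = ((H.Xx k (i + 1) : ℝ) + Q k) / (H.Xx k (i + 1) : ℝ) ^ 2 := by
        field_simp
      rw [e1, div_le_div_iff₀ (by positivity) h4]
      have h7 : (H.Xx k i : ℝ) = H.Xx k (i + 1) - Q k := by linarith
      rw [h7]
      nlinarith [sq_nonneg (Q k)]
    have h8 : (0 : ℝ) ≤ ((H.g ^ H.s i : ℕ) : ℝ) := Nat.cast_nonneg _
    calc _ ≤ ((H.g ^ H.s i : ℕ) : ℝ) * (Real.exp H.h * H.M i) :=
          mul_le_mul_of_nonneg_left h2 h8
      _ = Real.exp H.h * ((H.M i * H.g ^ H.s i : ℕ) : ℝ) := by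
          push_cast
          ring

theorem tower (H : Par) : ∃ (S : ℕ → Finset (Tag H)) (v : ℕ → Tag H → ℕ), S 0 = S0 H ∧
    (∀ i e, v i e ∈ H.W e.1 (H.s i)) ∧ (∀ i, S (i + 1) = ext (H.M i) (H.s i) (S i) (v i)) ∧
    (∀ i, ∀ e ∈ S i, e.2 < H.M i) ∧
    (∀ i k, k < H.h → ∀ n, R (S i) (H.M i) (k + 1) n ≤ H.Bb k i) := by
  have step : ∀ (i : ℕ) (S : {S : Finset (Tag H) // Good H i S}), ∃ v : Tag H → ℕ,
      (∀ e, v e ∈ H.W e.1 (H.s i)) ∧ Good H (i + 1) (ext (H.M i) (H.s i) S.1 v) :=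
    fun i S => good_succ i S.1 S.2
  choose v hv hgood using step
  let T : ∀ i : ℕ, {S : Finset (Tag H) // Good H i S} := fun i =>
    Nat.rec ⟨S0 H, good_zero⟩ (fun i S => ⟨ext (H.M i) (H.s i) S.1 (v i S), hgood i S⟩) i
  refine ⟨fun i => (T i).1, fun i => v i (T i), rfl, fun i e => hv i (T i) e, fun i => rfl,
    fun i => (T i).2.1, ?_⟩
  intro i k hk n
  exact good_bound (T i).2 k hk n

end Run7.h326.NC
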