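import Pool.Agent.Run7.h326.NC3
/-!
# The system of hashed sets and the covering property
-/

set_option autoImplicit false

open Finset

namespace Run7.h326.NC

/-- equidistributed colouring of a finite set -/
theorem exists_colour (P : Finset ℕ) (K : ℕ) (hK : 0 < K) :
    ∃ f : ℕ → ℕ, (∀ p, f p < K) ∧ ∀ τ, (P.filter (fun p => f p = τ)).card ≤ P.card / K + 1 := by
  classical
  let r : ℕ → ℕ := fun p => (P.filter (· < p)).card
  have hr : ∀ p ∈ P, ∀ q ∈ P, p < q → r p < r q := by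
    intro p hp q _ hpq
    apply card_lt_card
    refine ⟨fun x hx => ?_, fun h => ?_⟩
    · simp only [mem_filter] at hx ⊢
      exact ⟨hx.1, hx.2.trans hpq⟩
    · have : p ∈ P.filter (· < p) := h (mem_filter.2 ⟨hp, hpq⟩)
      exact lt_irrefl _ (mem_filter.1 this).2
  have hinj : ∀ p ∈ P, ∀ q ∈ P, r p = r q → p = q := by
    intro p hp q hq h
    rcases lt_trichotomy p q with h1 | h1 | h1
    · exact absurd h (hr p hp q hq h1).ne
    · exact h1
    · exact absurd h (hr q hq p hp h1).ne'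
  have hlt : ∀ p ∈ P, r p < P.card := by
    intro p hp
    apply card_lt_card
    refine ⟨filter_subset _ _, fun h => ?_⟩
    exact lt_irrefl _ (mem_filter.1 (h hp)).2
  refine ⟨fun p => r p % K, fun p => Nat.mod_lt _ hK, fun τ => ?_⟩
  calc (P.filter (fun p => r p % K = τ)).card ≤ (range (P.card / K + 1)).card := by
        apply card_le_card_of_injOn (fun p => r p / K)
        · intro p hp
          simp only [coe_filter, Set.mem_ofPred_eq] at hp
          simp only [coe_range, Set.mem_Iio]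
          have := hlt p hp.1
          exact Nat.lt_succ_of_le (Nat.div_le_div_right this.le)
        · intro p hp q hq hpq
          simp only [coe_filter, Set.mem_ofPred_eq] at hp hq
          apply hinj p hp.1 q hq.1
          simp only at hpq
          rw [← Nat.div_add_mod (r p) K, ← Nat.div_add_mod (r q) K, hpq, hp.2, hq.2]
    _ = P.card / K + 1 := card_range _

/-- the data of the construction -/
structure Sys (H : Par) where
  S : ℕ → Finset (Tag H)
  v : ℕ → Tag H → ℕ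
  th : ℕ → Tag H → ℕ
  hS0 : S 0 = S0 H
  hv : ∀ i e, v i e ∈ H.W e.1 (H.s i)
  hS : ∀ i, S (i + 1) = ext (H.M i) (H.s i) (S i) (v i)
  hlt : ∀ i, ∀ e ∈ S i, e.2 < H.M i
  hR : ∀ i k, k < H.h → ∀ n, R (S i) (H.M i) (k + 1) n ≤ H.Bb k i
  hth : ∀ i e, th i e < H.el i
  hfib : ∀ i (c : Fin H.h) τ,
    ((S i).filter (fun e => e.1 = c ∧ th i e = τ)).card ≤ H.q ^ H.m i / H.el i + 1

theorem card_type {H : Par} {S : ℕ → Finset (Tag H)} {v : ℕ → Tag H → ℕ} (h0 : S 0 = S0 H)
    (hS : ∀ i, S (i + 1) = ext (H.M i) (H.s i) (S i) (v i)) (c : Fin H.h) :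
    ∀ i, ((S i).filter (fun e => e.1 = c)).card ≤ H.q ^ H.m i := by
  intro i
  induction i with
  | zero =>
    rw [h0]
    have : (S0 H).filter (fun e => e.1 = c) ⊆ {(c, 0)} := by
      intro e he
      rw [mem_filter, mem_S0] at he
      rw [mem_singleton]
      exact Prod.ext he.2 he.1
    refine (card_le_card this).trans ?_
    rw [card_singleton]
    exact Nat.one_le_pow _ _ H.q_pos
  | succ i ih =>
    have hsub : (S (i + 1)).filter (fun e => e.1 = c) ⊆
        (((S i).filter (fun e => e.1 = c)) ×ˢ H.D c (H.s i)).image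
          (fun y => (y.1.1, y.1.2 + H.M i * (y.2 + v i y.1))) := by
      intro e' he'
      rw [mem_filter, hS i, mem_ext] at he'
      obtain ⟨⟨e, he, x, hx, hee⟩, hc⟩ := he'
      rw [hee] at hc
      simp only at hc
      rw [mem_image]
      refine ⟨(e, x), ?_, hee.symm⟩
      rw [mem_product, mem_filter]
      rw [hc] at hx
      exact ⟨⟨he, hc⟩, hx⟩
    refine (card_le_card hsub).trans (card_image_le.trans ?_)
    rw [card_product, H.m_succ, pow_add]
    exact Nat.mul_le_mul ih (H.card_D_le c _)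

theorem sys_exists (H : Par) : Nonempty (Sys H) := by
  obtain ⟨S, v, h0, hv, hS, hlt, hR⟩ := tower H
  have hc := fun (i : ℕ) (c : Fin H.h) => exists_colour
    (((S i).filter (fun e => e.1 = c)).image (fun e => e.2)) (H.el i)
    (by have := H.el_ge i; omega)
  choose th hth hfib using hc
  refine ⟨⟨S, v, fun i e => th i e.1 e.2, h0, hv, hS, hlt, hR, fun i e => hth i e.1 e.2, ?_⟩⟩
  intro i c τ
  have h1 : ((S i).filter (fun e => e.1 = c ∧ th i e.1 e.2 = τ)).card ≤
      ((((S i).filter (fun e => e.1 = c)).image (fun e => e.2)).filter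
        (fun p => th i c p = τ)).card := by
    apply card_le_card_of_injOn (fun e => e.2)
    · intro e he
      rw [mem_coe, mem_filter] at he
      rw [mem_coe, mem_filter, mem_image]
      refine ⟨⟨e, mem_filter.2 ⟨he.1, he.2.1⟩, rfl⟩, ?_⟩
      rw [← he.2.1]
      exact he.2.2
    · intro e he e' he' heq
      rw [mem_coe, mem_filter] at he he'
      exact Prod.ext (he.2.1.trans he'.2.1.symm) heq
  refine h1.trans ((hfib i c τ).trans ?_)
  apply Nat.add_le_add_right
  apply Nat.div_le_div_right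
  exact card_image_le.trans (card_type h0 hS c i)

namespace Sys

variable {H : Par} (Y : Sys H)

theorem mem_S0' {e : Tag H} (h : e ∈ Y.S 0) : e.2 = 0 := by
  rw [Y.hS0, mem_S0] at h
  exact h

theorem card_type (c : Fin H.h) (i : ℕ) : ((Y.S i).filter (fun e => e.1 = c)).card ≤ H.q ^ H.m i :=
  NC.card_type Y.hS0 Y.hS c i

theorem mem_succ {i : ℕ} {c : Fin H.h} {p' : ℕ} : (c, p') ∈ Y.S (i + 1) ↔
    ∃ p, (c, p) ∈ Y.S i ∧ ∃ x ∈ H.D c (H.s i), p' = p + H.M i * (x + Y.v i (c, p)) := by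
  rw [Y.hS i, mem_ext]
  constructor
  · rintro ⟨e, he, x, hx, h⟩
    rw [Prod.mk.injEq] at h
    obtain ⟨h1, h2⟩ := h
    have h3 : e = (c, e.2) := by
      rw [h1]
    rw [h3] at he hx h2
    exact ⟨e.2, he, x, hx, h2⟩
  · rintro ⟨p, hp, x, hx, h⟩
    exact ⟨(c, p), hp, x, hx, by rw [h]⟩

theorem decode_unique (i : ℕ) : ∀ p p' : Fin H.h → ℕ, (∀ c, (c, p c) ∈ Y.S i) →
    (∀ c, (c, p' c) ∈ Y.S i) → ∑ c, p c ≡ ∑ c, p' c [MOD H.M i] → p = p' := by
  induction i with
  | zero =>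
    intro p p' hp hp' _
    funext c
    have h1 := Y.mem_S0' (hp c)
    have h2 := Y.mem_S0' (hp' c)
    simp only at h1 h2
    rw [h1, h2]
  | succ i ih =>
    intro p p' hp hp' hs
    have h1 := fun c => Y.mem_succ.1 (hp c)
    have h2 := fun c => Y.mem_succ.1 (hp' c)
    choose a ha x hx hpx using h1
    choose a' ha' x' hx' hpx' using h2
    have e1 : ∑ c, p c = ∑ c, a c + H.M i * ∑ c, (x c + Y.v i (c, a c)) := by
      rw [mul_sum, ← sum_add_distrib]
      exact sum_congr rfl (fun c _ => hpx c)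
    have e2 : ∑ c, p' c = ∑ c, a' c + H.M i * ∑ c, (x' c + Y.v i (c, a' c)) := by
      rw [mul_sum, ← sum_add_distrib]
      exact sum_congr rfl (fun c _ => hpx' c)
    rw [e1, e2, H.M_succ] at hs
    have h3 : ∑ c, a c ≡ ∑ c, a' c [MOD H.M i] := by
      have := Nat.ModEq.of_mul_right _ hs
      unfold Nat.ModEq at this ⊢
      rwa [Nat.add_mul_mod_self_left, Nat.add_mul_mod_self_left] at this
    have h4 := ih a a' ha ha' h3
    subst h4
    have h5 := Nat.ModEq.mul_left_cancel' (H.M_pos i).ne' (Nat.ModEq.add_left_cancel' _ hs)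
    rw [sum_add_distrib, sum_add_distrib] at h5
    have h6 := Nat.ModEq.add_right_cancel' _ h5
    rw [H.g_pow] at h6
    have h7 : x = x' := by
      apply Par.uniq_of_lt (V := H.h * H.s i) _ _ _ _ h6
      · exact fun c => (H.mem_D.1 (hx c)).2
      · exact fun c => (H.mem_D.1 (hx' c)).2
      · intro c
        rw [← H.g_pow]
        exact (H.mem_D.1 (hx c)).1
      · intro c
        rw [← H.g_pow]
        exact (H.mem_D.1 (hx' c)).1
    subst h7
    funext c
    rw [hpx c, hpx' c]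

theorem decode_exists (i : ℕ) : ∀ n, ∃ p : Fin H.h → ℕ, (∀ c, (c, p c) ∈ Y.S i) ∧
    ∑ c, p c ≡ n [MOD H.M i] := by
  induction i with
  | zero =>
    intro n
    refine ⟨fun _ => 0, ?_, ?_⟩
    · intro c
      rw [Y.hS0, mem_S0]
    · have : H.M 0 = 1 := by simp [Par.M, Par.m]
      rw [this]
      exact Nat.modEq_one
  | succ i ih =>
    intro n
    obtain ⟨p, hp, hpn⟩ := ih n
    set B := ∑ c, (p c + H.M i * Y.v i (c, p c)) with hB
    have hBn : B ≡ n [MOD H.M i] := by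
      refine Nat.ModEq.trans ?_ hpn
      rw [hB, sum_add_distrib, ← mul_sum]
      unfold Nat.ModEq
      rw [Nat.add_mul_mod_self_left]
    set N := n + B * H.M (i + 1) with hN
    have hMp := H.M_pos (i + 1)
    have hle : B ≤ N := by nlinarith
    have hBN : B ≡ N [MOD H.M i] := by
      refine hBn.trans ?_
      have h1 : H.M i ∣ B * H.M (i + 1) := Dvd.dvd.mul_left (H.M_dvd (by omega)) _
      obtain ⟨k, hk⟩ := h1
      rw [hN, hk]
      unfold Nat.ModEq
      rw [Nat.add_mul_mod_self_left]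
    obtain ⟨K, hK⟩ := (Nat.modEq_iff_dvd' hle).1 hBN
    obtain ⟨x, hx1, hx2, hx3⟩ := H.exists_split_lt (K % H.g ^ H.s i) (H.h * H.s i) (by
      rw [← H.g_pow]
      exact Nat.mod_lt _ (pow_pos H.g_pos _))
    refine ⟨fun c => p c + H.M i * (x c + Y.v i (c, p c)), ?_, ?_⟩
    · intro c
      rw [Y.mem_succ]
      refine ⟨p c, hp c, x c, ?_, rfl⟩
      rw [H.mem_D, H.g_pow]
      exact ⟨hx2 c, hx1 c⟩
    · have e1 : ∑ c, (p c + H.M i * (x c + Y.v i (c, p c))) = B + H.M i * ∑ c, x c := by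
        rw [hB, mul_sum, ← sum_add_distrib]
        apply sum_congr rfl
        intro c _
        ring
      rw [e1, hx3]
      have h2 : B + H.M i * (K % H.g ^ H.s i) ≡ B + H.M i * K [MOD H.M (i + 1)] := by
        rw [H.M_succ]
        apply Nat.ModEq.add_left
        apply Nat.ModEq.mul_left'
        exact Nat.mod_modEq _ _
      refine h2.trans ?_
      have h3 : B + H.M i * K = N := by omega
      rw [h3, hN]
      unfold Nat.ModEq
      rw [Nat.add_mul_mod_self_right]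

theorem S_mod {i j : ℕ} (hij : i ≤ j) (c : Fin H.h) :
    ∀ p, (c, p) ∈ Y.S j → (c, p % H.M i) ∈ Y.S i := by
  induction j, hij using Nat.le_induction with
  | base =>
    intro p hp
    rw [Nat.mod_eq_of_lt (Y.hlt i _ hp)]
    exact hp
  | succ j hij ih =>
    intro p' hp'
    obtain ⟨p, hp, x, hx, rfl⟩ := Y.mem_succ.1 hp'
    obtain ⟨k, hk⟩ := H.M_dvd hij
    rw [hk, mul_assoc, Nat.add_mul_mod_self_left]
    exact ih p hp

/-- the delay of activation -/
def kap : ℕ → Tag H → ℕ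
  | 0, _ => 1
  | j + 1, e => H.g ^ Y.th j (e.1, e.2 % H.M j)

theorem kap_pos (j : ℕ) (e : Tag H) : 1 ≤ Y.kap j e := by
  cases j with
  | zero => exact le_rfl
  | succ j => exact Nat.one_le_pow _ _ H.g_pos

/-- elements of level `j` and type `c` -/
def El (c : Fin H.h) (j : ℕ) : Set ℕ :=
  {a | ∃ p, (c, p) ∈ Y.S j ∧ ∃ x, H.Dg c x ∧ x < H.g ^ (H.s j + Y.th j (c, p) + 2) ∧
    a = p + H.M j * (Y.kap j (c, p) + x)}

/-- the set -/
def A : Set ℕ := {a | ∃ c j, a ∈ Y.El c j}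

theorem El_ge {c : Fin H.h} {j a : ℕ} (h : a ∈ Y.El c j) : H.M j ≤ a := by
  obtain ⟨p, hp, x, hx, hxl, rfl⟩ := h
  have h1 := Y.kap_pos j (c, p)
  calc H.M j = H.M j * 1 := (mul_one _).symm
    _ ≤ H.M j * (Y.kap j (c, p) + x) := Nat.mul_le_mul_left _ (by omega)
    _ ≤ _ := Nat.le_add_left _ _

theorem El_mod {c : Fin H.h} {i j a : ℕ} (hij : i ≤ j) (h : a ∈ Y.El c j) :
    (c, a % H.M i) ∈ Y.S i := by
  obtain ⟨p, hp, x, hx, hxl, rfl⟩ := h
  obtain ⟨k, hk⟩ := H.M_dvd hij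
  rw [hk, mul_assoc, Nat.add_mul_mod_self_left]
  exact Y.S_mod hij c p hp

/-- offset in the hashed state -/
def aH (i : ℕ) (e : Tag H) : ℕ := Y.v i e + H.g ^ (H.s i + Y.th i e)

theorem aH_le (i : ℕ) (e : Tag H) : Y.aH i e ≤ 2 * H.g ^ (H.s i + Y.th i e) := by
  unfold aH
  have h1 := (H.mem_W.1 (Y.hv i e)).1
  have h2 : H.g ^ H.s i ≤ H.g ^ (H.s i + Y.th i e) := Nat.pow_le_pow_right H.g_pos (by omega)
  omega

theorem le_aH (i : ℕ) (e : Tag H) : H.g ^ (H.s i + Y.th i e) ≤ Y.aH i e := by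
  unfold aH
  omega

/-- elements of level `i + 1` in terms of level `i` -/
theorem El_succ {c : Fin H.h} {i a : ℕ} (h : a ∈ Y.El c (i + 1)) :
    ∃ p, (c, p) ∈ Y.S i ∧ ∃ x, H.Dg c x ∧ a = p + H.M i * (Y.aH i (c, p) + x) := by
  obtain ⟨p', hp', u, hu, hul, rfl⟩ := h
  obtain ⟨p, hp, t, ht, hpe⟩ := Y.mem_succ.1 hp'
  rw [H.mem_D, H.g_pow] at ht
  refine ⟨p, hp, t + H.q ^ (H.h * H.s i) * u, ht.2.add hu ht.1, ?_⟩
  have h1 : Y.kap (i + 1) (c, p') = H.g ^ Y.th i (c, p) := by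
    rw [hpe]
    simp only [kap]
    rw [Nat.add_mul_mod_self_left, Nat.mod_eq_of_lt (Y.hlt i _ hp)]
  rw [h1, H.M_succ, aH, pow_add, hpe, ← H.g_pow]
  ring

/-- conversely -/
theorem mem_El_succ {c : Fin H.h} {i p w : ℕ} (hp : (c, p) ∈ Y.S i) (hw : H.Dg c w)
    (hwl : w < H.g ^ (H.s i + H.s (i + 1) + 2)) :
    p + H.M i * (Y.aH i (c, p) + w) ∈ Y.El c (i + 1) := by
  set t := w % H.g ^ H.s i with ht
  set u := w / H.g ^ H.s i with hu
  have htl : t < H.g ^ H.s i := Nat.mod_lt _ (pow_pos H.g_pos _)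
  have hw2 : w = t + H.g ^ H.s i * u := (Nat.mod_add_div w (H.g ^ H.s i)).symm
  have htD : t ∈ H.D c (H.s i) := by
    rw [H.mem_D]
    refine ⟨htl, ?_⟩
    rw [ht, H.g_pow]
    exact hw.mod _
  have hp' : (c, p + H.M i * (t + Y.v i (c, p))) ∈ Y.S (i + 1) :=
    Y.mem_succ.2 ⟨p, hp, t, htD, rfl⟩
  refine ⟨_, hp', u, ?_, ?_, ?_⟩
  · rw [hu, H.g_pow]
    exact hw.div _
  · have h1 : u < H.g ^ (H.s (i + 1) + 2) := by
      rw [hu, Nat.div_lt_iff_lt_mul (pow_pos H.g_pos _), ← pow_add]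
      have : H.s (i + 1) + 2 + H.s i = H.s i + H.s (i + 1) + 2 := by ring
      rwa [this]
    exact h1.trans_le (Nat.pow_le_pow_right H.g_pos (by omega))
  · have h1 : Y.kap (i + 1) (c, p + H.M i * (t + Y.v i (c, p))) = H.g ^ Y.th i (c, p) := by
      simp only [kap]
      rw [Nat.add_mul_mod_self_left, Nat.mod_eq_of_lt (Y.hlt i _ hp)]
    rw [h1, H.M_succ, aH, pow_add]
    conv_lhs => rw [hw2]
    ring

/-- canonical offset at `n` -/
def alp (i : ℕ) (e : Tag H) (n : ℕ) : ℕ :=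
  if n < H.g ^ (Y.th i e + H.m (i + 1) + 2) then Y.kap i e else Y.aH i e

theorem kap_le (i : ℕ) (e : Tag H) : H.M i * Y.kap i e ≤ H.M (i + 1) := by
  rw [H.M_succ]
  apply Nat.mul_le_mul_left
  cases i with
  | zero => exact Nat.one_le_pow _ _ H.g_pos
  | succ i =>
    unfold kap
    apply Nat.pow_le_pow_right H.g_pos
    have h1 := Y.hth i (e.1, e.2 % H.M i)
    have h2 := H.el_mono (show i ≤ i + 1 by omega)
    unfold Par.s
    omega

theorem three_h_le (H : Par) : 3 * H.h ≤ H.g ^ 2 := by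
  have h1 : ∀ k : ℕ, k + 1 ≤ 3 ^ k := by
    intro k
    induction k with
    | zero => norm_num
    | succ k ih => rw [pow_succ]; omega
  obtain ⟨k, hk⟩ : ∃ k, H.h = k + 1 := ⟨H.h - 1, by have := H.two_le; omega⟩
  have h2 : 3 * H.h ≤ H.g := by
    calc 3 * H.h ≤ 3 * 3 ^ k := by
          rw [hk]
          exact Nat.mul_le_mul_left _ (h1 k)
      _ = 3 ^ H.h := by rw [hk, pow_succ, mul_comm]
      _ ≤ H.g := Nat.pow_le_pow_left H.three_le _
  have h3 := H.nine_le_g
  nlinarith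

theorem alp_le (i : ℕ) (e : Tag H) (n : ℕ) (hn : H.g ^ (H.m (i + 1) + 2) ≤ n) :
    H.h * (H.M i + H.M i * Y.alp i e n) ≤ n := by
  have h3 := three_h_le H
  unfold alp
  split_ifs with h
  · have h1 := Y.kap_le i e
    have h2 := H.M_le (show i ≤ i + 1 by omega)
    have h4 : H.g ^ (H.m (i + 1) + 2) = H.g ^ 2 * H.M (i + 1) := by
      rw [pow_add, Par.M, mul_comm]
    rw [h4] at hn
    calc H.h * (H.M i + H.M i * Y.kap i e) ≤ H.h * (3 * H.M (i + 1)) :=
          Nat.mul_le_mul_left _ (by omega)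
      _ = 3 * H.h * H.M (i + 1) := by ring
      _ ≤ H.g ^ 2 * H.M (i + 1) := Nat.mul_le_mul_right _ h3
      _ ≤ n := hn
  · push Not at h
    have h1 := Y.aH_le i e
    have h2 : H.M i * Y.aH i e ≤ H.M i * (2 * H.g ^ (H.s i + Y.th i e)) :=
      Nat.mul_le_mul_left _ h1
    have h4 : H.M i * (2 * H.g ^ (H.s i + Y.th i e)) = 2 * H.g ^ (Y.th i e + H.m (i + 1)) := by
      rw [H.m_succ, Par.M, pow_add, pow_add, pow_add]
      ring
    have h5 : H.M i ≤ H.g ^ (Y.th i e + H.m (i + 1)) := by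
      apply Nat.pow_le_pow_right H.g_pos
      have := H.m_mono (show i ≤ i + 1 by omega)
      omega
    have h6 : H.g ^ (Y.th i e + H.m (i + 1) + 2) = H.g ^ 2 * H.g ^ (Y.th i e + H.m (i + 1)) := by
      rw [pow_add _ _ 2, mul_comm]
    rw [h6] at h
    calc H.h * (H.M i + H.M i * Y.aH i e) ≤ H.h * (3 * H.g ^ (Y.th i e + H.m (i + 1))) :=
          Nat.mul_le_mul_left _ (by omega)
      _ = 3 * H.h * H.g ^ (Y.th i e + H.m (i + 1)) := by ring
      _ ≤ H.g ^ 2 * H.g ^ (Y.th i e + H.m (i + 1)) := Nat.mul_le_mul_right _ h3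
      _ ≤ n := h

/-- membership of the canonical elements -/
theorem canon_mem {c : Fin H.h} {i p n w : ℕ} (hp : (c, p) ∈ Y.S i) (hw : H.Dg c w)
    (hn : n < H.g ^ (H.m (i + 2) + 2)) (hwn : H.M i * w ≤ n) :
    p + H.M i * (Y.alp i (c, p) n + w) ∈ Y.A := by
  unfold alp
  split_ifs with h
  · refine ⟨c, i, p, hp, w, hw, ?_, rfl⟩
    have h1 : H.M i * w < H.M i * H.g ^ (H.s i + Y.th i (c, p) + 2) := by
      refine hwn.trans_lt (h.trans_le (le_of_eq ?_))
      rw [H.m_succ, Par.M]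
      simp only [pow_add]
      ring
    exact Nat.lt_of_mul_lt_mul_left h1
  · refine ⟨c, i + 1, Y.mem_El_succ hp hw ?_⟩
    have h1 : H.M i * w < H.M i * H.g ^ (H.s i + H.s (i + 1) + 2) := by
      refine hwn.trans_lt (hn.trans_le (le_of_eq ?_))
      rw [H.m_succ, H.m_succ, Par.M]
      simp only [pow_add]
      ring
    exact Nat.lt_of_mul_lt_mul_left h1

/-- the canonical representation -/
theorem cover (i n : ℕ) (hn : H.g ^ (H.m (i + 1) + 2) ≤ n) (hn2 : n < H.g ^ (H.m (i + 2) + 2)) :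
    ∃ p x : Fin H.h → ℕ, (∀ c, (c, p c) ∈ Y.S i) ∧ (∀ c : Fin H.h, H.Dg c (x c)) ∧
      ∑ c, (p c + H.M i * (Y.alp i (c, p c) n + x c)) = n ∧
      ∀ c, p c + H.M i * (Y.alp i (c, p c) n + x c) ∈ Y.A := by
  obtain ⟨p, hp, hpn⟩ := Y.decode_exists i n
  set B := ∑ c, (p c + H.M i * Y.alp i (c, p c) n) with hB
  have hBn : B ≤ n := by
    have h1 : H.h * B ≤ H.h * n := by
      calc H.h * B = ∑ c, H.h * (p c + H.M i * Y.alp i (c, p c) n) := by rw [hB, mul_sum]
        _ ≤ ∑ _c : Fin H.h, n := by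
            apply sum_le_sum
            intro c _
            refine le_trans (Nat.mul_le_mul_left _ ?_) (Y.alp_le i (c, p c) n hn)
            have := Y.hlt i _ (hp c)
            simp only at this
            omega
        _ = H.h * n := by rw [sum_const, card_univ, Fintype.card_fin, smul_eq_mul]
    exact Nat.le_of_mul_le_mul_left h1 H.h_pos
  have hBm : B ≡ n [MOD H.M i] := by
    refine Nat.ModEq.trans ?_ hpn
    rw [hB, sum_add_distrib, ← mul_sum]
    unfold Nat.ModEq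
    rw [Nat.add_mul_mod_self_left]
  obtain ⟨K, hK⟩ := (Nat.modEq_iff_dvd' hBn).1 hBm
  obtain ⟨x, hx1, hx2⟩ := H.exists_split K
  have hsum : ∑ c, (p c + H.M i * (Y.alp i (c, p c) n + x c)) = n := by
    have e1 : ∑ c, (p c + H.M i * (Y.alp i (c, p c) n + x c)) = B + H.M i * ∑ c, x c := by
      rw [hB, mul_sum, ← sum_add_distrib]
      apply sum_congr rfl
      intro c _
      ring
    rw [e1, hx2]
    omega
  refine ⟨p, x, hp, hx1, hsum, fun c => Y.canon_mem (hp c) (hx1 c) hn2 ?_⟩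
  calc H.M i * x c ≤ p c + H.M i * (Y.alp i (c, p c) n + x c) := by
        refine le_trans (Nat.mul_le_mul_left _ ?_) (Nat.le_add_left _ _)
        omega
    _ ≤ ∑ c, (p c + H.M i * (Y.alp i (c, p c) n + x c)) :=
        single_le_sum (f := fun c => p c + H.M i * (Y.alp i (c, p c) n + x c))
          (fun _ _ => Nat.zero_le _) (mem_univ c)
    _ = n := hsum

end Sys

end Run7.h326.NC
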