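import Pool.Agent.Run7.h326.NC4
/-!
# Counting: thinness and multiplicities
-/

set_option autoImplicit false

open Finset

namespace Run7.h326.NC

open scoped Classical in
/-- counting function -/
noncomputable def cnt (B : Set ℕ) (X : ℕ) : ℕ := ((range X).filter (fun a => a ∈ B)).card

theorem cnt_le_of_subset {B : Set ℕ} {X : ℕ} (F : Finset ℕ) (h : ∀ a ∈ B, a < X → a ∈ F) :
    cnt B X ≤ F.card := by
  classical
  unfold cnt
  apply card_le_card
  intro a ha
  rw [mem_filter, mem_range] at ha
  exact h a ha.2 ha.1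

theorem sum_geom {q : ℕ} (hq : 2 ≤ q) (K : ℕ) : ∑ i ∈ range K, q ^ i ≤ q ^ K := by
  induction K with
  | zero => simp
  | succ K ih =>
    rw [sum_range_succ, pow_succ]
    nlinarith [Nat.zero_le (q ^ K)]

namespace Sys

variable {H : Par} (Y : Sys H)

theorem cntEl_le (c : Fin H.h) (j k : ℕ) : cnt (Y.El c j) (H.g ^ k) ≤ H.q ^ k := by
  by_cases hk : H.m j ≤ k
  · calc cnt (Y.El c j) (H.g ^ k)
        ≤ ((((Y.S j).filter (fun e => e.1 = c)) ×ˢ H.D c (k - H.m j)).image
            (fun y => y.1.2 + H.M j * (Y.kap j y.1 + y.2))).card := by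
          apply cnt_le_of_subset
          rintro a ⟨p, hp, x, hx, hxl, rfl⟩ hlt
          refine mem_image.2 ⟨((c, p), x), mem_product.2 ⟨mem_filter.2 ⟨hp, rfl⟩, ?_⟩, rfl⟩
          rw [H.mem_D]
          refine ⟨?_, hx⟩
          have h1 : H.M j * x < H.M j * H.g ^ (k - H.m j) := by
            rw [Par.M, ← pow_add, Nat.add_sub_cancel' hk]
            refine lt_of_le_of_lt ?_ hlt
            rw [Par.M]
            refine le_trans (Nat.mul_le_mul_left _ ?_) (Nat.le_add_left _ _)
            omega
          exact Nat.lt_of_mul_lt_mul_left h1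
      _ ≤ (((Y.S j).filter (fun e => e.1 = c)) ×ˢ H.D c (k - H.m j)).card := card_image_le
      _ ≤ H.q ^ H.m j * H.q ^ (k - H.m j) := by
          rw [card_product]
          exact Nat.mul_le_mul (Y.card_type c j) (H.card_D_le c _)
      _ = H.q ^ k := by rw [← pow_add, Nat.add_sub_cancel' hk]
  · push Not at hk
    calc cnt (Y.El c j) (H.g ^ k) ≤ (∅ : Finset ℕ).card := by
          apply cnt_le_of_subset
          intro a ha hlt
          have h1 := Y.El_ge ha
          have h2 : H.g ^ k ≤ H.M j := Nat.pow_le_pow_right H.g_pos hk.le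
          omega
      _ ≤ _ := by simp

theorem cntEl_total (c : Fin H.h) (j X : ℕ) :
    cnt (Y.El c j) X ≤ H.q ^ (H.m (j + 1) + H.el j + 1) := by
  calc cnt (Y.El c j) X
      ≤ ((((Y.S j).filter (fun e => e.1 = c)) ×ˢ H.D c (H.s j + H.el j + 1)).image
          (fun y => y.1.2 + H.M j * (Y.kap j y.1 + y.2))).card := by
        apply cnt_le_of_subset
        rintro a ⟨p, hp, x, hx, hxl, rfl⟩ _
        refine mem_image.2 ⟨((c, p), x), mem_product.2 ⟨mem_filter.2 ⟨hp, rfl⟩, ?_⟩, rfl⟩
        rw [H.mem_D]
        refine ⟨hxl.trans_le (Nat.pow_le_pow_right H.g_pos ?_), hx⟩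
        have := Y.hth j (c, p)
        omega
    _ ≤ (((Y.S j).filter (fun e => e.1 = c)) ×ˢ H.D c (H.s j + H.el j + 1)).card :=
        card_image_le
    _ ≤ H.q ^ H.m j * H.q ^ (H.s j + H.el j + 1) := by
        rw [card_product]
        exact Nat.mul_le_mul (Y.card_type c j) (H.card_D_le c _)
    _ = _ := by
        rw [← pow_add, H.m_succ]
        congr 1
        ring

/-- elements of level less than `i` -/
def Low (i : ℕ) : Set ℕ := {a | ∃ c, ∃ j < i, a ∈ Y.El c j}

theorem cntLow (i X : ℕ) : cnt (Y.Low i) X ≤ 2 * H.h * H.q ^ (H.m i + H.el i + 1) := by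
  classical
  induction i with
  | zero =>
    calc cnt (Y.Low 0) X ≤ (∅ : Finset ℕ).card := by
          apply cnt_le_of_subset
          rintro a ⟨c, j, hj, _⟩ _
          omega
      _ ≤ _ := by simp
  | succ i ih =>
    have hq4 : 2 * H.q ^ (H.m i + H.el i + 1) ≤ H.q ^ (H.m (i + 1) + H.el i + 1) := by
      have h1 : H.m (i + 1) + H.el i + 1 = (H.m i + H.el i + 1) + H.s i := by
        rw [H.m_succ]
        ring
      rw [h1, pow_add _ _ (H.s i), mul_comm]
      apply Nat.mul_le_mul_left
      have h2 : 2 ≤ H.q ^ 1 := by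
        rw [pow_one]
        have := H.three_le
        omega
      exact h2.trans (Nat.pow_le_pow_right H.q_pos (by have := H.s_ge i; omega))
    calc cnt (Y.Low (i + 1)) X
        ≤ (((range X).filter (fun a => a ∈ Y.Low i)) ∪
            (univ : Finset (Fin H.h)).biUnion
              (fun c => (range X).filter (fun a => a ∈ Y.El c i))).card := by
          apply cnt_le_of_subset
          rintro a ⟨c, j, hj, ha⟩ hX
          simp only [mem_union, mem_biUnion, mem_filter, mem_range, mem_univ, true_and]
          rcases Nat.lt_succ_iff_lt_or_eq.1 hj with h | h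
          · exact Or.inl ⟨hX, c, j, h, ha⟩
          · subst h
            exact Or.inr ⟨c, hX, ha⟩
      _ ≤ cnt (Y.Low i) X + ∑ c : Fin H.h, cnt (Y.El c i) X := by
          refine (card_union_le _ _).trans ?_
          exact Nat.add_le_add_left card_biUnion_le _
      _ ≤ 2 * H.h * H.q ^ (H.m i + H.el i + 1) + ∑ _c : Fin H.h,
            H.q ^ (H.m (i + 1) + H.el i + 1) :=
          Nat.add_le_add ih (sum_le_sum fun c _ => Y.cntEl_total c i X)
      _ = H.h * (2 * H.q ^ (H.m i + H.el i + 1)) + H.h * H.q ^ (H.m (i + 1) + H.el i + 1) := by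
          rw [sum_const, card_univ, Fintype.card_fin, smul_eq_mul]
          ring
      _ ≤ H.h * H.q ^ (H.m (i + 1) + H.el i + 1) + H.h * H.q ^ (H.m (i + 1) + H.el i + 1) :=
          Nat.add_le_add_right (Nat.mul_le_mul_left _ hq4) _
      _ = 2 * H.h * H.q ^ (H.m (i + 1) + H.el i + 1) := by ring
      _ ≤ _ := by
          apply Nat.mul_le_mul_left
          apply Nat.pow_le_pow_right H.q_pos
          have := H.el_mono (show i ≤ i + 1 by omega)
          omega

theorem cntLow' (i X : ℕ) : cnt (Y.Low i) X ≤ 2 * H.h * H.q ^ H.m (i + 1) := by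
  refine (Y.cntLow i X).trans (Nat.mul_le_mul_left _ (Nat.pow_le_pow_right H.q_pos ?_))
  have := H.el_ge i
  rw [H.m_succ]
  unfold Par.s
  omega

/-- The set is thin. -/
theorem thin (k : ℕ) : cnt Y.A (H.g ^ k) ≤ 4 * H.h * H.q ^ k := by
  classical
  obtain ⟨i, hi1, hi2⟩ : ∃ i, H.m i ≤ k ∧ k < H.m (i + 1) := by
    have hex : ∃ j, k < H.m (j + 1) := ⟨k, by have := H.m_ge (k + 1); omega⟩
    refine ⟨Nat.find hex, ?_, Nat.find_spec hex⟩
    rcases Nat.eq_zero_or_pos (Nat.find hex) with h | h
    · rw [h]
      exact Nat.zero_le _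
    · have h2 := Nat.find_min hex (m := Nat.find hex - 1) (by omega)
      rw [Nat.sub_add_cancel h] at h2
      omega
  calc cnt Y.A (H.g ^ k)
      ≤ (((range (H.g ^ k)).filter (fun a => a ∈ Y.Low (i - 1))) ∪
          ((univ : Finset (Fin H.h)).biUnion
            (fun c => (range (H.g ^ k)).filter (fun a => a ∈ Y.El c (i - 1))) ∪
          (univ : Finset (Fin H.h)).biUnion
            (fun c => (range (H.g ^ k)).filter (fun a => a ∈ Y.El c i)))).card := by
        apply cnt_le_of_subset
        rintro a ⟨c, j, ha⟩ hX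
        simp only [mem_union, mem_biUnion, mem_filter, mem_range, mem_univ, true_and]
        have hj : j ≤ i := by
          by_contra hcon
          push Not at hcon
          have h1 := Y.El_ge ha
          have h2 : H.g ^ k ≤ H.M j :=
            Nat.pow_le_pow_right H.g_pos (hi2.le.trans (H.m_mono hcon))
          omega
        have h3 : j < i - 1 ∨ j = i - 1 ∨ j = i := by omega
        rcases h3 with h | h | h
        · exact Or.inl ⟨hX, c, j, h, ha⟩
        · subst h
          exact Or.inr (Or.inl ⟨c, hX, ha⟩)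
        · subst h
          exact Or.inr (Or.inr ⟨c, hX, ha⟩)
    _ ≤ cnt (Y.Low (i - 1)) (H.g ^ k) + (∑ c : Fin H.h, cnt (Y.El c (i - 1)) (H.g ^ k) +
          ∑ c : Fin H.h, cnt (Y.El c i) (H.g ^ k)) := by
        refine (card_union_le _ _).trans (Nat.add_le_add_left ?_ _)
        refine (card_union_le _ _).trans (Nat.add_le_add ?_ ?_)
        · exact card_biUnion_le
        · exact card_biUnion_le
    _ ≤ 2 * H.h * H.q ^ k + (∑ _c : Fin H.h, H.q ^ k + ∑ _c : Fin H.h, H.q ^ k) := by
        refine Nat.add_le_add ?_ (Nat.add_le_add (sum_le_sum fun c _ => Y.cntEl_le _ _ _)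
          (sum_le_sum fun c _ => Y.cntEl_le _ _ _))
        rcases Nat.eq_zero_or_pos i with h | h
        · subst h
          calc cnt (Y.Low (0 - 1)) (H.g ^ k) ≤ (∅ : Finset ℕ).card := by
                apply cnt_le_of_subset
                rintro a ⟨c, j, hj, _⟩ _
                omega
            _ ≤ _ := by simp
        · have h1 := Y.cntLow' (i - 1) (H.g ^ k)
          rw [Nat.sub_add_cancel h] at h1
          exact h1.trans (Nat.mul_le_mul_left _ (Nat.pow_le_pow_right H.q_pos hi1))
    _ = 4 * H.h * H.q ^ k := by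
        rw [sum_const, card_univ, Fintype.card_fin, smul_eq_mul]
        ring

open scoped Classical in
/-- tuples of elements of `A` with prescribed sum -/
noncomputable def reps (k n : ℕ) : Finset (Fin k → ℕ) :=
  (Fintype.piFinset (fun _ => range (n + 1))).filter (fun f => (∀ t, f t ∈ Y.A) ∧ ∑ t, f t = n)

theorem mem_reps {k n : ℕ} {f : Fin k → ℕ} :
    f ∈ Y.reps k n ↔ (∀ t, f t ∈ Y.A) ∧ ∑ t, f t = n := by
  classical
  unfold reps
  rw [mem_filter, Fintype.mem_piFinset]
  constructor
  · exact fun h => h.2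
  · intro h
    refine ⟨fun t => ?_, h⟩
    rw [mem_range]
    have := single_le_sum (f := f) (fun _ _ => Nat.zero_le _) (mem_univ t)
    omega

theorem card_reps_one (n : ℕ) : (Y.reps 1 n).card ≤ 1 := by
  rw [card_le_one]
  intro f hf f' hf'
  rw [mem_reps, Fin.sum_univ_one] at hf hf'
  funext t
  have : t = 0 := Subsingleton.elim _ _
  rw [this, hf.2, hf'.2]

/-- candidates for the entry number `t0` of level `j`, when all entries have level at least `j` -/
noncomputable def cand (n k j : ℕ) (t0 : Fin k) : Finset ℕ :=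
  ((tup (Y.S j) k).filter (fun f => ∑ t, (f t).2 ≡ n [MOD H.M j])).biUnion
    (fun f => (H.D (f t0).1 (H.s j + H.el j + 1)).image
      (fun x => (f t0).2 + H.M j * (Y.kap j (f t0) + x)))

theorem card_cand {k : ℕ} (hk : k < H.h) (n j : ℕ) (t0 : Fin (k + 1)) :
    (Y.cand n (k + 1) j t0).card ≤ H.Bb k j * H.q ^ (H.s j + H.el j + 1) := by
  refine card_biUnion_le.trans ?_
  refine (sum_le_sum (fun f _ => card_image_le.trans (H.card_D_le _ _))).trans ?_
  rw [sum_const, smul_eq_mul]
  exact Nat.mul_le_mul_right _ (Y.hR j k hk n)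

/-- bounds for the number of `(k + 1)`-tuples -/
def Nb (Y : Sys H) : ℕ → ℕ → ℕ
  | 0 => fun _ => 1
  | k + 1 => fun J => (k + 2) * ∑ j ∈ range J,
      (H.Bb (k + 1) j * H.q ^ (H.s j + H.el j + 1)) * Nb Y k J

theorem card_reps_le (k : ℕ) : k < H.h → ∀ J n, n < H.M J → (Y.reps (k + 1) n).card ≤ Y.Nb k J := by
  classical
  induction k with
  | zero =>
    intro _ J n _
    exact Y.card_reps_one n
  | succ k ih =>
    intro hk J n hn
    have hsub : Y.reps (k + 1 + 1) n ⊆ (univ : Finset (Fin (k + 1 + 1))).biUnion (fun t0 =>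
        (range J).biUnion (fun j => (Y.cand n (k + 1 + 1) j t0).biUnion (fun a =>
          (Y.reps (k + 1) (n - a)).image (fun f' => t0.insertNth a f')))) := by
      intro f hf
      rw [mem_reps] at hf
      obtain ⟨hfA, hfs⟩ := hf
      have hl : ∀ t, ∃ y : Fin H.h × ℕ, f t ∈ Y.El y.1 y.2 := by
        intro t
        obtain ⟨c, j, h⟩ := hfA t
        exact ⟨(c, j), h⟩
      choose y hy using hl
      obtain ⟨t0, _, ht0⟩ := exists_min_image (univ : Finset (Fin (k + 1 + 1)))
        (fun t => (y t).2) ⟨0, mem_univ _⟩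
      have hle : f t0 ≤ n := by
        rw [← hfs]
        exact single_le_sum (f := f) (fun _ _ => Nat.zero_le _) (mem_univ t0)
      obtain ⟨j, hj⟩ : ∃ j, j = (y t0).2 := ⟨_, rfl⟩
      have hy0 : f t0 ∈ Y.El (y t0).1 j := by
        rw [hj]
        exact hy t0
      have ht0' : ∀ t, j ≤ (y t).2 := by
        intro t
        rw [hj]
        exact ht0 t (mem_univ t)
      have hjJ : j < J := by
        by_contra hcon
        push Not at hcon
        have h1 := Y.El_ge hy0
        have h2 := H.M_le hcon
        omega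
      simp only [mem_biUnion, mem_univ, true_and, mem_range]
      refine ⟨t0, j, hjJ, f t0, ?_, ?_⟩
      · rw [cand, mem_biUnion]
        refine ⟨fun t => ((y t).1, f t % H.M j), ?_, ?_⟩
        · rw [mem_filter, mem_tup]
          refine ⟨fun t => Y.El_mod (ht0' t) (hy t), ?_⟩
          simp only
          rw [← hfs]
          apply Nat.ModEq.sum
          intro t _
          exact Nat.mod_modEq _ _
        · obtain ⟨p, hp, x, hx, hxl, hpe⟩ := hy0
          have hpa : f t0 % H.M j = p := by
            rw [hpe, Nat.add_mul_mod_self_left, Nat.mod_eq_of_lt (Y.hlt j _ hp)]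
          rw [mem_image]
          refine ⟨x, ?_, ?_⟩
          · rw [H.mem_D]
            refine ⟨hxl.trans_le (Nat.pow_le_pow_right H.g_pos ?_), hx⟩
            have := Y.hth j ((y t0).1, p)
            omega
          · simp only
            rw [hpa]
            exact hpe.symm
      · rw [mem_image]
        refine ⟨fun t => f (t0.succAbove t), ?_, ?_⟩
        · rw [mem_reps]
          refine ⟨fun t => hfA _, ?_⟩
          rw [Fin.sum_univ_succAbove f t0] at hfs
          omega
        · funext t
          rcases Fin.eq_self_or_eq_succAbove t0 t with h | ⟨i, h⟩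
          · rw [h, Fin.insertNth_apply_same]
          · rw [h, Fin.insertNth_apply_succAbove]
    refine (card_le_card hsub).trans (card_biUnion_le.trans ?_)
    calc _ ≤ ∑ _t0 : Fin (k + 1 + 1), ∑ j ∈ range J,
          (H.Bb (k + 1) j * H.q ^ (H.s j + H.el j + 1)) * Y.Nb k J := by
          apply sum_le_sum
          intro t0 _
          refine card_biUnion_le.trans (sum_le_sum fun j _ => ?_)
          refine card_biUnion_le.trans ?_
          refine (sum_le_sum (fun a _ => card_image_le.trans (ih (by omega) J (n - a)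
            (by omega)))).trans ?_
          rw [sum_const, smul_eq_mul]
          exact Nat.mul_le_mul_right _ (Y.card_cand hk n j t0)
      _ = Y.Nb (k + 1) J := by
          rw [sum_const, card_univ, Fintype.card_fin, smul_eq_mul, Nb]

end Sys

end Run7.h326.NC
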