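import Pool.Agent.Run7.h326.NC5
/-!
# Polylogarithmic bound for the number of representations
-/

set_option autoImplicit false

open Finset

namespace Run7.h326.NC

namespace Par

variable (H : Par)

/-- a slowly growing number -/
def Th (j : ℕ) : ℕ := H.q ^ H.el j

theorem Th_pos (j : ℕ) : 1 ≤ H.Th j := Nat.one_le_pow _ _ H.q_pos

theorem Th_mono {i j : ℕ} (h : i ≤ j) : H.Th i ≤ H.Th j :=
  Nat.pow_le_pow_right H.q_pos (H.el_mono h)

theorem q_pow_s (j : ℕ) : H.q ^ H.s j = H.Th j ^ 2 := by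
  rw [Th, s, ← pow_mul, mul_comm]

theorem el_le_Th (j : ℕ) : H.el j ≤ H.Th j :=
  (Nat.lt_pow_self (by have := H.three_le; omega)).le

theorem m_le (i : ℕ) : H.m i ≤ 2 * i * H.el i := by
  induction i with
  | zero => simp [m]
  | succ i ih =>
    rw [H.m_succ]
    have h1 := H.el_mono (show i ≤ i + 1 by omega)
    unfold s
    nlinarith

theorem Th_pow_E (j : ℕ) : H.Th j ^ H.E ≤ (H.q ^ H.E) ^ 2 * (j + 1) := by
  have h1 : H.Th j ^ H.E = (H.q ^ H.E) ^ H.el j := by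
    rw [Th, ← pow_mul, ← pow_mul, mul_comm]
  rw [h1, el, pow_add, mul_comm]
  exact Nat.mul_le_mul_left _ (Nat.pow_log_le_self _ (by omega))

theorem poly_Bb (k : ℕ) : ∃ C : ℕ, ∀ j,
    H.Bb k j ≤ C * (j + 1) ^ (2 * k) * H.Th j ^ (k ^ 2 + 2 * k) := by
  induction k with
  | zero =>
    refine ⟨H.h, fun j => ?_⟩
    rw [H.Bb_zero]
    simp
  | succ k ih =>
    obtain ⟨C, hC⟩ := ih
    refine ⟨(H.h ^ (k + 2) + (k + 2) * C) * (H.h + 2 * H.g), fun j => ?_⟩
    have hT := H.Th_pos j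
    have h1 : H.Xx k j ≤ (H.h ^ (k + 2) + (k + 2) * C) * (j + 1) ^ (2 * k + 1) *
        H.Th j ^ (2 * (k + 1) + (k ^ 2 + 2 * k)) := by
      have h2 : ∑ i ∈ range j, H.q ^ (H.s i * (k + 1)) * ((k + 2) * H.Bb k i) ≤
          j * (H.Th j ^ (2 * (k + 1)) * ((k + 2) * (C * (j + 1) ^ (2 * k) *
            H.Th j ^ (k ^ 2 + 2 * k)))) := by
        rw [← smul_eq_mul j, ← card_range j, ← sum_const, card_range]
        apply sum_le_sum
        intro i hi
        have hij := (mem_range.1 hi).le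
        have hTi := H.Th_mono hij
        apply Nat.mul_le_mul
        · rw [pow_mul, H.q_pow_s, ← pow_mul]
          exact Nat.pow_le_pow_left hTi _
        · apply Nat.mul_le_mul_left
          refine (hC i).trans ?_
          apply Nat.mul_le_mul
          · apply Nat.mul_le_mul_left
            exact Nat.pow_le_pow_left (by omega) _
          · exact Nat.pow_le_pow_left hTi _
      have h3 : 1 ≤ (j + 1) ^ (2 * k + 1) * H.Th j ^ (2 * (k + 1) + (k ^ 2 + 2 * k)) :=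
        Nat.mul_pos (pow_pos (by omega) _) (pow_pos hT _)
      calc H.Xx k j ≤ H.h ^ (k + 2) * 1 + j * (H.Th j ^ (2 * (k + 1)) * ((k + 2) *
            (C * (j + 1) ^ (2 * k) * H.Th j ^ (k ^ 2 + 2 * k)))) := by
            unfold Xx
            rw [mul_one]
            exact Nat.add_le_add_left h2 _
        _ ≤ H.h ^ (k + 2) * ((j + 1) ^ (2 * k + 1) * H.Th j ^ (2 * (k + 1) + (k ^ 2 + 2 * k))) +
            (j + 1) * (H.Th j ^ (2 * (k + 1)) * ((k + 2) *
            (C * (j + 1) ^ (2 * k) * H.Th j ^ (k ^ 2 + 2 * k)))) :=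
            Nat.add_le_add (Nat.mul_le_mul_left _ h3) (Nat.mul_le_mul_right _ (by omega))
        _ = _ := by
            rw [pow_add (H.Th j), pow_succ (j + 1) (2 * k)]
            ring
    have h4 : H.h + H.g * H.m j ≤ (H.h + 2 * H.g) * ((j + 1) * H.Th j) := by
      have h5 := H.m_le j
      have h6 := H.el_le_Th j
      have h7 : H.m j ≤ 2 * ((j + 1) * H.Th j) := by
        calc H.m j ≤ 2 * j * H.el j := h5
          _ ≤ 2 * j * H.Th j := Nat.mul_le_mul_left _ h6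
          _ ≤ 2 * (j + 1) * H.Th j := Nat.mul_le_mul_right _ (by omega)
          _ = _ := by ring
      have h8 : 1 ≤ (j + 1) * H.Th j := Nat.mul_pos (by omega) hT
      calc H.h + H.g * H.m j ≤ H.h * ((j + 1) * H.Th j) + H.g * (2 * ((j + 1) * H.Th j)) := by
            apply Nat.add_le_add
            · calc H.h = H.h * 1 := (mul_one _).symm
                _ ≤ _ := Nat.mul_le_mul_left _ h8
            · exact Nat.mul_le_mul_left _ h7
        _ = _ := by ring
    rw [H.Bb_succ]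
    refine (Nat.mul_le_mul h1 h4).trans (le_of_eq ?_)
    have e1 : 2 * (k + 1) = 2 * k + 1 + 1 := by ring
    have e2 : (k + 1) ^ 2 + 2 * (k + 1) = 2 * (k + 1) + (k ^ 2 + 2 * k) + 1 := by ring
    rw [e2, pow_succ (H.Th j), show 2 * (k + 1) = 2 * k + 1 + 1 by ring, pow_succ (j + 1) (2 * k + 1)]
    ring

end Par

namespace Sys

variable {H : Par} (Y : Sys H)

theorem poly_Nb (k : ℕ) : ∃ C : ℕ, ∀ J,
    Y.Nb k J ≤ C * (J + 1) ^ (k * (k + 2)) * H.Th J ^ (10 * (k + 1) ^ 3) := by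
  induction k with
  | zero =>
    refine ⟨1, fun J => ?_⟩
    have h1 : 1 ≤ H.Th J ^ (10 * (0 + 1) ^ 3) := Nat.one_le_pow _ _ (H.Th_pos J)
    simp only [Nb, zero_mul, pow_zero, one_mul]
    exact h1
  | succ k ih =>
    obtain ⟨C2, hC2⟩ := ih
    obtain ⟨C1, hC1⟩ := H.poly_Bb (k + 1)
    refine ⟨(k + 2) * (C1 * H.q * C2), fun J => ?_⟩
    have hT := H.Th_pos J
    have h1 : ∀ j ∈ range J, (H.Bb (k + 1) j * H.q ^ (H.s j + H.el j + 1)) * Y.Nb k J ≤
        (C1 * (J + 1) ^ (2 * (k + 1)) * H.Th J ^ ((k + 1) ^ 2 + 2 * (k + 1)) *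
          (H.Th J ^ 3 * H.q)) * (C2 * (J + 1) ^ (k * (k + 2)) * H.Th J ^ (10 * (k + 1) ^ 3)) := by
      intro j hj
      have hij := (mem_range.1 hj).le
      have hTi := H.Th_mono hij
      apply Nat.mul_le_mul _ (hC2 J)
      apply Nat.mul_le_mul
      · refine (hC1 j).trans ?_
        apply Nat.mul_le_mul
        · apply Nat.mul_le_mul_left
          exact Nat.pow_le_pow_left (by omega) _
        · exact Nat.pow_le_pow_left hTi _
      · have e1 : H.q ^ (H.s j + H.el j + 1) = H.Th j ^ 3 * H.q := by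
          rw [pow_add, pow_add, H.q_pow_s, pow_one, Par.Th]
          ring
        rw [e1]
        exact Nat.mul_le_mul_right _ (Nat.pow_le_pow_left hTi _)
    have h2 := sum_le_sum h1
    rw [sum_const, card_range, smul_eq_mul] at h2
    have h3 : Y.Nb (k + 1) J = (k + 2) * ∑ j ∈ range J,
        (H.Bb (k + 1) j * H.q ^ (H.s j + H.el j + 1)) * Y.Nb k J := rfl
    rw [h3]
    have h4 : H.Th J ^ ((k + 1) ^ 2 + 2 * (k + 1) + 3 + 10 * (k + 1) ^ 3) ≤
        H.Th J ^ (10 * (k + 1 + 1) ^ 3) := by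
      apply Nat.pow_le_pow_right hT
      nlinarith [Nat.zero_le k]
    calc (k + 2) * ∑ j ∈ range J, (H.Bb (k + 1) j * H.q ^ (H.s j + H.el j + 1)) * Y.Nb k J
        ≤ (k + 2) * (J * ((C1 * (J + 1) ^ (2 * (k + 1)) * H.Th J ^ ((k + 1) ^ 2 + 2 * (k + 1)) *
          (H.Th J ^ 3 * H.q)) * (C2 * (J + 1) ^ (k * (k + 2)) * H.Th J ^ (10 * (k + 1) ^ 3)))) :=
          Nat.mul_le_mul_left _ h2
      _ ≤ (k + 2) * ((J + 1) * ((C1 * (J + 1) ^ (2 * (k + 1)) *
          H.Th J ^ ((k + 1) ^ 2 + 2 * (k + 1)) *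
          (H.Th J ^ 3 * H.q)) * (C2 * (J + 1) ^ (k * (k + 2)) * H.Th J ^ (10 * (k + 1) ^ 3)))) :=
          Nat.mul_le_mul_left _ (Nat.mul_le_mul_right _ (by omega))
      _ = ((k + 2) * (C1 * H.q * C2)) * (J + 1) ^ (k * (k + 2) + 2 * (k + 1) + 1) *
          H.Th J ^ ((k + 1) ^ 2 + 2 * (k + 1) + 3 + 10 * (k + 1) ^ 3) := by
          rw [pow_add (H.Th J) ((k + 1) ^ 2 + 2 * (k + 1) + 3), pow_add (H.Th J) _ 3,
            pow_succ (J + 1) (k * (k + 2) + 2 * (k + 1)), pow_add (J + 1) (k * (k + 2))]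
          ring
      _ ≤ ((k + 2) * (C1 * H.q * C2)) * (J + 1) ^ (k * (k + 2) + 2 * (k + 1) + 1) *
          H.Th J ^ (10 * (k + 1 + 1) ^ 3) := Nat.mul_le_mul_left _ h4
      _ = _ := by
          have : k * (k + 2) + 2 * (k + 1) + 1 = (k + 1) * (k + 1 + 2) := by ring
          rw [this]

theorem reps_poly : ∃ C : ℕ, ∀ J n, n < H.M J →
    (Y.reps H.h n).card ≤ C * (J + 1) ^ H.h ^ 2 := by
  obtain ⟨k, hk⟩ : ∃ k, H.h = k + 1 := ⟨H.h - 1, by have := H.two_le; omega⟩
  obtain ⟨C, hC⟩ := Y.poly_Nb k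
  refine ⟨C * (H.q ^ H.E) ^ 2, fun J n hn => ?_⟩
  have h1 := Y.card_reps_le k (by omega) J n hn
  have h2 : (Y.reps H.h n).card ≤ Y.Nb k J := by
    rw [hk]
    exact h1
  refine h2.trans ((hC J).trans ?_)
  have h3 := H.Th_pow_E J
  have h4 : H.E = 10 * (k + 1) ^ 3 := by rw [Par.E, hk]
  rw [← h4]
  calc C * (J + 1) ^ (k * (k + 2)) * H.Th J ^ H.E
      ≤ C * (J + 1) ^ (k * (k + 2)) * ((H.q ^ H.E) ^ 2 * (J + 1)) := Nat.mul_le_mul_left _ h3
    _ = C * (H.q ^ H.E) ^ 2 * (J + 1) ^ (k * (k + 2) + 1) := by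
        rw [pow_succ (J + 1)]
        ring
    _ = _ := by
        have : k * (k + 2) + 1 = H.h ^ 2 := by rw [hk]; ring
        rw [this]

theorem reps_le_log : ∃ C : ℝ, ∀ n : ℕ, 2 ≤ n →
    ((Y.reps H.h n).card : ℝ) ≤ C * Real.log n ^ H.h ^ 2 := by
  classical
  obtain ⟨C, hC⟩ := Y.reps_poly
  refine ⟨C * 4 ^ H.h ^ 2, fun n hn => ?_⟩
  have hex : ∃ J, n < H.M J := by
    refine ⟨n, ?_⟩
    have h1 := H.m_ge n
    have h9 := H.nine_le_g
    have h2 : n < H.g ^ n := Nat.lt_pow_self (by omega)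
    exact h2.trans_le (Nat.pow_le_pow_right H.g_pos (by omega))
  set J := Nat.find hex with hJ
  have h1 : n < H.M J := Nat.find_spec hex
  have hJ0 : 1 ≤ J := by
    rcases Nat.eq_zero_or_pos J with h | h
    · rw [h] at h1
      simp only [Par.M, Par.m, pow_zero] at h1
      omega
    · exact h
  have h2 : H.M (J - 1) ≤ n := by
    have := Nat.find_min hex (m := J - 1) (by omega)
    omega
  have h3 : (J : ℝ) + 1 ≤ 4 * Real.log n := by
    have hlog2 : (0.69 : ℝ) < Real.log 2 := by have := Real.log_two_gt_d9; linarith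
    have hln : Real.log 2 ≤ Real.log n := Real.log_le_log (by norm_num) (by exact_mod_cast hn)
    have h4 : (2 : ℝ) ^ (J - 1) ≤ n := by
      have h5 : 2 ^ (J - 1) ≤ H.M (J - 1) := by
        calc 2 ^ (J - 1) ≤ H.g ^ (J - 1) := Nat.pow_le_pow_left (by have := H.nine_le_g; omega) _
          _ ≤ H.M (J - 1) := by
            apply Nat.pow_le_pow_right H.g_pos
            have := H.m_ge (J - 1)
            omega
      exact_mod_cast h5.trans h2
    have h4' : (16 : ℝ) ^ (J - 1) ≤ n := by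
      have h5 : 16 ^ (J - 1) ≤ H.M (J - 1) := by
        calc 16 ^ (J - 1) ≤ (H.g ^ 4) ^ (J - 1) := by
              apply Nat.pow_le_pow_left
              have h9 := H.nine_le_g
              calc 16 ≤ 9 ^ 4 := by norm_num
                _ ≤ H.g ^ 4 := Nat.pow_le_pow_left h9 4
          _ = H.g ^ (4 * (J - 1)) := by rw [pow_mul]
          _ ≤ H.M (J - 1) := Nat.pow_le_pow_right H.g_pos (H.m_ge (J - 1))
      exact_mod_cast h5.trans h2
    have h6 := Real.log_le_log (by positivity) h4'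
    rw [Real.log_pow] at h6
    have h7 : Real.log 16 = 4 * Real.log 2 := by
      have : (16 : ℝ) = 2 ^ 4 := by norm_num
      rw [this, Real.log_pow]
      norm_num
    rw [h7, Nat.cast_sub hJ0] at h6
    push_cast at h6
    have h8 : (1 : ℝ) ≤ J := by exact_mod_cast hJ0
    nlinarith
  have h4 : ((Y.reps H.h n).card : ℝ) ≤ C * ((J : ℝ) + 1) ^ H.h ^ 2 := by
    exact_mod_cast hC J n h1
  calc ((Y.reps H.h n).card : ℝ) ≤ C * ((J : ℝ) + 1) ^ H.h ^ 2 := h4
    _ ≤ C * (4 * Real.log n) ^ H.h ^ 2 := by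
        apply mul_le_mul_of_nonneg_left _ (Nat.cast_nonneg _)
        exact pow_le_pow_left₀ (by positivity) h3 _
    _ = C * 4 ^ H.h ^ 2 * Real.log n ^ H.h ^ 2 := by
        rw [mul_pow]
        ring

end Sys

end Run7.h326.NC
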