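import Pool.Agent.Run7.h326.NC6
/-!
# The exceptional integers
-/

set_option autoImplicit false

open Finset

namespace Run7.h326.NC

/-- the number of multisets of `h` elements of `A` with sum `n` -/
noncomputable def rep (A : Set ℕ) (h n : ℕ) : ℕ :=
  {s : Multiset ℕ | Multiset.card s = h ∧ (∀ a ∈ s, a ∈ A) ∧ s.sum = n}.ncard

theorem exists_fun (s : Multiset ℕ) (h : ℕ) (hs : Multiset.card s = h) :
    ∃ f : Fin h → ℕ, Multiset.map f (univ : Finset (Fin h)).val = s := by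
  subst hs
  refine ⟨fun t => s.toList.get ⟨t, by rw [Multiset.length_toList]; exact t.2⟩, ?_⟩
  have h1 : ((List.ofFn fun t : Fin (Multiset.card s) =>
      s.toList.get ⟨t, by rw [Multiset.length_toList]; exact t.2⟩ : List ℕ) : Multiset ℕ) = s := by
    conv_rhs => rw [← s.coe_toList]
    congr 1
    apply List.ext_getElem
    · simp
    · intro i h1 h2
      simp
  conv_rhs => rw [← h1]
  rw [List.ofFn_eq_map]
  rfl

theorem card_sums (hh : ℕ) (hh0 : 0 < hh) (N U V : Finset ℕ)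
    (h : ∀ n ∈ N, ∃ (t : Fin hh) (f : Fin hh → ℕ), f t ∈ U ∧ (∀ t', f t' ∈ V) ∧ ∑ t', f t' = n) :
    N.card ≤ U.card * V.card ^ (hh - 1) := by
  obtain ⟨k, rfl⟩ : ∃ k, hh = k + 1 := ⟨hh - 1, by omega⟩
  rw [Nat.add_sub_cancel]
  have h1 : (Fintype.piFinset (fun _ : Fin k => V)).card = V.card ^ k := by
    rw [Fintype.card_piFinset, prod_const, card_univ, Fintype.card_fin]
  rw [← h1, ← card_product]
  refine (card_le_card ?_).trans (card_image_le (s := U ×ˢ Fintype.piFinset (fun _ : Fin k => V))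
    (f := fun y => y.1 + ∑ j, y.2 j))
  intro n hn
  obtain ⟨t, f, h2, h3, h4⟩ := h n hn
  rw [mem_image]
  refine ⟨(f t, fun j => f (t.succAbove j)), ?_, ?_⟩
  · rw [mem_product, Fintype.mem_piFinset]
    exact ⟨h2, fun j => h3 _⟩
  · rw [← h4, Fin.sum_univ_succAbove f t]

namespace Par

variable (H : Par)

theorem el_le (j : ℕ) : H.el j ≤ j + 2 := by
  unfold el
  have := Nat.log_lt_self (H.q ^ H.E) (x := j + 1) (by omega)
  omega

theorem fib_el (j : ℕ) : (H.q ^ H.m j / H.el j + 1) * H.el j ≤ 3 * H.q ^ H.m j := by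
  have h1 : H.q ^ H.m j / H.el j * H.el j ≤ H.q ^ H.m j := Nat.div_mul_le_self _ _
  have h2 : H.el j ≤ 2 * H.q ^ H.m j := by
    have h3 := H.el_le j
    have h4 : j < 2 ^ j := Nat.lt_two_pow_self
    have h5 : 2 ^ j ≤ H.q ^ H.m j := by
      calc 2 ^ j ≤ H.q ^ j := Nat.pow_le_pow_left (by have := H.three_le; omega) _
        _ ≤ H.q ^ H.m j := Nat.pow_le_pow_right H.q_pos (by have := H.m_ge j; omega)
    omega
  rw [add_mul, one_mul]
  omega

/-- digit sums of a pattern of types -/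
def Dl {hh : ℕ} (q : ℕ) (c : Fin hh → ℕ) : Finset ℕ :=
  (Fintype.piFinset (fun _ : Fin hh => range q)).image (fun y => ∑ t, q ^ c t * y t)

theorem card_Dl {hh : ℕ} (q : ℕ) (c : Fin hh → ℕ) {t1 t2 : Fin hh} (ht : t1 ≠ t2)
    (hc : c t1 = c t2) : (Dl q c).card ≤ (2 * q - 1) * q ^ (hh - 2) := by
  classical
  have hsub : Dl q c ⊆ ((range (2 * q - 1)) ×ˢ (Fintype.piFinset
      (fun t : Fin hh => if t = t1 ∨ t = t2 then {0} else range q))).image
        (fun y => q ^ c t1 * y.1 + ∑ t, q ^ c t * y.2 t) := by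
    intro n hn
    obtain ⟨y, hy, rfl⟩ := mem_image.1 hn
    rw [Fintype.mem_piFinset] at hy
    rw [mem_image]
    refine ⟨(y t1 + y t2, fun t => if t = t1 ∨ t = t2 then 0 else y t), ?_, ?_⟩
    · rw [mem_product, Fintype.mem_piFinset]
      refine ⟨?_, ?_⟩
      · have h1 := mem_range.1 (hy t1)
        have h2 := mem_range.1 (hy t2)
        rw [mem_range]
        simp only
        omega
      · intro t
        simp only
        split_ifs with h
        · exact mem_singleton_self 0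
        · exact hy t
    · simp only
      have e1 : ∀ t, q ^ c t * y t = q ^ c t * (if t = t1 ∨ t = t2 then 0 else y t) +
          ((if t = t1 then q ^ c t1 * y t1 else 0) + (if t = t2 then q ^ c t1 * y t2 else 0)) := by
        intro t
        by_cases h1 : t = t1
        · subst h1
          simp [ht]
        · by_cases h2 : t = t2
          · subst h2
            simp [h1, hc]
          · simp [h1, h2]
      rw [sum_congr rfl (fun t _ => e1 t), sum_add_distrib, sum_add_distrib, sum_ite_eq' univ t1,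
        sum_ite_eq' univ t2, if_pos (mem_univ _), if_pos (mem_univ _)]
      ring
  refine (card_le_card hsub).trans (card_image_le.trans ?_)
  rw [card_product, card_range, Fintype.card_piFinset]
  apply Nat.mul_le_mul_left
  have e2 : ∀ t : Fin hh, (if t = t1 ∨ t = t2 then ({0} : Finset ℕ) else range q).card
      = if t = t1 ∨ t = t2 then 1 else q := by
    intro t
    split_ifs <;> simp
  rw [prod_congr rfl (fun t _ => e2 t), prod_ite, prod_const_one, one_mul, prod_const]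
  apply le_of_eq
  congr 1
  have e3 : (univ : Finset (Fin hh)).filter (fun t => ¬(t = t1 ∨ t = t2)) = univ \ {t1, t2} := by
    ext t
    simp
  rw [e3, card_sdiff_of_subset (subset_univ _), card_univ, Fintype.card_fin, card_pair ht]

/-- possible sums of elements with a given pattern of types -/
def TT {hh : ℕ} (c : Fin hh → ℕ) : ℕ → Finset ℕ
  | 0 => {0}
  | k + 1 => (TT c k ×ˢ Dl H.q c).image (fun y => H.g * y.1 + y.2)

theorem card_TT {hh : ℕ} (c : Fin hh → ℕ) {B : ℕ} (hB : (Dl H.q c).card ≤ B) (k : ℕ) :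
    (H.TT c k).card ≤ B ^ k := by
  induction k with
  | zero => simp [TT]
  | succ k ih =>
    rw [TT]
    refine card_image_le.trans ?_
    rw [card_product, pow_succ]
    exact Nat.mul_le_mul ih hB

variable {H}

theorem Dg.eq_of_lt {c x : ℕ} (hx : H.Dg c x) (hc : c < H.h) (hl : x < H.g) :
    x = H.q ^ c * H.dig c x := by
  have h1 := H.num_dig x H.h
  rw [Nat.mod_eq_of_lt (show x < H.q ^ H.h from hl)] at h1
  conv_lhs => rw [← h1]
  unfold num
  rw [sum_eq_single c]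
  · intro v hv hvc
    have hv := mem_range.1 hv
    have : H.dig v x = 0 := hx v (by rw [Nat.mod_eq_of_lt hv]; exact hvc)
    beta_reduce
    rw [this, mul_zero]
  · intro h
    exact absurd (mem_range.2 hc) h

variable (H)

theorem mem_TT {hh : ℕ} (c : Fin hh → ℕ) (hc : ∀ t, c t < H.h) (k : ℕ) :
    ∀ x : Fin hh → ℕ, (∀ t, H.Dg (c t) (x t)) → ∑ t, x t < H.g ^ k → ∑ t, x t ∈ H.TT c k := by
  induction k with
  | zero =>
    intro x _ hx
    rw [pow_zero, Nat.lt_one_iff] at hx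
    rw [hx]
    simp [TT]
  | succ k ih =>
    intro x hD hx
    have e1 : ∑ t, x t = H.g * ∑ t, x t / H.g + ∑ t, x t % H.g := by
      rw [mul_sum, ← sum_add_distrib]
      apply sum_congr rfl
      intro t _
      rw [Nat.div_add_mod]
    have h1 : ∑ t, x t / H.g < H.g ^ k := by
      have h2 : H.g * ∑ t, x t / H.g < H.g * H.g ^ k := by
        rw [pow_succ, mul_comm] at hx
        omega
      exact Nat.lt_of_mul_lt_mul_left h2
    have h2 : ∀ t, H.Dg (c t) (x t / H.g) := by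
      intro t
      have := (hD t).div 1
      rwa [mul_one] at this
    have h3 := ih (fun t => x t / H.g) h2 h1
    rw [TT, mem_image]
    refine ⟨(∑ t, x t / H.g, ∑ t, x t % H.g), ?_, e1.symm⟩
    rw [mem_product]
    refine ⟨h3, ?_⟩
    rw [Dl, mem_image]
    refine ⟨fun t => H.dig (c t) (x t % H.g), ?_, ?_⟩
    · rw [Fintype.mem_piFinset]
      intro t
      exact mem_range.2 (H.dig_lt _ _)
    · apply sum_congr rfl
      intro t _
      have h4 : H.Dg (c t) (x t % H.g) := (hD t).mod H.h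
      exact (h4.eq_of_lt (hc t) (Nat.mod_lt _ H.g_pos)).symm

theorem rho_pow (e : ℕ) : e * ((2 * H.q - 1) * H.q ^ (H.h - 2)) ^ (2 * e) ≤ H.g ^ (2 * e) := by
  have h1 : 3 * ((2 * H.q - 1) * H.q ^ (H.h - 2)) ^ 2 ≤ H.g ^ 2 := by
    obtain ⟨k, hk⟩ : ∃ k, H.h = k + 2 := ⟨H.h - 2, by have := H.two_le; omega⟩
    have hq := H.three_le
    obtain ⟨u, hu⟩ : ∃ u, H.q = u + 3 := ⟨H.q - 3, by omega⟩
    have h2 : 3 * (2 * H.q - 1) ^ 2 ≤ H.q ^ 4 := by
      rw [hu]
      have : 2 * (u + 3) - 1 = 2 * u + 5 := by omega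
      rw [this]
      nlinarith [Nat.zero_le (u ^ 4), Nat.zero_le (u ^ 3), Nat.zero_le (u ^ 2), Nat.zero_le u]
    have e1 : H.g ^ 2 = H.q ^ 4 * (H.q ^ k) ^ 2 := by
      rw [g, hk]
      ring
    rw [e1, hk, Nat.add_sub_cancel, mul_pow, ← mul_assoc]
    exact Nat.mul_le_mul_right _ h2
  have h2 : e ≤ 3 ^ e := (Nat.lt_pow_self (by norm_num)).le
  calc e * ((2 * H.q - 1) * H.q ^ (H.h - 2)) ^ (2 * e)
      ≤ 3 ^ e * ((2 * H.q - 1) * H.q ^ (H.h - 2)) ^ (2 * e) := Nat.mul_le_mul_right _ h2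
    _ = (3 * ((2 * H.q - 1) * H.q ^ (H.h - 2)) ^ 2) ^ e := by
        generalize (2 * H.q - 1) * H.q ^ (H.h - 2) = ρ
        rw [mul_pow, ← pow_mul]
    _ ≤ (H.g ^ 2) ^ e := Nat.pow_le_pow_left h1 e
    _ = _ := by rw [pow_mul]

theorem rho_le : (2 * H.q - 1) * H.q ^ (H.h - 2) ≤ H.g := by
  obtain ⟨k, hk⟩ : ∃ k, H.h = k + 2 := ⟨H.h - 2, by have := H.two_le; omega⟩
  have hq := H.three_le
  have e1 : H.g = H.q ^ 2 * H.q ^ k := by
    rw [g, hk]
    ring
  rw [e1, hk, Nat.add_sub_cancel]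
  apply Nat.mul_le_mul_right
  have : 2 * H.q - 1 ≤ 3 * H.q := by omega
  nlinarith

theorem g_pow_split (k : ℕ) : H.g ^ k = H.q ^ k * (H.q ^ k) ^ (H.h - 1) := by
  obtain ⟨u, hu⟩ : ∃ u, H.h = u + 1 := ⟨H.h - 1, by have := H.two_le; omega⟩
  rw [g, hu, Nat.add_sub_cancel]
  ring

end Par

namespace Sys

variable {H : Par} (Y : Sys H)

/-- elements of level `i + 2` -/
def Top (i : ℕ) : Set ℕ := {a | ∃ c, a ∈ Y.El c (i + 2)}

/-- offsets -/
def off (i : ℕ) (e : Tag H) (σ : Bool) : ℕ := if σ then Y.kap i e else Y.aH i e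

/-- elements of level `i` or `i + 1` -/
def Mid (c : Fin H.h) (i : ℕ) : Set ℕ :=
  {a | ∃ p, (c, p) ∈ Y.S i ∧ ∃ x σ, H.Dg c x ∧ a = p + H.M i * (Y.off i (c, p) σ + x)}

/-- non-canonical elements, first kind -/
def BadU (c : Fin H.h) (i n : ℕ) : Set ℕ :=
  {a | ∃ p, (c, p) ∈ Y.S i ∧ ∃ x, H.Dg c x ∧ x < H.g ^ (H.s i + Y.th i (c, p) + 2) ∧
    a = p + H.M i * (Y.kap i (c, p) + x) ∧ H.g ^ (Y.th i (c, p) + H.m (i + 1) + 2) ≤ n}

/-- non-canonical elements, second kind -/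
def BadH (c : Fin H.h) (i n : ℕ) : Set ℕ :=
  {a | ∃ p, (c, p) ∈ Y.S i ∧ ∃ x, H.Dg c x ∧
    a = p + H.M i * (Y.aH i (c, p) + x) ∧ n < H.g ^ (Y.th i (c, p) + H.m (i + 1) + 2)}

/-- canonical elements -/
def Can (c : Fin H.h) (i n : ℕ) : Set ℕ :=
  {a | ∃ p, (c, p) ∈ Y.S i ∧ ∃ x, H.Dg c x ∧ a = p + H.M i * (Y.alp i (c, p) n + x)}

theorem classify {i n a : ℕ} (ha : a ∈ Y.A) (han : a ≤ n) (hn : n < H.g ^ (H.m (i + 2) + 2)) :
    a ∈ Y.Low i ∨ a ∈ Y.Top i ∨
      ∃ c, a ∈ Y.Mid c i ∧ (a ∈ Y.BadU c i n ∨ a ∈ Y.BadH c i n ∨ a ∈ Y.Can c i n) := by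
  obtain ⟨c, j, ha⟩ := ha
  rcases Nat.lt_or_ge j i with h | h
  · exact Or.inl ⟨c, j, h, ha⟩
  · rcases Nat.lt_or_ge (i + 2) j with h2 | h2
    · exfalso
      have h3 := Y.El_ge ha
      have h4 : H.M (i + 3) ≤ H.M j := H.M_le h2
      have h5 : H.g ^ (H.m (i + 2) + 2) ≤ H.M (i + 3) := by
        apply Nat.pow_le_pow_right H.g_pos
        rw [H.m_succ (i + 2)]
        have := H.s_ge (i + 2)
        omega
      omega
    · have h3 : j = i ∨ j = i + 1 ∨ j = i + 2 := by omega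
      rcases h3 with h3 | h3 | h3
      · subst h3
        obtain ⟨p, hp, x, hx, hxl, hae⟩ := ha
        refine Or.inr (Or.inr ⟨c, ⟨p, hp, x, true, hx, by simpa [off] using hae⟩, ?_⟩)
        by_cases h4 : n < H.g ^ (Y.th j (c, p) + H.m (j + 1) + 2)
        · refine Or.inr (Or.inr ⟨p, hp, x, hx, ?_⟩)
          rw [alp, if_pos h4]
          exact hae
        · exact Or.inl ⟨p, hp, x, hx, hxl, hae, by omega⟩
      · subst h3
        obtain ⟨p, hp, x, hx, hae⟩ := Y.El_succ ha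
        refine Or.inr (Or.inr ⟨c, ⟨p, hp, x, false, hx, by simpa [off] using hae⟩, ?_⟩)
        by_cases h4 : n < H.g ^ (Y.th i (c, p) + H.m (i + 1) + 2)
        · exact Or.inr (Or.inl ⟨p, hp, x, hx, hae, h4⟩)
        · refine Or.inr (Or.inr ⟨p, hp, x, hx, ?_⟩)
          rw [alp, if_neg h4]
          exact hae
      · subst h3
        exact Or.inr (Or.inl ⟨c, ha⟩)

theorem can_unique {i n : ℕ} {a a' : Fin H.h → ℕ} (ha : ∀ c, a c ∈ Y.Can c i n)
    (ha' : ∀ c, a' c ∈ Y.Can c i n) (h : ∑ c, a c = n) (h' : ∑ c, a' c = n) : a = a' := by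
  choose p hp x hx hpx using ha
  choose p' hp' x' hx' hpx' using ha'
  have e1 : ∑ c, a c = ∑ c, p c + H.M i * (∑ c, Y.alp i (c, p c) n + ∑ c, x c) := by
    rw [← sum_add_distrib, mul_sum, ← sum_add_distrib]
    exact sum_congr rfl (fun c _ => hpx c)
  have e2 : ∑ c, a' c = ∑ c, p' c + H.M i * (∑ c, Y.alp i (c, p' c) n + ∑ c, x' c) := by
    rw [← sum_add_distrib, mul_sum, ← sum_add_distrib]
    exact sum_congr rfl (fun c _ => hpx' c)
  have h1 : ∑ c, p c ≡ ∑ c, p' c [MOD H.M i] := by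
    have h2 : ∑ c, p c ≡ ∑ c, a c [MOD H.M i] := by
      rw [e1]
      unfold Nat.ModEq
      rw [Nat.add_mul_mod_self_left]
    have h3 : ∑ c, p' c ≡ ∑ c, a' c [MOD H.M i] := by
      rw [e2]
      unfold Nat.ModEq
      rw [Nat.add_mul_mod_self_left]
    rw [h] at h2
    rw [h'] at h3
    exact h2.trans h3.symm
  have h4 := Y.decode_unique i p p' hp hp' h1
  subst h4
  have h5 : H.M i * (∑ c, Y.alp i (c, p c) n + ∑ c, x c)
      = H.M i * (∑ c, Y.alp i (c, p c) n + ∑ c, x' c) := by omega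
  have h6 := Nat.add_left_cancel (Nat.eq_of_mul_eq_mul_left (H.M_pos i) h5)
  have h7 := Par.uniq hx hx' h6
  subst h7
  funext c
  rw [hpx c, hpx' c]

/-- the exceptional event -/
def Exc (i n : ℕ) : Prop := ∃ f : Fin H.h → ℕ, (∀ t, f t ∈ Y.A) ∧ ∑ t, f t = n ∧
  ((∃ t, f t ∈ Y.Low i) ∨ (∃ t, f t ∈ Y.Top i) ∨ (∃ t, ∃ c, f t ∈ Y.BadU c i n) ∨
    (∃ t, ∃ c, f t ∈ Y.BadH c i n) ∨
    (∃ c : Fin H.h → Fin H.h, ¬ Function.Injective c ∧ ∀ t, f t ∈ Y.Mid (c t) i))

theorem sum_map (f : Fin H.h → ℕ) : (Multiset.map f (univ : Finset (Fin H.h)).val).sum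
    = ∑ t, f t := rfl

theorem rep_eq_one {i n : ℕ} (h1 : H.g ^ (H.m (i + 1) + 2) ≤ n)
    (h2 : n < H.g ^ (H.m (i + 2) + 2)) (hE : ¬ Y.Exc i n) : rep Y.A H.h n = 1 := by
  classical
  obtain ⟨p, x, hp, hx, hsum, hA⟩ := Y.cover i n h1 h2
  set a0 : Fin H.h → ℕ := fun c => p c + H.M i * (Y.alp i (c, p c) n + x c) with ha0
  have hC : ∀ c, a0 c ∈ Y.Can c i n := fun c => ⟨p c, hp c, x c, hx c, rfl⟩
  have hset : {s : Multiset ℕ | Multiset.card s = H.h ∧ (∀ a ∈ s, a ∈ Y.A) ∧ s.sum = n}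
      = {Multiset.map a0 (univ : Finset (Fin H.h)).val} := by
    ext s
    simp only [Set.mem_ofPred_eq, Set.mem_singleton_iff]
    constructor
    · rintro ⟨hs1, hs2, hs3⟩
      obtain ⟨f, rfl⟩ := exists_fun s H.h hs1
      have hfA : ∀ t, f t ∈ Y.A := fun t => hs2 _ (Multiset.mem_map_of_mem f (mem_univ t))
      have hfs : ∑ t, f t = n := hs3
      have hle : ∀ t, f t ≤ n := by
        intro t
        rw [← hfs]
        exact single_le_sum (f := f) (fun _ _ => Nat.zero_le _) (mem_univ t)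
      have key : ∀ t, ∃ c, f t ∈ Y.Mid c i ∧ f t ∈ Y.Can c i n := by
        intro t
        rcases Y.classify (i := i) (hfA t) (hle t) h2 with h | h | ⟨c, hM, h | h | h⟩
        · exact absurd ⟨f, hfA, hfs, Or.inl ⟨t, h⟩⟩ hE
        · exact absurd ⟨f, hfA, hfs, Or.inr (Or.inl ⟨t, h⟩)⟩ hE
        · exact absurd ⟨f, hfA, hfs, Or.inr (Or.inr (Or.inl ⟨t, c, h⟩))⟩ hE
        · exact absurd ⟨f, hfA, hfs, Or.inr (Or.inr (Or.inr (Or.inl ⟨t, c, h⟩)))⟩ hE
        · exact ⟨c, hM, h⟩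
      choose c hcM hcC using key
      have hinj : Function.Injective c := by
        by_contra hcon
        exact hE ⟨f, hfA, hfs, Or.inr (Or.inr (Or.inr (Or.inr ⟨c, hcon, hcM⟩)))⟩
      have hbij : Function.Bijective c := Finite.injective_iff_bijective.1 hinj
      let e : Fin H.h ≃ Fin H.h := Equiv.ofBijective c hbij
      have h3 : (fun t => f (e.symm t)) = a0 := by
        apply Y.can_unique _ hC _ hsum
        · intro t
          have := hcC (e.symm t)
          have h4 : c (e.symm t) = t := e.apply_symm_apply t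
          rwa [h4] at this
        · rw [← hfs]
          exact Equiv.sum_comp e.symm f
      rw [← h3]
      have h5 : Multiset.map (fun t => f (e.symm t)) (univ : Finset (Fin H.h)).val
          = Multiset.map f (Multiset.map e.symm (univ : Finset (Fin H.h)).val) := by
        rw [Multiset.map_map]
        rfl
      rw [h5]
      congr 1
      have h6 := congrArg Finset.val (Finset.map_univ_equiv e.symm)
      rw [Finset.map_val] at h6
      exact h6.symm
    · rintro rfl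
      refine ⟨?_, ?_, ?_⟩
      · rw [Multiset.card_map]
        exact (card_univ (α := Fin H.h)).trans (Fintype.card_fin _)
      · intro a ha
        obtain ⟨t, _, rfl⟩ := Multiset.mem_map.1 ha
        exact hA t
      · exact hsum
  unfold rep
  rw [hset]
  exact Set.ncard_singleton _

theorem rep_le_card (n : ℕ) : rep Y.A H.h n ≤ (Y.reps H.h n).card := by
  classical
  unfold rep
  have hsub : {s : Multiset ℕ | Multiset.card s = H.h ∧ (∀ a ∈ s, a ∈ Y.A) ∧ s.sum = n} ⊆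
      (((Y.reps H.h n).image (fun f => Multiset.map f (univ : Finset (Fin H.h)).val) :
        Finset (Multiset ℕ)) : Set (Multiset ℕ)) := by
    rintro s ⟨hs1, hs2, hs3⟩
    obtain ⟨f, rfl⟩ := exists_fun s H.h hs1
    rw [coe_image]
    refine ⟨f, ?_, rfl⟩
    rw [mem_coe, Y.mem_reps]
    exact ⟨fun t => hs2 _ (Multiset.mem_map_of_mem f (mem_univ t)), hs3⟩
  refine (Set.ncard_le_ncard hsub (finite_toSet _)).trans ?_
  rw [Set.ncard_coe_finset]
  exact card_image_le

theorem rep_finite (n : ℕ) :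
    {s : Multiset ℕ | Multiset.card s = H.h ∧ (∀ a ∈ s, a ∈ Y.A) ∧ s.sum = n}.Finite := by
  classical
  refine Set.Finite.subset (finite_toSet ((Y.reps H.h n).image
    (fun f => Multiset.map f (univ : Finset (Fin H.h)).val))) ?_
  rintro s ⟨hs1, hs2, hs3⟩
  obtain ⟨f, rfl⟩ := exists_fun s H.h hs1
  rw [coe_image]
  refine ⟨f, ?_, rfl⟩
  rw [mem_coe, Y.mem_reps]
  exact ⟨fun t => hs2 _ (Multiset.mem_map_of_mem f (mem_univ t)), hs3⟩

theorem rep_pos {i n : ℕ} (h1 : H.g ^ (H.m (i + 1) + 2) ≤ n)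
    (h2 : n < H.g ^ (H.m (i + 2) + 2)) : 1 ≤ rep Y.A H.h n := by
  obtain ⟨p, x, hp, hx, hsum, hA⟩ := Y.cover i n h1 h2
  unfold rep
  rw [Nat.one_le_iff_ne_zero, ← Nat.pos_iff_ne_zero, Set.ncard_pos (Y.rep_finite n)]
  refine ⟨Multiset.map (fun c => p c + H.M i * (Y.alp i (c, p c) n + x c))
    (univ : Finset (Fin H.h)).val, ?_, ?_, ?_⟩
  · rw [Multiset.card_map]
    exact (card_univ (α := Fin H.h)).trans (Fintype.card_fin _)
  · intro a ha
    obtain ⟨t, _, rfl⟩ := Multiset.mem_map.1 ha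
    exact hA t
  · exact hsum

end Sys

end Run7.h326.NC
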