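import Pool.Agent.Run7.h326.NC7
/-!
# Counting the exceptional integers
-/

set_option autoImplicit false

open Finset

namespace Run7.h326.NC

namespace Sys

variable {H : Par} (Y : Sys H)

open scoped Classical in
/-- elements below `g ^ k` -/
noncomputable def Ak (k : ℕ) : Finset ℕ := (range (H.g ^ k)).filter (fun a => a ∈ Y.A)

theorem card_Ak (k : ℕ) : (Y.Ak k).card ≤ 4 * H.h * H.q ^ k := Y.thin k

theorem mem_Ak {k a : ℕ} (ha : a ∈ Y.A) (h : a < H.g ^ k) : a ∈ Y.Ak k := by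
  classical
  exact mem_filter.2 ⟨mem_range.2 h, ha⟩

/-- general estimate -/
theorem gen (k : ℕ) (N U : Finset ℕ) (hN : ∀ n ∈ N, n < H.g ^ k ∧ ∃ (t : Fin H.h)
    (f : Fin H.h → ℕ), f t ∈ U ∧ (∀ t, f t ∈ Y.A) ∧ ∑ t, f t = n) :
    N.card ≤ U.card * (4 * H.h * H.q ^ k) ^ (H.h - 1) := by
  refine (card_sums H.h H.h_pos N U (Y.Ak k) ?_).trans
    (Nat.mul_le_mul_left _ (Nat.pow_le_pow_left (Y.card_Ak k) _))
  intro n hn
  obtain ⟨hnk, t, f, h1, h2, h3⟩ := hN n hn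
  refine ⟨t, f, h1, fun t' => Y.mem_Ak (h2 t') ?_, h3⟩
  have := single_le_sum (f := f) (fun _ _ => Nat.zero_le _) (mem_univ t')
  omega

/-- the main constant -/
def K1 (H : Par) : ℕ := (4 * H.h) ^ H.h

theorem K1_eq (H : Par) (k : ℕ) :
    4 * H.h * H.q ^ k * (4 * H.h * H.q ^ k) ^ (H.h - 1) = K1 H * H.g ^ k := by
  rw [H.g_pow_split, K1]
  obtain ⟨u, hu⟩ : ∃ u, H.h = u + 1 := ⟨H.h - 1, by have := H.two_le; omega⟩
  rw [hu, Nat.add_sub_cancel, mul_pow]
  ring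

theorem le_of_sum {k t : ℕ} {f : Fin k → ℕ} (h : ∑ t, f t = t) (j : Fin k) : f j ≤ t := by
  rw [← h]
  exact single_le_sum (f := f) (fun _ _ => Nat.zero_le _) (mem_univ j)

theorem n1 (i k : ℕ) (hk : H.m (i + 1) + 2 ≤ k) (N : Finset ℕ) (hN : ∀ n ∈ N, n < H.g ^ k ∧
    ∃ f : Fin H.h → ℕ, (∀ t, f t ∈ Y.A) ∧ ∑ t, f t = n ∧ ∃ t, f t ∈ Y.Low i) :
    N.card * H.el i ≤ K1 H * H.g ^ k := by
  classical
  have h1 := Y.gen k N ((range (H.g ^ k)).filter (fun a => a ∈ Y.Low i)) (by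
    intro n hn
    obtain ⟨hnk, f, hfA, hfs, t, ht⟩ := hN n hn
    have := le_of_sum hfs t
    exact ⟨hnk, t, f, mem_filter.2 ⟨mem_range.2 (by omega), ht⟩, hfA, hfs⟩)
  have h2 : ((range (H.g ^ k)).filter (fun a => a ∈ Y.Low i)).card
      ≤ 2 * H.h * H.q ^ (H.m i + H.el i + 1) := Y.cntLow i (H.g ^ k)
  have h3 : H.el i ≤ H.q ^ H.el i := (Nat.lt_pow_self (by have := H.three_le; omega)).le
  have h4 : H.q ^ (H.m i + H.el i + 1) * H.q ^ H.el i ≤ H.q ^ k := by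
    rw [← pow_add]
    apply Nat.pow_le_pow_right H.q_pos
    rw [H.m_succ, Par.s] at hk
    omega
  calc N.card * H.el i
      ≤ (2 * H.h * H.q ^ (H.m i + H.el i + 1) * (4 * H.h * H.q ^ k) ^ (H.h - 1)) *
        H.q ^ H.el i := Nat.mul_le_mul (h1.trans (Nat.mul_le_mul_right _ h2)) h3
    _ = 2 * H.h * (H.q ^ (H.m i + H.el i + 1) * H.q ^ H.el i) *
        (4 * H.h * H.q ^ k) ^ (H.h - 1) := by ring
    _ ≤ 4 * H.h * H.q ^ k * (4 * H.h * H.q ^ k) ^ (H.h - 1) := by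
        apply Nat.mul_le_mul_right
        exact Nat.mul_le_mul (Nat.mul_le_mul_right _ (by norm_num)) h4
    _ = _ := K1_eq H k

theorem n2 (i k : ℕ) (hk : H.m (i + 1) + 2 ≤ k) (N : Finset ℕ) (hN : ∀ n ∈ N, n < H.g ^ k ∧
    n < H.g ^ (H.m (i + 2) + 2) ∧
    ∃ f : Fin H.h → ℕ, (∀ t, f t ∈ Y.A) ∧ ∑ t, f t = n ∧ ∃ t, f t ∈ Y.Top i) :
    N.card * H.el i ≤ 2 * (K1 H * H.g ^ k) := by
  classical
  let U : Fin H.h → Finset ℕ := fun c =>
    (((Y.S (i + 1)).filter (fun e => e.1 = c ∧ Y.th (i + 1) e = 0) ∪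
      (Y.S (i + 1)).filter (fun e => e.1 = c ∧ Y.th (i + 1) e = 1)) ×ˢ
      H.D c (k - H.m (i + 1))).image
      (fun y => y.1.2 + H.M (i + 1) * (Y.aH (i + 1) y.1 + y.2))
  have hU : ∀ c, (U c).card ≤ 2 * (H.q ^ H.m (i + 1) / H.el (i + 1) + 1) *
      H.q ^ (k - H.m (i + 1)) := by
    intro c
    refine card_image_le.trans ?_
    rw [card_product]
    apply Nat.mul_le_mul _ (H.card_D_le c _)
    refine (card_union_le _ _).trans ?_
    have h1 := Y.hfib (i + 1) c 0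
    have h2 := Y.hfib (i + 1) c 1
    omega
  have h1 := Y.gen k N (univ.biUnion U) (by
    intro n hn
    obtain ⟨hnk, hn2, f, hfA, hfs, t, c, ht⟩ := hN n hn
    have hle := le_of_sum hfs t
    refine ⟨hnk, t, f, ?_, hfA, hfs⟩
    rw [mem_biUnion]
    refine ⟨c, mem_univ _, ?_⟩
    obtain ⟨p, hp, w, hw, hae⟩ := Y.El_succ ht
    have h3 := Y.le_aH (i + 1) (c, p)
    have h4 : H.M (i + 1) * H.g ^ (H.s (i + 1) + Y.th (i + 1) (c, p)) ≤ f t := by
      rw [hae]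
      refine le_trans (Nat.mul_le_mul_left _ ?_) (Nat.le_add_left _ _)
      omega
    have h5 : Y.th (i + 1) (c, p) < 2 := by
      by_contra hcon
      push Not at hcon
      have h6 : H.g ^ (H.m (i + 2) + 2) ≤
          H.M (i + 1) * H.g ^ (H.s (i + 1) + Y.th (i + 1) (c, p)) := by
        rw [Par.M, ← pow_add]
        apply Nat.pow_le_pow_right H.g_pos
        rw [H.m_succ (i + 1)]
        omega
      omega
    refine mem_image.2 ⟨((c, p), w), ?_, hae.symm⟩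
    have h7 : w < H.g ^ (k - H.m (i + 1)) := by
      have h8 : H.M (i + 1) * w < H.M (i + 1) * H.g ^ (k - H.m (i + 1)) := by
        rw [Par.M, ← pow_add, Nat.add_sub_cancel' (by omega)]
        refine lt_of_le_of_lt ?_ (show f t < H.g ^ k by omega)
        rw [hae, Par.M]
        refine le_trans (Nat.mul_le_mul_left _ ?_) (Nat.le_add_left _ _)
        omega
      exact Nat.lt_of_mul_lt_mul_left h8
    rw [mem_product, mem_union, mem_filter, mem_filter, H.mem_D]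
    refine ⟨?_, h7, hw⟩
    have h9 : Y.th (i + 1) (c, p) = 0 ∨ Y.th (i + 1) (c, p) = 1 := by omega
    rcases h9 with h9 | h9
    · exact Or.inl ⟨hp, rfl, h9⟩
    · exact Or.inr ⟨hp, rfl, h9⟩)
  have h2 : (univ.biUnion U).card
      ≤ H.h * (2 * (H.q ^ H.m (i + 1) / H.el (i + 1) + 1) * H.q ^ (k - H.m (i + 1))) := by
    refine card_biUnion_le.trans ((sum_le_sum fun c _ => hU c).trans (le_of_eq ?_))
    rw [sum_const, card_univ, Fintype.card_fin, smul_eq_mul]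
  have h3 := H.fib_el (i + 1)
  have h4 := H.el_mono (show i ≤ i + 1 by omega)
  calc N.card * H.el i
      ≤ (H.h * (2 * (H.q ^ H.m (i + 1) / H.el (i + 1) + 1) * H.q ^ (k - H.m (i + 1))) *
          (4 * H.h * H.q ^ k) ^ (H.h - 1)) * H.el (i + 1) :=
        Nat.mul_le_mul (h1.trans (Nat.mul_le_mul_right _ h2)) h4
    _ = ((H.q ^ H.m (i + 1) / H.el (i + 1) + 1) * H.el (i + 1)) *
          (2 * H.h * H.q ^ (k - H.m (i + 1)) * (4 * H.h * H.q ^ k) ^ (H.h - 1)) := by ring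
    _ ≤ (3 * H.q ^ H.m (i + 1)) *
          (2 * H.h * H.q ^ (k - H.m (i + 1)) * (4 * H.h * H.q ^ k) ^ (H.h - 1)) :=
        Nat.mul_le_mul_right _ h3
    _ = 6 * H.h * (H.q ^ H.m (i + 1) * H.q ^ (k - H.m (i + 1))) *
          (4 * H.h * H.q ^ k) ^ (H.h - 1) := by ring
    _ = 6 * H.h * H.q ^ k * (4 * H.h * H.q ^ k) ^ (H.h - 1) := by
        rw [← pow_add, Nat.add_sub_cancel' (by omega)]
    _ ≤ 8 * H.h * H.q ^ k * (4 * H.h * H.q ^ k) ^ (H.h - 1) := by
        apply Nat.mul_le_mul_right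
        apply Nat.mul_le_mul_right
        omega
    _ = 2 * (4 * H.h * H.q ^ k * (4 * H.h * H.q ^ k) ^ (H.h - 1)) := by ring
    _ = _ := by rw [K1_eq]

theorem n3 (i k : ℕ) (hk : H.m (i + 1) + 2 ≤ k) (N : Finset ℕ) (hN : ∀ n ∈ N, n < H.g ^ k ∧
    ∃ f : Fin H.h → ℕ, ∑ t, f t = n ∧
      ∃ c : Fin H.h → Fin H.h, ¬ Function.Injective c ∧ ∀ t, f t ∈ Y.Mid (c t) i) :
    N.card * H.el i ≤ K1 H * H.g ^ k := by
  classical
  set ρ := (2 * H.q - 1) * H.q ^ (H.h - 2) with hρ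
  have hmk : H.m i ≤ k := by
    have := H.m_mono (show i ≤ i + 1 by omega)
    omega
  let V : (Fin H.h → Fin H.h) × (Fin H.h → Bool) → Finset ℕ := fun z =>
    ((Fintype.piFinset (fun t => (Y.S i).filter (fun e => e.1 = z.1 t))) ×ˢ
      (if Function.Injective z.1 then ∅ else H.TT (fun t => (z.1 t : ℕ)) (k - H.m i))).image
      (fun y => ∑ t, (y.1 t).2 + H.M i * (∑ t, Y.off i (y.1 t) (z.2 t) + y.2))
  have hV : ∀ z, (V z).card ≤ H.M i * ρ ^ (k - H.m i) := by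
    intro z
    refine card_image_le.trans ?_
    rw [card_product]
    apply Nat.mul_le_mul
    · rw [Fintype.card_piFinset]
      calc ∏ t, ((Y.S i).filter (fun e => e.1 = z.1 t)).card ≤ ∏ _t : Fin H.h, H.q ^ H.m i :=
            prod_le_prod' (fun t _ => Y.card_type _ i)
        _ = H.M i := by
            rw [prod_const, card_univ, Fintype.card_fin, Par.M, Par.g, ← pow_mul, ← pow_mul,
              mul_comm]
    · split_ifs with h
      · simp
      · apply H.card_TT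
        have h2 : ∃ t1 t2 : Fin H.h, z.1 t1 = z.1 t2 ∧ t1 ≠ t2 := by
          by_contra hcon
          push Not at hcon
          exact h (fun a b hab => hcon a b hab)
        obtain ⟨t1, t2, h3, h4⟩ := h2
        exact Par.card_Dl H.q _ h4 (by rw [h3])
  have h1 : N ⊆ univ.biUnion V := by
    intro n hn
    obtain ⟨hnk, f, hfs, c, hc, hM⟩ := hN n hn
    choose p hp w σ hw hae using hM
    rw [mem_biUnion]
    refine ⟨(c, σ), mem_univ _, mem_image.2 ⟨(fun t => (c t, p t), ∑ t, w t), ?_, ?_⟩⟩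
    · rw [mem_product, Fintype.mem_piFinset]
      refine ⟨fun t => mem_filter.2 ⟨hp t, rfl⟩, ?_⟩
      simp only
      rw [if_neg hc]
      apply H.mem_TT
      · exact fun t => (c t).2
      · exact hw
      · have h8 : H.M i * ∑ t, w t < H.M i * H.g ^ (k - H.m i) := by
          rw [Par.M, ← pow_add, Nat.add_sub_cancel' hmk]
          refine lt_of_le_of_lt ?_ hnk
          rw [← hfs, mul_sum]
          apply sum_le_sum
          intro t _
          rw [hae t, Par.M]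
          refine le_trans (Nat.mul_le_mul_left _ ?_) (Nat.le_add_left _ _)
          omega
        exact Nat.lt_of_mul_lt_mul_left h8
    · simp only
      rw [← hfs, ← sum_add_distrib, mul_sum, ← sum_add_distrib]
      exact sum_congr rfl (fun t _ => (hae t).symm)
  have h2 : N.card ≤ (H.h ^ H.h * 2 ^ H.h) * (H.M i * ρ ^ (k - H.m i)) := by
    refine (card_le_card h1).trans (card_biUnion_le.trans ?_)
    refine (sum_le_sum (fun c _ => hV c)).trans (le_of_eq ?_)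
    rw [sum_const, smul_eq_mul]
    congr 1
    rw [card_univ, Fintype.card_prod, Fintype.card_fun, Fintype.card_fun, Fintype.card_fin,
      Fintype.card_bool]
  have h3 : ρ ^ (k - H.m i) * H.el i ≤ H.g ^ (k - H.m i) := by
    have h4 : k - H.m i = (k - H.m i - H.s i) + H.s i := by
      rw [H.m_succ] at hk
      omega
    have h5 := H.rho_pow (H.el i)
    have h6 := H.rho_le
    rw [← hρ] at h5 h6
    rw [h4, pow_add, pow_add]
    calc ρ ^ (k - H.m i - H.s i) * ρ ^ H.s i * H.el i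
        = ρ ^ (k - H.m i - H.s i) * (H.el i * ρ ^ (2 * H.el i)) := by
          rw [Par.s]
          ring
      _ ≤ H.g ^ (k - H.m i - H.s i) * H.g ^ (2 * H.el i) :=
          Nat.mul_le_mul (Nat.pow_le_pow_left h6 _) h5
      _ = _ := by rw [Par.s]
  calc N.card * H.el i ≤ (H.h ^ H.h * 2 ^ H.h) * (H.M i * ρ ^ (k - H.m i)) * H.el i :=
        Nat.mul_le_mul_right _ h2
    _ = (2 * H.h) ^ H.h * (H.M i * (ρ ^ (k - H.m i) * H.el i)) := by
        rw [mul_pow]
        ring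
    _ ≤ (2 * H.h) ^ H.h * (H.M i * H.g ^ (k - H.m i)) :=
        Nat.mul_le_mul_left _ (Nat.mul_le_mul_left _ h3)
    _ = (2 * H.h) ^ H.h * H.g ^ k := by
        rw [Par.M, ← pow_add, Nat.add_sub_cancel' hmk]
    _ ≤ _ := by
        apply Nat.mul_le_mul_right
        exact Nat.pow_le_pow_left (by omega) _

theorem n4 (i k : ℕ) (hk : H.m (i + 1) + 2 ≤ k) (N : Finset ℕ) (hN : ∀ n ∈ N, n < H.g ^ k ∧
    ∃ f : Fin H.h → ℕ, (∀ t, f t ∈ Y.A) ∧ ∑ t, f t = n ∧ ∃ t, ∃ c, f t ∈ Y.BadU c i n) :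
    N.card * H.el i ≤ K1 H * H.g ^ k := by
  classical
  let U : Fin H.h → Finset ℕ := fun c => (range (k - H.m (i + 1) - 2)).biUnion fun τ =>
    ((Y.S i).filter (fun e => e.1 = c ∧ Y.th i e = τ) ×ˢ H.D c (H.s i + τ + 2)).image
      (fun y => y.1.2 + H.M i * (Y.kap i y.1 + y.2))
  have hq2 : 2 ≤ H.q := by have := H.three_le; omega
  have hU : ∀ c, (U c).card ≤ (H.q ^ H.m i / H.el i + 1) * H.q ^ (k - H.m i) := by
    intro c
    refine card_biUnion_le.trans ?_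
    calc _ ≤ ∑ τ ∈ range (k - H.m (i + 1) - 2),
            (H.q ^ H.m i / H.el i + 1) * H.q ^ (H.s i + 2) * H.q ^ τ := by
          apply sum_le_sum
          intro τ _
          refine card_image_le.trans ?_
          rw [card_product]
          refine (Nat.mul_le_mul (Y.hfib i c τ) (H.card_D_le c _)).trans (le_of_eq ?_)
          have : H.s i + τ + 2 = (H.s i + 2) + τ := by ring
          rw [this, pow_add]
          ring
      _ = (H.q ^ H.m i / H.el i + 1) * H.q ^ (H.s i + 2) *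
            ∑ τ ∈ range (k - H.m (i + 1) - 2), H.q ^ τ := by
          rw [mul_sum]
      _ ≤ (H.q ^ H.m i / H.el i + 1) * H.q ^ (H.s i + 2) * H.q ^ (k - H.m (i + 1) - 2) :=
          Nat.mul_le_mul_left _ (sum_geom hq2 _)
      _ = _ := by
          rw [mul_assoc, ← pow_add]
          congr 2
          rw [H.m_succ] at hk ⊢
          omega
  have h1 := Y.gen k N (univ.biUnion U) (by
    intro n hn
    obtain ⟨hnk, f, hfA, hfs, t, c, p, hp, x, hx, hxl, hae, hth⟩ := hN n hn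
    refine ⟨hnk, t, f, ?_, hfA, hfs⟩
    rw [mem_biUnion]
    refine ⟨c, mem_univ _, mem_biUnion.2 ⟨Y.th i (c, p), ?_, mem_image.2 ⟨((c, p), x), ?_,
      hae.symm⟩⟩⟩
    · rw [mem_range]
      have h3 : H.g ^ (Y.th i (c, p) + H.m (i + 1) + 2) < H.g ^ k := by omega
      have := (Nat.pow_lt_pow_iff_right (by have := H.nine_le_g; omega : 1 < H.g)).1 h3
      omega
    · rw [mem_product, mem_filter, H.mem_D]
      exact ⟨⟨hp, rfl, rfl⟩, hxl, hx⟩)
  have h2 : (univ.biUnion U).card ≤ H.h * ((H.q ^ H.m i / H.el i + 1) * H.q ^ (k - H.m i)) := by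
    refine card_biUnion_le.trans ((sum_le_sum fun c _ => hU c).trans (le_of_eq ?_))
    rw [sum_const, card_univ, Fintype.card_fin, smul_eq_mul]
  have h3 := H.fib_el i
  have hmk : H.m i ≤ k := by
    have := H.m_mono (show i ≤ i + 1 by omega)
    omega
  calc N.card * H.el i
      ≤ (H.h * ((H.q ^ H.m i / H.el i + 1) * H.q ^ (k - H.m i)) *
          (4 * H.h * H.q ^ k) ^ (H.h - 1)) * H.el i :=
        Nat.mul_le_mul_right _ (h1.trans (Nat.mul_le_mul_right _ h2))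
    _ = ((H.q ^ H.m i / H.el i + 1) * H.el i) *
          (H.h * H.q ^ (k - H.m i) * (4 * H.h * H.q ^ k) ^ (H.h - 1)) := by ring
    _ ≤ (3 * H.q ^ H.m i) * (H.h * H.q ^ (k - H.m i) * (4 * H.h * H.q ^ k) ^ (H.h - 1)) :=
        Nat.mul_le_mul_right _ h3
    _ = 3 * H.h * (H.q ^ H.m i * H.q ^ (k - H.m i)) * (4 * H.h * H.q ^ k) ^ (H.h - 1) := by ring
    _ = 3 * H.h * H.q ^ k * (4 * H.h * H.q ^ k) ^ (H.h - 1) := by
        rw [← pow_add, Nat.add_sub_cancel' hmk]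
    _ ≤ 4 * H.h * H.q ^ k * (4 * H.h * H.q ^ k) ^ (H.h - 1) := by
        apply Nat.mul_le_mul_right
        apply Nat.mul_le_mul_right
        omega
    _ = _ := K1_eq H k

theorem n5 (i k : ℕ) (hk : H.m (i + 1) + 2 ≤ k) (N : Finset ℕ) (hN : ∀ n ∈ N, n < H.g ^ k ∧
    ∃ f : Fin H.h → ℕ, (∀ t, f t ∈ Y.A) ∧ ∑ t, f t = n ∧ ∃ t, ∃ c, f t ∈ Y.BadH c i n) :
    N.card * H.el i ≤ H.g ^ 2 * (K1 H * H.g ^ k) := by
  classical
  have hq2 : 2 ≤ H.g := by have := H.nine_le_g; omega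
  let U : ℕ → Fin H.h → Finset ℕ := fun τ c =>
    ((Y.S i).filter (fun e => e.1 = c ∧ Y.th i e = τ) ×ˢ H.D c (τ + H.s i + 2)).image
      (fun y => y.1.2 + H.M i * (Y.aH i y.1 + y.2))
  have hU : ∀ τ c, (U τ c).card ≤ (H.q ^ H.m i / H.el i + 1) * H.q ^ (τ + H.s i + 2) := by
    intro τ c
    refine card_image_le.trans ?_
    rw [card_product]
    exact Nat.mul_le_mul (Y.hfib i c τ) (H.card_D_le c _)
  let NN : ℕ → Finset ℕ := fun τ => N.filter (fun n => n < H.g ^ (τ + H.m (i + 1) + 2) ∧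
    ∃ (t : Fin H.h) (f : Fin H.h → ℕ), f t ∈ univ.biUnion (U τ) ∧ (∀ t, f t ∈ Y.A) ∧
      ∑ t, f t = n)
  have hNN : ∀ τ, (NN τ).card * H.el i ≤ H.g ^ 2 * (K1 H * H.M (i + 1)) * H.g ^ τ := by
    intro τ
    have h1 := Y.gen (τ + H.m (i + 1) + 2) (NN τ) (univ.biUnion (U τ)) (by
      intro n hn
      exact (mem_filter.1 hn).2)
    have h2 : (univ.biUnion (U τ)).card ≤
        H.h * ((H.q ^ H.m i / H.el i + 1) * H.q ^ (τ + H.s i + 2)) := by
      refine card_biUnion_le.trans ((sum_le_sum fun c _ => hU τ c).trans (le_of_eq ?_))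
      rw [sum_const, card_univ, Fintype.card_fin, smul_eq_mul]
    have h3 := H.fib_el i
    set k' := τ + H.m (i + 1) + 2 with hk'
    calc (NN τ).card * H.el i
        ≤ (H.h * ((H.q ^ H.m i / H.el i + 1) * H.q ^ (τ + H.s i + 2)) *
            (4 * H.h * H.q ^ k') ^ (H.h - 1)) * H.el i :=
          Nat.mul_le_mul_right _ (h1.trans (Nat.mul_le_mul_right _ h2))
      _ = ((H.q ^ H.m i / H.el i + 1) * H.el i) *
            (H.h * H.q ^ (τ + H.s i + 2) * (4 * H.h * H.q ^ k') ^ (H.h - 1)) := by ring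
      _ ≤ (3 * H.q ^ H.m i) *
            (H.h * H.q ^ (τ + H.s i + 2) * (4 * H.h * H.q ^ k') ^ (H.h - 1)) :=
          Nat.mul_le_mul_right _ h3
      _ = 3 * H.h * (H.q ^ H.m i * H.q ^ (τ + H.s i + 2)) *
            (4 * H.h * H.q ^ k') ^ (H.h - 1) := by ring
      _ = 3 * H.h * H.q ^ k' * (4 * H.h * H.q ^ k') ^ (H.h - 1) := by
          rw [← pow_add]
          congr 3
          rw [hk', H.m_succ]
          ring
      _ ≤ 4 * H.h * H.q ^ k' * (4 * H.h * H.q ^ k') ^ (H.h - 1) := by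
          apply Nat.mul_le_mul_right
          apply Nat.mul_le_mul_right
          omega
      _ = K1 H * H.g ^ k' := K1_eq H k'
      _ = _ := by
          rw [hk', pow_add, pow_add, Par.M]
          ring
  have h1 : N ⊆ (range (k - H.m (i + 1))).biUnion NN := by
    intro n hn
    obtain ⟨hnk, f, hfA, hfs, t, c, p, hp, w, hw, hae, hth⟩ := hN n hn
    have hle := le_of_sum hfs t
    rw [mem_biUnion]
    have hlow : H.g ^ (H.m (i + 1) + Y.th i (c, p)) ≤ f t := by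
      have h3 := Y.le_aH i (c, p)
      have e : H.g ^ (H.m (i + 1) + Y.th i (c, p)) = H.M i * H.g ^ (H.s i + Y.th i (c, p)) := by
        rw [H.m_succ, Par.M, ← pow_add]
        congr 1
        ring
      rw [hae, e]
      refine le_trans (Nat.mul_le_mul_left _ ?_) (Nat.le_add_left _ _)
      omega
    refine ⟨Y.th i (c, p), ?_, ?_⟩
    · rw [mem_range]
      have h3 : H.g ^ (H.m (i + 1) + Y.th i (c, p)) < H.g ^ k := by omega
      have := (Nat.pow_lt_pow_iff_right (by omega : 1 < H.g)).1 h3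
      omega
    · rw [mem_filter]
      refine ⟨hn, hth, t, f, ?_, hfA, hfs⟩
      rw [mem_biUnion]
      refine ⟨c, mem_univ _, mem_image.2 ⟨((c, p), w), ?_, hae.symm⟩⟩
      rw [mem_product, mem_filter, H.mem_D]
      refine ⟨⟨hp, rfl, rfl⟩, ?_, hw⟩
      have h8 : H.M i * w < H.M i * H.g ^ (Y.th i (c, p) + H.s i + 2) := by
        rw [Par.M, ← pow_add]
        have e : H.m i + (Y.th i (c, p) + H.s i + 2) = Y.th i (c, p) + H.m (i + 1) + 2 := by
          rw [H.m_succ]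
          ring
        rw [e]
        refine lt_of_le_of_lt ?_ (show f t < H.g ^ (Y.th i (c, p) + H.m (i + 1) + 2) by omega)
        rw [hae, Par.M]
        refine le_trans (Nat.mul_le_mul_left _ ?_) (Nat.le_add_left _ _)
        omega
      exact Nat.lt_of_mul_lt_mul_left h8
  calc N.card * H.el i ≤ (∑ τ ∈ range (k - H.m (i + 1)), (NN τ).card) * H.el i :=
        Nat.mul_le_mul_right _ ((card_le_card h1).trans card_biUnion_le)
    _ = ∑ τ ∈ range (k - H.m (i + 1)), (NN τ).card * H.el i := by rw [sum_mul]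
    _ ≤ ∑ τ ∈ range (k - H.m (i + 1)), H.g ^ 2 * (K1 H * H.M (i + 1)) * H.g ^ τ :=
        sum_le_sum (fun τ _ => hNN τ)
    _ = H.g ^ 2 * (K1 H * H.M (i + 1)) * ∑ τ ∈ range (k - H.m (i + 1)), H.g ^ τ := by
        rw [mul_sum]
    _ ≤ H.g ^ 2 * (K1 H * H.M (i + 1)) * H.g ^ (k - H.m (i + 1)) :=
        Nat.mul_le_mul_left _ (sum_geom hq2 _)
    _ = H.g ^ 2 * (K1 H * (H.M (i + 1) * H.g ^ (k - H.m (i + 1)))) := by ring
    _ = _ := by rw [Par.M, ← pow_add, Nat.add_sub_cancel' (by omega)]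

/-- the constant of a block -/
def K2 (H : Par) : ℕ := (5 + H.g ^ 2) * K1 H

open scoped Classical in
/-- exceptions in one block -/
theorem block (i k : ℕ) (hk : H.m (i + 1) + 2 ≤ k) :
    ((range (H.g ^ k)).filter (fun n => H.g ^ (H.m (i + 1) + 2) ≤ n ∧
      n < H.g ^ (H.m (i + 2) + 2) ∧ rep Y.A H.h n ≠ 1)).card * H.el i ≤ K2 H * H.g ^ k := by
  set N := (range (H.g ^ k)).filter (fun n => H.g ^ (H.m (i + 1) + 2) ≤ n ∧
      n < H.g ^ (H.m (i + 2) + 2) ∧ rep Y.A H.h n ≠ 1) with hN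
  have hNm : ∀ n ∈ N, n < H.g ^ k ∧ n < H.g ^ (H.m (i + 2) + 2) ∧ Y.Exc i n := by
    intro n hn
    rw [hN, mem_filter, mem_range] at hn
    refine ⟨hn.1, hn.2.2.1, ?_⟩
    by_contra hcon
    exact hn.2.2.2 (Y.rep_eq_one hn.2.1 hn.2.2.1 hcon)
  let N1 := N.filter (fun n => ∃ f : Fin H.h → ℕ, (∀ t, f t ∈ Y.A) ∧ ∑ t, f t = n ∧
    ∃ t, f t ∈ Y.Low i)
  let N2 := N.filter (fun n => ∃ f : Fin H.h → ℕ, (∀ t, f t ∈ Y.A) ∧ ∑ t, f t = n ∧
    ∃ t, f t ∈ Y.Top i)
  let N3 := N.filter (fun n => ∃ f : Fin H.h → ℕ, ∑ t, f t = n ∧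
      ∃ c : Fin H.h → Fin H.h, ¬ Function.Injective c ∧ ∀ t, f t ∈ Y.Mid (c t) i)
  let N4 := N.filter (fun n => ∃ f : Fin H.h → ℕ, (∀ t, f t ∈ Y.A) ∧ ∑ t, f t = n ∧
    ∃ t, ∃ c, f t ∈ Y.BadU c i n)
  let N5 := N.filter (fun n => ∃ f : Fin H.h → ℕ, (∀ t, f t ∈ Y.A) ∧ ∑ t, f t = n ∧
    ∃ t, ∃ c, f t ∈ Y.BadH c i n)
  have hsub : N ⊆ N1 ∪ (N2 ∪ (N3 ∪ (N4 ∪ N5))) := by
    intro n hn
    obtain ⟨_, _, f, hfA, hfs, h⟩ := hNm n hn
    simp only [N1, N2, N3, N4, N5, mem_union, mem_filter, hn, true_and]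
    rcases h with h | h | h | h | h
    · exact Or.inl ⟨f, hfA, hfs, h⟩
    · exact Or.inr (Or.inl ⟨f, hfA, hfs, h⟩)
    · exact Or.inr (Or.inr (Or.inr (Or.inl ⟨f, hfA, hfs, h⟩)))
    · exact Or.inr (Or.inr (Or.inr (Or.inr ⟨f, hfA, hfs, h⟩)))
    · exact Or.inr (Or.inr (Or.inl ⟨f, hfs, h⟩))
  have hcard : N.card ≤ N1.card + (N2.card + (N3.card + (N4.card + N5.card))) := by
    refine (card_le_card hsub).trans ?_
    refine (card_union_le _ _).trans (Nat.add_le_add_left ?_ _)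
    refine (card_union_le _ _).trans (Nat.add_le_add_left ?_ _)
    refine (card_union_le _ _).trans (Nat.add_le_add_left ?_ _)
    exact card_union_le _ _
  have e1 := Y.n1 i k hk N1 (fun n hn => by
    rw [mem_filter] at hn; exact ⟨(hNm n hn.1).1, hn.2⟩)
  have e2 := Y.n2 i k hk N2 (fun n hn => by
    rw [mem_filter] at hn; exact ⟨(hNm n hn.1).1, (hNm n hn.1).2.1, hn.2⟩)
  have e3 := Y.n3 i k hk N3 (fun n hn => by
    rw [mem_filter] at hn; exact ⟨(hNm n hn.1).1, hn.2⟩)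
  have e4 := Y.n4 i k hk N4 (fun n hn => by
    rw [mem_filter] at hn; exact ⟨(hNm n hn.1).1, hn.2⟩)
  have e5 := Y.n5 i k hk N5 (fun n hn => by
    rw [mem_filter] at hn; exact ⟨(hNm n hn.1).1, hn.2⟩)
  calc N.card * H.el i
      ≤ (N1.card + (N2.card + (N3.card + (N4.card + N5.card)))) * H.el i :=
        Nat.mul_le_mul_right _ hcard
    _ = N1.card * H.el i + (N2.card * H.el i + (N3.card * H.el i + (N4.card * H.el i +
          N5.card * H.el i))) := by ring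
    _ ≤ K1 H * H.g ^ k + (2 * (K1 H * H.g ^ k) + (K1 H * H.g ^ k + (K1 H * H.g ^ k +
          H.g ^ 2 * (K1 H * H.g ^ k)))) := by
        exact Nat.add_le_add e1 (Nat.add_le_add e2 (Nat.add_le_add e3 (Nat.add_le_add e4 e5)))
    _ = K2 H * H.g ^ k := by
        rw [K2]
        ring

end Sys

end Run7.h326.NC
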