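import Pool.Agent.Run7.h326.NC8
/-!
# The final bounds
-/

set_option autoImplicit false

open Finset

namespace Run7.h326.NC

theorem exists_index (H : Par) (n : ℕ) (i₀ : ℕ) (hn : H.g ^ (H.m (i₀ + 1) + 2) ≤ n) :
    ∃ i, i₀ ≤ i ∧ H.g ^ (H.m (i + 1) + 2) ≤ n ∧ n < H.g ^ (H.m (i + 2) + 2) := by
  classical
  have h9 := H.nine_le_g
  have hex : ∃ j, n < H.g ^ (H.m (j + 2) + 2) := by
    refine ⟨n, ?_⟩
    have h1 := H.m_ge (n + 2)
    have h2 : n < H.g ^ n := Nat.lt_pow_self (by omega)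
    have h3 : H.g ^ n ≤ H.g ^ (H.m (n + 2) + 2) := Nat.pow_le_pow_right H.g_pos (by omega)
    omega
  have h1 := Nat.find_spec hex
  set i := Nat.find hex with hi
  have h0 : i₀ ≤ i := by
    by_contra hcon
    push Not at hcon
    have h2 : H.g ^ (H.m (i + 2) + 2) ≤ H.g ^ (H.m (i₀ + 1) + 2) := by
      apply Nat.pow_le_pow_right H.g_pos
      have := H.m_mono (show i + 2 ≤ i₀ + 1 by omega)
      omega
    omega
  refine ⟨i, h0, ?_, h1⟩
  rcases Nat.eq_or_lt_of_le h0 with h | h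
  · rw [← h]
    exact hn
  · have h2 := Nat.find_min hex (m := i - 1) (by omega)
    have h3 : i - 1 + 2 = i + 1 := by omega
    rw [h3] at h2
    omega

namespace Sys

variable {H : Par} (Y : Sys H)

theorem rep_pos_of_ge : ∃ N : ℕ, ∀ n ≥ N, 1 ≤ rep Y.A H.h n := by
  refine ⟨H.g ^ (H.m (0 + 1) + 2), fun n hn => ?_⟩
  obtain ⟨i, _, h2, h3⟩ := exists_index H n 0 hn
  exact Y.rep_pos h2 h3

section counting

open scoped Classical

theorem thin_rpow (x : ℕ) (hx : 1 ≤ x) :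
    (((Icc 0 x).filter (fun a => a ∈ Y.A)).card : ℝ) ≤
      (4 * H.h * H.q : ℕ) * (x : ℝ) ^ ((H.h : ℝ)⁻¹) := by
  have h9 := H.nine_le_g
  set L := Nat.log H.g x with hL
  have h1 : x < H.g ^ (L + 1) := Nat.lt_pow_succ_log_self (by omega) x
  have h2 : H.g ^ L ≤ x := Nat.pow_log_le_self H.g (by omega)
  have h3 : ((Icc 0 x).filter (fun a => a ∈ Y.A)).card ≤ 4 * H.h * H.q ^ (L + 1) := by
    refine le_trans (card_le_card ?_) (Y.thin (L + 1))
    intro a ha
    rw [mem_filter, mem_Icc] at ha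
    rw [mem_filter, mem_range]
    exact ⟨by omega, ha.2⟩
  have h4 : (H.q : ℝ) ^ L ≤ (x : ℝ) ^ ((H.h : ℝ)⁻¹) := by
    have e1 : (H.q : ℝ) ^ L = (((H.q : ℝ) ^ L) ^ H.h) ^ ((H.h : ℝ)⁻¹) := by
      rw [Real.pow_rpow_inv_natCast (by positivity) H.h_pos.ne']
    rw [e1]
    apply Real.rpow_le_rpow (by positivity) _ (by positivity)
    have e2 : ((H.q : ℝ) ^ L) ^ H.h = ((H.g ^ L : ℕ) : ℝ) := by
      rw [Par.g]
      push_cast
      rw [← pow_mul, ← pow_mul, mul_comm]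
    rw [e2]
    exact_mod_cast h2
  have h5 : (((Icc 0 x).filter (fun a => a ∈ Y.A)).card : ℝ) ≤
      ((4 * H.h * H.q ^ (L + 1) : ℕ) : ℝ) := by
    exact_mod_cast h3
  refine h5.trans ?_
  have : ((4 * H.h * H.q ^ (L + 1) : ℕ) : ℝ) = (4 * H.h * H.q : ℕ) * (H.q : ℝ) ^ L := by
    push_cast
    ring
  rw [this]
  exact mul_le_mul_of_nonneg_left h4 (Nat.cast_nonneg _)

/-- the constant of the exceptional set -/
def K3 (H : Par) : ℕ := 1 + (K2 H + K2 H * H.g)

theorem exc_nat (i x : ℕ) (hi : 1 ≤ i) (h1 : H.g ^ (H.m (i + 1) + 2) ≤ x)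
    (h2 : x < H.g ^ (H.m (i + 2) + 2)) :
    ((Icc 1 x).filter (fun n => rep Y.A H.h n ≠ 1)).card * H.el (i - 1) ≤ K3 H * x := by
  have h9 := H.nine_le_g
  set k := Nat.log H.g x + 1 with hk
  have hx : 1 ≤ x := by
    have : 0 < H.g ^ (H.m (i + 1) + 2) := pow_pos H.g_pos _
    omega
  have hk1 : x < H.g ^ k := Nat.lt_pow_succ_log_self (by omega) x
  have hk2 : H.g ^ Nat.log H.g x ≤ x := Nat.pow_log_le_self H.g (by omega)
  have hk3 : H.m (i + 1) + 2 ≤ k := by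
    have := (Nat.le_log_iff_pow_le (by omega : 1 < H.g) (by omega)).2 h1
    omega
  let N0 := range (H.g ^ (H.m i + 2))
  let N1 := (range (H.g ^ (H.m (i + 1) + 2))).filter (fun n => H.g ^ (H.m (i - 1 + 1) + 2) ≤ n ∧
    n < H.g ^ (H.m (i - 1 + 2) + 2) ∧ rep Y.A H.h n ≠ 1)
  let N2 := (range (H.g ^ k)).filter (fun n => H.g ^ (H.m (i + 1) + 2) ≤ n ∧
    n < H.g ^ (H.m (i + 2) + 2) ∧ rep Y.A H.h n ≠ 1)
  have hsub : (Icc 1 x).filter (fun n => rep Y.A H.h n ≠ 1) ⊆ N0 ∪ (N1 ∪ N2) := by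
    intro n hn
    rw [mem_filter, mem_Icc] at hn
    simp only [N0, N1, N2, mem_union, mem_filter, mem_range]
    have e1 : i - 1 + 1 = i := by omega
    have e2 : i - 1 + 2 = i + 1 := by omega
    rw [e1, e2]
    rcases Nat.lt_or_ge n (H.g ^ (H.m i + 2)) with h3 | h3
    · exact Or.inl h3
    · rcases Nat.lt_or_ge n (H.g ^ (H.m (i + 1) + 2)) with h4 | h4
      · exact Or.inr (Or.inl ⟨h4, h3, h4, hn.2⟩)
      · exact Or.inr (Or.inr ⟨by omega, h4, by omega, hn.2⟩)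
  have hcard := (card_le_card hsub).trans ((card_union_le _ _).trans
    (Nat.add_le_add_left (card_union_le _ _) _))
  have hb1 := Y.block (i - 1) (H.m (i + 1) + 2) (by
    have e1 : i - 1 + 1 = i := by omega
    rw [e1]
    have := H.m_mono (show i ≤ i + 1 by omega)
    omega)
  have hb2 := Y.block i k hk3
  have hel : H.el (i - 1) ≤ H.el i := H.el_mono (by omega)
  have hel2 : H.el (i - 1) ≤ H.g ^ H.s i := by
    refine hel.trans ?_
    have h3 : H.el i < H.g ^ H.el i := Nat.lt_pow_self (by omega)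
    have h5 : H.g ^ H.el i ≤ H.g ^ H.s i :=
      Nat.pow_le_pow_right H.g_pos (by unfold Par.s; omega)
    omega
  have hN0 : N0.card * H.el (i - 1) ≤ x := by
    simp only [N0, card_range]
    calc H.g ^ (H.m i + 2) * H.el (i - 1) ≤ H.g ^ (H.m i + 2) * H.g ^ H.s i :=
          Nat.mul_le_mul_left _ hel2
      _ = H.g ^ (H.m (i + 1) + 2) := by
          rw [H.m_succ, ← pow_add]
          congr 1
          ring
      _ ≤ x := h1
  have hN1 : N1.card * H.el (i - 1) ≤ K2 H * x := hb1.trans (Nat.mul_le_mul_left _ h1)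
  have hN2 : N2.card * H.el (i - 1) ≤ K2 H * H.g * x := by
    refine (Nat.mul_le_mul_left _ hel).trans (hb2.trans ?_)
    rw [hk, pow_succ, mul_assoc, mul_comm H.g x]
    exact Nat.mul_le_mul_left _ (Nat.mul_le_mul_right _ hk2)
  calc ((Icc 1 x).filter (fun n => rep Y.A H.h n ≠ 1)).card * H.el (i - 1)
      ≤ (N0.card + (N1.card + N2.card)) * H.el (i - 1) := Nat.mul_le_mul_right _ hcard
    _ = N0.card * H.el (i - 1) + (N1.card * H.el (i - 1) + N2.card * H.el (i - 1)) := by ring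
    _ ≤ x + (K2 H * x + K2 H * H.g * x) := Nat.add_le_add hN0 (Nat.add_le_add hN1 hN2)
    _ = K3 H * x := by
        rw [K3]
        ring

end counting

end Sys

theorem loglog_le (H : Par) : ∃ C : ℝ, 0 ≤ C ∧ ∀ i x : ℕ, 1 ≤ i → H.g ^ (H.m (i + 1) + 2) ≤ x →
    x < H.g ^ (H.m (i + 2) + 2) → Real.log (Real.log x) ≤ C * (H.el (i - 1) : ℝ) := by
  have h9 := H.nine_le_g
  have hg1 : (1 : ℝ) ≤ H.g := by exact_mod_cast H.g_pos
  have hb1 : (1 : ℝ) ≤ ((H.q ^ H.E : ℕ) : ℝ) := by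
    exact_mod_cast Nat.one_le_pow _ _ H.q_pos
  have hl1 : 0 ≤ Real.log ((32 : ℝ) * H.g) := Real.log_nonneg (by linarith)
  have hl2 : 0 ≤ Real.log ((H.q ^ H.E : ℕ) : ℝ) := Real.log_nonneg hb1
  refine ⟨Real.log ((32 : ℝ) * H.g) + 2 * Real.log ((H.q ^ H.E : ℕ) : ℝ), by linarith, ?_⟩
  intro i x hi h1 h2
  have hx9 : 9 ≤ x := by
    have h3 : H.g ^ 1 ≤ H.g ^ (H.m (i + 1) + 2) := Nat.pow_le_pow_right H.g_pos (by omega)
    rw [pow_one] at h3
    omega
  have hx0 : (0 : ℝ) < x := by exact_mod_cast (by omega : 0 < x)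
  have h3 : Real.log x ≤ (H.m (i + 2) + 2 : ℕ) * (H.g : ℝ) := by
    have h4 : (x : ℝ) ≤ (H.g : ℝ) ^ (H.m (i + 2) + 2) := by exact_mod_cast h2.le
    have h5 := Real.log_le_log hx0 h4
    rw [Real.log_pow] at h5
    refine h5.trans (mul_le_mul_of_nonneg_left ?_ (Nat.cast_nonneg _))
    exact (Real.log_le_sub_one_of_pos (by linarith)).trans (by linarith)
  have h4 : H.m (i + 2) + 2 ≤ 32 * i ^ 2 := by
    have h5 := H.m_le (i + 2)
    have h6 := H.el_le (i + 2)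
    have h7 : 2 * (i + 2) * H.el (i + 2) ≤ 2 * (i + 2) * (i + 4) := Nat.mul_le_mul_left _ h6
    nlinarith
  have h5 : i ≤ (H.q ^ H.E) ^ (H.el (i - 1)) := by
    have h6 : i - 1 + 1 = i := by omega
    have h7 : H.el (i - 1) = Nat.log (H.q ^ H.E) i + 2 := by
      unfold Par.el
      rw [h6]
    rw [h7]
    have hb : 1 < H.q ^ H.E := by
      apply Nat.one_lt_pow
      · unfold Par.E
        have := pow_pos H.h_pos 3
        omega
      · have := H.three_le
        omega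
    refine (Nat.lt_pow_succ_log_self hb i).le.trans ?_
    exact Nat.pow_le_pow_right (by omega) (by omega)
  have h6 : Real.log x ≤ (32 * H.g) * (((H.q ^ H.E : ℕ) : ℝ) ^ H.el (i - 1)) ^ 2 := by
    have h7 : (i : ℝ) ≤ ((H.q ^ H.E : ℕ) : ℝ) ^ (H.el (i - 1)) := by exact_mod_cast h5
    have h8 : ((H.m (i + 2) + 2 : ℕ) : ℝ) ≤ 32 * (i : ℝ) ^ 2 := by exact_mod_cast h4
    have h9 : (i : ℝ) ^ 2 ≤ (((H.q ^ H.E : ℕ) : ℝ) ^ H.el (i - 1)) ^ 2 := by gcongr
    calc Real.log x ≤ (H.m (i + 2) + 2 : ℕ) * (H.g : ℝ) := h3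
      _ ≤ (32 * (i : ℝ) ^ 2) * (H.g : ℝ) := mul_le_mul_of_nonneg_right h8 (by linarith)
      _ ≤ (32 * (((H.q ^ H.E : ℕ) : ℝ) ^ H.el (i - 1)) ^ 2) * (H.g : ℝ) := by
          apply mul_le_mul_of_nonneg_right _ (by linarith)
          linarith
      _ = _ := by ring
  have h7 : 0 < Real.log x := Real.log_pos (by exact_mod_cast (by omega : 1 < x))
  have h8 := Real.log_le_log h7 h6
  have hp : (0 : ℝ) < ((H.q ^ H.E : ℕ) : ℝ) := by linarith
  rw [Real.log_mul (by positivity) (by positivity), Real.log_pow, Real.log_pow] at h8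
  have h11 : (1 : ℝ) ≤ H.el (i - 1) := by
    have := H.el_ge (i - 1)
    exact_mod_cast (by omega : 1 ≤ H.el (i - 1))
  calc Real.log (Real.log x)
      ≤ Real.log ((32 : ℝ) * H.g) * 1 + 2 * (H.el (i - 1) * Real.log ((H.q ^ H.E : ℕ) : ℝ)) := by
        rw [mul_one]
        exact_mod_cast h8
    _ ≤ Real.log ((32 : ℝ) * H.g) * H.el (i - 1) +
          2 * (H.el (i - 1) * Real.log ((H.q ^ H.E : ℕ) : ℝ)) := by
        have := mul_le_mul_of_nonneg_left h11 hl1
        linarith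
    _ = _ := by ring

namespace Sys

variable {H : Par} (Y : Sys H)

open scoped Classical in
theorem exceptions : ∃ C : ℝ, ∀ x : ℕ, 16 ≤ x →
    (((Icc 1 x).filter (fun n => rep Y.A H.h n ≠ 1)).card : ℝ) ≤
      C * (x / Real.log (Real.log x)) := by
  obtain ⟨C0, hC0, hlog⟩ := loglog_le H
  set X0 : ℕ := H.g ^ (H.m (1 + 1) + 2) with hX0
  refine ⟨K3 H * C0 + Real.log (Real.log X0), ?_⟩
  intro x hx
  have h16 : ∀ y : ℕ, 16 ≤ y → (0 : ℝ) < Real.log (Real.log y) := by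
    intro y hy
    apply Real.log_pos
    have h1 : Real.log 16 ≤ Real.log y := Real.log_le_log (by norm_num) (by exact_mod_cast hy)
    have h9 : Real.log 16 = 4 * Real.log 2 := by
      have : (16 : ℝ) = 2 ^ 4 := by norm_num
      rw [this, Real.log_pow]
      norm_num
    have := Real.log_two_gt_d9
    linarith
  have hx1 := h16 x hx
  have hX : (0 : ℝ) < Real.log (Real.log X0) := by
    apply h16
    have h9 := H.nine_le_g
    calc 16 ≤ H.g ^ 2 := by nlinarith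
      _ ≤ X0 := Nat.pow_le_pow_right H.g_pos (by omega)
  rw [← mul_div_assoc, le_div_iff₀ hx1]
  rcases Nat.lt_or_ge x X0 with h | h
  · have h1 : (((Icc 1 x).filter (fun n => rep Y.A H.h n ≠ 1)).card : ℝ) ≤ x := by
      have : ((Icc 1 x).filter (fun n => rep Y.A H.h n ≠ 1)).card ≤ x := by
        refine (card_filter_le _ _).trans ?_
        simp
      exact_mod_cast this
    have h2 : Real.log (Real.log x) ≤ Real.log (Real.log X0) := by
      have h3 : (1 : ℝ) < x := by exact_mod_cast (by omega : 1 < x)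
      apply Real.log_le_log (Real.log_pos h3)
      apply Real.log_le_log (by linarith)
      exact_mod_cast h.le
    have h3 : (0 : ℝ) ≤ x := Nat.cast_nonneg x
    have h4 : (((Icc 1 x).filter (fun n => rep Y.A H.h n ≠ 1)).card : ℝ) * Real.log (Real.log x)
        ≤ x * Real.log (Real.log X0) := mul_le_mul h1 h2 hx1.le h3
    have h5 : (0 : ℝ) ≤ K3 H * C0 := mul_nonneg (Nat.cast_nonneg _) hC0
    nlinarith [mul_nonneg h5 h3]
  · obtain ⟨i, hi, h1, h2⟩ := exists_index H x 1 h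
    have h3 := Y.exc_nat i x hi h1 h2
    have h4 := hlog i x hi h1 h2
    have h5 : (((Icc 1 x).filter (fun n => rep Y.A H.h n ≠ 1)).card : ℝ) * (H.el (i - 1) : ℝ)
        ≤ K3 H * x := by exact_mod_cast h3
    have h6 : (0 : ℝ) ≤ (((Icc 1 x).filter (fun n => rep Y.A H.h n ≠ 1)).card : ℝ) :=
      Nat.cast_nonneg _
    have h7 : (0 : ℝ) ≤ x := Nat.cast_nonneg x
    calc (((Icc 1 x).filter (fun n => rep Y.A H.h n ≠ 1)).card : ℝ) * Real.log (Real.log x)
        ≤ (((Icc 1 x).filter (fun n => rep Y.A H.h n ≠ 1)).card : ℝ) *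
            (C0 * (H.el (i - 1) : ℝ)) := mul_le_mul_of_nonneg_left h4 h6
      _ = C0 * ((((Icc 1 x).filter (fun n => rep Y.A H.h n ≠ 1)).card : ℝ) *
            (H.el (i - 1) : ℝ)) := by ring
      _ ≤ C0 * (K3 H * x) := mul_le_mul_of_nonneg_left h5 hC0
      _ ≤ (K3 H * C0 + Real.log (Real.log X0)) * x := by
          nlinarith [mul_nonneg hX.le h7]

theorem rep_le_log : ∃ C : ℝ, ∀ n : ℕ, 2 ≤ n →
    (rep Y.A H.h n : ℝ) ≤ C * Real.log n ^ H.h ^ 2 := by
  obtain ⟨C, hC⟩ := Y.reps_le_log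
  refine ⟨C, fun n hn => le_trans ?_ (hC n hn)⟩
  exact_mod_cast Y.rep_le_card n

end Sys

end Run7.h326.NC
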