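import Mathlib
import Pool.Agent.Y940.NP.Prob

set_option autoImplicit false

open Finset Filter MeasureTheory ProbabilityTheory

namespace Run7.h326.PT

open Pool.Agent.Y940.NP (exists_patterns no_pattern rep rep_finite)

/-- many disjoint patterns in a block, under a local condition -/
theorem patterns_local (α : ℕ → ℕ) (hα : StrictMono α) (C : ℕ) (hC1 : 1 ≤ C) (k : ℕ) (hk : 1 ≤ k)
    (I : ℕ) (hIk : 6 * k ≤ I) (hC : ∀ i, I ≤ i → i < 3 * I → α i ≤ C * (i + 1) ^ 2) :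
    ∃ (J : ℕ → Finset ℕ) (ζ : ℕ → ℕ → ℕ) (n : ℕ → ℕ),
      (∀ t < I / (4 * k), I ≤ n t ∧ (J t).card ≤ 2 * k ∧ (∀ i ∈ J t, I ≤ i ∧ i < 3 * I) ∧
        (∀ i ∈ J t, ζ t i ≤ 1728 * (C + 1) * k ^ 2) ∧
        ∀ z : ℕ → ℕ, (∀ i ∈ J t, z i = ζ t i) →
          2 * k ≤ rep (Set.range fun i => α i + z i) (n t)) ∧
      ∀ s t, s < t → t < I / (4 * k) → Disjoint (J s) (J t) := by
  classical
  set β : ℕ → ℕ := fun i => if I ≤ i ∧ i < 3 * I then α i else i with hβ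
  have hβ1 : ∀ i, i ≤ β i := by
    intro i
    simp only [hβ]
    split_ifs
    · exact hα.le_apply
    · exact le_rfl
  have hβ2 : ∀ i, β i ≤ C * (i + 1) ^ 2 := by
    intro i
    simp only [hβ]
    split_ifs with h
    · exact hC i h.1 h.2
    · nlinarith
  obtain ⟨J, ζ, n, h1, h2⟩ := exists_patterns β hβ1 C hβ2 k hk I hIk
  refine ⟨J, ζ, n, fun t ht => ?_, h2⟩
  obtain ⟨a1, a2, a3, a4, a5⟩ := h1 t ht
  refine ⟨a1, a2, a3, a4, fun z hz => ?_⟩
  have h3 := a5 (fun i => if i ∈ J t then z i else n t + 1) (fun i hi => by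
    simp only [if_pos hi]
    exact hz i hi)
  refine h3.trans ?_
  unfold rep
  refine Set.ncard_le_ncard ?_ (rep_finite _ _)
  rintro ⟨a, b⟩ ⟨⟨i, hi⟩, ⟨j, hj⟩, hab⟩
  simp only at hi hj hab
  have key : ∀ i v, β i + (if i ∈ J t then z i else n t + 1) = v → v ≤ n t →
      α i + z i = v := by
    intro i v hv hvn
    by_cases hiJ : i ∈ J t
    · rw [if_pos hiJ] at hv
      have h4 := a3 i hiJ
      have h5 : β i = α i := by
        simp only [hβ]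
        rw [if_pos h4]
      rw [h5] at hv
      exact hv
    · rw [if_neg hiJ] at hv
      omega
  exact ⟨⟨i, key i a hi (by omega)⟩, ⟨j, key j b hj (by omega)⟩, hab⟩

variable {Ω : Type} [MeasurableSpace Ω] {μ : Measure Ω}

/-- perturbations along a sequence of scales -/
theorem perturbed_local [IsProbabilityMeasure μ] (Z : ℕ → Ω → ℕ) (hZ : ∀ i, Measurable (Z i))
    (hind : iIndepFun Z μ) (α : ℕ → ℕ) (hα : StrictMono α) (k : ℕ) (hk : 1 ≤ k)
    (hS : ∃ᶠ I : ℕ in atTop, ∃ C : ℕ, 1 ≤ C ∧ (∀ i, I ≤ i → i < 3 * I → α i ≤ C * (i + 1) ^ 2) ∧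
      ∀ i, I ≤ i → i < 3 * I → ∀ z ≤ 1728 * (C + 1) * k ^ 2,
        (i : ℝ) ^ (-(1 / (8 * k) : ℝ)) ≤ μ.real {ω | Z i ω = z}) :
    ∀ᵐ ω ∂μ, ∀ m : ℕ, ∃ n ≥ m, 2 * k ≤ rep (Set.range fun i => α i + Z i ω) n := by
  classical
  have hk' : (1 : ℝ) ≤ k := by exact_mod_cast hk
  set Good : ℕ → Prop := fun I => 6 * k ≤ I ∧ ∃ C : ℕ, 1 ≤ C ∧
    (∀ i, I ≤ i → i < 3 * I → α i ≤ C * (i + 1) ^ 2) ∧
      ∀ i, I ≤ i → i < 3 * I → ∀ z ≤ 1728 * (C + 1) * k ^ 2,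
        (i : ℝ) ^ (-(1 / (8 * k) : ℝ)) ≤ μ.real {ω | Z i ω = z} with hGood
  have hx : ∀ I : ℕ, ∃ (J : ℕ → Finset ℕ) (ζ : ℕ → ℕ → ℕ) (n : ℕ → ℕ), Good I →
      (∀ t < I / (4 * k), I ≤ n t ∧ (J t).card ≤ 2 * k ∧ (∀ i ∈ J t, I ≤ i ∧ i < 3 * I) ∧
        (∀ i ∈ J t, (i : ℝ) ^ (-(1 / (8 * k) : ℝ)) ≤ μ.real {ω | Z i ω = ζ t i}) ∧
        ∀ z : ℕ → ℕ, (∀ i ∈ J t, z i = ζ t i) →
          2 * k ≤ rep (Set.range fun i => α i + z i) (n t)) ∧
      ∀ s t, s < t → t < I / (4 * k) → Disjoint (J s) (J t) := by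
    intro I
    by_cases hI : Good I
    · obtain ⟨h6, C, hC1, hC2, hC3⟩ := hI
      obtain ⟨J, ζ, n, h1, h2⟩ := patterns_local α hα C hC1 k hk I h6 hC2
      refine ⟨J, ζ, n, fun _ => ⟨fun t ht => ?_, h2⟩⟩
      obtain ⟨a1, a2, a3, a4, a5⟩ := h1 t ht
      exact ⟨a1, a2, a3, fun i hi => hC3 i (a3 i hi).1 (a3 i hi).2 _ (a4 i hi), a5⟩
    · exact ⟨fun _ => ∅, fun _ _ => 0, fun _ => 0, fun h => absurd h hI⟩
  choose J ζ n hJ using hx
  set bad : ℕ → Set Ω := fun I => if Good I then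
    {ω | ∀ t < I / (4 * k), ¬ ∀ i ∈ J I t, Z i ω = ζ I t i} else ∅ with hbad
  -- a lower bound for large `I`
  have hpow : Tendsto (fun N : ℕ => (N : ℝ) ^ (1 / 4 : ℝ)) atTop atTop :=
    (tendsto_rpow_atTop (by norm_num)).comp tendsto_natCast_atTop_atTop
  obtain ⟨i₂, hi₂⟩ := eventually_atTop.1 (hpow.eventually_ge_atTop (24 * (k : ℝ)))
  set i₀ := max i₂ (8 * k) with hi₀
  have hbound : ∀ I, i₀ ≤ I → μ (bad I) ≤ ENNReal.ofReal (24 / (I : ℝ) ^ 2) := by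
    intro I hI
    have hI2 : i₂ ≤ I := (le_max_left _ _).trans hI
    have hI3 : 8 * k ≤ I := (le_max_right _ _).trans hI
    have hI0 : (0 : ℝ) < I := by
      have : 0 < I := by omega
      exact_mod_cast this
    by_cases hgood : Good I
    swap
    · simp only [hbad, if_neg hgood, measure_empty]
      exact zero_le
    have hbI : bad I = {ω | ∀ t < I / (4 * k), ¬ ∀ i ∈ J I t, Z i ω = ζ I t i} := by
      simp only [hbad, if_pos hgood]
    obtain ⟨hJ1, hJ2⟩ := hJ I hgood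
    rw [hbI]
    set T := I / (4 * k) with hT
    have hTlow : (I : ℝ) / (8 * k) ≤ T := by
      have h1 : I < 4 * k * (T + 1) := Nat.lt_mul_div_succ I (by omega)
      have h2 : (I : ℝ) < 4 * k * (T + 1) := by exact_mod_cast h1
      have h3 : 2 ≤ T := by
        rw [hT, Nat.le_div_iff_mul_le (by omega)]
        linarith
      have h4 : (2 : ℝ) ≤ T := by exact_mod_cast h3
      rw [div_le_iff₀ (by positivity)]
      nlinarith
    have hp : ∀ t < T, (3 * I : ℝ) ^ (-(1 / 4) : ℝ) ≤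
        ∏ i ∈ J I t, μ.real (Z i ⁻¹' {ζ I t i}) := by
      intro t ht
      obtain ⟨_, h1, h2, h3, _⟩ := hJ1 t ht
      have h4 : ∀ i ∈ J I t, (3 * I : ℝ) ^ (-(1 / (8 * k)) : ℝ) ≤
          μ.real (Z i ⁻¹' {ζ I t i}) := by
        intro i hi
        refine le_trans ?_ (h3 i hi)
        have h5 : (0 : ℝ) < i := by
          have : 0 < i := by have := (h2 i hi).1; omega
          exact_mod_cast this
        refine Real.rpow_le_rpow_of_nonpos h5 ?_ (by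
          rw [Left.neg_nonpos_iff]; positivity)
        exact_mod_cast (h2 i hi).2.le
      have h6 : (3 * I : ℝ) ^ (-(1 / (8 * k)) : ℝ) ≤ 1 := by
        refine Real.rpow_le_one_of_one_le_of_nonpos ?_ (by
          rw [Left.neg_nonpos_iff]; positivity)
        have : (1 : ℝ) ≤ I := by exact_mod_cast (by omega : 1 ≤ I)
        linarith
      have h7 : (0 : ℝ) ≤ (3 * I : ℝ) ^ (-(1 / (8 * k)) : ℝ) := by positivity
      calc (3 * I : ℝ) ^ (-(1 / 4) : ℝ)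
          = ((3 * I : ℝ) ^ (-(1 / (8 * k)) : ℝ)) ^ (2 * k) := by
            rw [← Real.rpow_natCast, ← Real.rpow_mul (by positivity)]
            congr 1
            push_cast
            field_simp
            norm_num
        _ ≤ ((3 * I : ℝ) ^ (-(1 / (8 * k)) : ℝ)) ^ (J I t).card :=
            pow_le_pow_of_le_one h7 h6 h1
        _ = ∏ i ∈ J I t, (3 * I : ℝ) ^ (-(1 / (8 * k)) : ℝ) := by rw [prod_const]
        _ ≤ _ := prod_le_prod (fun _ _ => h7) h4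
    have h1 := no_pattern Z hZ hind T (J I) (ζ I) hJ2 _ hp
    -- the exponent
    have h2 : Real.sqrt I ≤ (3 * I : ℝ) ^ (-(1 / 4) : ℝ) * T := by
      have h3 : (3 * I : ℝ) ^ (-(1 / 4) : ℝ) = 1 / (3 * I : ℝ) ^ (1 / 4 : ℝ) := by
        rw [Real.rpow_neg (by positivity), inv_eq_one_div]
      have h4 : (3 * I : ℝ) ^ (1 / 4 : ℝ) ≤ 3 * (I : ℝ) ^ (1 / 4 : ℝ) := by
        rw [Real.mul_rpow (by norm_num) (by positivity)]
        gcongr
        calc (3 : ℝ) ^ (1 / 4 : ℝ) ≤ (3 : ℝ) ^ (1 : ℝ) :=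
              Real.rpow_le_rpow_of_exponent_le (by norm_num) (by norm_num)
          _ = 3 := Real.rpow_one 3
      have h5 : 24 * (k : ℝ) ≤ (I : ℝ) ^ (1 / 4 : ℝ) := hi₂ I hI2
      have h6 : (I : ℝ) = Real.sqrt I * ((I : ℝ) ^ (1 / 4 : ℝ) * (I : ℝ) ^ (1 / 4 : ℝ)) := by
        rw [Real.sqrt_eq_rpow, ← Real.rpow_add hI0, ← Real.rpow_add hI0]
        norm_num
      have hq : (0 : ℝ) < (I : ℝ) ^ (1 / 4 : ℝ) := by positivity
      rw [h3, div_mul_eq_mul_div, one_mul, le_div_iff₀ (by positivity)]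
      refine le_trans ?_ hTlow
      rw [le_div_iff₀ (by positivity)]
      calc Real.sqrt I * (3 * I : ℝ) ^ (1 / 4 : ℝ) * (8 * k)
          ≤ Real.sqrt I * (3 * (I : ℝ) ^ (1 / 4 : ℝ)) * (8 * k) := by gcongr
        _ = Real.sqrt I * (I : ℝ) ^ (1 / 4 : ℝ) * (24 * k) := by ring
        _ ≤ Real.sqrt I * (I : ℝ) ^ (1 / 4 : ℝ) * (I : ℝ) ^ (1 / 4 : ℝ) := by gcongr
        _ = I := by rw [mul_assoc, ← h6]
    have h3 : Real.exp (-((3 * I : ℝ) ^ (-(1 / 4) : ℝ) * T)) ≤ 24 / (I : ℝ) ^ 2 := by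
      have h4 : Real.exp (-((3 * I : ℝ) ^ (-(1 / 4) : ℝ) * T)) ≤ Real.exp (-Real.sqrt I) :=
        Real.exp_le_exp.2 (by linarith)
      refine h4.trans ?_
      have h5 := Real.pow_div_factorial_le_exp (x := Real.sqrt I) (Real.sqrt_nonneg _) 4
      have h6 : Real.sqrt (I : ℝ) ^ 4 = (I : ℝ) ^ 2 := by
        calc Real.sqrt (I : ℝ) ^ 4 = (Real.sqrt (I : ℝ) ^ 2) ^ 2 := by ring
          _ = (I : ℝ) ^ 2 := by rw [Real.sq_sqrt hI0.le]
      rw [h6] at h5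
      have h7 : ((Nat.factorial 4 : ℕ) : ℝ) = 24 := by norm_num [Nat.factorial]
      rw [h7] at h5
      rw [Real.exp_neg, inv_eq_one_div, div_le_div_iff₀ (Real.exp_pos _) (by positivity)]
      rw [div_le_iff₀ (by norm_num)] at h5
      linarith
    calc _ = ENNReal.ofReal (μ.real {ω | ∀ t < T, ¬ ∀ i ∈ J I t, Z i ω = ζ I t i}) := by
          rw [ofReal_measureReal]
      _ ≤ ENNReal.ofReal (24 / (I : ℝ) ^ 2) := ENNReal.ofReal_le_ofReal (h1.trans h3)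
  -- Borel-Cantelli
  have hsum : ∑' j, μ (bad (i₀ + j)) ≠ ⊤ := by
    have h1 : ∀ j, μ (bad (i₀ + j)) ≤ ENNReal.ofReal (24 * (1 / ((j + i₀ : ℕ) : ℝ) ^ 2)) := by
      intro j
      refine (hbound (i₀ + j) (Nat.le_add_right _ _)).trans (le_of_eq ?_)
      rw [add_comm i₀ j]
      congr 1
      ring
    have h2 : Summable fun j : ℕ => 24 * (1 / ((j + i₀ : ℕ) : ℝ) ^ 2) := by
      refine Summable.mul_left 24 ?_
      exact (summable_nat_add_iff (f := fun n : ℕ => 1 / ((n : ℕ) : ℝ) ^ 2) i₀).2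
        (Real.summable_one_div_nat_pow.2 (by norm_num))
    refine ne_top_of_le_ne_top ?_ (ENNReal.tsum_le_tsum h1)
    rw [← ENNReal.ofReal_tsum_of_nonneg (fun j => by positivity) h2]
    exact ENNReal.ofReal_ne_top
  filter_upwards [ae_eventually_notMem hsum] with ω hω m
  obtain ⟨j₀, hj₀⟩ := eventually_atTop.1 hω
  obtain ⟨I, ⟨C, hC⟩, hI⟩ := (hS.and_eventually
    (eventually_ge_atTop (max m (max (i₀ + j₀) (6 * k))))).exists
  have hIm : m ≤ I := (le_max_left _ _).trans hI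
  have hIi : i₀ + j₀ ≤ I := ((le_max_left _ _).trans (le_max_right _ _)).trans hI
  have hI6 : 6 * k ≤ I := ((le_max_right _ _).trans (le_max_right _ _)).trans hI
  have hgood : Good I := ⟨hI6, C, hC⟩
  have h1 := hj₀ (I - i₀) (by omega)
  have h2 : i₀ + (I - i₀) = I := by omega
  rw [h2] at h1
  simp only [hbad, if_pos hgood, Set.mem_ofPred_eq] at h1
  push Not at h1
  obtain ⟨t, ht, h3⟩ := h1
  obtain ⟨h4, _, _, _, h5⟩ := (hJ I hgood).1 t ht
  exact ⟨n I t, hIm.trans h4, h5 (fun i => Z i ω) h3⟩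

end Run7.h326.PT
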