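import Pool.Agent.Run7.h326.PT1

set_option autoImplicit false

open Finset Filter MeasureTheory ProbabilityTheory

namespace Run7.h326.PT

/-- the elements of `A` below `N` are the first `|A ∩ [1, N]|` ones, at least -/
theorem nth_le {A : Set ℕ} (hA : A.Infinite) (N i : ℕ) (h : i < (A ∩ Set.Icc 1 N).ncard) :
    Nat.nth (fun a => a ∈ A) i ≤ N := by
  classical
  have h1 : (A ∩ Set.Icc 1 N).ncard ≤ Nat.count (fun a => a ∈ A) (N + 1) := by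
    rw [Nat.count_eq_card_filter_range]
    have h2 : A ∩ Set.Icc 1 N ⊆ (((range (N + 1)).filter (fun a => a ∈ A) : Finset ℕ) : Set ℕ) := by
      rintro a ⟨h1, h2, h3⟩
      simp only [coe_filter, mem_range, Set.mem_ofPred_eq]
      exact ⟨by omega, h1⟩
    refine (Set.ncard_le_ncard h2 (Finset.finite_toSet _)).trans ?_
    rw [Set.ncard_coe_finset]
  have h3 : Nat.nth (fun a => a ∈ A) i < N + 1 := Nat.nth_lt_of_lt_count (lt_of_lt_of_le h h1)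
  omega

variable {Ω : Type} [MeasurableSpace Ω] {μ : Measure Ω}

/-- the local condition from a density condition -/
theorem scale {A : Set ℕ} (hA : A.Infinite) {g : ℕ → ℝ} (hgm : Monotone g)
    (hg12 : ∀ᶠ N : ℕ in atTop, g N ≤ (N : ℝ) ^ (1 / 12 : ℝ)) {c : ℝ} (hc : 0 < c)
    (hd : ∃ᶠ N : ℕ in atTop, c * Real.sqrt N ≤ g N * ((A ∩ Set.Icc 1 N).ncard : ℝ))
    (k : ℕ) (hk : 1 ≤ k) (w : ℕ → ℕ)
    (hw : ∀ᶠ i : ℕ in atTop, 1728 * (16 * g (i ^ 3) ^ 2 / c ^ 2 + 3) * (k : ℝ) ^ 2 ≤ w i)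
    (Z : ℕ → Ω → ℕ)
    (hpr : ∀ᶠ i : ℕ in atTop, ∀ z ≤ w i,
      (i : ℝ) ^ (-(1 / (8 * k) : ℝ)) ≤ μ.real {ω | Z i ω = z}) :
    ∃ᶠ I : ℕ in atTop, ∃ C : ℕ, 1 ≤ C ∧
      (∀ i, I ≤ i → i < 3 * I → Nat.nth (fun a => a ∈ A) i ≤ C * (i + 1) ^ 2) ∧
      ∀ i, I ≤ i → i < 3 * I → ∀ z ≤ 1728 * (C + 1) * k ^ 2,
        (i : ℝ) ^ (-(1 / (8 * k) : ℝ)) ≤ μ.real {ω | Z i ω = z} := by
  obtain ⟨i₁, hi₁⟩ := eventually_atTop.1 hw
  obtain ⟨i₂, hi₂⟩ := eventually_atTop.1 hpr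
  rw [frequently_atTop]
  intro M
  have hpow : Tendsto (fun N : ℕ => (N : ℝ) ^ (5 / 12 : ℝ)) atTop atTop :=
    (tendsto_rpow_atTop (by norm_num)).comp tendsto_natCast_atTop_atTop
  have hpow2 : Tendsto (fun N : ℕ => (N : ℝ) ^ (1 / 4 : ℝ)) atTop atTop :=
    (tendsto_rpow_atTop (by norm_num)).comp tendsto_natCast_atTop_atTop
  obtain ⟨N, hN, hg, hp1, hp2, hN1⟩ := (hd.and_eventually (hg12.and
    ((hpow.eventually_ge_atTop ((8 + 4 * (M + i₁ + i₂ + 2)) / c)).and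
      ((hpow2.eventually_ge_atTop (64 / c ^ 3)).and (eventually_ge_atTop 1))))).exists
  set n := (A ∩ Set.Icc 1 N).ncard with hn
  have hNr : (0 : ℝ) < N := by exact_mod_cast hN1
  have hn0 : (0 : ℝ) ≤ n := Nat.cast_nonneg _
  -- `n ≥ c N ^ (5 / 12)`
  have h1 : c * (N : ℝ) ^ (5 / 12 : ℝ) ≤ n := by
    have e1 : Real.sqrt N = (N : ℝ) ^ (5 / 12 : ℝ) * (N : ℝ) ^ (1 / 12 : ℝ) := by
      rw [Real.sqrt_eq_rpow, ← Real.rpow_add hNr]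
      norm_num
    have e2 : g N * n ≤ (N : ℝ) ^ (1 / 12 : ℝ) * n := mul_le_mul_of_nonneg_right hg hn0
    have e3 : c * ((N : ℝ) ^ (5 / 12 : ℝ) * (N : ℝ) ^ (1 / 12 : ℝ)) ≤
        (N : ℝ) ^ (1 / 12 : ℝ) * n := by
      rw [← e1]
      exact hN.trans e2
    have e4 : (0 : ℝ) < (N : ℝ) ^ (1 / 12 : ℝ) := by positivity
    have e5 : (c * (N : ℝ) ^ (5 / 12 : ℝ)) * (N : ℝ) ^ (1 / 12 : ℝ) ≤
        n * (N : ℝ) ^ (1 / 12 : ℝ) := by linarith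
    exact le_of_mul_le_mul_right e5 e4
  have h2 : (8 : ℝ) + 4 * (M + i₁ + i₂ + 2) ≤ n := by
    rw [div_le_iff₀ hc] at hp1
    linarith
  have h2' : 8 + 4 * (M + i₁ + i₂ + 2) ≤ n := by exact_mod_cast h2
  set I := n / 3 with hI
  have hnI : n ≤ 4 * I := by omega
  have h3I : 3 * I ≤ n := by omega
  have hIM : M + i₁ + i₂ + 2 ≤ I := by omega
  have hIr : (0 : ℝ) < I := by
    have : 0 < I := by omega
    exact_mod_cast this
  have hnIr : (n : ℝ) ≤ 4 * I := by exact_mod_cast hnI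
  -- `N ≤ I ^ 3`
  have hNI : N ≤ I ^ 3 := by
    have e1 : c * (N : ℝ) ^ (5 / 12 : ℝ) ≤ 4 * I := h1.trans hnIr
    have e2 : (c * (N : ℝ) ^ (5 / 12 : ℝ)) ^ 3 ≤ (4 * I) ^ 3 := by gcongr
    have e3 : ((N : ℝ) ^ (5 / 12 : ℝ)) ^ 3 = N * (N : ℝ) ^ (1 / 4 : ℝ) := by
      rw [← Real.rpow_natCast, ← Real.rpow_mul hNr.le]
      nth_rewrite 2 [← Real.rpow_one (N : ℝ)]
      rw [← Real.rpow_add hNr]
      norm_num
    rw [mul_pow, e3] at e2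
    have e4 : 64 ≤ c ^ 3 * (N : ℝ) ^ (1 / 4 : ℝ) := by
      rw [div_le_iff₀ (by positivity)] at hp2
      linarith
    have e5 : 64 * (N : ℝ) ≤ 64 * (I : ℝ) ^ 3 := by
      calc 64 * (N : ℝ) ≤ (c ^ 3 * (N : ℝ) ^ (1 / 4 : ℝ)) * N := by gcongr
        _ = c ^ 3 * (N * (N : ℝ) ^ (1 / 4 : ℝ)) := by ring
        _ ≤ (4 * I) ^ 3 := e2
        _ = _ := by ring
    have e6 : (N : ℝ) ≤ (I : ℝ) ^ 3 := by linarith
    exact_mod_cast e6
  -- positivity of `g N`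
  have hgN : 0 < g N := by
    have e1 : 0 < g N * n := by
      have : 0 < c * Real.sqrt N := by positivity
      linarith
    exact pos_of_mul_pos_left e1 hn0
  -- `N ≤ (16 g(N)² / c²) I²`
  have hNG : (N : ℝ) ≤ (16 * g N ^ 2 / c ^ 2) * (I : ℝ) ^ 2 := by
    have e1 : (c * Real.sqrt N) ^ 2 ≤ (g N * (4 * I)) ^ 2 := by
      have : c * Real.sqrt N ≤ g N * (4 * I) := hN.trans (mul_le_mul_of_nonneg_left hnIr hgN.le)
      gcongr
    rw [mul_pow, Real.sq_sqrt hNr.le] at e1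
    rw [div_mul_eq_mul_div, le_div_iff₀ (by positivity)]
    nlinarith
  set C : ℕ := ⌈16 * g N ^ 2 / c ^ 2⌉₊ + 1 with hC
  have hC1 : 16 * g N ^ 2 / c ^ 2 ≤ C := by
    rw [hC]
    push_cast
    have := Nat.le_ceil (16 * g N ^ 2 / c ^ 2)
    linarith
  have hC2 : (C : ℝ) + 1 ≤ 16 * g N ^ 2 / c ^ 2 + 3 := by
    rw [hC]
    push_cast
    have := Nat.ceil_lt_add_one (a := 16 * g N ^ 2 / c ^ 2) (by positivity)
    linarith
  refine ⟨I, by omega, C, by omega, ?_, ?_⟩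
  · intro i hi1 hi2
    have e1 : Nat.nth (fun a => a ∈ A) i ≤ N := nth_le hA N i (by omega)
    have e2 : (N : ℝ) ≤ C * ((i : ℝ) + 1) ^ 2 := by
      have e3 : (I : ℝ) ≤ (i : ℝ) + 1 := by
        have : (I : ℝ) ≤ i := by exact_mod_cast hi1
        linarith
      calc (N : ℝ) ≤ (16 * g N ^ 2 / c ^ 2) * (I : ℝ) ^ 2 := hNG
        _ ≤ C * ((i : ℝ) + 1) ^ 2 := by gcongr
    have e4 : N ≤ C * (i + 1) ^ 2 := by exact_mod_cast e2
    omega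
  · intro i hi1 hi2 z hz
    refine hi₂ i (by omega) z (hz.trans ?_)
    have e1 := hi₁ i (by omega)
    have e2 : g N ≤ g (i ^ 3) := hgm (hNI.trans (Nat.pow_le_pow_left hi1 3))
    have e3 : (((1728 * (C + 1) * k ^ 2 : ℕ)) : ℝ) ≤ w i := by
      push_cast
      calc (1728 : ℝ) * ((C : ℝ) + 1) * (k : ℝ) ^ 2
          ≤ 1728 * (16 * g N ^ 2 / c ^ 2 + 3) * (k : ℝ) ^ 2 := by gcongr
        _ ≤ 1728 * (16 * g (i ^ 3) ^ 2 / c ^ 2 + 3) * (k : ℝ) ^ 2 := by gcongr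
        _ ≤ w i := e1
    exact_mod_cast e3

end Run7.h326.PT
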