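import Mathlib
/-!
# The sunflower lemma
-/

set_option autoImplicit false

open Finset

namespace Run7.h326.RP

variable {α : Type*} [DecidableEq α]

/-- a maximal family of pairwise disjoint members -/
theorem exists_maximal_disjoint (F : Finset (Finset α)) :
    ∃ G ⊆ F, (∀ S ∈ G, ∀ T ∈ G, S ≠ T → Disjoint S T) ∧
      ∀ S ∈ F, S ∉ G → ∃ T ∈ G, ¬ Disjoint S T := by
  classical
  let P : Finset (Finset (Finset α)) :=
    F.powerset.filter (fun G => ∀ S ∈ G, ∀ T ∈ G, S ≠ T → Disjoint S T)
  have hne : P.Nonempty := ⟨∅, by simp [P]⟩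
  obtain ⟨G, hG, hmax⟩ := P.exists_max_image card hne
  simp only [P, mem_filter, mem_powerset] at hG hmax
  refine ⟨G, hG.1, hG.2, fun S hS hSG => ?_⟩
  by_contra hcon
  push Not at hcon
  have h1 : insert S G ⊆ F := insert_subset_iff.2 ⟨hS, hG.1⟩
  have h2 : ∀ A ∈ insert S G, ∀ B ∈ insert S G, A ≠ B → Disjoint A B := by
    intro A hA B hB hAB
    rw [mem_insert] at hA hB
    rcases hA with rfl | hA <;> rcases hB with rfl | hB
    · exact absurd rfl hAB
    · exact hcon B hB
    · exact (hcon A hA).symm
    · exact hG.2 A hA B hB hAB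
  have h3 := hmax (insert S G) ⟨h1, h2⟩
  rw [card_insert_of_notMem hSG] at h3
  omega

/-- **The sunflower lemma.** -/
theorem sunflower (k : ℕ) : ∀ (h : ℕ) (F : Finset (Finset α)), (∀ S ∈ F, S.card = h) →
    h.factorial * k ^ h < F.card → ∃ G ⊆ F, G.card = k + 1 ∧ ∃ Y : Finset α,
      ∀ S ∈ G, ∀ T ∈ G, S ≠ T → S ∩ T = Y := by
  intro h
  induction h with
  | zero =>
    intro F hF hc
    exfalso
    have h1 : F ⊆ {∅} := fun S hS => by
      rw [mem_singleton]
      exact card_eq_zero.1 (hF S hS)
    have h2 := card_le_card h1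
    simp at hc h2
    omega
  | succ h ih =>
    intro F hF hc
    obtain ⟨G, hGF, hG, hmax⟩ := exists_maximal_disjoint F
    rcases Nat.lt_or_ge k G.card with hk | hk
    · obtain ⟨G', hG', hc'⟩ := exists_subset_card_eq (show k + 1 ≤ G.card from hk)
      refine ⟨G', hG'.trans hGF, hc', ∅, fun S hS T hT hST => ?_⟩
      exact disjoint_iff_inter_eq_empty.1 (hG S (hG' hS) T (hG' hT) hST)
    · -- the union of the members of `G`
      set U := G.biUnion id with hU
      have hUc : U.card ≤ k * (h + 1) := by
        refine (card_biUnion_le).trans ?_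
        calc ∑ S ∈ G, (id S).card ≤ ∑ S ∈ G, (h + 1) :=
              sum_le_sum (fun S hS => (hF S (hGF hS)).le)
          _ = G.card * (h + 1) := by rw [sum_const, smul_eq_mul]
          _ ≤ k * (h + 1) := Nat.mul_le_mul_right _ hk
      have hmeet : ∀ S ∈ F, ∃ x ∈ U, x ∈ S := by
        intro S hS
        have hSne : S.Nonempty := by
          rw [← card_pos, hF S hS]
          omega
        by_cases hSG : S ∈ G
        · obtain ⟨x, hx⟩ := hSne
          exact ⟨x, mem_biUnion.2 ⟨S, hSG, hx⟩, hx⟩
        · obtain ⟨T, hT, hd⟩ := hmax S hS hSG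
          rw [Finset.not_disjoint_iff] at hd
          obtain ⟨x, hxS, hxT⟩ := hd
          exact ⟨x, mem_biUnion.2 ⟨T, hT, hxT⟩, hxS⟩
      -- pigeonhole
      have hex : ∃ x ∈ U, h.factorial * k ^ h < (F.filter (fun S => x ∈ S)).card := by
        by_contra hcon
        push Not at hcon
        have h1 : F ⊆ U.biUnion (fun x => F.filter (fun S => x ∈ S)) := by
          intro S hS
          obtain ⟨x, hxU, hxS⟩ := hmeet S hS
          exact mem_biUnion.2 ⟨x, hxU, mem_filter.2 ⟨hS, hxS⟩⟩
        have h2 : F.card ≤ k * (h + 1) * (h.factorial * k ^ h) := by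
          refine (card_le_card h1).trans (card_biUnion_le.trans ?_)
          calc ∑ x ∈ U, (F.filter (fun S => x ∈ S)).card ≤ ∑ x ∈ U, h.factorial * k ^ h :=
                sum_le_sum hcon
            _ = U.card * (h.factorial * k ^ h) := by rw [sum_const, smul_eq_mul]
            _ ≤ _ := Nat.mul_le_mul_right _ hUc
        have h3 : k * (h + 1) * (h.factorial * k ^ h) = (h + 1).factorial * k ^ (h + 1) := by
          rw [Nat.factorial_succ, pow_succ]
          ring
        omega
      obtain ⟨x, _, hx⟩ := hex
      set F' := (F.filter (fun S => x ∈ S)).image (fun S => S.erase x) with hF'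
      have hinj : Set.InjOn (fun S : Finset α => S.erase x)
          ((F.filter (fun S => x ∈ S) : Finset (Finset α)) : Set (Finset α)) := by
        intro S hS T hT hST
        rw [coe_filter] at hS hT
        have e1 := insert_erase hS.2
        have e2 := insert_erase hT.2
        simp only at hST
        rw [← e1, hST, e2]
      have hc' : F'.card = (F.filter (fun S => x ∈ S)).card := card_image_of_injOn hinj
      obtain ⟨G₁, hG₁, hcG₁, Y, hY⟩ := ih F' (by
        intro S hS
        rw [hF', mem_image] at hS
        obtain ⟨T, hT, rfl⟩ := hS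
        rw [mem_filter] at hT
        rw [card_erase_of_mem hT.2, hF T hT.1]
        rfl) (by rw [hc']; exact hx)
      have hxG : ∀ S ∈ G₁, x ∉ S ∧ insert x S ∈ F := by
        intro S hS
        have := hG₁ hS
        rw [hF', mem_image] at this
        obtain ⟨T, hT, rfl⟩ := this
        rw [mem_filter] at hT
        refine ⟨notMem_erase x T, ?_⟩
        rw [insert_erase hT.2]
        exact hT.1
      refine ⟨G₁.image (fun S => insert x S), ?_, ?_, insert x Y, ?_⟩
      · intro S hS
        rw [mem_image] at hS
        obtain ⟨T, hT, rfl⟩ := hS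
        exact (hxG T hT).2
      · rw [card_image_of_injOn, hcG₁]
        intro S hS T hT hST
        simp only at hST
        have e1 := erase_insert (hxG S hS).1
        have e2 := erase_insert (hxG T hT).1
        rw [← e1, hST, e2]
      · intro S hS T hT hST
        rw [mem_image] at hS hT
        obtain ⟨S', hS', rfl⟩ := hS
        obtain ⟨T', hT', rfl⟩ := hT
        have hne : S' ≠ T' := fun h => hST (by rw [h])
        rw [← hY S' hS' T' hT' hne, insert_inter_distrib]

end Run7.h326.RP
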