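import Pool.Agent.Run7.h326.RP1
/-!
# Sums of `h` elements which are close to each other: petals with a common core
-/

set_option autoImplicit false

open Finset

namespace Run7.h326.RP

/-- the number of multisets of `h` elements of `A` with sum `n` -/
noncomputable def rep (A : Set ℕ) (h n : ℕ) : ℕ :=
  {s : Multiset ℕ | Multiset.card s = h ∧ (∀ a ∈ s, a ∈ A) ∧ s.sum = n}.ncard

theorem exists_fun (s : Multiset ℕ) (h : ℕ) (hs : Multiset.card s = h) :
    ∃ f : Fin h → ℕ, s = (univ : Finset (Fin h)).val.map f := by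
  subst hs
  refine ⟨fun i => s.toList.get (i.cast (by rw [Multiset.length_toList])), ?_⟩
  conv_lhs => rw [← Multiset.coe_toList s]
  have h1 : (univ : Finset (Fin (Multiset.card s))).val =
      ((List.finRange (Multiset.card s) : List _) : Multiset _) := rfl
  rw [h1, Multiset.map_coe]
  congr 1
  apply List.ext_get
  · simp
  · intro n h1 h2
    simp

theorem rep_set_finite (A : Set ℕ) (h n : ℕ) :
    {s : Multiset ℕ | Multiset.card s = h ∧ (∀ a ∈ s, a ∈ A) ∧ s.sum = n}.Finite := by
  refine Set.Finite.subset (Set.finite_range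
    (fun f : Fin h → Fin (n + 1) => (univ : Finset (Fin h)).val.map (fun i => (f i : ℕ)))) ?_
  rintro s ⟨h1, -, h3⟩
  obtain ⟨f, rfl⟩ := exists_fun s h h1
  have hf : ∀ i, f i < n + 1 := by
    intro i
    have : f i ≤ ((univ : Finset (Fin h)).val.map f).sum :=
      Multiset.single_le_sum (fun _ _ => Nat.zero_le _) _
        (Multiset.mem_map_of_mem f (mem_univ_val i))
    omega
  exact ⟨fun i => ⟨f i, hf i⟩, rfl⟩

theorem le_rep {A : Set ℕ} {h n K : ℕ} (g : ℕ → Multiset ℕ)
    (hg : ∀ i < K, Multiset.card (g i) = h ∧ (∀ a ∈ g i, a ∈ A) ∧ (g i).sum = n)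
    (hinj : ∀ i < K, ∀ j < K, g i = g j → i = j) : K ≤ rep A h n := by
  classical
  have h1 : ((range K).image g).card = K := by
    rw [card_image_of_injOn, card_range]
    intro i hi j hj hij
    exact hinj i (by simpa using hi) j (by simpa using hj) hij
  rw [rep, ← h1, ← Set.ncard_coe_finset]
  refine Set.ncard_le_ncard ?_ (rep_set_finite A h n)
  intro s hs
  rw [mem_coe, mem_image] at hs
  obtain ⟨i, hi, rfl⟩ := hs
  exact hg i (mem_range.1 hi)

/-- a family of `K` sums of `h` elements with a common part, and pairwise disjoint otherwise,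
which differ by at most `L` -/
structure Petals (a : ℕ → ℕ) (h K L : ℕ) (I : Finset ℕ) where
  Y : Finset ℕ
  S : ℕ → Finset ℕ
  M : ℕ
  YI : Y ⊆ I
  SI : ∀ i < K, S i ⊆ I
  disY : ∀ i < K, Disjoint Y (S i)
  dis : ∀ i < K, ∀ j < K, i ≠ j → Disjoint (S i) (S j)
  two : ∀ i < K, 2 ≤ (S i).card
  crd : ∀ i < K, Y.card + (S i).card = h
  lo : ∀ i < K, M ≤ ∑ x ∈ Y, a x + ∑ x ∈ S i, a x
  hi : ∀ i < K, ∑ x ∈ Y, a x + ∑ x ∈ S i, a x ≤ M + L

/-- the arithmetic behind the pigeonhole principle -/
theorem windows_lt {h D n m : ℕ} (hh : 1 ≤ h) (hm : 2 * h + 4 * n * (2 ^ h * h.factorial) ≤ m) :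
    ((h * D * m ^ h) / (4 * (2 ^ h * h.factorial) * (h * D) * n + 1) + 1) * n < m.choose h := by
  set Q := 2 ^ h * h.factorial with hQ
  set L := 4 * Q * (h * D) * n + 1 with hL
  set X := (h * D * m ^ h) / L with hX
  have hQpos : 0 < Q := by positivity
  have hmpos : 1 ≤ m := by omega
  have hmh : m ≤ m ^ h := Nat.le_self_pow (by omega) m
  have h1 : m ^ h ≤ Q * m.choose h := by
    have e1 : (m + 1 - h) ^ h ≤ m.descFactorial h := Nat.pow_sub_le_descFactorial m h
    rw [Nat.descFactorial_eq_factorial_mul_choose] at e1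
    calc m ^ h ≤ (2 * (m + 1 - h)) ^ h := Nat.pow_le_pow_left (by omega) h
      _ = 2 ^ h * (m + 1 - h) ^ h := mul_pow _ _ _
      _ ≤ 2 ^ h * (h.factorial * m.choose h) := Nat.mul_le_mul_left _ e1
      _ = Q * m.choose h := by rw [hQ]; ring
  have h2 : 4 * (Q * X * n) ≤ m ^ h := by
    have e1 : X * L ≤ h * D * m ^ h := Nat.div_mul_le_self _ _
    rcases Nat.eq_zero_or_pos (h * D) with h0 | h0
    · have : X = 0 := by rw [hX, h0, zero_mul, Nat.zero_div]
      rw [this]
      simp
    · have e2 : (h * D) * (4 * (Q * X * n)) ≤ (h * D) * m ^ h := by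
        calc (h * D) * (4 * (Q * X * n)) = X * (4 * Q * (h * D) * n) := by ring
          _ ≤ X * L := Nat.mul_le_mul_left _ (by rw [hL]; omega)
          _ ≤ _ := e1
      exact Nat.le_of_mul_le_mul_left e2 h0
  have h3 : 4 * (Q * n) ≤ m ^ h := by
    have : 4 * (Q * n) = 4 * n * Q := by ring
    omega
  have h4 : Q * ((X + 1) * n) < Q * m.choose h := by
    refine lt_of_lt_of_le ?_ h1
    have : Q * ((X + 1) * n) = Q * X * n + Q * n := by ring
    omega
  exact Nat.lt_of_mul_lt_mul_left h4

theorem petals_exist (h K D : ℕ) (hh : 2 ≤ h) (hK : 1 ≤ K) : ∃ L m₀ : ℕ, ∀ (a : ℕ → ℕ)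
    (I : Finset ℕ), m₀ ≤ I.card → (∀ i ∈ I, a i ≤ D * I.card ^ h) →
      Nonempty (Petals a h K L I) := by
  set n := h.factorial * (2 * K) ^ h with hn
  set Q := 2 ^ h * h.factorial with hQ
  set L₀ := 4 * Q * (h * D) * n + 1 with hL₀
  refine ⟨2 * L₀, 2 * h + 4 * n * Q, fun a I hI ha => ?_⟩
  have hL0 : 0 < L₀ := by omega
  have hw := windows_lt (D := D) (n := n) (show 1 ≤ h by omega) hI
  -- pigeonhole
  obtain ⟨y, _, hy⟩ := exists_lt_card_fiber_of_mul_lt_card_of_maps_to
    (s := I.powersetCard h) (t := range ((h * D * I.card ^ h) / L₀ + 1))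
    (f := fun S => (∑ x ∈ S, a x) / L₀) (n := n) (by
      intro S hS
      rw [mem_powersetCard] at hS
      rw [mem_range, Nat.lt_succ_iff]
      apply Nat.div_le_div_right
      calc ∑ x ∈ S, a x ≤ ∑ x ∈ S, D * I.card ^ h := sum_le_sum (fun x hx => ha x (hS.1 hx))
        _ = h * D * I.card ^ h := by rw [sum_const, hS.2, smul_eq_mul, mul_assoc]) (by
      rw [card_range, card_powersetCard]
      exact hw)
  set F := (I.powersetCard h).filter (fun S => (∑ x ∈ S, a x) / L₀ = y) with hF
  have hFc : ∀ S ∈ F, S.card = h := by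
    intro S hS
    rw [hF, mem_filter, mem_powersetCard] at hS
    exact hS.1.2
  obtain ⟨G, hGF, hGc, Y, hY⟩ := sunflower (2 * K) h F hFc hy
  have hFI : ∀ S ∈ F, S ⊆ I := by
    intro S hS
    rw [hF, mem_filter, mem_powersetCard] at hS
    exact hS.1.1
  have hFlo : ∀ S ∈ F, y * L₀ ≤ ∑ x ∈ S, a x ∧ ∑ x ∈ S, a x < y * L₀ + L₀ := by
    intro S hS
    rw [hF, mem_filter] at hS
    have h1 := Nat.div_mul_le_self (∑ x ∈ S, a x) L₀
    have h2 := Nat.lt_div_mul_add (a := ∑ x ∈ S, a x) hL0
    rw [hS.2] at h1 h2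
    exact ⟨h1, h2⟩
  -- the core is contained in all members
  have hYS : ∀ S ∈ G, Y ⊆ S ∧ Y.card < h := by
    intro S hS
    obtain ⟨T, hT, hTS⟩ := exists_mem_ne (show 1 < G.card by omega) S
    have e := hY S hS T hT hTS.symm
    refine ⟨by rw [← e]; exact inter_subset_left, ?_⟩
    have h1 : Y.card ≤ h := by
      rw [← hFc S (hGF hS), ← e]
      exact card_le_card inter_subset_left
    rcases Nat.lt_or_ge Y.card h with h2 | h2
    · exact h2
    · exfalso
      apply hTS
      have e1 : Y = S := by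
        apply eq_of_subset_of_card_le
        · rw [← e]; exact inter_subset_left
        · rw [hFc S (hGF hS)]; exact h2
      have e2 : Y = T := by
        apply eq_of_subset_of_card_le
        · rw [← e]; exact inter_subset_right
        · rw [hFc T (hGF hT)]; exact h2
      rw [← e2, e1]
  -- enumeration of the members
  set E := (G.equivFinOfCardEq hGc).symm with hE
  let g : ℕ → Finset ℕ := fun i => if hi : i < 2 * K + 1 then (E ⟨i, hi⟩ : Finset ℕ) else ∅
  have hgG : ∀ i < 2 * K + 1, g i ∈ G := by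
    intro i hi
    simp only [g, hi, dif_pos]
    exact (E ⟨i, hi⟩).2
  have hgne : ∀ i < 2 * K + 1, ∀ j < 2 * K + 1, i ≠ j → g i ≠ g j := by
    intro i hi j hj hij
    simp only [g, hi, hj, dif_pos]
    intro hcon
    have := E.injective (Subtype.ext hcon)
    rw [Fin.mk.injEq] at this
    exact hij this
  have hYc : Y.card < h := (hYS (g 0) (hgG 0 (by omega))).2
  have hYI : Y ⊆ I := (hYS (g 0) (hgG 0 (by omega))).1.trans (hFI _ (hGF (hgG 0 (by omega))))
  have hsum : ∀ i < 2 * K + 1, ∑ x ∈ Y, a x + ∑ x ∈ g i \ Y, a x = ∑ x ∈ g i, a x := by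
    intro i hi
    rw [add_comm]
    exact sum_sdiff (hYS _ (hgG i hi)).1
  have hcard : ∀ i < 2 * K + 1, Y.card + (g i \ Y).card = h := by
    intro i hi
    rw [card_sdiff_of_subset (hYS _ (hgG i hi)).1, hFc _ (hGF (hgG i hi))]
    omega
  have hdisj : ∀ i < 2 * K + 1, ∀ j < 2 * K + 1, i ≠ j → Disjoint (g i \ Y) (g j \ Y) := by
    intro i hi j hj hij
    rw [disjoint_left]
    intro x hx hx'
    rw [mem_sdiff] at hx hx'
    apply hx.2
    rw [← hY _ (hgG i hi) _ (hgG j hj) (hgne i hi j hj hij), mem_inter]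
    exact ⟨hx.1, hx'.1⟩
  rcases Nat.lt_or_ge (Y.card + 1) h with hc | hc
  · exact ⟨⟨Y, fun i => g i \ Y, y * L₀, hYI,
      fun i hi => sdiff_subset.trans (hFI _ (hGF (hgG i (by omega)))),
      fun i hi => disjoint_sdiff,
      fun i hi j hj hij => hdisj i (by omega) j (by omega) hij,
      fun i hi => by have := hcard i (by omega); omega,
      fun i hi => hcard i (by omega),
      fun i hi => by rw [hsum i (by omega)]; exact (hFlo _ (hGF (hgG i (by omega)))).1,
      fun i hi => by
        rw [hsum i (by omega)]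
        have := (hFlo _ (hGF (hgG i (by omega)))).2
        omega⟩⟩
  · -- the petals have only one element
    have hone : ∀ i < 2 * K + 1, ∃ c, g i \ Y = {c} := by
      intro i hi
      rw [← card_eq_one]
      have := hcard i hi
      omega
    let c : ℕ → ℕ := fun i => if hi : i < 2 * K + 1 then (hone i hi).choose else 0
    have hc1 : ∀ i < 2 * K + 1, g i \ Y = {c i} := by
      intro i hi
      simp only [c, hi, dif_pos]
      exact (hone i hi).choose_spec
    have hcne : ∀ i < 2 * K + 1, ∀ j < 2 * K + 1, i ≠ j → c i ≠ c j := by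
      intro i hi j hj hij hcon
      have := hdisj i hi j hj hij
      rw [hc1 i hi, hc1 j hj, hcon, disjoint_singleton] at this
      exact this rfl
    have hcY : ∀ i < 2 * K + 1, c i ∉ Y := by
      intro i hi
      have : c i ∈ g i \ Y := by rw [hc1 i hi]; exact mem_singleton_self _
      exact (mem_sdiff.1 this).2
    have hcI : ∀ i < 2 * K + 1, c i ∈ I := by
      intro i hi
      have : c i ∈ g i \ Y := by rw [hc1 i hi]; exact mem_singleton_self _
      exact hFI _ (hGF (hgG i hi)) (mem_sdiff.1 this).1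
    have hac : ∀ i < 2 * K + 1, y * L₀ - ∑ x ∈ Y, a x ≤ a (c i) ∧
        a (c i) ≤ (y * L₀ - ∑ x ∈ Y, a x) + L₀ := by
      intro i hi
      have h1 := hsum i hi
      rw [hc1 i hi, sum_singleton] at h1
      have h2 := hFlo _ (hGF (hgG i hi))
      omega
    obtain ⟨Y', hY', hY'c⟩ := exists_subset_card_eq (show h - 2 ≤ Y.card by omega)
    have hne : ∀ i < K, c (2 * i) ≠ c (2 * i + 1) := fun i hi =>
      hcne _ (by omega) _ (by omega) (by omega)
    refine ⟨⟨Y', fun i => {c (2 * i), c (2 * i + 1)},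
      ∑ x ∈ Y', a x + 2 * (y * L₀ - ∑ x ∈ Y, a x), hY'.trans hYI, ?_, ?_, ?_, ?_, ?_, ?_, ?_⟩⟩
    · intro i hi x hx
      rw [mem_insert, mem_singleton] at hx
      rcases hx with rfl | rfl
      · exact hcI _ (by omega)
      · exact hcI _ (by omega)
    · intro i hi
      rw [disjoint_right]
      intro x hx hxY
      rw [mem_insert, mem_singleton] at hx
      rcases hx with rfl | rfl
      · exact hcY _ (by omega) (hY' hxY)
      · exact hcY _ (by omega) (hY' hxY)
    · intro i hi j hj hij
      rw [disjoint_left]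
      intro x hx hx'
      rw [mem_insert, mem_singleton] at hx hx'
      rcases hx with rfl | rfl <;> rcases hx' with hx' | hx'
      · exact hcne _ (by omega) _ (by omega) (by omega) hx'
      · exact hcne _ (by omega) _ (by omega) (by omega) hx'
      · exact hcne _ (by omega) _ (by omega) (by omega) hx'
      · exact hcne _ (by omega) _ (by omega) (by omega) hx'
    · intro i hi
      rw [card_pair (hne i hi)]
    · intro i hi
      rw [card_pair (hne i hi), hY'c]
      omega
    · intro i hi
      rw [sum_pair (hne i hi)]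
      have h1 := hac (2 * i) (by omega)
      have h2 := hac (2 * i + 1) (by omega)
      omega
    · intro i hi
      rw [sum_pair (hne i hi)]
      have h1 := hac (2 * i) (by omega)
      have h2 := hac (2 * i + 1) (by omega)
      omega

end Run7.h326.RP
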