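import Pool.Agent.Run7.h326.RP2
/-!
# Small shifts of the elements give many representations of one number
-/

set_option autoImplicit false

open Finset

namespace Run7.h326.RP

/-- choosing different values greedily -/
theorem greedy {β : Type*} [DecidableEq β] (T : ℕ) (f : ℕ → ℕ → β) : ∀ n : ℕ, 2 * n ≤ T →
    (∀ i < n, ∀ v, ((range (T + 1)).filter (fun t => f i t = v)).card ≤ 2) →
    ∃ t : ℕ → ℕ, (∀ i, t i ≤ T) ∧ ∀ i < n, ∀ j < n, f i (t i) = f j (t j) → i = j := by
  intro n
  induction n with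
  | zero =>
    intro _ _
    exact ⟨fun _ => 0, fun _ => Nat.zero_le _, fun i hi => by omega⟩
  | succ n ih =>
    intro hn hf
    obtain ⟨t, ht, htinj⟩ := ih (by omega) (fun i hi v => hf i (by omega) v)
    have hex : ∃ s ∈ range (T + 1), ∀ j < n, f n s ≠ f j (t j) := by
      by_contra hcon
      push Not at hcon
      have h1 : range (T + 1) ⊆ (range n).biUnion
          (fun j => (range (T + 1)).filter (fun s => f n s = f j (t j))) := by
        intro s hs
        obtain ⟨j, hj, hjs⟩ := hcon s hs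
        exact mem_biUnion.2 ⟨j, mem_range.2 hj, mem_filter.2 ⟨hs, hjs⟩⟩
      have h2 := card_le_card h1
      have h3 : ((range n).biUnion
          (fun j => (range (T + 1)).filter (fun s => f n s = f j (t j)))).card ≤ n * 2 := by
        refine card_biUnion_le.trans ?_
        calc ∑ j ∈ range n, ((range (T + 1)).filter (fun s => f n s = f j (t j))).card
            ≤ ∑ j ∈ range n, 2 := sum_le_sum (fun j _ => hf n (by omega) _)
          _ = n * 2 := by rw [sum_const, card_range, smul_eq_mul]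
      rw [card_range] at h2
      omega
    obtain ⟨s, hs, hsn⟩ := hex
    refine ⟨fun i => if i = n then s else t i, ?_, ?_⟩
    · intro i
      by_cases h : i = n
      · simp only [h, if_true]
        rw [mem_range] at hs
        omega
      · simp only [h, if_false]
        exact ht i
    · intro i hi j hj hij
      by_cases h1 : i = n <;> by_cases h2 : j = n
      · rw [h1, h2]
      · simp only [h1, h2, if_true, if_false] at hij
        exact absurd hij (hsn j (by omega))
      · simp only [h1, h2, if_true, if_false] at hij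
        exact absurd hij.symm (hsn i (by omega))
      · simp only [h1, h2, if_false] at hij
        exact htinj i (by omega) j (by omega) hij

/-- the shift of the elements of one petal -/
def zeta (s s' D t x : ℕ) : ℕ := if x = s then t else if x = s' then D - t else 0

theorem pair_add_cancel {p q p' q' : ℕ} {R : Multiset ℕ}
    (h : p ::ₘ q ::ₘ R = p' ::ₘ q' ::ₘ R) : p = p' ∨ p = q' := by
  have e1 : (p ::ₘ q ::ₘ R) = ({p, q} : Multiset ℕ) + R := by
    simp [Multiset.insert_eq_cons]
  have e2 : (p' ::ₘ q' ::ₘ R) = ({p', q'} : Multiset ℕ) + R := by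
    simp [Multiset.insert_eq_cons]
  rw [e1, e2] at h
  have h1 := add_right_cancel h
  have h2 : p ∈ ({p', q'} : Multiset ℕ) := by
    rw [← h1]
    simp
  simpa using h2

/-- the multiset of the shifted elements of one sum -/
def ms (a : ℕ → ℕ) (U : Finset ℕ) (s s' D t : ℕ) : Multiset ℕ :=
  U.val.map (fun x => a x + zeta s s' D t x)

theorem ms_eq (a : ℕ → ℕ) {U : Finset ℕ} {s s' : ℕ} (hs : s ∈ U) (hs' : s' ∈ U) (hne : s ≠ s')
    (D t : ℕ) : ms a U s s' D t =
      (a s + t) ::ₘ (a s' + (D - t)) ::ₘ ((U.erase s).erase s').val.map a := by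
  have h1 : U = insert s (insert s' ((U.erase s).erase s')) := by
    rw [insert_erase (mem_erase.2 ⟨hne.symm, hs'⟩), insert_erase hs]
  have n1 : s' ∉ (U.erase s).erase s' := notMem_erase _ _
  have n2 : s ∉ insert s' ((U.erase s).erase s') := by
    rw [insert_erase (mem_erase.2 ⟨hne.symm, hs'⟩)]
    exact notMem_erase _ _
  unfold ms
  conv_lhs => rw [h1]
  rw [insert_val_of_notMem n2, insert_val_of_notMem n1, Multiset.map_cons, Multiset.map_cons]
  have z1 : zeta s s' D t s = t := by simp [zeta]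
  have z2 : zeta s s' D t s' = D - t := by simp [zeta, hne.symm]
  rw [z1, z2]
  congr 2
  apply Multiset.map_congr rfl
  intro x hx
  rw [mem_val, mem_erase, mem_erase] at hx
  simp [zeta, hx.1, hx.2.1]

theorem ms_card (a : ℕ → ℕ) (U : Finset ℕ) (s s' D t : ℕ) :
    Multiset.card (ms a U s s' D t) = U.card := by
  unfold ms
  rw [Multiset.card_map]
  rfl

theorem ms_sum (a : ℕ → ℕ) {U : Finset ℕ} {s s' : ℕ} (hs : s ∈ U) (hs' : s' ∈ U) (hne : s ≠ s')
    {D t : ℕ} (ht : t ≤ D) : (ms a U s s' D t).sum = ∑ x ∈ U, a x + D := by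
  rw [ms_eq a hs hs' hne, Multiset.sum_cons, Multiset.sum_cons]
  have h1 : (((U.erase s).erase s').val.map a).sum = ∑ x ∈ (U.erase s).erase s', a x := rfl
  have h2 : ∑ x ∈ U, a x = a s + (a s' + ∑ x ∈ (U.erase s).erase s', a x) := by
    rw [add_sum_erase _ _ (mem_erase.2 ⟨hne.symm, hs'⟩), add_sum_erase _ _ hs]
  rw [h1, h2]
  omega

theorem ms_fiber (a : ℕ → ℕ) {U : Finset ℕ} {s s' : ℕ} (hs : s ∈ U) (hs' : s' ∈ U) (hne : s ≠ s')
    (D T : ℕ) (v : Multiset ℕ) :
    ((range (T + 1)).filter (fun t => ms a U s s' D t = v)).card ≤ 2 := by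
  rcases (((range (T + 1)).filter (fun t => ms a U s s' D t = v))).eq_empty_or_nonempty with h | h
  · rw [h]
    simp
  · obtain ⟨t₀, ht₀⟩ := h
    rw [mem_filter] at ht₀
    have hsub : (range (T + 1)).filter (fun t => ms a U s s' D t = v) ⊆
        {t₀, a s' + (D - t₀) - a s} := by
      intro t ht
      rw [mem_filter] at ht
      have e : ms a U s s' D t = ms a U s s' D t₀ := by rw [ht.2, ht₀.2]
      rw [ms_eq a hs hs' hne, ms_eq a hs hs' hne] at e
      rw [mem_insert, mem_singleton]
      rcases pair_add_cancel e with h | h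
      · left; omega
      · right; omega
    exact (card_le_card hsub).trans card_le_two

/-- **Alignment.** -/
theorem align {a : ℕ → ℕ} {h K L : ℕ} {I : Finset ℕ} (hK : 1 ≤ K) (P : Petals a h K L I) :
    ∃ J ⊆ I, J.card ≤ h + K * h ∧ ∃ z : ℕ → ℕ, (∀ x, z x ≤ L + 2 * K) ∧
      ∃ m, (∃ x ∈ I, a x ≤ m) ∧ ∀ Z : ℕ → ℕ, (∀ x ∈ J, Z x = z x) →
        K ≤ rep (Set.range (fun x => a x + Z x)) h m := by
  classical
  -- two elements of each petal
  have h2 : ∀ i, ∃ s s', i < K → s ∈ P.S i ∧ s' ∈ P.S i ∧ s ≠ s' := by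
    intro i
    by_cases hi : i < K
    · obtain ⟨s, hs, s', hs', hne⟩ := one_lt_card.1 (P.two i hi)
      exact ⟨s, s', fun _ => ⟨hs, hs', hne⟩⟩
    · exact ⟨0, 0, fun h => absurd h hi⟩
  choose s s' hss using h2
  let U : ℕ → Finset ℕ := fun i => P.Y ∪ P.S i
  have hUsum : ∀ i < K, ∑ x ∈ U i, a x = ∑ x ∈ P.Y, a x + ∑ x ∈ P.S i, a x :=
    fun i hi => sum_union (P.disY i hi)
  have hUcard : ∀ i < K, (U i).card = h := by
    intro i hi
    rw [card_union_of_disjoint (P.disY i hi), P.crd i hi]
  set m := P.M + L + 2 * K with hm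
  let D : ℕ → ℕ := fun i => m - ∑ x ∈ U i, a x
  have hD : ∀ i < K, 2 * K ≤ D i ∧ D i ≤ L + 2 * K ∧ ∑ x ∈ U i, a x + D i = m := by
    intro i hi
    have h1 := P.lo i hi
    have h2 := P.hi i hi
    have h3 := hUsum i hi
    simp only [D]
    omega
  obtain ⟨t, ht, htinj⟩ := greedy (2 * K) (fun i t => ms a (U i) (s i) (s' i) (D i) t) K le_rfl
    (fun i hi v => ms_fiber a (mem_union_right _ (hss i hi).1) (mem_union_right _ (hss i hi).2.1)
      (hss i hi).2.2 (D i) (2 * K) v)
  -- the shifts
  let z : ℕ → ℕ := fun x => if hx : ∃ i, i < K ∧ x ∈ P.S i then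
    zeta (s (Nat.find hx)) (s' (Nat.find hx)) (D (Nat.find hx)) (t (Nat.find hx)) x else 0
  have hzS : ∀ i < K, ∀ x ∈ P.S i, z x = zeta (s i) (s' i) (D i) (t i) x := by
    intro i hi x hx
    have hex : ∃ i, i < K ∧ x ∈ P.S i := ⟨i, hi, hx⟩
    have hf := Nat.find_spec hex
    have he : Nat.find hex = i := by
      by_contra hne
      exact disjoint_left.1 (P.dis _ hf.1 i hi hne) hf.2 hx
    simp only [z, hex, dif_pos, he]
  have hzY : ∀ i < K, ∀ x ∈ P.Y, z x = zeta (s i) (s' i) (D i) (t i) x := by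
    intro i hi x hx
    have hn : ¬ ∃ i, i < K ∧ x ∈ P.S i := by
      rintro ⟨j, hj, hxj⟩
      exact disjoint_left.1 (P.disY j hj) hx hxj
    have e1 : x ≠ s i := fun e => disjoint_left.1 (P.disY i hi) hx (e ▸ (hss i hi).1)
    have e2 : x ≠ s' i := fun e => disjoint_left.1 (P.disY i hi) hx (e ▸ (hss i hi).2.1)
    simp only [z, hn, dif_neg, not_false_iff, zeta, e1, e2, if_false]
  refine ⟨P.Y ∪ (range K).biUnion P.S, ?_, ?_, z, ?_, m, ?_, ?_⟩
  · intro x hx
    rw [mem_union, mem_biUnion] at hx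
    rcases hx with hx | ⟨i, hi, hx⟩
    · exact P.YI hx
    · exact P.SI i (mem_range.1 hi) hx
  · refine (card_union_le _ _).trans ?_
    have h1 : P.Y.card ≤ h := by
      have := P.crd 0 (by omega)
      omega
    have h2 : ((range K).biUnion P.S).card ≤ K * h := by
      refine card_biUnion_le.trans ?_
      calc ∑ i ∈ range K, (P.S i).card ≤ ∑ i ∈ range K, h := by
            apply sum_le_sum
            intro i hi
            have := P.crd i (mem_range.1 hi)
            omega
        _ = K * h := by rw [sum_const, card_range, smul_eq_mul]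
    omega
  · intro x
    by_cases hx : ∃ i, i < K ∧ x ∈ P.S i
    · have hf := Nat.find_spec hx
      simp only [z, hx, dif_pos]
      have h1 := hD _ hf.1
      have h2 := ht (Nat.find hx)
      unfold zeta
      split_ifs <;> omega
    · simp only [z, hx, dif_neg, not_false_iff]
      omega
  · refine ⟨s 0, P.SI 0 (by omega) (hss 0 (by omega)).1, ?_⟩
    have h1 : a (s 0) ≤ ∑ x ∈ U 0, a x :=
      single_le_sum (f := a) (fun _ _ => Nat.zero_le _)
        (mem_union_right _ (hss 0 (by omega)).1)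
    have h2 := hD 0 (by omega)
    omega
  · intro Z hZ
    have hval : ∀ i < K, ms a (U i) (s i) (s' i) (D i) (t i) =
        (U i).val.map (fun x => a x + Z x) := by
      intro i hi
      unfold ms
      apply Multiset.map_congr rfl
      intro x hx
      rw [mem_val, mem_union] at hx
      have hxJ : x ∈ P.Y ∪ (range K).biUnion P.S := by
        rw [mem_union, mem_biUnion]
        rcases hx with hx | hx
        · exact Or.inl hx
        · exact Or.inr ⟨i, mem_range.2 hi, hx⟩
      rw [hZ x hxJ]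
      rcases hx with hx | hx
      · rw [hzY i hi x hx]
      · rw [hzS i hi x hx]
    refine le_rep (fun i => ms a (U i) (s i) (s' i) (D i) (t i)) ?_ htinj
    intro i hi
    refine ⟨?_, ?_, ?_⟩
    · rw [ms_card, hUcard i hi]
    · rw [hval i hi]
      intro b hb
      rw [Multiset.mem_map] at hb
      obtain ⟨x, _, rfl⟩ := hb
      exact ⟨x, rfl⟩
    · rw [ms_sum a (mem_union_right _ (hss i hi).1) (mem_union_right _ (hss i hi).2.1)
        (hss i hi).2.2 ((ht i).trans (hD i hi).1)]
      exact (hD i hi).2.2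

/-- Among many elements which are not too large there are a few whose small shifts give `K`
representations of one number. -/
theorem exists_shift (h K D : ℕ) (hh : 2 ≤ h) (hK : 1 ≤ K) : ∃ L m₀ : ℕ, ∀ (a : ℕ → ℕ)
    (I : Finset ℕ), m₀ ≤ I.card → (∀ i ∈ I, a i ≤ D * I.card ^ h) →
      ∃ J ⊆ I, J.card ≤ h + K * h ∧ ∃ z : ℕ → ℕ, (∀ x, z x ≤ L) ∧
      ∃ m, (∃ x ∈ I, a x ≤ m) ∧ ∀ Z : ℕ → ℕ, (∀ x ∈ J, Z x = z x) →
        K ≤ rep (Set.range (fun x => a x + Z x)) h m := by
  obtain ⟨L, m₀, hL⟩ := petals_exist h K D hh hK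
  refine ⟨L + 2 * K, m₀, fun a I hI ha => ?_⟩
  obtain ⟨P⟩ := hL a I hI ha
  exact align hK P

end Run7.h326.RP
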