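import Pool.Agent.Run7.h326.RP3
/-!
# Many disjoint configurations, and the probability that one of them occurs
-/

set_option autoImplicit false
set_option linter.unusedSectionVars false

open Finset MeasureTheory ProbabilityTheory

namespace Run7.h326.RP

/-- a configuration: if the shifts of the elements with an index in `J` are as prescribed by `z`,
then some number has `K` representations -/
def Good (a : ℕ → ℕ) (h K L : ℕ) (I J : Finset ℕ) (z : ℕ → ℕ) : Prop :=
  J ⊆ I ∧ J.card ≤ h + K * h ∧ (∀ x, z x ≤ L) ∧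
    ∃ m, (∃ x ∈ I, a x ≤ m) ∧ ∀ Z : ℕ → ℕ, (∀ x ∈ J, Z x = z x) →
      K ≤ rep (Set.range (fun x => a x + Z x)) h m

theorem Good.mono {a : ℕ → ℕ} {h K L : ℕ} {I I' J : Finset ℕ} {z : ℕ → ℕ}
    (hG : Good a h K L I J z) (hI : I ⊆ I') : Good a h K L I' J z := by
  obtain ⟨h1, h2, h3, m, ⟨x, hx, hxm⟩, h4⟩ := hG
  exact ⟨h1.trans hI, h2, h3, m, ⟨x, hI hx, hxm⟩, h4⟩

theorem many (h K D : ℕ) (hh : 2 ≤ h) (hK : 1 ≤ K) : ∃ L m₀ : ℕ, ∀ (a : ℕ → ℕ)
    (I : Finset ℕ), m₀ ≤ I.card → (∀ i ∈ I, a i ≤ D * I.card ^ h) →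
      ∀ M : ℕ, 2 * (M * (h + K * h)) ≤ I.card →
        ∃ (J : ℕ → Finset ℕ) (z : ℕ → ℕ → ℕ), (∀ j < M, Good a h K L I (J j) (z j)) ∧
          ∀ i < M, ∀ j < M, i ≠ j → Disjoint (J i) (J j) := by
  classical
  obtain ⟨L, m₀, hL⟩ := exists_shift h K (D * 2 ^ h) hh hK
  refine ⟨L, 2 * m₀, fun a I hI ha M => ?_⟩
  induction M with
  | zero =>
    intro _
    exact ⟨fun _ => ∅, fun _ _ => 0, fun j hj => by omega, fun i hi => by omega⟩
  | succ M ih =>
    intro hM
    have e0 : (M + 1) * (h + K * h) = M * (h + K * h) + (h + K * h) := by ring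
    obtain ⟨J, z, hG, hd⟩ := ih (by omega)
    set V := (range M).biUnion J with hV
    have hVI : V ⊆ I := by
      intro x hx
      rw [hV, mem_biUnion] at hx
      obtain ⟨j, hj, hx⟩ := hx
      exact (hG j (mem_range.1 hj)).1 hx
    have hVc : V.card ≤ M * (h + K * h) := by
      refine card_biUnion_le.trans ?_
      calc ∑ j ∈ range M, (J j).card ≤ ∑ j ∈ range M, (h + K * h) :=
            sum_le_sum (fun j hj => (hG j (mem_range.1 hj)).2.1)
        _ = M * (h + K * h) := by rw [sum_const, card_range, smul_eq_mul]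
    have hIV : (I \ V).card = I.card - V.card := card_sdiff_of_subset hVI
    have hIV2 : I.card ≤ 2 * (I \ V).card := by omega
    obtain ⟨J', hJ', hJ'c, z', hz', m, ⟨x, hx, hxm⟩, hm⟩ := hL a (I \ V) (by omega) (by
      intro i hi
      refine (ha i (mem_sdiff.1 hi).1).trans ?_
      calc D * I.card ^ h ≤ D * (2 * (I \ V).card) ^ h :=
            Nat.mul_le_mul_left _ (Nat.pow_le_pow_left hIV2 h)
        _ = D * 2 ^ h * (I \ V).card ^ h := by rw [mul_pow]; ring)
    have hG' : Good a h K L I J' z' :=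
      ⟨hJ'.trans sdiff_subset, hJ'c, hz', m, ⟨x, (mem_sdiff.1 hx).1, hxm⟩, hm⟩
    have hdis : ∀ j < M, Disjoint (J j) J' := by
      intro j hj
      rw [disjoint_left]
      intro y hy hy'
      exact (mem_sdiff.1 (hJ' hy')).2 (mem_biUnion.2 ⟨j, mem_range.2 hj, hy⟩)
    refine ⟨fun j => if j = M then J' else J j, fun j => if j = M then z' else z j, ?_, ?_⟩
    · intro j hj
      by_cases h1 : j = M
      · simp only [h1, if_true]
        exact hG'
      · simp only [h1, if_false]
        exact hG j (by omega)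
    · intro i hi j hj hij
      by_cases h1 : i = M <;> by_cases h2 : j = M
      · exact absurd (h1.trans h2.symm) hij
      · simp only [h1, h2, if_true, if_false]
        exact (hdis j (by omega)).symm
      · simp only [h1, h2, if_true, if_false]
        exact hdis i (by omega)
      · simp only [h1, h2, if_false]
        exact hd i (by omega) j (by omega) hij

section prob

variable {Ω : Type*} [MeasurableSpace Ω] {P : Measure Ω} [IsProbabilityMeasure P]
  {Z : ℕ → Ω → ℕ}

/-- the event that the shifts are as prescribed on `J` -/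
def Ev (Z : ℕ → Ω → ℕ) (J : Finset ℕ) (z : ℕ → ℕ) : Set Ω := {ω | ∀ x ∈ J, Z x ω = z x}

theorem Ev_eq (J : Finset ℕ) (z : ℕ → ℕ) :
    Ev Z J z = ⋂ x ∈ J, Z x ⁻¹' {z x} := by
  ext ω
  simp [Ev]

theorem measurable_Ev (hZ : ∀ n, Measurable (Z n)) (J : Finset ℕ) (z : ℕ → ℕ) :
    MeasurableSet (Ev Z J z) := by
  rw [Ev_eq]
  exact J.measurableSet_biInter (fun x _ => hZ x (measurableSet_singleton _))

theorem prob_Ev (hind : iIndepFun Z P) (J : Finset ℕ) (z : ℕ → ℕ) :
    P.real (Ev Z J z) = ∏ x ∈ J, P.real (Z x ⁻¹' {z x}) := by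
  rw [Ev_eq, measureReal_def, hind.measure_inter_preimage_eq_mul J
    (sets := fun x => {z x}) (fun _ _ => measurableSet_singleton _), ENNReal.toReal_prod]
  rfl

theorem prob_none (hZ : ∀ n, Measurable (Z n)) (hind : iIndepFun Z P) (J : ℕ → Finset ℕ)
    (z : ℕ → ℕ → ℕ) {q : ℝ} : ∀ M : ℕ,
    (∀ i < M, ∀ j < M, i ≠ j → Disjoint (J i) (J j)) → (∀ j < M, q ≤ P.real (Ev Z (J j) (z j))) →
    P.real (⋂ j ∈ range M, (Ev Z (J j) (z j))ᶜ) ≤ (1 - q) ^ M := by
  classical
  intro M
  induction M with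
  | zero =>
    intro _ _
    simp
  | succ M ih =>
    intro hd hq
    have ih' := ih (fun i hi j hj => hd i (by omega) j (by omega)) (fun j hj => hq j (by omega))
    set S := (range M).biUnion J with hS
    have hST : Disjoint S (J M) := by
      rw [hS, disjoint_biUnion_left]
      intro j hj
      rw [mem_range] at hj
      exact hd j (by omega) M (by omega) (by omega)
    have hI := hind.indepFun_finset S (J M) hST hZ
    -- the two events in terms of the tuples
    let A : Set ((i : S) → ℕ) := {v | ∀ j < M, ¬ ∀ x (hx : x ∈ S), x ∈ J j → v ⟨x, hx⟩ = z j x}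
    let B : Set ((i : (J M : Finset ℕ)) → ℕ) := {v | ¬ ∀ x : (J M : Finset ℕ), v x = z M x}
    have hA : (fun ω (i : S) => Z i ω) ⁻¹' A = ⋂ j ∈ range M, (Ev Z (J j) (z j))ᶜ := by
      ext ω
      simp only [A, Set.mem_preimage, Set.mem_ofPred_eq, Set.mem_iInter, mem_range,
        Set.mem_compl_iff, Ev]
      constructor
      · intro h j hj hcon
        exact h j hj (fun x _ hx => hcon x hx)
      · intro h j hj hcon
        apply h j hj
        intro x hx
        exact hcon x (mem_biUnion.2 ⟨j, mem_range.2 hj, hx⟩) hx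
    have hB : (fun ω (i : (J M : Finset ℕ)) => Z i ω) ⁻¹' B = (Ev Z (J M) (z M))ᶜ := by
      ext ω
      simp only [B, Set.mem_preimage, Set.mem_ofPred_eq, Set.mem_compl_iff, Ev]
      constructor
      · intro h hcon
        exact h (fun x => hcon x x.2)
      · intro h hcon
        exact h (fun x hx => hcon ⟨x, hx⟩)
    have hmA : MeasurableSet A := MeasurableSet.of_discrete
    have hmB : MeasurableSet B := MeasurableSet.of_discrete
    have hmul := hI.measure_inter_preimage_eq_mul A B hmA hmB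
    rw [hA, hB] at hmul
    have hset : (⋂ j ∈ range (M + 1), (Ev Z (J j) (z j))ᶜ) =
        (⋂ j ∈ range M, (Ev Z (J j) (z j))ᶜ) ∩ (Ev Z (J M) (z M))ᶜ := by
      rw [range_add_one, set_biInter_insert, Set.inter_comm]
    have hcompl : P.real ((Ev Z (J M) (z M))ᶜ) = 1 - P.real (Ev Z (J M) (z M)) :=
      probReal_compl_eq_one_sub (measurable_Ev hZ _ _)
    have hprod : P.real (⋂ j ∈ range (M + 1), (Ev Z (J j) (z j))ᶜ) =
        P.real (⋂ j ∈ range M, (Ev Z (J j) (z j))ᶜ) * (1 - P.real (Ev Z (J M) (z M))) := by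
      rw [hset, ← hcompl, measureReal_def, hmul, ENNReal.toReal_mul]
      rfl
    rw [hprod, pow_succ]
    have h1 : P.real (Ev Z (J M) (z M)) ≤ 1 := measureReal_le_one
    have h2 := hq M (by omega)
    exact mul_le_mul ih' (by linarith) (by linarith) (pow_nonneg (by linarith) _)

end prob

end Run7.h326.RP
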