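import Pool.Agent.Run7.h326.RP4
/-!
# Random shifts of the elements of a set with `a_n ≤ C n ^ h`
-/

set_option autoImplicit false

open Finset MeasureTheory ProbabilityTheory Filter Topology

namespace Run7.h326.RP

/-- the `n`-th element of an asymptotic basis of order `h` is at most `n ^ h + n₀` -/
theorem basis_growth {a : ℕ → ℕ} (ha : StrictMono a) {h n₀ : ℕ}
    (hb : ∀ n ≥ n₀, 1 ≤ rep (Set.range a) h n) (n : ℕ) : a n ≤ n ^ h + n₀ := by
  classical
  by_contra hcon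
  push Not at hcon
  have hex : ∀ m : ℕ, ∃ f : Fin h → ℕ, (n₀ ≤ m ∧ m < a n) →
      (∀ i, f i < n) ∧ ∑ i, a (f i) = m := by
    intro m
    by_cases hm : n₀ ≤ m ∧ m < a n
    · have h1 := hb m hm.1
      unfold rep at h1
      have hne : {s : Multiset ℕ | Multiset.card s = h ∧ (∀ x ∈ s, x ∈ Set.range a) ∧
          s.sum = m}.Nonempty := by
        rw [Set.nonempty_iff_ne_empty]
        intro h0
        rw [h0, Set.ncard_empty] at h1
        omega
      obtain ⟨s, hs1, hs2, hs3⟩ := hne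
      obtain ⟨f, rfl⟩ := exists_fun s h hs1
      have h2 : ∀ i, ∃ j, a j = f i := fun i =>
        hs2 (f i) (Multiset.mem_map_of_mem f (mem_univ_val i))
      choose g hg using h2
      refine ⟨g, fun _ => ⟨fun i => ?_, ?_⟩⟩
      · have h3 : f i ≤ m := by
          rw [← hs3]
          exact Multiset.single_le_sum (fun _ _ => Nat.zero_le _) _
            (Multiset.mem_map_of_mem f (mem_univ_val i))
        rw [← hg i] at h3
        exact ha.lt_iff_lt.1 (lt_of_le_of_lt h3 hm.2)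
      · rw [← hs3]
        exact sum_congr rfl (fun i _ => hg i)
    · exact ⟨fun _ => 0, fun h => absurd h hm⟩
  choose f hf using hex
  have hcard : (Finset.Ico n₀ (a n)).card ≤ ((univ : Finset (Fin h → Fin (n + 1))).filter
      (fun g => ∀ i, (g i : ℕ) < n)).card := by
    refine card_le_card_of_injOn (fun m => fun i => ⟨min (f m i) n, by omega⟩) ?_ ?_
    · intro m hm
      rw [mem_coe, mem_Ico] at hm
      rw [mem_coe, mem_filter]
      refine ⟨mem_univ _, fun i => ?_⟩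
      have := (hf m hm).1 i
      simp only
      omega
    · intro m hm m' hm' hmm
      rw [mem_coe, mem_Ico] at hm hm'
      rw [← (hf m hm).2, ← (hf m' hm').2]
      apply sum_congr rfl
      intro i _
      have h1 := congrFun hmm i
      simp only [Fin.mk.injEq] at h1
      have h2 := (hf m hm).1 i
      have h3 := (hf m' hm').1 i
      congr 1
      omega
  have hcard2 : ((univ : Finset (Fin h → Fin (n + 1))).filter
      (fun g => ∀ i, (g i : ℕ) < n)).card ≤ n ^ h := by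
    have h1 : ((univ : Finset (Fin h → Fin (n + 1))).filter (fun g => ∀ i, (g i : ℕ) < n)).card ≤
        Fintype.card (Fin h → Fin n) := by
      rw [← card_univ]
      by_cases hn : n = 0
      · subst hn
        by_cases hh : h = 0
        · subst hh
          simp
        · rw [card_eq_zero.2]
          · exact Nat.zero_le _
          · rw [filter_eq_empty_iff]
            intro g _ hg
            exact absurd (hg ⟨0, by omega⟩) (by omega)
      · refine card_le_card_of_injOn (fun g i => ⟨(g i : ℕ) % n, Nat.mod_lt _ (by omega)⟩)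
          (fun g _ => mem_coe.2 (mem_univ _)) ?_
        intro g hg g' hg' hgg
        rw [mem_coe, mem_filter] at hg hg'
        funext i
        have h1 := congrFun hgg i
        simp only [Fin.mk.injEq] at h1
        rw [Nat.mod_eq_of_lt (hg.2 i), Nat.mod_eq_of_lt (hg'.2 i)] at h1
        exact Fin.ext h1
    rw [Fintype.card_fun, Fintype.card_fin, Fintype.card_fin] at h1
    exact h1
  rw [Nat.card_Ico] at hcard
  omega

theorem basis_growth' {a : ℕ → ℕ} (ha : StrictMono a) {h n₀ : ℕ} (hh : 2 ≤ h)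
    (hb : ∀ n ≥ n₀, 1 ≤ rep (Set.range a) h n) :
    ∃ᶠ n : ℕ in atTop, (a n : ℝ) ≤ 2 * (n : ℝ) ^ h := by
  refine Eventually.frequently ?_
  filter_upwards [eventually_ge_atTop n₀] with n hn
  have h1 := basis_growth ha hb n
  have h2 : n ≤ n ^ h := Nat.le_self_pow (by omega) n
  have h3 : a n ≤ 2 * n ^ h := by omega
  exact_mod_cast h3

/-- the bound for the probability tends to zero -/
theorem tendsto_exp_zero (R : ℕ) (hR : 0 < R) :
    Tendsto (fun N : ℕ => Real.exp (-((N : ℝ) ^ (-(1 / 2) : ℝ) * ((N / (4 * R) : ℕ) : ℝ))))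
      atTop (𝓝 0) := by
  have hR' : (0 : ℝ) < R := by exact_mod_cast hR
  rw [Real.tendsto_exp_comp_nhds_zero, tendsto_neg_atBot_iff]
  have h1 : Tendsto (fun N : ℕ => (N : ℝ) ^ (1 / 2 : ℝ) / (4 * R) - 1) atTop atTop := by
    apply Filter.tendsto_atTop_add_const_right
    apply Tendsto.atTop_div_const (by positivity)
    exact (tendsto_rpow_atTop (by norm_num)).comp tendsto_natCast_atTop_atTop
  refine tendsto_atTop_mono' _ ?_ h1
  filter_upwards [eventually_ge_atTop 1] with N hN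
  have hN' : (1 : ℝ) ≤ N := by exact_mod_cast hN
  have hN0 : (0 : ℝ) < N := by linarith
  have e1 : N < (N / (4 * R) + 1) * (4 * R) := by
    have := Nat.lt_div_mul_add (a := N) (show 0 < 4 * R by omega)
    rw [add_mul, one_mul]
    exact this
  have e2 : (N : ℝ) < ((N / (4 * R) : ℕ) + 1) * (4 * R) := by exact_mod_cast e1
  have e3 : (N : ℝ) / (4 * R) - 1 ≤ ((N / (4 * R) : ℕ) : ℝ) := by
    rw [sub_le_iff_le_add, div_le_iff₀ (by positivity)]
    exact e2.le
  have e4 : (N : ℝ) ^ (-(1 / 2) : ℝ) ≤ 1 := Real.rpow_le_one_of_one_le_of_nonpos hN' (by norm_num)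
  have e5 : (0 : ℝ) < (N : ℝ) ^ (-(1 / 2) : ℝ) := Real.rpow_pos_of_pos hN0 _
  have e6 : (N : ℝ) ^ (-(1 / 2) : ℝ) * N = (N : ℝ) ^ (1 / 2 : ℝ) := by
    have : (N : ℝ) ^ (-(1 / 2) : ℝ) * N = (N : ℝ) ^ (-(1 / 2) : ℝ) * (N : ℝ) ^ (1 : ℝ) := by
      rw [Real.rpow_one]
    rw [this, ← Real.rpow_add hN0]
    norm_num
  calc (N : ℝ) ^ (1 / 2 : ℝ) / (4 * R) - 1
      ≤ (N : ℝ) ^ (-(1 / 2) : ℝ) * ((N : ℝ) / (4 * R) - 1) := by
        rw [mul_sub, mul_one, ← mul_div_assoc, e6]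
        linarith
    _ ≤ _ := mul_le_mul_of_nonneg_left e3 e5.le

universe u

/-- **Main theorem.** -/
theorem main (h K : ℕ) (hh : 2 ≤ h) (C : ℝ) : ∃ L : ℕ, ∀ a : ℕ → ℕ, StrictMono a →
    (∃ᶠ n : ℕ in atTop, (a n : ℝ) ≤ C * (n : ℝ) ^ h) →
    ∀ (Ω : Type u) [MeasurableSpace Ω] (P : Measure Ω) [IsProbabilityMeasure P]
      (Z : ℕ → Ω → ℕ), (∀ n, Measurable (Z n)) → iIndepFun Z P →
      (∀ z ≤ L, ∀ᶠ n : ℕ in atTop,
        (n : ℝ) ^ (-(1 / (2 * (h * (K + 1)))) : ℝ) ≤ P.real {ω | Z n ω = z}) →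
      ∀ᵐ ω ∂P, ∃ᶠ n in atTop, K ≤ rep (Set.range (fun i => a i + Z i ω)) h n := by
  classical
  rcases Nat.eq_zero_or_pos K with hK | hK
  · subst hK
    refine ⟨0, fun a _ _ Ω _ P _ Z _ _ _ => ?_⟩
    exact Eventually.of_forall (fun ω => Eventually.frequently (Eventually.of_forall
      (fun n => Nat.zero_le _)))
  obtain ⟨L, m₀, hL⟩ := many h K (⌈C⌉₊ * 2 ^ h) hh hK
  refine ⟨L, fun a ha hfreq Ω _ P _ Z hZ hind hp => ?_⟩
  set R := h + K * h with hR
  have hRpos : 0 < R := by omega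
  have hRreal : ((h : ℝ) * (K + 1)) = R := by
    rw [hR]
    push_cast
    ring
  have hR' : (0 : ℝ) < R := by exact_mod_cast hRpos
  -- the lower bound for the probabilities, uniformly in `z ≤ L`
  have hp' : ∀ᶠ n : ℕ in atTop, ∀ z ≤ L,
      (n : ℝ) ^ (-(1 / (2 * R)) : ℝ) ≤ P.real {ω | Z n ω = z} := by
    have h1 : ∀ᶠ n : ℕ in atTop, ∀ z ∈ range (L + 1),
        (n : ℝ) ^ (-(1 / (2 * R)) : ℝ) ≤ P.real {ω | Z n ω = z} := by
      rw [Filter.eventually_all_finset]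
      intro z hz
      have := hp z (by rw [mem_range] at hz; omega)
      rw [hRreal] at this
      exact this
    filter_upwards [h1] with n hn z hz
    exact hn z (by rw [mem_range]; omega)
  obtain ⟨n₁, hn₁⟩ := eventually_atTop.1 hp'
  -- the main estimate
  have key : ∀ n₀ : ℕ, ∀ N : ℕ, 2 * n₀ + 2 * n₁ + 2 * m₀ + 4 ≤ N → (a N : ℝ) ≤ C * (N : ℝ) ^ h →
      P.real {ω | ¬ ∃ n ≥ n₀, K ≤ rep (Set.range (fun i => a i + Z i ω)) h n} ≤
        Real.exp (-((N : ℝ) ^ (-(1 / 2) : ℝ) * ((N / (4 * R) : ℕ) : ℝ))) := by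
    intro n₀ N hN haN
    set I := Finset.Ico (N / 2) N with hI
    have hIc : I.card = N - N / 2 := Nat.card_Ico _ _
    have hN2 : N ≤ 2 * I.card := by omega
    have hN0 : (0 : ℝ) < N := by
      have : 0 < N := by omega
      exact_mod_cast this
    have hN1 : (1 : ℝ) ≤ N := by
      have : 1 ≤ N := by omega
      exact_mod_cast this
    have haI : ∀ i ∈ I, a i ≤ ⌈C⌉₊ * 2 ^ h * I.card ^ h := by
      intro i hi
      rw [hI, mem_Ico] at hi
      have h1 : a i ≤ a N := ha.monotone hi.2.le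
      have h2 : a N ≤ ⌈C⌉₊ * N ^ h := by
        have h3 : (a N : ℝ) ≤ (⌈C⌉₊ : ℝ) * (N : ℝ) ^ h :=
          haN.trans (mul_le_mul_of_nonneg_right (Nat.le_ceil C) (by positivity))
        exact_mod_cast h3
      calc a i ≤ ⌈C⌉₊ * N ^ h := h1.trans h2
        _ ≤ ⌈C⌉₊ * (2 * I.card) ^ h :=
            Nat.mul_le_mul_left _ (Nat.pow_le_pow_left hN2 h)
        _ = ⌈C⌉₊ * 2 ^ h * I.card ^ h := by rw [mul_pow]; ring
    obtain ⟨J, z, hG, hd⟩ := hL a I (by omega) haI (N / (4 * R)) (by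
      have := Nat.div_mul_le_self N (4 * R)
      have e : N / (4 * R) * (4 * R) = 2 * (2 * (N / (4 * R) * (h + K * h))) := by
        rw [← hR]
        ring
      rw [e] at this
      rw [hIc]
      generalize N / (4 * R) * (h + K * h) = X at this ⊢
      omega)
    have hq : ∀ j < N / (4 * R), (N : ℝ) ^ (-(1 / 2) : ℝ) ≤ P.real (Ev Z (J j) (z j)) := by
      intro j hj
      obtain ⟨hJI, hJc, hzL, -⟩ := hG j hj
      rw [prob_Ev hind]
      have h1 : ∀ x ∈ J j, (N : ℝ) ^ (-(1 / (2 * R)) : ℝ) ≤ P.real (Z x ⁻¹' {z j x}) := by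
        intro x hx
        have hxI := hJI hx
        rw [hI, mem_Ico] at hxI
        have h2 := hn₁ x (by omega) (z j x) (hzL x)
        refine le_trans ?_ h2
        apply Real.rpow_le_rpow_of_nonpos
        · have : 0 < x := by omega
          exact_mod_cast this
        · exact_mod_cast hxI.2.le
        · rw [neg_nonpos]
          positivity
      have h3 : (0 : ℝ) < (N : ℝ) ^ (-(1 / (2 * R)) : ℝ) := Real.rpow_pos_of_pos hN0 _
      have h4 : (N : ℝ) ^ (-(1 / (2 * R)) : ℝ) ≤ 1 :=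
        Real.rpow_le_one_of_one_le_of_nonpos hN1 (by rw [neg_nonpos]; positivity)
      calc (N : ℝ) ^ (-(1 / 2) : ℝ) = ((N : ℝ) ^ (-(1 / (2 * R)) : ℝ)) ^ R := by
            rw [← Real.rpow_natCast, ← Real.rpow_mul hN0.le]
            congr 1
            field_simp
        _ ≤ ((N : ℝ) ^ (-(1 / (2 * R)) : ℝ)) ^ (J j).card :=
            pow_le_pow_of_le_one h3.le h4 (by rw [hR]; exact hJc)
        _ = ∏ x ∈ J j, (N : ℝ) ^ (-(1 / (2 * R)) : ℝ) := by rw [prod_const]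
        _ ≤ ∏ x ∈ J j, P.real (Z x ⁻¹' {z j x}) :=
            prod_le_prod (fun _ _ => h3.le) h1
    have hnone := prob_none hZ hind J z (N / (4 * R)) hd hq
    have hsub : {ω | ¬ ∃ n ≥ n₀, K ≤ rep (Set.range (fun i => a i + Z i ω)) h n} ⊆
        ⋂ j ∈ range (N / (4 * R)), (Ev Z (J j) (z j))ᶜ := by
      intro ω hω
      simp only [Set.mem_iInter, mem_range, Set.mem_compl_iff]
      intro j hj hev
      apply hω
      obtain ⟨-, -, -, m, ⟨x, hx, hxm⟩, hm⟩ := hG j hj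
      refine ⟨m, ?_, hm (fun i => Z i ω) hev⟩
      rw [hI, mem_Ico] at hx
      have := ha.id_le x
      simp only [id] at this
      omega
    have hq1 : (N : ℝ) ^ (-(1 / 2) : ℝ) ≤ 1 :=
      Real.rpow_le_one_of_one_le_of_nonpos hN1 (by norm_num)
    calc P.real {ω | ¬ ∃ n ≥ n₀, K ≤ rep (Set.range (fun i => a i + Z i ω)) h n}
        ≤ P.real (⋂ j ∈ range (N / (4 * R)), (Ev Z (J j) (z j))ᶜ) := measureReal_mono hsub
      _ ≤ (1 - (N : ℝ) ^ (-(1 / 2) : ℝ)) ^ (N / (4 * R)) := hnone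
      _ ≤ (Real.exp (-(N : ℝ) ^ (-(1 / 2) : ℝ))) ^ (N / (4 * R)) :=
          pow_le_pow_left₀ (by linarith) (Real.one_sub_le_exp_neg _) _
      _ = Real.exp (-((N : ℝ) ^ (-(1 / 2) : ℝ) * ((N / (4 * R) : ℕ) : ℝ))) := by
          rw [← Real.exp_nat_mul]
          congr 1
          ring
  have hzero : ∀ n₀ : ℕ,
      P {ω | ¬ ∃ n ≥ n₀, K ≤ rep (Set.range (fun i => a i + Z i ω)) h n} = 0 := by
    intro n₀
    have h1 : P.real {ω | ¬ ∃ n ≥ n₀, K ≤ rep (Set.range (fun i => a i + Z i ω)) h n} ≤ 0 := by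
      apply le_of_forall_pos_lt_add
      intro ε hε
      have ht := (tendsto_exp_zero R hRpos).eventually (gt_mem_nhds hε)
      obtain ⟨N, hN1, hN2, hN3⟩ := (hfreq.and_eventually
        (ht.and (eventually_ge_atTop (2 * n₀ + 2 * n₁ + 2 * m₀ + 4)))).exists
      rw [zero_add]
      exact lt_of_le_of_lt (key n₀ N hN3 hN1) hN2
    have h2 : P.real {ω | ¬ ∃ n ≥ n₀, K ≤ rep (Set.range (fun i => a i + Z i ω)) h n} = 0 :=
      le_antisymm h1 measureReal_nonneg
    rwa [measureReal_def, ENNReal.toReal_eq_zero_iff, or_iff_left (measure_ne_top _ _)] at h2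
  have hae : ∀ᵐ ω ∂P, ∀ n₀ : ℕ, ∃ n ≥ n₀, K ≤ rep (Set.range (fun i => a i + Z i ω)) h n := by
    rw [ae_all_iff]
    intro n₀
    rw [ae_iff]
    exact hzero n₀
  filter_upwards [hae] with ω hω
  rw [frequently_atTop]
  exact hω

/-- The same for asymptotic bases of order `h` and for sets with `a_n ≤ C n ^ h` infinitely
often. -/
theorem main_both (h K : ℕ) (hh : 2 ≤ h) (C : ℝ) : ∃ L : ℕ, ∀ a : ℕ → ℕ, StrictMono a →
    ((∃ n₀, ∀ n ≥ n₀, 1 ≤ rep (Set.range a) h n) ∨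
      ∃ᶠ n : ℕ in atTop, (a n : ℝ) ≤ C * (n : ℝ) ^ h) →
    ∀ (Ω : Type u) [MeasurableSpace Ω] (P : Measure Ω) [IsProbabilityMeasure P]
      (Z : ℕ → Ω → ℕ), (∀ n, Measurable (Z n)) → iIndepFun Z P →
      (∀ z ≤ L, ∀ᶠ n : ℕ in atTop,
        (n : ℝ) ^ (-(1 / (2 * (h * (K + 1)))) : ℝ) ≤ P.real {ω | Z n ω = z}) →
      ∀ᵐ ω ∂P, ∃ᶠ n in atTop, K ≤ rep (Set.range (fun i => a i + Z i ω)) h n := by
  obtain ⟨L, hL⟩ := main.{u} h K hh (max C 2)
  refine ⟨L, fun a ha hgr => hL a ha ?_⟩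
  rcases hgr with ⟨n₀, hn₀⟩ | hgr
  · refine (basis_growth' ha hh hn₀).mono (fun n hn => hn.trans ?_)
    exact mul_le_mul_of_nonneg_right (le_max_right _ _) (by positivity)
  · refine hgr.mono (fun n hn => hn.trans ?_)
    exact mul_le_mul_of_nonneg_right (le_max_left _ _) (by positivity)

/-- Random shifts which take all values with probability at least `n ^ (-o(1))`. -/
theorem main_unbounded (h : ℕ) (hh : 2 ≤ h) (a : ℕ → ℕ) (ha : StrictMono a)
    (hgr : (∃ n₀, ∀ n ≥ n₀, 1 ≤ rep (Set.range a) h n) ∨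
      ∃ C : ℝ, ∃ᶠ n : ℕ in atTop, (a n : ℝ) ≤ C * (n : ℝ) ^ h)
    (Ω : Type u) [MeasurableSpace Ω] (P : Measure Ω) [IsProbabilityMeasure P]
    (Z : ℕ → Ω → ℕ) (hZ : ∀ n, Measurable (Z n)) (hind : iIndepFun Z P)
    (hp : ∀ z : ℕ, ∀ ε : ℝ, 0 < ε → ∀ᶠ n : ℕ in atTop, (n : ℝ) ^ (-ε) ≤ P.real {ω | Z n ω = z}) :
    ∀ᵐ ω ∂P, ∀ K : ℕ, ∃ᶠ n in atTop, K ≤ rep (Set.range (fun i => a i + Z i ω)) h n := by
  have hgr' : ∃ C : ℝ, (∃ n₀, ∀ n ≥ n₀, 1 ≤ rep (Set.range a) h n) ∨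
      ∃ᶠ n : ℕ in atTop, (a n : ℝ) ≤ C * (n : ℝ) ^ h := by
    rcases hgr with h | ⟨C, hC⟩
    · exact ⟨0, Or.inl h⟩
    · exact ⟨C, Or.inr hC⟩
  obtain ⟨C, hC⟩ := hgr'
  rw [ae_all_iff]
  intro K
  obtain ⟨L, hL⟩ := main_both.{u} h K hh C
  refine hL a ha hC Ω P Z hZ hind (fun z _ => hp z _ ?_)
  have : (0 : ℝ) < h := by
    have : 0 < h := by omega
    exact_mod_cast this
  positivity

end Run7.h326.RP
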