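import Mathlib

set_option autoImplicit false

open Finset

namespace Run7.h326.VL

/-- positive definiteness of the correlation -/
theorem corr_le {ι : Type} (P : Finset ι) (u : ι → ℝ) (d : ι → ℤ) (k : ℤ) :
    ∑ i ∈ P, ∑ j ∈ P, (if d i + k = d j then u i * u j else 0) ≤
      ∑ i ∈ P, ∑ j ∈ P, (if d i = d j then u i * u j else 0) := by
  classical
  let V : ℤ → ℝ := fun m => ∑ j ∈ P, if m = d j then u j else 0
  have hV : ∀ k : ℤ, ∑ i ∈ P, ∑ j ∈ P, (if d i + k = d j then u i * u j else 0) =
      ∑ m ∈ P.image d, V m * V (m + k) := by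
    intro k
    have h1 : ∑ i ∈ P, ∑ j ∈ P, (if d i + k = d j then u i * u j else 0) =
        ∑ i ∈ P, u i * V (d i + k) := by
      refine sum_congr rfl fun i _ => ?_
      simp only [V]
      rw [mul_sum]
      refine sum_congr rfl fun j _ => ?_
      split_ifs <;> simp
    rw [h1, ← sum_fiberwise_of_maps_to (s := P) (t := P.image d) (g := d)
      (fun i hi => mem_image_of_mem d hi)]
    refine sum_congr rfl fun m _ => ?_
    have h2 : V m = ∑ i ∈ P with d i = m, u i := by
      simp only [V]
      rw [sum_filter]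
      refine sum_congr rfl fun i _ => ?_
      by_cases h : d i = m
      · simp [h]
      · rw [if_neg h, if_neg (fun h' => h h'.symm)]
    rw [h2, sum_mul]
    refine sum_congr rfl fun i hi => ?_
    rw [(mem_filter.1 hi).2]
  have h0 := hV 0
  simp only [add_zero] at h0
  rw [hV k, h0]
  have h3 : ∑ m ∈ P.image d, V (m + k) ^ 2 ≤ ∑ m ∈ P.image d, V m ^ 2 := by
    have h4 : ∑ m ∈ P.image d, V (m + k) ^ 2 = ∑ m ∈ (P.image d).map (addRightEmbedding k),
        V m ^ 2 := by
      rw [sum_map]
      rfl
    rw [h4]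
    rw [← sum_filter_add_sum_filter_not ((P.image d).map (addRightEmbedding k))
      (fun m => m ∈ P.image d)]
    have h5 : ∑ m ∈ (P.image d).map (addRightEmbedding k) with m ∉ P.image d, V m ^ 2 = 0 := by
      refine sum_eq_zero fun m hm => ?_
      have h6 := (mem_filter.1 hm).2
      have h7 : V m = 0 := by
        refine sum_eq_zero fun j hj => ?_
        rw [if_neg]
        rintro rfl
        exact h6 (mem_image_of_mem d hj)
      rw [h7]
      ring
    rw [h5, add_zero]
    refine sum_le_sum_of_subset_of_nonneg ?_ fun m _ _ => sq_nonneg _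
    intro m hm
    exact (mem_filter.1 hm).2
  have h8 : ∑ m ∈ P.image d, V m * V (m + k) ≤
      ∑ m ∈ P.image d, (V m ^ 2 + V (m + k) ^ 2) / 2 := by
    refine sum_le_sum fun m _ => ?_
    nlinarith [sq_nonneg (V m - V (m + k))]
  have h9 : ∑ m ∈ P.image d, V m * V m = ∑ m ∈ P.image d, V m ^ 2 :=
    sum_congr rfl fun m _ => by ring
  rw [h9]
  rw [← sum_div, sum_add_distrib] at h8
  linarith

section tuples

variable (α : Type) [Fintype α] [DecidableEq α] (S : Finset ℕ)

/-- tuples with entries in `S` -/
def tp : Finset (α → ℕ) := Fintype.piFinset fun _ => S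

variable {α S}

theorem mem_tp {c : α → ℕ} : c ∈ tp α S ↔ ∀ i, c i ∈ S := by
  simp [tp]

/-- the sum of the entries -/
def sm (c : α → ℕ) : ℕ := ∑ i, c i

theorem sum_tp_prod (φ : α → ℕ → ℝ) : ∑ c ∈ tp α S, ∏ i, φ i (c i) = ∏ i, ∑ a ∈ S, φ i a := by
  rw [tp, prod_univ_sum]

theorem sum_tp (x : ℝ) : ∑ c ∈ tp α S, x ^ sm c = (∑ a ∈ S, x ^ a) ^ Fintype.card α := by
  have h := sum_tp_prod (α := α) (S := S) (fun _ a => x ^ a)
  simp only [prod_pow_eq_pow_sum, prod_const] at h
  rw [← Finset.card_univ]
  exact h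

theorem sum_coinc (x : ℝ) (i j : α) (hij : i ≠ j) :
    ∑ c ∈ tp α S with c i = c j, x ^ sm c =
      (∑ a ∈ S, x ^ (2 * a)) * (∑ a ∈ S, x ^ a) ^ (Fintype.card α - 2) := by
  have h1 : ∑ c ∈ tp α S with c i = c j, x ^ sm c =
      ∑ a ∈ S, ∑ c ∈ tp α S, ∏ k, (if k = i ∨ k = j then (if c k = a then x ^ a else 0)
        else x ^ c k) := by
    rw [sum_comm, sum_filter]
    refine sum_congr rfl fun c hc => ?_
    have hc' := mem_tp.1 hc
    have h2 : ∀ a, (∏ k, (if k = i ∨ k = j then (if c k = a then x ^ a else 0) else x ^ c k)) =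
        if c i = a ∧ c j = a then x ^ sm c else 0 := by
      intro a
      split_ifs with h
      · have h3 : ∀ k, (if k = i ∨ k = j then (if c k = a then x ^ a else 0) else x ^ c k) =
            x ^ c k := by
          intro k
          by_cases hk : k = i ∨ k = j
          · rw [if_pos hk]
            rcases hk with rfl | rfl
            · rw [if_pos h.1, h.1]
            · rw [if_pos h.2, h.2]
          · rw [if_neg hk]
        simp only [h3]
        rw [prod_pow_eq_pow_sum]
        rfl
      · rw [not_and_or] at h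
        rcases h with h | h
        · exact prod_eq_zero (mem_univ i) (by simp [h])
        · exact prod_eq_zero (mem_univ j) (by simp [h])
    simp only [h2]
    by_cases h4 : c i = c j
    · rw [if_pos h4, sum_eq_single (c i)]
      · simp [h4]
      · intro a _ ha
        rw [if_neg]
        rintro ⟨h5, _⟩
        exact ha h5.symm
      · intro h5
        exact absurd (hc' i) h5
    · rw [if_neg h4]
      refine (sum_eq_zero fun a _ => ?_).symm
      rw [if_neg]
      rintro ⟨h5, h6⟩
      exact h4 (h5.trans h6.symm)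
  rw [h1, sum_mul]
  refine sum_congr rfl fun a ha => ?_
  rw [sum_tp_prod (fun k y => if k = i ∨ k = j then (if y = a then x ^ a else 0) else x ^ y)]
  have h7 : ∀ k : α, (∑ y ∈ S, if k = i ∨ k = j then (if y = a then x ^ a else 0) else x ^ y) =
      if k = i ∨ k = j then x ^ a else ∑ y ∈ S, x ^ y := by
    intro k
    split_ifs
    · rw [sum_ite_eq' S a, if_pos ha]
    · rfl
  simp only [h7]
  rw [prod_ite, prod_const, prod_const]
  have h8 : (univ.filter (fun k : α => k = i ∨ k = j)) = {i, j} := by
    ext k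
    simp
  have h9 : (univ.filter (fun k : α => ¬ (k = i ∨ k = j))).card = Fintype.card α - 2 := by
    rw [filter_not, card_sdiff_of_subset (filter_subset _ _), h8, card_pair hij, card_univ]
  rw [h9, h8, card_pair hij, ← pow_mul]
  ring

end tuples

end Run7.h326.VL
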