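import Mathlib
import Pool.Agent.Run7.h326.V1

set_option autoImplicit false

open Finset

namespace Run7.h326.SP

open Run7.h326.VL

section cls

variable {ι : Type} [Fintype ι] [DecidableEq ι] (S : Finset ℕ)

open Classical in
/-- sums over tuples which are constant on the classes -/
theorem sum_class (φ : ι → ℕ → ℂ) (r : Setoid ι) :
    ∑ c ∈ (tp ι S).filter (fun c => ∀ i j, r i j → c i = c j), ∏ j, φ j (c j) =
      ∏ q : Quotient r, ∑ a ∈ S, ∏ j ∈ univ.filter (fun j => Quotient.mk r j = q), φ j a := by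
  rw [prod_univ_sum]
  refine sum_bij' (fun c _ => fun q : Quotient r => c q.out)
    (fun p _ => fun i => p (Quotient.mk r i)) ?_ ?_ ?_ ?_ ?_
  · intro c hc
    rw [mem_filter, mem_tp] at hc
    rw [Fintype.mem_piFinset]
    intro q
    exact hc.1 _
  · intro p hp
    rw [Fintype.mem_piFinset] at hp
    rw [mem_filter, mem_tp]
    refine ⟨fun i => hp _, fun i j hij => ?_⟩
    exact congrArg p (Quotient.sound hij)
  · intro c hc
    rw [mem_filter, mem_tp] at hc
    funext i
    exact hc.2 _ _ (Quotient.mk_out i)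
  · intro p _
    funext q
    exact congrArg p (Quotient.out_eq q)
  · intro c hc
    rw [mem_filter, mem_tp] at hc
    rw [← prod_fiberwise_of_maps_to (s := univ) (t := univ) (g := fun j => Quotient.mk r j)
      (fun j _ => mem_univ _) (fun j => φ j (c j))]
    refine prod_congr rfl fun q _ => prod_congr rfl fun j hj => ?_
    have hj' := (mem_filter.1 hj).2
    have : c j = c q.out := by
      apply hc.2
      rw [← hj']
      exact Setoid.symm (Quotient.mk_out j)
    rw [this]

open Classical in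
/-- the bound for the sums over tuples which are constant on the classes -/
theorem class_bound (φ : ι → ℕ → ℂ) (x X : ℝ) (hx0 : 0 ≤ x) (hx1 : x ≤ 1) (hX : 0 ≤ X)
    (hφ : ∀ j a, ‖φ j a‖ ≤ x ^ a) (hφX : ∀ j, ‖∑ a ∈ S, φ j a‖ ≤ X)
    (hM : 1 ≤ ∑ a ∈ S, x ^ (2 * a)) (r : Setoid ι) (hr : ∃ i j, i ≠ j ∧ r i j) :
    ∃ s : ℕ, s + 2 ≤ Fintype.card ι ∧
    ‖∑ c ∈ (tp ι S).filter (fun c => ∀ i j, r i j → c i = c j), ∏ j, φ j (c j)‖ ^ 2 ≤
      (∑ a ∈ S, x ^ (2 * a)) ^ (Fintype.card ι - s) * X ^ (2 * s) := by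
  set M := ∑ a ∈ S, x ^ (2 * a) with hMdef
  set κ : Quotient r → ℕ := fun q => (univ.filter (fun j => Quotient.mk r j = q)).card with hκ
  have hκ1 : ∀ q, 1 ≤ κ q := by
    intro q
    refine card_pos.2 ⟨q.out, ?_⟩
    rw [mem_filter]
    exact ⟨mem_univ _, Quotient.out_eq q⟩
  have hκs : ∑ q, κ q = Fintype.card ι := by
    rw [← Finset.card_univ, card_eq_sum_card_fiberwise (s := univ) (t := univ)
      (f := fun j => Quotient.mk r j) (fun j _ => mem_coe.2 (mem_univ _))]
  set s := (univ.filter (fun q => κ q = 1)).card with hs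
  set t := (univ.filter (fun q => ¬ κ q = 1)).card with ht
  have hst : s + 2 * t ≤ Fintype.card ι := by
    rw [← hκs, ← sum_filter_add_sum_filter_not univ (fun q => κ q = 1)]
    have h1 : s ≤ ∑ q with κ q = 1, κ q := by
      rw [hs, card_eq_sum_ones]
      exact sum_le_sum fun q _ => hκ1 q
    have h2 : 2 * t ≤ ∑ q with ¬ κ q = 1, κ q := by
      rw [ht, card_eq_sum_ones, mul_sum]
      refine sum_le_sum fun q hq => ?_
      have h3 := (mem_filter.1 hq).2
      have h4 := hκ1 q
      omega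
    omega
  have ht1 : 1 ≤ t := by
    obtain ⟨i, j, hij, hrij⟩ := hr
    refine card_pos.2 ⟨Quotient.mk r i, ?_⟩
    rw [mem_filter]
    refine ⟨mem_univ _, ?_⟩
    have h1 : 1 < κ (Quotient.mk r i) := by
      refine one_lt_card.2 ⟨i, ?_, j, ?_, hij⟩
      · rw [mem_filter]
        exact ⟨mem_univ _, rfl⟩
      · rw [mem_filter]
        exact ⟨mem_univ _, (Quotient.sound hrij).symm⟩
    omega
  refine ⟨s, by omega, ?_⟩
  rw [sum_class, norm_prod]
  have hq : ∀ q : Quotient r, ‖∑ a ∈ S, ∏ j ∈ univ.filter (fun j => Quotient.mk r j = q), φ j a‖ ≤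
      if κ q = 1 then X else M := by
    intro q
    split_ifs with h
    · obtain ⟨j, hj⟩ := card_eq_one.1 h
      rw [hj]
      simp only [prod_singleton]
      exact hφX j
    · refine (norm_sum_le _ _).trans (sum_le_sum fun a _ => ?_)
      rw [norm_prod]
      calc ∏ j ∈ univ.filter (fun j => Quotient.mk r j = q), ‖φ j a‖
          ≤ ∏ j ∈ univ.filter (fun j => Quotient.mk r j = q), x ^ a :=
            prod_le_prod (fun _ _ => norm_nonneg _) fun j _ => hφ j a
        _ = x ^ (a * κ q) := by rw [prod_const, ← pow_mul]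
        _ ≤ x ^ (2 * a) := by
            refine pow_le_pow_of_le_one hx0 hx1 ?_
            have := hκ1 q
            have h2 : 2 ≤ κ q := by omega
            nlinarith
  have h5 : ∏ q : Quotient r, ‖∑ a ∈ S, ∏ j ∈ univ.filter (fun j => Quotient.mk r j = q), φ j a‖ ≤
      X ^ s * M ^ t := by
    refine (prod_le_prod (fun _ _ => norm_nonneg _) fun q _ => hq q).trans (le_of_eq ?_)
    rw [prod_ite, prod_const, prod_const]
  have h6 : (X ^ s * M ^ t) ^ 2 = M ^ (2 * t) * X ^ (2 * s) := by ring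
  have h7 : 0 ≤ ∏ q : Quotient r,
      ‖∑ a ∈ S, ∏ j ∈ univ.filter (fun j => Quotient.mk r j = q), φ j a‖ :=
    prod_nonneg fun _ _ => norm_nonneg _
  calc _ ≤ (X ^ s * M ^ t) ^ 2 := by gcongr
    _ = M ^ (2 * t) * X ^ (2 * s) := h6
    _ ≤ _ := by
        apply mul_le_mul_of_nonneg_right _ (by positivity)
        exact pow_le_pow_right₀ hM (by omega)

/-- tuples with an equality prescribed by one of the pairs of `Q` -/
def coin (Q : Finset (ι × ι)) : Finset (ι → ℕ) :=
  (tp ι S).filter fun c => ∃ e ∈ Q, c e.1 = c e.2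

open Classical in
theorem coin_expand (Q : Finset (ι × ι)) (g : (ι → ℕ) → ℂ) :
    ∑ c ∈ coin S Q, g c = - ∑ I ∈ Q.powerset.erase ∅, (-1) ^ I.card *
      ∑ c ∈ (tp ι S).filter (fun c => ∀ e ∈ I, c e.1 = c e.2), g c := by
  have h1 : ∀ c ∈ tp ι S, (if ∃ e ∈ Q, c e.1 = c e.2 then g c else 0) =
      g c - ∑ I ∈ Q.powerset, (-1) ^ I.card * (if ∀ e ∈ I, c e.1 = c e.2 then g c else 0) := by
    intro c _
    have h2 : ∏ e ∈ Q, (1 + -(if c e.1 = c e.2 then (1 : ℂ) else 0)) =
        ∑ I ∈ Q.powerset, (-1) ^ I.card * (if ∀ e ∈ I, c e.1 = c e.2 then (1 : ℂ) else 0) := by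
      rw [prod_one_add]
      refine sum_congr rfl fun I _ => ?_
      rw [prod_neg]
      congr 1
      split_ifs with h
      · exact prod_eq_one fun e he => if_pos (h e he)
      · push Not at h
        obtain ⟨e, he, hne⟩ := h
        exact prod_eq_zero he (if_neg hne)
    have h3 : ∑ I ∈ Q.powerset, (-1) ^ I.card * (if ∀ e ∈ I, c e.1 = c e.2 then g c else 0) =
        (∏ e ∈ Q, (1 + -(if c e.1 = c e.2 then (1 : ℂ) else 0))) * g c := by
      rw [h2, sum_mul]
      refine sum_congr rfl fun I _ => ?_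
      split_ifs <;> ring
    rw [h3]
    split_ifs with h
    · obtain ⟨e, he, hce⟩ := h
      rw [prod_eq_zero he (by rw [if_pos hce]; ring)]
      ring
    · push Not at h
      rw [prod_eq_one fun e he => by rw [if_neg (h e he)]; ring]
      ring
  unfold coin
  rw [sum_filter, sum_congr rfl h1, sum_sub_distrib, sum_comm]
  rw [← add_sum_erase Q.powerset _ (empty_mem_powerset Q)]
  simp only [card_empty, pow_zero, one_mul, notMem_empty, false_implies, implies_true, if_true]
  rw [sub_add_cancel_left]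
  congr 1
  refine sum_congr rfl fun I _ => ?_
  rw [← mul_sum, sum_filter]

/-- pointwise bound for the tuples with coincidences -/
theorem coin_bound (Q : Finset (ι × ι)) (hQ : ∀ e ∈ Q, e.1 ≠ e.2)
    (φ : ι → ℕ → ℂ) (x X : ℝ) (hx0 : 0 ≤ x) (hx1 : x ≤ 1) (hX : 0 ≤ X)
    (hφ : ∀ j a, ‖φ j a‖ ≤ x ^ a) (hφX : ∀ j, ‖∑ a ∈ S, φ j a‖ ≤ X)
    (hM : 1 ≤ ∑ a ∈ S, x ^ (2 * a)) (lam : ℝ) (hlam : 1 ≤ lam) :
    ‖∑ c ∈ coin S Q, ∏ j, φ j (c j)‖ ^ 2 ≤ 4 ^ Q.card *
      (lam ^ (Fintype.card ι) * (∑ a ∈ S, x ^ (2 * a)) ^ (Fintype.card ι) +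
        X ^ (2 * Fintype.card ι) / lam) := by
  classical
  set M := ∑ a ∈ S, x ^ (2 * a) with hMdef
  set h := Fintype.card ι with hh
  have hM0 : 0 < M := by linarith
  have hterm : ∀ I ∈ Q.powerset.erase ∅,
      ‖∑ c ∈ (tp ι S).filter (fun c => ∀ e ∈ I, c e.1 = c e.2), ∏ j, φ j (c j)‖ ^ 2 ≤
        lam ^ h * M ^ h + X ^ (2 * h) / lam := by
    intro I hI
    rw [mem_erase, mem_powerset] at hI
    let R : ι → ι → Prop := fun i j => (i, j) ∈ I
    have hset : (tp ι S).filter (fun c => ∀ e ∈ I, c e.1 = c e.2) =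
        (tp ι S).filter (fun c => ∀ i j, (Relation.EqvGen.setoid R) i j → c i = c j) := by
      refine filter_congr fun c _ => ?_
      constructor
      · intro hc
        have h1 : Relation.EqvGen.setoid R ≤ Setoid.ker c := by
          apply Setoid.eqvGen_le
          intro i j hij
          exact hc (i, j) hij
        intro i j hij
        exact h1 hij
      · intro hc e he
        exact hc e.1 e.2 (Relation.EqvGen.rel _ _ he)
    rw [hset]
    obtain ⟨e, he⟩ := nonempty_iff_ne_empty.2 hI.1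
    obtain ⟨s, hs, hb⟩ := class_bound S φ x X hx0 hx1 hX hφ hφX hM (Relation.EqvGen.setoid R)
      ⟨e.1, e.2, hQ e (hI.2 he), Relation.EqvGen.rel _ _ he⟩
    refine hb.trans ?_
    rw [← hh, ← hMdef]
    rw [← hh] at hs
    -- `M ^ (h - s) X ^ (2 s) ≤ lam ^ h M ^ h + X ^ (2 h) / lam`
    set y := X ^ 2 with hy
    have hy0 : 0 ≤ y := by positivity
    rw [pow_mul X 2 s, pow_mul X 2 h, ← hy]
    by_cases hc : y ≤ lam * M
    · have h2 : M ^ (h - s) * y ^ s ≤ lam ^ h * M ^ h := by
        calc M ^ (h - s) * y ^ s ≤ M ^ (h - s) * (lam * M) ^ s := by gcongr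
          _ = lam ^ s * (M ^ (h - s) * M ^ s) := by rw [mul_pow]; ring
          _ = lam ^ s * M ^ h := by rw [← pow_add]; congr 2; omega
          _ ≤ lam ^ h * M ^ h := by
              apply mul_le_mul_of_nonneg_right _ (by positivity)
              exact pow_le_pow_right₀ hlam (by omega)
      have h3 : 0 ≤ y ^ h / lam := by positivity
      linarith
    · push Not at hc
      have hMy : M ≤ y / lam := by
        rw [le_div_iff₀ (by linarith)]
        linarith
      have hMy' : M ≤ y := by nlinarith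
      have h2 : M ^ (h - s) * y ^ s ≤ y ^ h / lam := by
        obtain ⟨k, hk⟩ : ∃ k, h - s = k + 1 := ⟨h - s - 1, by omega⟩
        rw [hk, pow_succ]
        calc M ^ k * M * y ^ s ≤ y ^ k * (y / lam) * y ^ s := by gcongr
          _ = y ^ (k + 1 + s) / lam := by ring
          _ = y ^ h / lam := by congr 2; omega
      have h3 : 0 ≤ lam ^ h * M ^ h := by positivity
      linarith
  rw [coin_expand, norm_neg]
  set W := lam ^ h * M ^ h + X ^ (2 * h) / lam with hW
  have hW0 : 0 ≤ W := by positivity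
  have hnorm : ‖∑ I ∈ Q.powerset.erase ∅, (-1) ^ I.card *
      ∑ c ∈ (tp ι S).filter (fun c => ∀ e ∈ I, c e.1 = c e.2), ∏ j, φ j (c j)‖ ≤
      2 ^ Q.card * √W := by
    refine (norm_sum_le _ _).trans ?_
    calc ∑ I ∈ Q.powerset.erase ∅, ‖(-1) ^ I.card *
          ∑ c ∈ (tp ι S).filter (fun c => ∀ e ∈ I, c e.1 = c e.2), ∏ j, φ j (c j)‖
        ≤ ∑ I ∈ Q.powerset.erase ∅, √W := by
          refine sum_le_sum fun I hI => ?_
          rw [norm_mul, norm_pow, norm_neg, norm_one, one_pow, one_mul]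
          exact Real.le_sqrt_of_sq_le (hterm I hI)
      _ = (Q.powerset.erase ∅).card * √W := by rw [sum_const, nsmul_eq_mul]
      _ ≤ 2 ^ Q.card * √W := by
          apply mul_le_mul_of_nonneg_right _ (Real.sqrt_nonneg _)
          have h1 : (Q.powerset.erase ∅).card ≤ 2 ^ Q.card := by
            rw [← card_powerset]
            exact card_le_card (erase_subset _ _)
          exact_mod_cast h1
  calc _ ≤ (2 ^ Q.card * √W) ^ 2 := by gcongr
    _ = (2 ^ Q.card) ^ 2 * W := by rw [mul_pow, Real.sq_sqrt hW0]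
    _ = 4 ^ Q.card * W := by
        congr 1
        rw [← pow_mul, mul_comm, pow_mul]
        norm_num

end cls

end Run7.h326.SP
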