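import Pool.Agent.Run7.h326.SP9

set_option autoImplicit false

open Finset MeasureTheory Pool.Agent.H303R3 Filter Topology
open scoped ComplexConjugate

namespace Run7.h326.SP

open Run7.h326.VL
open Pool.Agent.H303R3.ET (Pw conv_Pw Pw_add abel_le tendsto_T ev_bound Conc mu_le conv_poly ev_poly
  unif_close)

theorem pars_gen {F : PowerSeries ℂ} (hF : Conv F) {x : ℝ} (h0 : 0 ≤ x) (h1 : x < 1) :
    HasSum (fun n => ‖PowerSeries.coeff n F‖ ^ 2 * x ^ (2 * n))
      (∫ θ, ‖ev F (circleMap 0 x θ)‖ ^ 2 ∂mu) := by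
  have h2 := parseval hF h0 h1
  have h3 : Real.circleAverage (fun z => ‖ev F z‖ ^ 2) 0 x =
      ∫ θ, ‖ev F (circleMap 0 x θ)‖ ^ 2 ∂mu := by
    rw [int_mu_eq]
    rfl
  rw [h3] at h2
  refine h2.congr_fun ?_
  intro n
  rw [pow_mul]

/-- the linear form in consecutive values -/
noncomputable def lin (g : Polynomial ℤ) (c : ℕ → ℝ) (n : ℕ) : ℝ :=
  ∑ j ∈ g.support, (g.coeff j : ℝ) * c (n + j)

theorem rev_coeff (g : Polynomial ℤ) {i : ℕ} (hi : i ≤ g.natDegree) :
    g.reverse.coeff i = g.coeff (g.natDegree - i) := by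
  rw [Polynomial.coeff_reverse, Polynomial.revAt_le hi]

theorem rev_coeff_zero (g : Polynomial ℤ) {i : ℕ} (hi : g.natDegree < i) :
    g.reverse.coeff i = 0 :=
  Polynomial.coeff_eq_zero_of_natDegree_lt ((Polynomial.reverse_natDegree_le g).trans_lt hi)

theorem sum_supp {E : Type} [AddCommMonoid E] (g : Polynomial ℤ) (φ : ℕ → E)
    (hφ : ∀ j, g.coeff j = 0 → φ j = 0) :
    ∑ j ∈ g.support, φ j = ∑ j ∈ range (g.natDegree + 1), φ j := by
  refine sum_subset ?_ ?_
  · intro j hj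
    rw [mem_range]
    exact Nat.lt_succ_of_le (Polynomial.le_natDegree_of_mem_supp j hj)
  · intro j _ hj
    exact hφ j (Polynomial.notMem_support_iff.1 hj)

theorem sum_rev (g : Polynomial ℤ) :
    ∑ i ∈ g.reverse.support, (g.reverse.coeff i : ℝ) ^ 2 = ∑ i ∈ g.support, (g.coeff i : ℝ) ^ 2 := by
  have h1 : ∑ i ∈ g.reverse.support, (g.reverse.coeff i : ℝ) ^ 2 =
      ∑ i ∈ range (g.natDegree + 1), (g.reverse.coeff i : ℝ) ^ 2 := by
    refine sum_subset ?_ ?_
    · intro j hj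
      rw [mem_range]
      exact Nat.lt_succ_of_le ((Polynomial.le_natDegree_of_mem_supp j hj).trans
        (Polynomial.reverse_natDegree_le g))
    · intro j _ hj
      rw [Polynomial.notMem_support_iff.1 hj]
      simp
  rw [h1, sum_supp g (fun i => (g.coeff i : ℝ) ^ 2) (fun j hj => by simp [hj]),
    ← sum_range_reflect]
  refine sum_congr rfl fun i hi => ?_
  have hi' : i ≤ g.natDegree := Nat.lt_succ_iff.1 (mem_range.1 hi)
  rw [rev_coeff g (by omega)]
  congr 3
  omega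

theorem coeff_rev (g : Polynomial ℤ) (c : ℕ → ℝ) (n : ℕ) :
    PowerSeries.coeff (n + g.natDegree)
      (((g.reverse.map (Int.castRingHom ℂ) : Polynomial ℂ) : PowerSeries ℂ) * Pw c) =
      ((lin g c n : ℝ) : ℂ) := by
  set k := g.natDegree with hk
  rw [PowerSeries.coeff_mul, Nat.sum_antidiagonal_eq_sum_range_succ
    (fun i m => PowerSeries.coeff i ((g.reverse.map (Int.castRingHom ℂ) : Polynomial ℂ) :
      PowerSeries ℂ) * PowerSeries.coeff m (Pw c))]
  have h1 : ∀ i, PowerSeries.coeff i ((g.reverse.map (Int.castRingHom ℂ) : Polynomial ℂ) :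
      PowerSeries ℂ) = ((g.reverse.coeff i : ℤ) : ℂ) := by
    intro i
    rw [Polynomial.coeff_coe, Polynomial.coeff_map]
    simp
  have h2 : ∑ i ∈ range (n + k + 1), PowerSeries.coeff i ((g.reverse.map (Int.castRingHom ℂ) :
      Polynomial ℂ) : PowerSeries ℂ) * PowerSeries.coeff (n + k - i) (Pw c) =
      ∑ i ∈ range (k + 1), ((g.reverse.coeff i : ℤ) : ℂ) * (c (n + k - i) : ℂ) := by
    symm
    have h3 : ∀ i, PowerSeries.coeff i ((g.reverse.map (Int.castRingHom ℂ) :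
      Polynomial ℂ) : PowerSeries ℂ) * PowerSeries.coeff (n + k - i) (Pw c) =
      ((g.reverse.coeff i : ℤ) : ℂ) * (c (n + k - i) : ℂ) := by
      intro i
      rw [h1]
      unfold Pw
      rw [PowerSeries.coeff_mk]
    simp only [h3]
    refine sum_subset (range_subset_range.2 (by omega)) ?_
    intro i _ hi
    rw [mem_range, not_lt] at hi
    rw [rev_coeff_zero g (by omega)]
    simp
  rw [h2, ← sum_range_reflect]
  unfold lin
  rw [sum_supp g (fun j => (g.coeff j : ℝ) * c (n + j)) (fun j hj => by simp [hj])]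
  push_cast
  refine sum_congr rfl fun i hi => ?_
  have hi' : i ≤ k := Nat.lt_succ_iff.1 (mem_range.1 hi)
  rw [rev_coeff g (by omega)]
  have e1 : g.natDegree - (k - i) = i := by omega
  have e2 : n + k - (k - i) = n + i := by omega
  rw [e1, e2]

theorem lin_sq_le (g : Polynomial ℤ) {V : ℝ} (hV : ∑ i ∈ g.support, (g.coeff i : ℝ) ^ 2 ≤ V)
    (c : ℕ → ℝ) (n : ℕ) : lin g c n ^ 2 ≤ V * ∑ j ∈ g.support, c (n + j) ^ 2 := by
  unfold lin
  have h1 := sum_mul_sq_le_sq_mul_sq g.support (fun j => (g.coeff j : ℝ)) (fun j => c (n + j))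
  refine h1.trans ?_
  exact mul_le_mul_of_nonneg_right hV (sum_nonneg fun _ _ => sq_nonneg _)

theorem card_supp_le (g : Polynomial ℤ) {V : ℝ}
    (hV : ∑ i ∈ g.support, (g.coeff i : ℝ) ^ 2 ≤ V) : (g.support.card : ℝ) ≤ V := by
  refine le_trans ?_ hV
  rw [card_eq_sum_ones]
  push_cast
  refine sum_le_sum fun i hi => ?_
  have h1 : g.coeff i ≠ 0 := Polynomial.mem_support_iff.1 hi
  have h2 : (1 : ℤ) ≤ g.coeff i ^ 2 := by
    have : 0 < g.coeff i ^ 2 := by positivity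
    omega
  exact_mod_cast h2

/-- No integer linear relation with small coefficients holds approximately. -/
theorem gap {h : ℕ} (hh : 2 ≤ h) (c B V : ℝ) (hc : 0 < c) (hB : 0 ≤ B) (hV : 0 ≤ V) :
    ∃ δ : ℝ, 0 < δ ∧ ∀ A : Set ℕ, (∀ᶠ N : ℕ in atTop, c * N ≤ ((cut A N).card : ℝ) ^ h) →
      (∀ᶠ N : ℕ in atTop, ∑ n ∈ range N, (r A h n : ℝ) ^ 2 ≤ B * N) →
      ∀ g : Polynomial ℤ, g ≠ 0 → ∑ i ∈ g.support, (g.coeff i : ℝ) ^ 2 ≤ V →
      ∀ᶠ N : ℕ in atTop, δ * N ≤ ∑ n ∈ range N, lin g (fun m => (r A h m : ℝ)) n ^ 2 := by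
  set κ : ℝ := (1 - 1 / (h.choose (h / 2) : ℝ)) / 2 with hκ
  have hch := choose_two hh
  have hκ0 : 0 < κ := by rw [hκ]; linarith
  have hκ1 : κ < 1 - 1 / (h.choose (h / 2) : ℝ) := by rw [hκ]; linarith
  obtain ⟨δ₀, hδ₀, c₃, hc₃, hrad⟩ := radial h hh c B κ hc hB hκ1
  set s : ℝ := Real.exp (-(V / (2 * δ₀) + 1)) with hs
  have hs0 : 0 < s := Real.exp_pos _
  have hVδ : 0 ≤ V / (2 * δ₀) := by positivity
  have hs1 : s < 1 := by
    rw [hs]
    exact Real.exp_lt_one_iff.2 (by linarith)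
  have hlog : Real.log (1 / s) = V / (2 * δ₀) + 1 := by
    rw [one_div, hs, ← Real.exp_neg, neg_neg, Real.log_exp]
  have hVs : V / (2 * Real.log (1 / s)) ≤ δ₀ := by
    rw [hlog, div_le_iff₀ (by positivity)]
    have : δ₀ * (2 * (V / (2 * δ₀) + 1)) = V + 2 * δ₀ := by
      field_simp
    rw [this]
    linarith
  set δ₁ : ℝ := (s / 2) ^ 2 * κ * c₃ with hδ₁
  have hδ₁0 : 0 < δ₁ := by rw [hδ₁]; positivity
  obtain ⟨δ, hδ, htaub⟩ := taub (B' := V ^ 2 * B) (δ₁ := δ₁) (by positivity) hδ₁0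
  refine ⟨δ, hδ, fun A hA hBA g hg hgV => ?_⟩
  obtain ⟨D2, hD20, hD2⟩ := ev_bound (c := fun n => (r A h n : ℝ) ^ 2) (B := B) hBA
  obtain ⟨N₀, hN₀⟩ := eventually_atTop.1 hA
  have hrad' := hrad A D2 N₀ hN₀ hD2
  have hR := conv_r hB hD2
  set k := g.natDegree with hk
  set Q : Polynomial ℂ := g.reverse.map (Int.castRingHom ℂ) with hQ
  set F : PowerSeries ℂ := (Q : PowerSeries ℂ) * Pw (fun n => (r A h n : ℝ)) with hF
  have hFc : Conv F := (conv_poly Q).mul hR
  have hy0 : ∀ n, 0 ≤ lin g (fun m => (r A h m : ℝ)) n ^ 2 := fun n => sq_nonneg _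
  have hcoef : ∀ n, ‖PowerSeries.coeff (n + k) F‖ ^ 2 = lin g (fun m => (r A h m : ℝ)) n ^ 2 := by
    intro n
    rw [hF, hQ, coeff_rev, Complex.norm_real, Real.norm_eq_abs, sq_abs]
  set D₃ : ℝ := ∑ n ∈ range k, ‖PowerSeries.coeff n F‖ ^ 2 with hD₃
  refine htaub (fun n => lin g (fun m => (r A h m : ℝ)) n ^ 2) (V ^ 2 * (B * k + D2)) D₃ hy0 ?_ ?_
  · intro N
    have h1 : ∀ j ∈ g.support, ∑ n ∈ range N, (r A h (n + j) : ℝ) ^ 2 ≤ B * (N + k) + D2 := by
      intro j hj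
      have hjk : j ≤ k := Polynomial.le_natDegree_of_mem_supp j hj
      calc ∑ n ∈ range N, (r A h (n + j) : ℝ) ^ 2
          = ∑ n ∈ (range N).map (addRightEmbedding j), (r A h n : ℝ) ^ 2 := by
            rw [sum_map]
            rfl
        _ ≤ ∑ n ∈ range (N + k), (r A h n : ℝ) ^ 2 := by
            refine sum_le_sum_of_subset_of_nonneg ?_ fun n _ _ => sq_nonneg _
            intro n hn
            rw [Finset.mem_map] at hn
            obtain ⟨m, hm, rfl⟩ := hn
            rw [mem_range] at hm ⊢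
            simp only [addRightEmbedding_apply]
            omega
        _ ≤ B * ((N + k : ℕ) : ℝ) + D2 := hD2 _
        _ = B * (N + k) + D2 := by push_cast; ring
    have hcs := card_supp_le g hgV
    have hW : 0 ≤ B * (N + k) + D2 := by positivity
    calc ∑ n ∈ range N, lin g (fun m => (r A h m : ℝ)) n ^ 2
        ≤ ∑ n ∈ range N, V * ∑ j ∈ g.support, (r A h (n + j) : ℝ) ^ 2 :=
          sum_le_sum fun n _ => lin_sq_le g hgV _ n
      _ = V * ∑ j ∈ g.support, ∑ n ∈ range N, (r A h (n + j) : ℝ) ^ 2 := by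
          rw [← mul_sum, sum_comm]
      _ ≤ V * ∑ j ∈ g.support, (B * (N + k) + D2) := by
          gcongr with j hj
          exact h1 j hj
      _ = V * (g.support.card * (B * (N + k) + D2)) := by rw [sum_const, nsmul_eq_mul]
      _ ≤ V * (V * (B * (N + k) + D2)) := by gcongr
      _ = _ := by ring
  · have huc := unif_close (Polynomial.C ((1 / (2 * s) : ℝ) : ℂ) * Q)
    have hIoo : ∀ᶠ x : ℝ in 𝓝[<] 1, x ∈ Set.Ioo (0 : ℝ) 1 :=
      Ioo_mem_nhdsLT (show (0 : ℝ) < 1 by norm_num)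
    filter_upwards [hIoo, hrad', huc] with x hx hrx hux
    obtain ⟨hx0, hx1⟩ := hx
    obtain ⟨hm, hE⟩ := hrx
    set T := (1 - x ^ 2)⁻¹ with hT
    set E : Set ℝ := {θ : ℝ | ‖Q.eval (circleMap 0 1 θ)‖ < s} with hEdef
    have hcQ : Continuous fun θ : ℝ => ‖Q.eval (circleMap 0 1 θ)‖ := by fun_prop
    have hEm : MeasurableSet E := (isOpen_lt hcQ continuous_const).measurableSet
    have hEs : mu.real E ≤ δ₀ := by
      refine (small_set g.reverse ?_ ?_ hs0 hs1).trans hVs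
      · rwa [Ne, Polynomial.reverse_eq_zero]
      · rw [sum_rev]
        exact hgV
    have hmain := hE E hEm hEs
    have hpars := pars_gen hFc hx0.le hx1
    have hlow : (s / 2) ^ 2 * ∫ θ in Eᶜ, ‖ev (Pw fun n => (r A h n : ℝ)) (circleMap 0 x θ)‖ ^ 2
        ∂mu ≤ ∫ θ, ‖ev F (circleMap 0 x θ)‖ ^ 2 ∂mu := by
      have i1 : Integrable (fun θ => ‖ev F (circleMap 0 x θ)‖ ^ 2) mu :=
        integrable_cont ((ev_cont hFc hx0.le hx1).norm.pow 2)
      have i2 : Integrable (fun θ => ‖ev (Pw fun n => (r A h n : ℝ)) (circleMap 0 x θ)‖ ^ 2) mu :=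
        integrable_cont ((ev_cont hR hx0.le hx1).norm.pow 2)
      refine le_trans ?_ (setIntegral_le_integral (s := Eᶜ) i1
        (Filter.Eventually.of_forall fun θ => by positivity))
      rw [← integral_const_mul]
      refine setIntegral_mono_on (i2.integrableOn.const_mul _) i1.integrableOn hEm.compl ?_
      intro θ hθ
      have hz : ‖circleMap 0 x θ‖ < 1 := by
        rw [norm_circleMap_zero, abs_of_nonneg hx0.le]
        exact hx1
      have h1 : s ≤ ‖Q.eval (circleMap 0 1 θ)‖ := by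
        have : ¬ ‖Q.eval (circleMap 0 1 θ)‖ < s := hθ
        linarith
      have h2 : ‖Q.eval (circleMap 0 x θ) - Q.eval (circleMap 0 1 θ)‖ ≤ s / 2 := by
        have h3 := hux θ
        rw [Polynomial.eval_mul, Polynomial.eval_mul, Polynomial.eval_C, Polynomial.eval_C,
          ← mul_sub, norm_mul,
          Complex.norm_real, Real.norm_of_nonneg (by positivity), div_mul_eq_mul_div, one_mul,
          div_le_iff₀ (by positivity)] at h3
        linarith
      have h4 : s / 2 ≤ ‖Q.eval (circleMap 0 x θ)‖ := by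
        have h5 := norm_sub_norm_le (Q.eval (circleMap 0 1 θ)) (Q.eval (circleMap 0 x θ))
        rw [norm_sub_rev] at h5
        linarith
      rw [hF, ev_mul (conv_poly Q) hR hz, ev_poly, norm_mul, mul_pow]
      gcongr
    have hys : Summable fun n => ‖PowerSeries.coeff n F‖ ^ 2 * x ^ (2 * n) := hpars.summable
    have hys2 : Summable fun n => lin g (fun m => (r A h m : ℝ)) n ^ 2 * x ^ (2 * n) := by
      have h1 := ((summable_nat_add_iff k).2 hys).mul_left (x ^ (2 * k))⁻¹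
      refine h1.congr fun n => ?_
      rw [hcoef, mul_add, pow_add]
      field_simp
    have hup : ∫ θ, ‖ev F (circleMap 0 x θ)‖ ^ 2 ∂mu ≤ D₃ +
        ∑' n, lin g (fun m => (r A h m : ℝ)) n ^ 2 * x ^ (2 * n) := by
      rw [← hpars.tsum_eq, ← hys.sum_add_tsum_nat_add k]
      apply add_le_add
      · refine sum_le_sum fun n _ => ?_
        calc _ ≤ ‖PowerSeries.coeff n F‖ ^ 2 * 1 :=
              mul_le_mul_of_nonneg_left (pow_le_one₀ hx0.le hx1.le) (sq_nonneg _)
          _ = _ := mul_one _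
      · refine ((summable_nat_add_iff k).2 hys).tsum_le_tsum (fun n => ?_) hys2
        rw [hcoef]
        apply mul_le_mul_of_nonneg_left _ (sq_nonneg _)
        exact pow_le_pow_of_le_one hx0.le hx1.le (by omega)
    have h3 : δ₁ * T ≤ (s / 2) ^ 2 * ∫ θ in Eᶜ,
        ‖ev (Pw fun n => (r A h n : ℝ)) (circleMap 0 x θ)‖ ^ 2 ∂mu := by
      rw [hδ₁]
      calc (s / 2) ^ 2 * κ * c₃ * T = (s / 2) ^ 2 * (κ * (c₃ * T)) := by ring
        _ ≤ (s / 2) ^ 2 * (κ * ∑' n, (r A h n : ℝ) * x ^ (2 * n)) := by gcongr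
        _ ≤ _ := by gcongr
    linarith

end Run7.h326.SP
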