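import Mathlib
import Pool.Agent.Run7.h326.V1

set_option autoImplicit false

open Finset

namespace Run7.h326.VL

section abs

variable {ι : Type} (u : ι → ℝ) (d : ι → ℤ)

/-- correlation sum -/
noncomputable def EE (P Q : Finset ι) (k : ℤ) : ℝ :=
  ∑ i ∈ P, ∑ j ∈ Q, (if d i + k = d j then u i * u j else 0)

theorem EE_le (P : Finset ι) (k : ℤ) : EE u d P P k ≤ EE u d P P 0 := by
  unfold EE
  simp only [add_zero]
  exact corr_le P u d k

theorem EE_nonneg (hu : ∀ i, 0 ≤ u i) (P Q : Finset ι) (k : ℤ) : 0 ≤ EE u d P Q k := by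
  refine sum_nonneg fun i _ => sum_nonneg fun j _ => ?_
  split_ifs
  · exact mul_nonneg (hu i) (hu j)
  · exact le_rfl

theorem sum_EE_le (hu : ∀ i, 0 ≤ u i) (P Q : Finset ι) (T : ℕ) :
    ∑ t ∈ range T, ∑ s ∈ range T, EE u d P Q ((t : ℤ) - s) ≤
      T * ((∑ i ∈ P, u i) * ∑ j ∈ Q, u j) := by
  unfold EE
  have h1 : ∑ t ∈ range T, ∑ s ∈ range T, ∑ i ∈ P, ∑ j ∈ Q,
      (if d i + ((t : ℤ) - s) = d j then u i * u j else 0) =
      ∑ i ∈ P, ∑ j ∈ Q, ∑ t ∈ range T, ∑ s ∈ range T,
      (if d i + ((t : ℤ) - s) = d j then u i * u j else 0) := by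
    have h2 : ∀ t ∈ range T, ∑ s ∈ range T, ∑ i ∈ P, ∑ j ∈ Q,
        (if d i + ((t : ℤ) - s) = d j then u i * u j else 0) =
        ∑ i ∈ P, ∑ j ∈ Q, ∑ s ∈ range T,
        (if d i + ((t : ℤ) - s) = d j then u i * u j else 0) := by
      intro t _
      rw [sum_comm]
      refine sum_congr rfl fun i _ => ?_
      rw [sum_comm]
    rw [sum_congr rfl h2, sum_comm]
    refine sum_congr rfl fun i _ => ?_
    rw [sum_comm]
  rw [h1, sum_mul_sum, mul_sum]
  refine sum_le_sum fun i _ => ?_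
  rw [mul_sum]
  refine sum_le_sum fun j _ => ?_
  calc ∑ t ∈ range T, ∑ s ∈ range T, (if d i + ((t : ℤ) - s) = d j then u i * u j else 0)
      ≤ ∑ t ∈ range T, u i * u j := by
        refine sum_le_sum fun t _ => ?_
        have hn : 0 ≤ u i * u j := mul_nonneg (hu i) (hu j)
        by_cases h : ∃ s ∈ range T, d i + ((t : ℤ) - s) = d j
        · obtain ⟨s, hs, hs'⟩ := h
          rw [sum_eq_single_of_mem s hs]
          · rw [if_pos hs']
          · intro s' _ hne
            rw [if_neg]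
            intro h3
            apply hne
            have : (s' : ℤ) = s := by linarith
            exact_mod_cast this
        · push Not at h
          rw [sum_eq_zero]
          · exact hn
          · intro s hs
            rw [if_neg (h s hs)]
    _ = T * (u i * u j) := by rw [sum_const, card_range, nsmul_eq_mul]

theorem abs_core (hu : ∀ i, 0 ≤ u i) (P N : Finset ι) (hdis : Disjoint P N) [DecidableEq ι]
    (T : ℕ) :
    (T : ℝ) ^ 2 * EE u d N (P ∪ N) 0 - 2 * T * ((∑ i ∈ N, u i) * ∑ j ∈ P ∪ N, u j) ≤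
      (T : ℝ) ^ 2 * EE u d (P ∪ N) (P ∪ N) 0 -
        ∑ t ∈ range T, ∑ s ∈ range T, EE u d (P ∪ N) (P ∪ N) ((t : ℤ) - s) := by
  have hsplit : ∀ k, EE u d (P ∪ N) (P ∪ N) k =
      EE u d P P k + EE u d P N k + EE u d N (P ∪ N) k := by
    intro k
    unfold EE
    rw [sum_union hdis]
    congr 1
    rw [← sum_add_distrib]
    refine sum_congr rfl fun i _ => ?_
    rw [sum_union hdis]
  have h1 : ∑ t ∈ range T, ∑ s ∈ range T, EE u d P P ((t : ℤ) - s) ≤
      (T : ℝ) ^ 2 * EE u d P P 0 := by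
    calc _ ≤ ∑ t ∈ range T, ∑ s ∈ range T, EE u d P P 0 :=
          sum_le_sum fun t _ => sum_le_sum fun s _ => EE_le u d P _
      _ = _ := by
          simp only [sum_const, card_range, nsmul_eq_mul]
          ring
  have h2 := sum_EE_le u d hu P N T
  have h3 := sum_EE_le u d hu N (P ∪ N) T
  have h4 := EE_nonneg u d hu P N 0
  have hN : 0 ≤ ∑ i ∈ N, u i := sum_nonneg fun i _ => hu i
  have hPN : ∑ i ∈ P, u i ≤ ∑ i ∈ P ∪ N, u i :=
    sum_le_sum_of_subset_of_nonneg subset_union_left fun i _ _ => hu i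
  simp only [hsplit, sum_add_distrib]
  have h5 : (∑ i ∈ P, u i) * ∑ j ∈ N, u j ≤ (∑ i ∈ N, u i) * ∑ j ∈ P ∪ N, u j := by
    rw [mul_comm]
    exact mul_le_mul_of_nonneg_left hPN hN
  have hT : (0 : ℝ) ≤ T := Nat.cast_nonneg T
  nlinarith [mul_le_mul_of_nonneg_left h5 hT, mul_nonneg (sq_nonneg (T : ℝ)) h4]

end abs

section perm

variable (α β : Type) [Fintype α] [DecidableEq α] [Fintype β] [DecidableEq β]

/-- the permutations which do not preserve the splitting -/
def mixing : Finset (Equiv.Perm (α ⊕ β)) :=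
  univ.filter fun π => ∃ i k, π (Sum.inr i) = Sum.inl k

theorem card_mixing :
    (Fintype.card α + Fintype.card β).factorial ≤
      (mixing α β).card + (Fintype.card α).factorial * (Fintype.card β).factorial := by
  classical
  have h1 : (univ : Finset (Equiv.Perm (α ⊕ β))) ⊆ mixing α β ∪
      (univ : Finset (Equiv.Perm α × Equiv.Perm β)).image
        (fun x => Equiv.Perm.sumCongrHom α β x) := by
    intro π _
    by_cases h : ∃ i k, π (Sum.inr i) = Sum.inl k
    · exact mem_union_left _ (mem_filter.2 ⟨mem_univ _, h⟩)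
    · refine mem_union_right _ ?_
      have h2 : Set.MapsTo π (Set.range (Sum.inr : β → α ⊕ β))
          (Set.range (Sum.inr : β → α ⊕ β)) := by
        rintro _ ⟨i, rfl⟩
        rcases h3 : π (Sum.inr i) with k | k
        · exact absurd ⟨i, k, h3⟩ h
        · exact ⟨k, rfl⟩
      have h4 := Equiv.Perm.mem_sumCongrHom_range_of_perm_mapsTo_inl
        ((Equiv.Perm.perm_mapsTo_inl_iff_mapsTo_inr π).2 h2)
      obtain ⟨y, hy⟩ := h4
      exact mem_image.2 ⟨y, mem_univ _, hy⟩
  have h2 := card_le_card h1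
  rw [card_univ, Fintype.card_perm, Fintype.card_sum] at h2
  refine h2.trans ((card_union_le _ _).trans (Nat.add_le_add_left ?_ _))
  refine card_image_le.trans ?_
  rw [card_univ, Fintype.card_prod, Fintype.card_perm, Fintype.card_perm]

end perm

section tuples

variable {α β : Type} [Fintype α] [DecidableEq α] [Fintype β] [DecidableEq β] (S : Finset ℕ)

theorem sum_tp_sum (G : (α ⊕ β → ℕ) → ℝ) :
    ∑ c ∈ tp (α ⊕ β) S, G c = ∑ a ∈ tp α S, ∑ b ∈ tp β S, G (Sum.elim a b) := by
  rw [← sum_product']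
  refine sum_nbij' (fun c => (c ∘ Sum.inl, c ∘ Sum.inr)) (fun y => Sum.elim y.1 y.2)
    ?_ ?_ ?_ ?_ ?_
  · intro c hc
    rw [mem_product]
    exact ⟨mem_tp.2 fun i => mem_tp.1 hc _, mem_tp.2 fun i => mem_tp.1 hc _⟩
  · rintro ⟨a, b⟩ hy
    rw [mem_product] at hy
    refine mem_tp.2 ?_
    rintro (i | i)
    · exact mem_tp.1 hy.1 i
    · exact mem_tp.1 hy.2 i
  · intro c _
    ext (i | i) <;> rfl
  · rintro ⟨a, b⟩ _
    rfl
  · intro c _
    congr 1
    ext (i | i) <;> rfl

omit [DecidableEq α] [DecidableEq β] in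
theorem sm_elim (a : α → ℕ) (b : β → ℕ) : sm (Sum.elim a b) = sm a + sm b := by
  simp [sm]

/-- weights -/
noncomputable def uu (x : ℝ) (y : (α → ℕ) × (β → ℕ)) : ℝ := x ^ (sm y.1 + sm y.2)

/-- differences -/
def dd (y : (α → ℕ) × (β → ℕ)) : ℤ := (sm y.1 : ℤ) - sm y.2

/-- full correlation -/
noncomputable def FF (α : Type) [Fintype α] [DecidableEq α] (S : Finset ℕ) (x : ℝ) (t s : ℕ) : ℝ :=
  ∑ c ∈ tp α S, ∑ e ∈ tp α S, if sm c + t = sm e + s then x ^ (sm c + sm e) else 0

theorem EE_all (x : ℝ) (t s : ℕ) :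
    EE (uu x) dd (tp α S ×ˢ tp β S) (tp α S ×ˢ tp β S) ((t : ℤ) - s) =
      FF (α ⊕ β) S x t s := by
  unfold EE FF
  rw [sum_tp_sum]
  simp only [sum_tp_sum, sum_product]
  refine sum_congr rfl fun a _ => ?_
  have h1 : ∀ (G : (β → ℕ) → (α → ℕ) → (β → ℕ) → ℝ),
      ∑ b ∈ tp β S, ∑ a' ∈ tp α S, ∑ b' ∈ tp β S, G b a' b' =
      ∑ b' ∈ tp β S, ∑ a' ∈ tp α S, ∑ b ∈ tp β S, G b a' b' := by
    intro G
    rw [sum_comm]
    rw [sum_comm (s := tp β S) (t := tp α S)]
    refine sum_congr rfl fun a' _ => ?_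
    rw [sum_comm]
  rw [h1]
  refine sum_congr rfl fun b' _ => ?_
  refine sum_congr rfl fun a' _ => ?_
  refine sum_congr rfl fun b _ => ?_
  simp only [uu, dd, sm_elim]
  have h2 : ((sm a : ℤ) - sm b + ((t : ℤ) - s) = (sm a' : ℤ) - sm b') ↔
      (sm a + sm b' + t = sm a' + sm b + s) := by
    constructor
    · intro h
      zify
      linarith
    · intro h
      zify at h
      linarith
  simp only [h2]
  split_ifs
  · rw [← pow_add]
    congr 1
    ring
  · rfl

theorem FF_zero (x : ℝ) :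
    EE (uu x) dd (tp α S ×ˢ tp β S) (tp α S ×ˢ tp β S) 0 = FF (α ⊕ β) S x 0 0 := by
  have := EE_all (α := α) (β := β) S x 0 0
  simpa using this

/-- pairs of tuples with a common entry -/
def non (α β : Type) [Fintype α] [DecidableEq α] [Fintype β] [DecidableEq β] (S : Finset ℕ) :
    Finset ((α → ℕ) × (β → ℕ)) :=
  (tp α S ×ˢ tp β S).filter fun y => ∃ i k, y.1 i = y.2 k

theorem mass_non (x : ℝ) (hx : 0 ≤ x) :
    ∑ y ∈ non α β S, uu x y ≤ (Fintype.card α * Fintype.card β : ℕ) *
      ((∑ a ∈ S, x ^ (2 * a)) *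
        (∑ a ∈ S, x ^ a) ^ (Fintype.card α + Fintype.card β - 2)) := by
  classical
  have h1 : ∑ y ∈ non α β S, uu x y = ∑ c ∈ tp (α ⊕ β) S,
      (if ∃ i k, c (Sum.inl i) = c (Sum.inr k) then x ^ sm c else 0) := by
    rw [sum_tp_sum, non, sum_filter, sum_product]
    refine sum_congr rfl fun a _ => sum_congr rfl fun b _ => ?_
    simp only [uu, sm_elim, Sum.elim_inl, Sum.elim_inr]
  rw [h1]
  have h2 : ∀ c ∈ tp (α ⊕ β) S, (if ∃ i k, c (Sum.inl i) = c (Sum.inr k) then x ^ sm c else 0) ≤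
      ∑ i : α, ∑ k : β, (if c (Sum.inl i) = c (Sum.inr k) then x ^ sm c else 0) := by
    intro c _
    have hn : ∀ i k, 0 ≤ (if c (Sum.inl i) = c (Sum.inr k) then x ^ sm c else 0) := by
      intro i k
      split_ifs
      · positivity
      · exact le_rfl
    split_ifs with h
    · obtain ⟨i, k, hik⟩ := h
      calc x ^ sm c = (if c (Sum.inl i) = c (Sum.inr k) then x ^ sm c else 0) := by rw [if_pos hik]
        _ ≤ ∑ k : β, (if c (Sum.inl i) = c (Sum.inr k) then x ^ sm c else 0) :=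
            single_le_sum (f := fun k => (if c (Sum.inl i) = c (Sum.inr k) then x ^ sm c else 0))
              (fun k _ => hn i k) (mem_univ k)
        _ ≤ _ := single_le_sum (f := fun i => ∑ k : β,
              (if c (Sum.inl i) = c (Sum.inr k) then x ^ sm c else 0))
              (fun i _ => sum_nonneg fun k _ => hn i k) (mem_univ i)
    · exact sum_nonneg fun i _ => sum_nonneg fun k _ => hn i k
  refine (sum_le_sum h2).trans ?_
  rw [sum_comm]
  have h3 : ∀ i : α, ∑ c ∈ tp (α ⊕ β) S, ∑ k : β,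
      (if c (Sum.inl i) = c (Sum.inr k) then x ^ sm c else 0) =
      Fintype.card β * ((∑ a ∈ S, x ^ (2 * a)) *
        (∑ a ∈ S, x ^ a) ^ (Fintype.card α + Fintype.card β - 2)) := by
    intro i
    rw [sum_comm]
    have h4 : ∀ k : β, ∑ c ∈ tp (α ⊕ β) S,
        (if c (Sum.inl i) = c (Sum.inr k) then x ^ sm c else 0) =
        (∑ a ∈ S, x ^ (2 * a)) *
        (∑ a ∈ S, x ^ a) ^ (Fintype.card α + Fintype.card β - 2) := by
      intro k
      rw [← sum_filter, sum_coinc x _ _ (by simp), Fintype.card_sum]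
    simp only [h4, sum_const, card_univ, nsmul_eq_mul]
  simp only [h3, sum_const, card_univ, nsmul_eq_mul]
  push_cast
  rw [mul_assoc]

theorem mass_all (x : ℝ) :
    ∑ y ∈ tp α S ×ˢ tp β S, uu x y =
      (∑ a ∈ S, x ^ a) ^ (Fintype.card α + Fintype.card β) := by
  rw [← Fintype.card_sum, ← sum_tp, sum_tp_sum, sum_product]
  refine sum_congr rfl fun a _ => sum_congr rfl fun b _ => ?_
  simp only [uu, sm_elim]

theorem EE_non (x : ℝ) (hx : 0 ≤ x) :
    ((mixing α β).card : ℝ) * ∑ c ∈ tp (α ⊕ β) S with Function.Injective c, x ^ (2 * sm c) ≤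
      EE (uu x) dd (non α β S) (tp α S ×ˢ tp β S) 0 := by
  classical
  have h1 : EE (uu x) dd (non α β S) (tp α S ×ˢ tp β S) 0 =
      ∑ c ∈ tp (α ⊕ β) S, ∑ e ∈ tp (α ⊕ β) S,
        if (∃ i k, c (Sum.inl i) = e (Sum.inr k)) ∧ sm c = sm e then x ^ (sm c + sm e) else 0 := by
    unfold EE non
    rw [sum_filter]
    rw [sum_tp_sum]
    simp only [sum_tp_sum, sum_product]
    refine sum_congr rfl fun a _ => ?_
    have h1 : ∀ (G : (β → ℕ) → (α → ℕ) → (β → ℕ) → ℝ),
        ∑ b ∈ tp β S, ∑ a' ∈ tp α S, ∑ b' ∈ tp β S, G b a' b' =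
        ∑ b' ∈ tp β S, ∑ a' ∈ tp α S, ∑ b ∈ tp β S, G b a' b' := by
      intro G
      rw [sum_comm]
      rw [sum_comm (s := tp β S) (t := tp α S)]
      refine sum_congr rfl fun a' _ => ?_
      rw [sum_comm]
    rw [← h1]
    refine sum_congr rfl fun b _ => ?_
    simp only [Sum.elim_inl, Sum.elim_inr, sm_elim]
    by_cases h : ∃ i k, a i = b k
    · rw [if_pos h]
      refine sum_congr rfl fun a' _ => sum_congr rfl fun b' _ => ?_
      simp only [uu, dd, add_zero]
      have h2 : ((sm a : ℤ) - sm b = (sm a' : ℤ) - sm b') ↔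
          (sm a + sm b' = sm a' + sm b) := by
        constructor
        · intro h
          zify
          linarith
        · intro h
          zify at h
          linarith
      simp only [h2, h, true_and]
      split_ifs
      · rw [← pow_add]
        congr 1
        ring
      · rfl
    · rw [if_neg h]
      simp only [h, false_and, if_false, sum_const_zero]
  rw [h1, mul_sum, sum_filter]
  refine sum_le_sum fun c hc => ?_
  have hn : ∀ e : α ⊕ β → ℕ, 0 ≤ (if (∃ i k, c (Sum.inl i) = e (Sum.inr k)) ∧ sm c = sm e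
      then x ^ (sm c + sm e) else 0) := by
    intro e
    split_ifs
    · positivity
    · exact le_rfl
  split_ifs with hinj
  · have hI : ∀ π : Equiv.Perm (α ⊕ β), sm (c ∘ π) = sm c := by
      intro π
      unfold sm
      exact Equiv.sum_comp π c
    calc ((mixing α β).card : ℝ) * x ^ (2 * sm c)
        = ∑ π ∈ mixing α β, x ^ (sm c + sm (c ∘ π)) := by
          simp only [hI, sum_const, nsmul_eq_mul]
          congr 2
          ring
      _ = ∑ π ∈ mixing α β, (if (∃ i k, c (Sum.inl i) = (c ∘ π) (Sum.inr k)) ∧ sm c = sm (c ∘ π)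
            then x ^ (sm c + sm (c ∘ π)) else 0) := by
          refine sum_congr rfl fun π hπ => ?_
          rw [if_pos]
          obtain ⟨i, k, hik⟩ := (mem_filter.1 hπ).2
          refine ⟨⟨k, i, ?_⟩, (hI π).symm⟩
          simp only [Function.comp]
          rw [hik]
      _ = ∑ e ∈ (mixing α β).image (fun π : Equiv.Perm (α ⊕ β) => c ∘ π),
            (if (∃ i k, c (Sum.inl i) = e (Sum.inr k)) ∧ sm c = sm e
            then x ^ (sm c + sm e) else 0) := by
          rw [sum_image]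
          intro π _ π' _ h
          ext i
          exact hinj (congrFun h i)
      _ ≤ _ := by
          refine sum_le_sum_of_subset_of_nonneg ?_ fun e _ _ => hn e
          intro e he
          obtain ⟨π, _, rfl⟩ := mem_image.1 he
          exact mem_tp.2 fun i => mem_tp.1 hc _
  · exact sum_nonneg fun e _ => hn e

/-- the core inequality -/
theorem core (x : ℝ) (hx : 0 ≤ x) (T : ℕ) :
    (T : ℝ) ^ 2 * (((mixing α β).card : ℝ) *
        ∑ c ∈ tp (α ⊕ β) S with Function.Injective c, x ^ (2 * sm c)) -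
      2 * T * ((Fintype.card α * Fintype.card β : ℕ) * ((∑ a ∈ S, x ^ (2 * a)) *
        (∑ a ∈ S, x ^ a) ^ (Fintype.card α + Fintype.card β - 2)) *
        (∑ a ∈ S, x ^ a) ^ (Fintype.card α + Fintype.card β)) ≤
    (T : ℝ) ^ 2 * FF (α ⊕ β) S x 0 0 -
      ∑ t ∈ range T, ∑ s ∈ range T, FF (α ⊕ β) S x t s := by
  classical
  set N := non α β S with hN
  set P := (tp α S ×ˢ tp β S) \ N with hP
  have hPN : P ∪ N = tp α S ×ˢ tp β S := by
    rw [hP]
    exact sdiff_union_of_subset (filter_subset _ _)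
  have hdis : Disjoint P N := sdiff_disjoint
  have h := abs_core (uu (α := α) (β := β) x) (dd (α := α) (β := β))
    (fun y => by unfold uu; positivity) P N hdis T
  rw [hPN] at h
  have h1 := EE_non (α := α) (β := β) S x hx
  have h2 := mass_non (α := α) (β := β) S x hx
  rw [mass_all] at h
  simp only [EE_all, FF_zero] at h
  refine le_trans ?_ h
  have hT : (0 : ℝ) ≤ T := Nat.cast_nonneg T
  have hf : 0 ≤ (∑ a ∈ S, x ^ a) ^ (Fintype.card α + Fintype.card β) :=
    pow_nonneg (sum_nonneg fun a _ => by positivity) _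
  have h3 := mul_le_mul_of_nonneg_left h1 (sq_nonneg (T : ℝ))
  have h4 := mul_le_mul_of_nonneg_right h2 hf
  have h5 := mul_le_mul_of_nonneg_left h4 (by positivity : (0:ℝ) ≤ 2 * T)
  linarith

end tuples

end Run7.h326.VL
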