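import Mathlib
import Pool.Agent.Run7.h326.V2

set_option autoImplicit false

open Finset

namespace Run7.h326.VL

theorem block_lower {ι : Type} (I : Finset ι) (v : ι → ℝ) (hv : ∀ i, 0 ≤ v i) (l : ι → ℕ)
    (N : ℕ) (y : ℕ → ℝ) :
    ∑ m ∈ range N, (2 * (∑ i ∈ I, if l i = m then v i else 0) * y m - y m ^ 2) ≤
      ∑ i ∈ I, ∑ j ∈ I, if l i = l j then v i * v j else 0 := by
  have h1 : ∑ m ∈ range N, (∑ i ∈ I, if l i = m then v i else 0) ^ 2 ≤
      ∑ i ∈ I, ∑ j ∈ I, if l i = l j then v i * v j else 0 := by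
    have h2 : ∀ m, (∑ i ∈ I, if l i = m then v i else 0) ^ 2 =
        ∑ i ∈ I, ∑ j ∈ I, if l i = m ∧ l j = m then v i * v j else 0 := by
      intro m
      rw [sq, sum_mul_sum]
      refine sum_congr rfl fun i _ => sum_congr rfl fun j _ => ?_
      by_cases h3 : l i = m <;> by_cases h4 : l j = m <;> simp [h3, h4]
    simp only [h2]
    rw [sum_comm]
    refine sum_le_sum fun i _ => ?_
    rw [sum_comm]
    refine sum_le_sum fun j _ => ?_
    by_cases h : l i = l j
    · rw [if_pos h]
      calc ∑ m ∈ range N, (if l i = m ∧ l j = m then v i * v j else 0)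
          ≤ ∑ m ∈ range N, (if m = l i then v i * v j else 0) := by
            refine sum_le_sum fun m _ => ?_
            have := mul_nonneg (hv i) (hv j)
            split_ifs with h5 h6 h6
            · exact le_rfl
            · exact absurd h5.1.symm h6
            · exact this
            · exact le_rfl
        _ ≤ v i * v j := by
            rw [sum_ite_eq']
            have := mul_nonneg (hv i) (hv j)
            split_ifs
            · exact le_rfl
            · exact this
    · rw [if_neg h]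
      refine (sum_eq_zero fun m _ => ?_).le
      rw [if_neg]
      rintro ⟨h5, h6⟩
      exact h (h5.trans h6.symm)
  refine le_trans (sum_le_sum fun m _ => ?_) h1
  nlinarith [sq_nonneg ((∑ i ∈ I, if l i = m then v i else 0) - y m)]

section

variable {γ : Type} [Fintype γ] [DecidableEq γ] (S : Finset ℕ)

/-- number of tuples with given sum -/
def Rn (γ : Type) [Fintype γ] [DecidableEq γ] (S : Finset ℕ) (n : ℕ) : ℕ :=
  ((tp γ S).filter (fun c => sm c = n)).card

theorem sum_Rn {H : ℕ} (hH : ∀ c ∈ tp γ S, sm c < H) (φ : ℕ → ℝ) :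
    ∑ c ∈ tp γ S, φ (sm c) = ∑ n ∈ range H, (Rn γ S n : ℝ) * φ n := by
  rw [← sum_fiberwise_of_maps_to (s := tp γ S) (t := range H) (g := sm)
    (fun c hc => mem_range.2 (hH c hc))]
  refine sum_congr rfl fun n _ => ?_
  rw [Rn, ← nsmul_eq_mul, ← sum_const]
  refine sum_congr rfl fun c hc => ?_
  rw [(mem_filter.1 hc).2]

theorem FF_zero_eq {H : ℕ} (hH : ∀ c ∈ tp γ S, sm c < H) (x : ℝ) :
    FF γ S x 0 0 = ∑ n ∈ range H, (Rn γ S n : ℝ) ^ 2 * x ^ (2 * n) := by
  unfold FF
  have h1 : ∀ c ∈ tp γ S, ∑ e ∈ tp γ S, (if sm c + 0 = sm e + 0 then x ^ (sm c + sm e) else 0) =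
      (Rn γ S (sm c) : ℝ) * x ^ (2 * sm c) := by
    intro c _
    rw [Rn, ← nsmul_eq_mul, ← sum_const, sum_filter]
    refine sum_congr rfl fun e _ => ?_
    by_cases h : sm e = sm c
    · rw [if_pos h, if_pos (by rw [h]), h]
      congr 1
      ring
    · rw [if_neg h, if_neg (by simpa using fun h' => h h'.symm)]
  rw [sum_congr rfl h1, sum_Rn S hH (fun n => (Rn γ S n : ℝ) * x ^ (2 * n))]
  refine sum_congr rfl fun n _ => ?_
  ring

theorem upper {H : ℕ} (hH : ∀ c ∈ tp γ S, sm c < H) (x : ℝ) (hx0 : 0 ≤ x) (hx1 : x ≤ 1)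
    (T N : ℕ) (hTN : T ≤ N) (hNH : N ≤ H) (lam : ℝ) (hlam : 0 ≤ lam) :
    (T : ℝ) ^ 2 * FF γ S x 0 0 - ∑ t ∈ range T, ∑ s ∈ range T, FF γ S x t s ≤
      (T : ℝ) ^ 2 * (∑ n ∈ range H, (Rn γ S n : ℝ) ^ 2 * x ^ (2 * n) -
        2 * lam * x ^ T * ∑ n ∈ range (N - T), (Rn γ S n : ℝ) * x ^ (2 * n) +
        lam ^ 2 * ∑ n ∈ range N, x ^ (2 * n)) := by
  rw [FF_zero_eq S hH]
  have h1 : ∑ t ∈ range T, ∑ s ∈ range T, FF γ S x t s =
      ∑ i ∈ tp γ S ×ˢ range T, ∑ j ∈ tp γ S ×ˢ range T,
        if sm i.1 + i.2 = sm j.1 + j.2 then x ^ sm i.1 * x ^ sm j.1 else 0 := by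
    unfold FF
    simp only [sum_product]
    rw [sum_comm' (s := tp γ S) (t' := range T) (s' := fun _ => tp γ S) (t := fun _ => range T)
      (by intros; tauto)]
    refine sum_congr rfl fun t _ => ?_
    rw [sum_comm]
    refine sum_congr rfl fun c _ => ?_
    rw [sum_comm]
    refine sum_congr rfl fun e _ => sum_congr rfl fun s _ => ?_
    rw [pow_add]
  have h2 := block_lower (tp γ S ×ˢ range T) (fun i => x ^ sm i.1) (fun i => by positivity)
    (fun i => sm i.1 + i.2) N (fun m => lam * T * x ^ m)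
  rw [← h1] at h2
  have h3 : ∑ m ∈ range N, (2 * (∑ i ∈ tp γ S ×ˢ range T,
      if sm i.1 + i.2 = m then x ^ sm i.1 else 0) * (lam * T * x ^ m) - (lam * T * x ^ m) ^ 2) =
      2 * lam * T * (∑ i ∈ tp γ S ×ˢ range T, if sm i.1 + i.2 < N then
        x ^ (2 * sm i.1 + i.2) else 0) - (lam * T) ^ 2 * ∑ m ∈ range N, x ^ (2 * m) := by
    rw [sum_sub_distrib]
    congr 1
    · have h4 : ∀ m, 2 * (∑ i ∈ tp γ S ×ˢ range T,
          if sm i.1 + i.2 = m then x ^ sm i.1 else 0) * (lam * T * x ^ m) =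
          2 * lam * T * ∑ i ∈ tp γ S ×ˢ range T,
            (if m = sm i.1 + i.2 then x ^ (2 * sm i.1 + i.2) else 0) := by
        intro m
        have h5 : (∑ i ∈ tp γ S ×ˢ range T, if sm i.1 + i.2 = m then x ^ sm i.1 else 0) * x ^ m =
            ∑ i ∈ tp γ S ×ˢ range T,
            (if m = sm i.1 + i.2 then x ^ (2 * sm i.1 + i.2) else 0) := by
          rw [sum_mul]
          refine sum_congr rfl fun i _ => ?_
          by_cases h6 : sm i.1 + i.2 = m
          · rw [if_pos h6, if_pos h6.symm, ← h6, ← pow_add]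
            congr 1
            ring
          · rw [if_neg h6, if_neg (fun h => h6 h.symm), zero_mul]
        rw [← h5]
        ring
      simp only [h4]
      rw [← mul_sum, sum_comm]
      congr 1
      refine sum_congr rfl fun i _ => ?_
      rw [sum_ite_eq']
      simp only [mem_range]
    · rw [mul_sum]
      refine sum_congr rfl fun m _ => ?_
      rw [mul_pow, ← pow_mul]
      congr 2
      ring
  rw [h3] at h2
  have h7 : (T : ℝ) * x ^ T * ∑ n ∈ range (N - T), (Rn γ S n : ℝ) * x ^ (2 * n) ≤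
      ∑ i ∈ tp γ S ×ˢ range T, if sm i.1 + i.2 < N then x ^ (2 * sm i.1 + i.2) else 0 := by
    have h8 : ∑ n ∈ range (N - T), (Rn γ S n : ℝ) * x ^ (2 * n) =
        ∑ c ∈ tp γ S, if sm c < N - T then x ^ (2 * sm c) else 0 := by
      rw [sum_Rn S hH (fun n => if n < N - T then x ^ (2 * n) else 0)]
      have h9 : range (N - T) = (range H).filter (fun n => n < N - T) := by
        ext n
        simp only [mem_range, mem_filter]
        omega
      rw [h9, sum_filter]
      refine sum_congr rfl fun n _ => ?_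
      split_ifs <;> simp
    rw [h8, sum_product, mul_sum]
    refine sum_le_sum fun c _ => ?_
    split_ifs with h10
    · calc (T : ℝ) * x ^ T * x ^ (2 * sm c) = ∑ t ∈ range T, x ^ (2 * sm c + T) := by
            rw [sum_const, card_range, nsmul_eq_mul, pow_add]
            ring
        _ ≤ _ := by
            refine sum_le_sum fun t ht => ?_
            have ht' := mem_range.1 ht
            simp only
            rw [if_pos (by omega)]
            exact pow_le_pow_of_le_one hx0 hx1 (by omega)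
    · rw [mul_zero]
      refine sum_nonneg fun t _ => ?_
      split_ifs
      · positivity
      · exact le_rfl
  have hT : (0 : ℝ) ≤ T := Nat.cast_nonneg T
  have h8 := mul_le_mul_of_nonneg_left h7 (by positivity : (0 : ℝ) ≤ 2 * lam * T)
  nlinarith

end

end Run7.h326.VL
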