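import Mathlib
import Pool.Agent.Run7.h326.V3

set_option autoImplicit false

open Finset

namespace Run7.h326.VL

/-- number of tuples with a repeated entry and with given sum -/
def Rep (γ : Type) [Fintype γ] [DecidableEq γ] (S : Finset ℕ) (n : ℕ) : ℕ :=
  ((tp γ S).filter (fun c => sm c = n ∧ ∃ i j, i ≠ j ∧ c i = c j)).card

section

variable {γ : Type} [Fintype γ] [DecidableEq γ] (S : Finset ℕ)

theorem sum_Rep {H : ℕ} (hH : ∀ c ∈ tp γ S, sm c < H) (φ : ℕ → ℝ) :
    ∑ c ∈ tp γ S with ∃ i j, i ≠ j ∧ c i = c j, φ (sm c) =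
      ∑ n ∈ range H, (Rep γ S n : ℝ) * φ n := by
  rw [← sum_fiberwise_of_maps_to (s := (tp γ S).filter (fun c => ∃ i j, i ≠ j ∧ c i = c j))
    (t := range H) (g := sm)
    (fun c hc => mem_range.2 (hH c (mem_filter.1 hc).1))]
  refine sum_congr rfl fun n _ => ?_
  rw [Rep, ← nsmul_eq_mul, ← sum_const, filter_filter]
  have : ((tp γ S).filter fun c => (∃ i j, i ≠ j ∧ c i = c j) ∧ sm c = n) =
      ((tp γ S).filter fun c => sm c = n ∧ ∃ i j, i ≠ j ∧ c i = c j) := by
    ext c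
    simp only [mem_filter]
    tauto
  rw [this]
  refine sum_congr rfl fun c hc => ?_
  rw [(mem_filter.1 hc).2.1]

theorem noninj_le (x : ℝ) (hx0 : 0 ≤ x) (hx1 : x ≤ 1) (h2 : 2 ≤ Fintype.card γ) :
    ∑ c ∈ tp γ S with ∃ i j, i ≠ j ∧ c i = c j, x ^ sm c ≤
      (Fintype.card γ : ℝ) ^ 2 * (∑ a ∈ S, x ^ a) ^ (Fintype.card γ - 1) := by
  classical
  set f := ∑ a ∈ S, x ^ a with hf
  have hf0 : 0 ≤ f := sum_nonneg fun a _ => by positivity
  have hn : ∀ (c : γ → ℕ) (i j : γ), 0 ≤ (if i ≠ j ∧ c i = c j then x ^ sm c else 0) := by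
    intro c i j
    split_ifs
    · positivity
    · exact le_rfl
  calc ∑ c ∈ tp γ S with ∃ i j, i ≠ j ∧ c i = c j, x ^ sm c
      = ∑ c ∈ tp γ S, (if ∃ i j, i ≠ j ∧ c i = c j then x ^ sm c else 0) := by rw [sum_filter]
    _ ≤ ∑ c ∈ tp γ S, ∑ i : γ, ∑ j : γ, (if i ≠ j ∧ c i = c j then x ^ sm c else 0) := by
        refine sum_le_sum fun c _ => ?_
        split_ifs with h
        · obtain ⟨i, j, hij⟩ := h
          calc x ^ sm c = (if i ≠ j ∧ c i = c j then x ^ sm c else 0) := by rw [if_pos hij]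
            _ ≤ ∑ j : γ, (if i ≠ j ∧ c i = c j then x ^ sm c else 0) :=
                single_le_sum (f := fun j => (if i ≠ j ∧ c i = c j then x ^ sm c else 0))
                  (fun j _ => hn c i j) (mem_univ j)
            _ ≤ _ := single_le_sum (f := fun i => ∑ j : γ,
                  (if i ≠ j ∧ c i = c j then x ^ sm c else 0))
                  (fun i _ => sum_nonneg fun j _ => hn c i j) (mem_univ i)
        · exact sum_nonneg fun i _ => sum_nonneg fun j _ => hn c i j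
    _ = ∑ i : γ, ∑ j : γ, ∑ c ∈ tp γ S, (if i ≠ j ∧ c i = c j then x ^ sm c else 0) := by
        rw [sum_comm]
        refine sum_congr rfl fun i _ => ?_
        rw [sum_comm]
    _ ≤ ∑ i : γ, ∑ j : γ, f ^ (Fintype.card γ - 1) := by
        refine sum_le_sum fun i _ => sum_le_sum fun j _ => ?_
        by_cases hij : i = j
        · subst hij
          simp only [ne_eq, not_true_eq_false, false_and, if_false, sum_const_zero]
          positivity
        · have h3 : ∑ c ∈ tp γ S, (if i ≠ j ∧ c i = c j then x ^ sm c else 0) =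
              ∑ c ∈ tp γ S with c i = c j, x ^ sm c := by
            rw [sum_filter]
            refine sum_congr rfl fun c _ => ?_
            simp [hij]
          rw [h3, sum_coinc x i j hij]
          have h4 : ∑ a ∈ S, x ^ (2 * a) ≤ f :=
            sum_le_sum fun a _ => pow_le_pow_of_le_one hx0 hx1 (by omega)
          calc _ ≤ f * f ^ (Fintype.card γ - 2) :=
                mul_le_mul_of_nonneg_right h4 (pow_nonneg hf0 _)
            _ = f ^ (Fintype.card γ - 1) := by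
                rw [← pow_succ']
                congr 1
                omega
    _ = _ := by
        simp only [sum_const, card_univ, nsmul_eq_mul]
        ring

end

section

variable {α β : Type} [Fintype α] [DecidableEq α] [Fintype β] [DecidableEq β] (S : Finset ℕ)

open scoped Classical in
/-- the master inequality -/
theorem master {H : ℕ} (E : ℕ → Prop) (hH : ∀ c ∈ tp (α ⊕ β) S, sm c < H) (x : ℝ) (hx0 : 0 ≤ x) (hx1 : x ≤ 1)
    (T N n₀ : ℕ) (hTN : T ≤ N) (hNH : N ≤ H) (hn₀ : n₀ ≤ N)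
    (h2 : 2 ≤ Fintype.card α + Fintype.card β)
    (U U₁ L B κ lam : ℝ) (hU0 : 0 ≤ U) (hL0 : 0 ≤ L) (hκ : 0 ≤ κ)
    (hlam : 0 ≤ lam)
    (hU : ∀ n, n₀ ≤ n → ¬ E n → (Rn (α ⊕ β) S n : ℝ) ≤ U)
    (hU₁ : ∀ n, n₀ ≤ n → (Rn (α ⊕ β) S n : ℝ) ≤ U₁)
    (hB : ∀ n, n < n₀ → (Rn (α ⊕ β) S n : ℝ) ≤ B)
    (hL : ∀ n, n₀ ≤ n → n < N → L - κ * Rep (α ⊕ β) S n ≤ (Rn (α ⊕ β) S n : ℝ))
    (hlam2 : U + L - 2 * lam = ((mixing α β).card : ℝ)) :
    0 ≤ (T : ℝ) ^ 2 * ((lam ^ 2 - U * L) * ∑ n ∈ range N, x ^ (2 * n) + n₀ * (B ^ 2 + U * L) +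
      ((mixing α β).card + U * κ) * ((Fintype.card α + Fintype.card β : ℕ) ^ 2 *
        (∑ a ∈ S, x ^ (2 * a)) ^ (Fintype.card α + Fintype.card β - 1)) +
      2 * lam * (∑ n ∈ range N, (Rn (α ⊕ β) S n : ℝ) * x ^ (2 * n) -
        x ^ T * ∑ n ∈ range (N - T), (Rn (α ⊕ β) S n : ℝ) * x ^ (2 * n)) +
      U₁ ^ 2 * ∑ n ∈ range H with N ≤ n, x ^ (2 * n) +
      (U₁ ^ 2 + U * L) * ∑ n ∈ range N with E n, x ^ (2 * n)) +
      2 * T * ((Fintype.card α * Fintype.card β : ℕ) * ((∑ a ∈ S, x ^ (2 * a)) *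
        (∑ a ∈ S, x ^ a) ^ (Fintype.card α + Fintype.card β - 2)) *
        (∑ a ∈ S, x ^ a) ^ (Fintype.card α + Fintype.card β)) := by
  classical
  have hc := core (α := α) (β := β) S x hx0 T
  have hu := upper S hH x hx0 hx1 T N hTN hNH lam hlam
  set R : ℕ → ℝ := fun n => (Rn (α ⊕ β) S n : ℝ) with hR
  have hR0 : ∀ n, 0 ≤ R n := fun n => Nat.cast_nonneg _
  set F := ∑ a ∈ S, x ^ (2 * a) with hF
  set Z := ∑ n ∈ range N, x ^ (2 * n) with hZ
  set Y := ∑ n ∈ range N, R n * x ^ (2 * n) with hY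
  set Y' := ∑ n ∈ range (N - T), R n * x ^ (2 * n) with hY'
  set tau := ∑ n ∈ range H with N ≤ n, x ^ (2 * n) with htau
  set NI := ∑ c ∈ tp (α ⊕ β) S with ∃ i j, i ≠ j ∧ c i = c j, x ^ (2 * sm c) with hNI
  set INJ := ∑ c ∈ tp (α ⊕ β) S with Function.Injective c, x ^ (2 * sm c) with hINJ
  set h := Fintype.card α + Fintype.card β with hh
  have hcard : Fintype.card (α ⊕ β) = h := Fintype.card_sum
  have hx2 : 0 ≤ x ^ 2 := sq_nonneg x
  have hx21 : x ^ 2 ≤ 1 := pow_le_one₀ hx0 hx1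
  -- non-injective tuples
  have hNIle : NI ≤ (h : ℝ) ^ 2 * F ^ (h - 1) := by
    have := noninj_le (γ := α ⊕ β) S (x ^ 2) hx2 hx21 (by rw [hcard]; exact h2)
    rw [hcard] at this
    simp only [← pow_mul] at this
    exact this
  have hNI0 : 0 ≤ NI := sum_nonneg fun c _ => by positivity
  -- all tuples
  have hsum : INJ + NI = F ^ h := by
    have h3 := sum_tp (α := α ⊕ β) (S := S) (x ^ 2)
    rw [hcard] at h3
    simp only [← pow_mul] at h3
    rw [hF, ← h3, ← sum_filter_add_sum_filter_not (tp (α ⊕ β) S) Function.Injective]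
    rw [hINJ, hNI]
    congr 2
    ext c
    simp only [mem_filter]
    constructor
    · rintro ⟨h4, i, j, hij, hc⟩
      exact ⟨h4, fun h5 => hij (h5 hc)⟩
    · rintro ⟨h4, h5⟩
      refine ⟨h4, ?_⟩
      unfold Function.Injective at h5
      push Not at h5
      obtain ⟨i, j, hij, hne⟩ := h5
      exact ⟨i, j, hne, hij⟩
  have hFY : Y ≤ F ^ h := by
    have h3 := sum_tp (α := α ⊕ β) (S := S) (x ^ 2)
    rw [hcard] at h3
    simp only [← pow_mul] at h3
    rw [hF, ← h3, sum_Rn S hH (fun n => x ^ (2 * n))]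
    refine sum_le_sum_of_subset_of_nonneg (range_subset_range.2 hNH) fun n _ _ => ?_
    have := hR0 n
    positivity
  -- the square sum
  have hRep : ∑ n ∈ range H, (Rep (α ⊕ β) S n : ℝ) * x ^ (2 * n) = NI := by
    rw [hNI, sum_Rep S hH (fun n => x ^ (2 * n))]
  have hpt : ∀ n ∈ range H, R n ^ 2 * x ^ (2 * n) ≤
      (if n < n₀ then (B ^ 2 + U * L) else 0) +
      (U + L) * (if n < N then R n * x ^ (2 * n) else 0) -
      U * L * (if n < N then x ^ (2 * n) else 0) +
      U * κ * ((Rep (α ⊕ β) S n : ℝ) * x ^ (2 * n)) +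
      U₁ ^ 2 * (if N ≤ n then x ^ (2 * n) else 0) +
      (U₁ ^ 2 + U * L) * (if n < N ∧ E n then x ^ (2 * n) else 0) := by
    intro n _
    have hx3 : 0 ≤ x ^ (2 * n) := by positivity
    have hx4 : x ^ (2 * n) ≤ 1 := pow_le_one₀ hx0 hx1
    have hr := hR0 n
    have hrep : (0 : ℝ) ≤ (Rep (α ⊕ β) S n : ℝ) := Nat.cast_nonneg _
    have hUκ : 0 ≤ U * κ * ((Rep (α ⊕ β) S n : ℝ) * x ^ (2 * n)) := by positivity
    have hUL : 0 ≤ U * L := mul_nonneg hU0 hL0
    have hE0 : 0 ≤ (U₁ ^ 2 + U * L) * (if n < N ∧ E n then x ^ (2 * n) else 0) := by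
      have : 0 ≤ (if n < N ∧ E n then x ^ (2 * n) else 0) := by
        split_ifs
        · exact hx3
        · exact le_rfl
      positivity
    by_cases h3 : n < n₀
    · have h4 : n < N := by omega
      rw [if_pos h3, if_pos h4, if_pos h4, if_neg (by omega)]
      have h5 := hB n h3
      have h6 : R n ^ 2 ≤ B ^ 2 := pow_le_pow_left₀ hr h5 2
      have h7 : R n ^ 2 * x ^ (2 * n) ≤ B ^ 2 := by
        calc R n ^ 2 * x ^ (2 * n) ≤ B ^ 2 * 1 := mul_le_mul h6 hx4 hx3 (sq_nonneg _)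
          _ = B ^ 2 := mul_one _
      have h8 : U * L * x ^ (2 * n) ≤ U * L := by
        have : 0 ≤ U * L := mul_nonneg hU0 hL0
        nlinarith
      have h9 : 0 ≤ (U + L) * (R n * x ^ (2 * n)) := by positivity
      linarith
    · push Not at h3
      rw [if_neg (by omega)]
      have h5 := hU₁ n h3
      by_cases h4 : n < N
      · rw [if_pos h4, if_pos h4, if_neg (by omega)]
        by_cases hE : E n
        · rw [if_pos ⟨h4, hE⟩]
          have h6 : R n ^ 2 ≤ U₁ ^ 2 := pow_le_pow_left₀ hr h5 2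
          have h7 := mul_le_mul_of_nonneg_right h6 hx3
          have h8 : 0 ≤ (U + L) * (R n * x ^ (2 * n)) := by positivity
          linarith
        replace h5 := hU n h3 hE
        have h6 := hL n h3 h4
        have h7 : (U - R n) * (L - κ * Rep (α ⊕ β) S n - R n) ≤ 0 :=
          mul_nonpos_of_nonneg_of_nonpos (by linarith) (by linarith)
        have h8 : 0 ≤ R n * (κ * Rep (α ⊕ β) S n) := by positivity
        have h9 : R n ^ 2 ≤ (U + L) * R n - U * L + U * κ * Rep (α ⊕ β) S n := by nlinarith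
        have h10 := mul_le_mul_of_nonneg_right h9 hx3
        linarith
      · rw [if_neg h4, if_neg h4, if_pos (by omega)]
        have h6 : R n ^ 2 ≤ U₁ ^ 2 := pow_le_pow_left₀ hr h5 2
        have h7 := mul_le_mul_of_nonneg_right h6 hx3
        linarith
  have hsq := sum_le_sum hpt
  rw [sum_add_distrib, sum_add_distrib, sum_add_distrib, sum_sub_distrib, sum_add_distrib,
    ← mul_sum, ← mul_sum, ← mul_sum, ← mul_sum, ← mul_sum, hRep, ← sum_filter, ← sum_filter,
    ← sum_filter, ← sum_filter, ← sum_filter] at hsq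
  have e1 : (range H).filter (fun n => n < N) = range N := by
    ext n
    simp only [mem_range, mem_filter]
    omega
  have e2 : (range H).filter (fun n => n < n₀) = range n₀ := by
    ext n
    simp only [mem_range, mem_filter]
    omega
  have e3 : (range H).filter (fun n => n < N ∧ E n) = (range N).filter (fun n => E n) := by
    ext n
    simp only [mem_range, mem_filter]
    constructor
    · rintro ⟨h3, h4, h5⟩
      exact ⟨h4, h5⟩
    · rintro ⟨h3, h4⟩
      exact ⟨by omega, h3, h4⟩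
  rw [e1, e2, e3, sum_const, card_range, nsmul_eq_mul] at hsq
  set tauE := ∑ n ∈ range N with E n, x ^ (2 * n) with htauE
  have hcm : (0 : ℝ) ≤ ((mixing α β).card : ℝ) := Nat.cast_nonneg _
  set cm : ℝ := ((mixing α β).card : ℝ) with hcmdef
  have hmain := hc.trans hu
  -- rearrange
  have k1 : cm * INJ ≥ cm * Y - cm * NI := by
    have : INJ = F ^ h - NI := by linarith
    rw [this]
    nlinarith
  have hT2 : (0 : ℝ) ≤ (T : ℝ) ^ 2 := sq_nonneg _
  have k2 : ∑ n ∈ range H, R n ^ 2 * x ^ (2 * n) - 2 * lam * x ^ T * Y' + lam ^ 2 * Z - cm * INJ ≤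
      (lam ^ 2 - U * L) * Z + n₀ * (B ^ 2 + U * L) +
      (cm + U * κ) * ((h : ℕ) ^ 2 * F ^ (h - 1)) + 2 * lam * (Y - x ^ T * Y') + U₁ ^ 2 * tau +
      (U₁ ^ 2 + U * L) * tauE := by
    have k3 : (cm + U * κ) * NI ≤ (cm + U * κ) * ((h : ℕ) ^ 2 * F ^ (h - 1)) :=
      mul_le_mul_of_nonneg_left hNIle (by positivity)
    have k4 : (U + L) * Y - 2 * lam * Y = cm * Y := by rw [← hlam2]; ring
    linarith
  have k5 := mul_le_mul_of_nonneg_left k2 hT2
  linarith

end

end Run7.h326.VL
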