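import Pool.Agent.H303R3.Ev
import Pool.Agent.Run7.h326.SP1
import Pool.Agent.Run7.h326.V4

set_option autoImplicit false

open Finset MeasureTheory Pool.Agent.H303R3
open scoped ComplexConjugate

namespace Run7.h326.SP

open Run7.h326.VL

theorem integrable_cont {E : Type} [NormedAddCommGroup E] {f : ℝ → E} (hf : Continuous f) :
    Integrable f mu := by
  unfold mu
  apply Integrable.smul_measure
  · exact (hf.integrableOn_Icc).mono_set Set.Ioc_subset_Icc_self
  · rw [ENNReal.inv_ne_top]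
    have : (0 : ℝ) < 2 * Real.pi := by positivity
    exact (ENNReal.ofReal_pos.2 this).ne'

theorem int_exp (k : ℤ) :
    ∫ θ : ℝ, Complex.exp (k * θ * Complex.I) ∂mu = if k = 0 then 1 else 0 := by
  have hpi : (0 : ℝ) < 2 * Real.pi := by positivity
  split_ifs with h
  · subst h
    simp
  · unfold mu
    rw [integral_smul_measure, ← intervalIntegral.integral_of_le hpi.le]
    have h1 : ∀ θ : ℝ, Complex.exp (k * θ * Complex.I) = Complex.exp ((k * Complex.I) * θ) := by
      intro θ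
      congr 1
      ring
    simp only [h1]
    rw [integral_exp_mul_complex]
    · have h2 : Complex.exp (k * Complex.I * ((2 * Real.pi : ℝ) : ℂ)) = 1 := by
        have h3 : (k * Complex.I * ((2 * Real.pi : ℝ) : ℂ)) = k * (2 * Real.pi * Complex.I) := by
          push_cast
          ring
        rw [h3]
        exact Complex.exp_int_mul_two_pi_mul_I k
      rw [h2]
      simp
    · simp [h]

/-- the formula of Parseval for finite families -/
theorem pars {ι : Type} (Y : Finset ι) (u : ι → ℝ) (d : ι → ℤ) :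
    ∫ θ : ℝ, ‖∑ y ∈ Y, (u y : ℂ) * Complex.exp (d y * θ * Complex.I)‖ ^ 2 ∂mu =
      EE u d Y Y 0 := by
  have h1 : ∀ θ : ℝ, ((‖∑ y ∈ Y, (u y : ℂ) * Complex.exp (d y * θ * Complex.I)‖ ^ 2 : ℝ) : ℂ) =
      ∑ y ∈ Y, ∑ z ∈ Y, (u y * u z : ℂ) *
        Complex.exp (((d y - d z : ℤ) : ℂ) * θ * Complex.I) := by
    intro θ
    push_cast
    rw [← Complex.mul_conj', map_sum, sum_mul_sum]
    refine sum_congr rfl fun y _ => sum_congr rfl fun z _ => ?_
    rw [map_mul, Complex.conj_ofReal, ← Complex.exp_conj]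
    have h2 : conj ((d z : ℂ) * (θ : ℂ) * Complex.I) = -((d z : ℂ) * θ * Complex.I) := by
      rw [map_mul, map_mul, Complex.conj_I, Complex.conj_ofReal]
      have : conj (d z : ℂ) = (d z : ℂ) := by
        have := Complex.conj_ofReal (d z : ℝ)
        push_cast at this
        exact this
      rw [this]
      ring
    rw [h2]
    have h3 : Complex.exp (((d y : ℂ) - (d z : ℂ)) * θ * Complex.I) =
        Complex.exp ((d y : ℂ) * θ * Complex.I) * Complex.exp (-((d z : ℂ) * θ * Complex.I)) := by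
      rw [← Complex.exp_add]
      congr 1
      ring
    rw [h3]
    ring
  have hc : ∀ k : ℤ, Integrable (fun θ : ℝ => Complex.exp ((k : ℂ) * θ * Complex.I)) mu := by
    intro k
    apply integrable_cont
    fun_prop
  have hint : ∀ y ∈ Y, Integrable (fun θ : ℝ => ∑ z ∈ Y, (u y * u z : ℂ) *
        Complex.exp (((d y - d z : ℤ) : ℂ) * θ * Complex.I)) mu := by
    intro y _
    exact integrable_finsetSum _ fun z _ => (hc (d y - d z)).const_mul _
  apply Complex.ofReal_injective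
  rw [← integral_complex_ofReal, integral_congr_ae (Filter.Eventually.of_forall h1),
    integral_finsetSum Y hint]
  unfold EE
  rw [Complex.ofReal_sum]
  refine sum_congr rfl fun y _ => ?_
  rw [Complex.ofReal_sum, integral_finsetSum Y fun z _ => (hc (d y - d z)).const_mul _]
  refine sum_congr rfl fun z _ => ?_
  rw [integral_const_mul, int_exp (d y - d z)]
  simp only [add_zero, sub_eq_zero]
  split_ifs <;> simp

theorem circ_pow (x θ : ℝ) (a b : ℕ) :
    (circleMap 0 x θ) ^ a * conj (circleMap 0 x θ) ^ b =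
      ((x ^ (a + b) : ℝ) : ℂ) * Complex.exp (((a : ℤ) - b : ℤ) * θ * Complex.I) := by
  rw [circleMap_zero, map_mul, Complex.conj_ofReal, ← Complex.exp_conj, mul_pow, mul_pow,
    ← Complex.exp_nat_mul, ← Complex.exp_nat_mul]
  have h2 : conj ((θ : ℂ) * Complex.I) = -((θ : ℂ) * Complex.I) := by
    rw [map_mul, Complex.conj_I, Complex.conj_ofReal]
    ring
  rw [h2]
  have h3 : Complex.exp ((((a : ℤ) - b : ℤ) : ℂ) * θ * Complex.I) =
      Complex.exp ((a : ℂ) * (θ * Complex.I)) * Complex.exp ((b : ℂ) * -(θ * Complex.I)) := by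
    rw [← Complex.exp_add]
    congr 1
    push_cast
    ring
  rw [h3]
  push_cast
  ring

theorem circ_pow' (x θ : ℝ) (a : ℕ) :
    (circleMap 0 x θ) ^ a = ((x ^ a : ℝ) : ℂ) * Complex.exp ((a : ℤ) * θ * Complex.I) := by
  have := circ_pow x θ a 0
  simpa using this

section two

variable {α β : Type} [Fintype α] [DecidableEq α] [Fintype β] [DecidableEq β] (S : Finset ℕ)

theorem sum_tp_sum' {E : Type} [AddCommMonoid E] (G : (α ⊕ β → ℕ) → E) :
    ∑ c ∈ tp (α ⊕ β) S, G c = ∑ y ∈ tp α S ×ˢ tp β S, G (Sum.elim y.1 y.2) := by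
  refine sum_nbij' (fun c => (c ∘ Sum.inl, c ∘ Sum.inr)) (fun y => Sum.elim y.1 y.2)
    ?_ ?_ ?_ ?_ ?_
  · intro c hc
    rw [mem_product]
    exact ⟨mem_tp.2 fun i => mem_tp.1 hc _, mem_tp.2 fun i => mem_tp.1 hc _⟩
  · rintro ⟨a, b⟩ hy
    rw [mem_product] at hy
    refine mem_tp.2 ?_
    rintro (i | i)
    · exact mem_tp.1 hy.1 i
    · exact mem_tp.1 hy.2 i
  · intro c _
    ext (i | i) <;> rfl
  · rintro ⟨a, b⟩ _
    rfl
  · intro c _
    congr 1
    ext (i | i) <;> rfl

/-- the pairs of an index of the first and an index of the second kind -/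
def cross (α β : Type) [Fintype α] [Fintype β] [DecidableEq α] [DecidableEq β] :
    Finset ((α ⊕ β) × (α ⊕ β)) :=
  (univ : Finset (α × β)).image fun e => (Sum.inl e.1, Sum.inr e.2)

theorem cross_ne (e : (α ⊕ β) × (α ⊕ β)) (he : e ∈ cross α β) : e.1 ≠ e.2 := by
  unfold cross at he
  obtain ⟨f, _, rfl⟩ := mem_image.1 he
  simp

theorem sum_coin_cross {E : Type} [AddCommMonoid E] (G : (α ⊕ β → ℕ) → E) :
    ∑ c ∈ coin S (cross α β), G c = ∑ y ∈ non α β S, G (Sum.elim y.1 y.2) := by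
  classical
  unfold coin non
  rw [sum_filter, sum_filter, sum_tp_sum']
  refine sum_congr rfl fun y _ => ?_
  have h : (∃ e ∈ cross α β, Sum.elim y.1 y.2 e.1 = Sum.elim y.1 y.2 e.2) ↔
      ∃ i k, y.1 i = y.2 k := by
    constructor
    · rintro ⟨e, he, h⟩
      unfold cross at he
      obtain ⟨f, _, rfl⟩ := mem_image.1 he
      exact ⟨f.1, f.2, h⟩
    · rintro ⟨i, k, h⟩
      exact ⟨(Sum.inl i, Sum.inr k), mem_image.2 ⟨(i, k), mem_univ _, rfl⟩, h⟩
  simp only [h]

/-- the factors: powers of `z` and of its conjugate -/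
noncomputable def fac (x θ : ℝ) (j : α ⊕ β) (a : ℕ) : ℂ :=
  Sum.elim (fun _ => (circleMap 0 x θ) ^ a) (fun _ => conj (circleMap 0 x θ) ^ a) j

omit [DecidableEq α] [DecidableEq β] in
theorem prod_fac (x θ : ℝ) (y : (α → ℕ) × (β → ℕ)) :
    ∏ j, fac (α := α) (β := β) x θ j (Sum.elim y.1 y.2 j) =
      (uu x y : ℂ) * Complex.exp (dd y * θ * Complex.I) := by
  rw [Fintype.prod_sum_type]
  simp only [fac, Sum.elim_inl, Sum.elim_inr]
  rw [prod_pow_eq_pow_sum, prod_pow_eq_pow_sum, circ_pow]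
  rfl

omit [Fintype α] [DecidableEq α] [Fintype β] [DecidableEq β] in
theorem norm_fac (x θ : ℝ) (hx : 0 ≤ x) (j : α ⊕ β) (a : ℕ) : ‖fac x θ j a‖ ≤ x ^ a := by
  rcases j with j | j
  · simp only [fac, Sum.elim_inl, norm_pow, norm_circleMap_zero, abs_of_nonneg hx, le_refl]
  · simp only [fac, Sum.elim_inr, norm_pow, RCLike.norm_conj, norm_circleMap_zero,
      abs_of_nonneg hx, le_refl]

/-- the generating function -/
noncomputable def Ph (x θ : ℝ) : ℂ := ∑ a ∈ S, (circleMap 0 x θ) ^ a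

omit [Fintype α] [DecidableEq α] [Fintype β] [DecidableEq β] in
theorem norm_sum_fac (x θ : ℝ) (j : α ⊕ β) :
    ‖∑ a ∈ S, fac x θ j a‖ = ‖Ph S x θ‖ := by
  rcases j with j | j
  · rfl
  · simp only [fac, Sum.elim_inr, Ph]
    rw [← RCLike.norm_conj (∑ a ∈ S, circleMap 0 x θ ^ a), map_sum]
    simp only [map_pow]

theorem continuous_Ph (x : ℝ) : Continuous fun θ : ℝ => Ph S x θ := by
  unfold Ph
  exact continuous_finsetSum _ fun a _ => (continuous_circleMap 0 x).pow a

/-- all the pairs of tuples -/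
theorem sum_all (x θ : ℝ) :
    ‖∑ y ∈ tp α S ×ˢ tp β S, (uu x y : ℂ) * Complex.exp (dd y * θ * Complex.I)‖ =
      ‖Ph S x θ‖ ^ (Fintype.card α + Fintype.card β) := by
  simp only [← prod_fac]
  rw [← sum_tp_sum' S (fun c => ∏ j, fac x θ j (c j)), tp, ← prod_univ_sum, norm_prod]
  simp only [norm_sum_fac]
  rw [prod_const, card_univ, Fintype.card_sum]

theorem int_all (x : ℝ) :
    ∫ θ : ℝ, ‖Ph S x θ‖ ^ (2 * (Fintype.card α + Fintype.card β)) ∂mu =
      FF (α ⊕ β) S x 0 0 := by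
  rw [← FF_zero, ← pars]
  refine integral_congr_ae (Filter.Eventually.of_forall fun θ => ?_)
  simp only [sum_all]
  rw [← pow_mul]
  congr 1
  ring

end two

/-- the case of one type of indices -/
theorem int_all' {γ : Type} [Fintype γ] [DecidableEq γ] (S : Finset ℕ) (x : ℝ) :
    ∫ θ : ℝ, ‖Ph S x θ‖ ^ (2 * Fintype.card γ) ∂mu = FF γ S x 0 0 := by
  have h0 : FF γ S x 0 0 = EE (fun c : γ → ℕ => x ^ sm c) (fun c => (sm c : ℤ)) (tp γ S)
      (tp γ S) 0 := by
    unfold FF EE
    refine sum_congr rfl fun c _ => sum_congr rfl fun e _ => ?_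
    simp only [add_zero, Nat.cast_inj, pow_add]
  rw [h0, ← pars]
  refine integral_congr_ae (Filter.Eventually.of_forall fun θ => ?_)
  have h1 : ∀ c : γ → ℕ, ((x ^ sm c : ℝ) : ℂ) * Complex.exp (((sm c : ℕ) : ℤ) * θ * Complex.I) =
      ∏ j, (circleMap 0 x θ) ^ (c j) := by
    intro c
    rw [prod_pow_eq_pow_sum, ← circ_pow']
    rfl
  simp only [h1]
  rw [tp, ← prod_univ_sum, norm_prod, prod_const, card_univ, ← pow_mul, mul_comm]
  rfl

end Run7.h326.SP
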