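import Pool.Agent.Run7.h326.SP2

set_option autoImplicit false

open Finset MeasureTheory Pool.Agent.H303R3
open scoped ComplexConjugate

namespace Run7.h326.SP

open Run7.h326.VL

theorem norm_add_sq_le (u v : ℂ) {η : ℝ} (hη : 0 < η) :
    ‖u + v‖ ^ 2 ≤ (1 + η) * ‖u‖ ^ 2 + (1 + 1 / η) * ‖v‖ ^ 2 := by
  have h1 : ‖u + v‖ ^ 2 ≤ (‖u‖ + ‖v‖) ^ 2 := by
    have := norm_add_le u v
    gcongr
  have h2 : 2 * ‖u‖ * ‖v‖ ≤ η * ‖u‖ ^ 2 + 1 / η * ‖v‖ ^ 2 := by
    have h3 : 0 ≤ (η * ‖u‖ - ‖v‖) ^ 2 / η := by positivity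
    have h4 : (η * ‖u‖ - ‖v‖) ^ 2 / η = η * ‖u‖ ^ 2 + 1 / η * ‖v‖ ^ 2 - 2 * ‖u‖ * ‖v‖ := by
      field_simp
      ring
    linarith
  nlinarith

/-- the core inequality -/
theorem core_set (α β : Type) [Fintype α] [DecidableEq α] [Fintype β] [DecidableEq β]
    (S : Finset ℕ) (x : ℝ) (hx0 : 0 ≤ x) (hx1 : x ≤ 1) (hM : 1 ≤ ∑ a ∈ S, x ^ (2 * a))
    (E : Set ℝ) (hE : MeasurableSet E) (η lam : ℝ) (hη : 0 < η) (hlam : 1 ≤ lam) :
    ((mixing α β).card : ℝ) * ∑ c ∈ tp (α ⊕ β) S with Function.Injective c, x ^ (2 * sm c) -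
      η * FF (α ⊕ β) S x 0 0 - (1 + 1 / η) * (4 ^ (cross α β).card *
        (lam ^ (Fintype.card α + Fintype.card β) *
          (∑ a ∈ S, x ^ (2 * a)) ^ (Fintype.card α + Fintype.card β) * mu.real E +
          FF (α ⊕ β) S x 0 0 / lam)) ≤
    ∫ θ in Eᶜ, ‖Ph S x θ‖ ^ (2 * (Fintype.card α + Fintype.card β)) ∂mu := by
  classical
  set h := Fintype.card α + Fintype.card β with hh
  set M := ∑ a ∈ S, x ^ (2 * a) with hMdef
  set N := non α β S with hN
  set P := (tp α S ×ˢ tp β S) \ N with hP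
  have hPN : P ∪ N = tp α S ×ˢ tp β S := by
    rw [hP]
    exact sdiff_union_of_subset (filter_subset _ _)
  have hdis : Disjoint P N := sdiff_disjoint
  set C := (4 : ℝ) ^ (cross α β).card with hC
  let GP : ℝ → ℂ := fun θ => ∑ y ∈ P, (uu x y : ℂ) * Complex.exp (dd y * θ * Complex.I)
  let GN : ℝ → ℂ := fun θ => ∑ y ∈ N, (uu x y : ℂ) * Complex.exp (dd y * θ * Complex.I)
  have hcP : Continuous GP := by
    refine continuous_finsetSum _ fun y _ => ?_
    fun_prop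
  have hcN : Continuous GN := by
    refine continuous_finsetSum _ fun y _ => ?_
    fun_prop
  have hcX : Continuous fun θ : ℝ => ‖Ph S x θ‖ ^ (2 * h) := (continuous_Ph S x).norm.pow _
  have hX : ∀ θ, ‖Ph S x θ‖ ^ (2 * h) = ‖GP θ + GN θ‖ ^ 2 := by
    intro θ
    have h1 := sum_all (α := α) (β := β) S x θ
    rw [← hPN, sum_union hdis] at h1
    simp only [GP, GN]
    rw [h1, ← hh, ← pow_mul, mul_comm]
  have hGN : ∀ θ, ‖GN θ‖ ^ 2 ≤ C * (lam ^ h * M ^ h + ‖Ph S x θ‖ ^ (2 * h) / lam) := by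
    intro θ
    have h1 := coin_bound (ι := α ⊕ β) S (cross α β) cross_ne (fac x θ) x ‖Ph S x θ‖ hx0 hx1
      (norm_nonneg _) (norm_fac x θ hx0) (fun j => (norm_sum_fac S x θ j).le) hM lam hlam
    rw [sum_coin_cross S (fun c => ∏ j, fac x θ j (c j))] at h1
    simp only [prod_fac] at h1
    rw [Fintype.card_sum] at h1
    exact h1
  set b := FF (α ⊕ β) S x 0 0 with hb
  have hbint : ∫ θ, ‖Ph S x θ‖ ^ (2 * h) ∂mu = b := int_all S x
  have hPP : ∫ θ, ‖GP θ‖ ^ 2 ∂mu = EE (uu x) dd P P 0 := pars P (uu x) dd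
  have hsplit : b = EE (uu x) dd P P 0 + EE (uu x) dd P N 0 + EE (uu x) dd N (P ∪ N) 0 := by
    rw [hb, ← FF_zero, ← hPN]
    unfold EE
    rw [sum_union hdis]
    congr 1
    rw [← sum_add_distrib]
    refine sum_congr rfl fun i _ => ?_
    rw [sum_union hdis]
  have hu0 : ∀ y : (α → ℕ) × (β → ℕ), 0 ≤ uu x y := fun y => by unfold uu; positivity
  have hPN0 := EE_nonneg (uu x) dd hu0 P N 0
  have hNall := EE_non (α := α) (β := β) S x hx0
  rw [← hN, ← hPN] at hNall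
  have hPPb : EE (uu x) dd P P 0 ≤ b := by
    have := EE_nonneg (uu x) dd hu0 N (P ∪ N) 0
    linarith
  -- the integral over `E`
  have hiX := integrable_cont hcX
  have hiP : Integrable (fun θ => ‖GP θ‖ ^ 2) mu := integrable_cont (hcP.norm.pow 2)
  have hE1 : ∫ θ in E, ‖Ph S x θ‖ ^ (2 * h) ∂mu ≤
      (1 + η) * EE (uu x) dd P P 0 + (1 + 1 / η) * (C * (lam ^ h * M ^ h * mu.real E + b / lam)) := by
    have h1 : ∀ θ, ‖Ph S x θ‖ ^ (2 * h) ≤ (1 + η) * ‖GP θ‖ ^ 2 + ((1 + 1 / η) * C / lam) *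
        ‖Ph S x θ‖ ^ (2 * h) + (1 + 1 / η) * C * (lam ^ h * M ^ h) := by
      intro θ
      have h2 := norm_add_sq_le (GP θ) (GN θ) hη
      rw [← hX θ] at h2
      have h3 := mul_le_mul_of_nonneg_left (hGN θ) (by positivity : 0 ≤ 1 + 1 / η)
      refine h2.trans ?_
      have h4 : (1 + 1 / η) * (C * (lam ^ h * M ^ h + ‖Ph S x θ‖ ^ (2 * h) / lam)) =
          ((1 + 1 / η) * C / lam) *
        ‖Ph S x θ‖ ^ (2 * h) + (1 + 1 / η) * C * (lam ^ h * M ^ h) := by ring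
      linarith
    have h5 : ∫ θ in E, ‖Ph S x θ‖ ^ (2 * h) ∂mu ≤ ∫ θ in E, ((1 + η) * ‖GP θ‖ ^ 2 +
        ((1 + 1 / η) * C / lam) * ‖Ph S x θ‖ ^ (2 * h) + (1 + 1 / η) * C * (lam ^ h * M ^ h)) ∂mu := by
      refine integral_mono_of_nonneg (Filter.Eventually.of_forall fun θ => by positivity) ?_
        (Filter.Eventually.of_forall h1)
      exact (((hiP.integrableOn).const_mul _).add ((hiX.integrableOn).const_mul _)).add
        (integrable_const _)
    refine h5.trans ?_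
    have i1 : Integrable (fun θ => (1 + η) * ‖GP θ‖ ^ 2) (mu.restrict E) :=
      (hiP.integrableOn).const_mul _
    have i2 : Integrable (fun θ => ((1 + 1 / η) * C / lam) * ‖Ph S x θ‖ ^ (2 * h))
        (mu.restrict E) := (hiX.integrableOn).const_mul _
    have i12 : Integrable (fun θ => (1 + η) * ‖GP θ‖ ^ 2 +
        ((1 + 1 / η) * C / lam) * ‖Ph S x θ‖ ^ (2 * h)) (mu.restrict E) := i1.add i2
    rw [integral_add i12 (integrable_const _), integral_add i1 i2, integral_const_mul,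
      integral_const_mul, integral_const, smul_eq_mul, measureReal_restrict_apply_univ]
    have h6 : ∫ θ in E, ‖GP θ‖ ^ 2 ∂mu ≤ EE (uu x) dd P P 0 := by
      rw [← hPP]
      exact setIntegral_le_integral hiP (Filter.Eventually.of_forall fun θ => by positivity)
    have h7 : ∫ θ in E, ‖Ph S x θ‖ ^ (2 * h) ∂mu ≤ b := by
      rw [← hbint]
      exact setIntegral_le_integral hiX (Filter.Eventually.of_forall fun θ => by positivity)
    have h8 := mul_le_mul_of_nonneg_left h6 (by positivity : 0 ≤ 1 + η)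
    have h9 := mul_le_mul_of_nonneg_left h7 (by positivity : 0 ≤ (1 + 1 / η) * C / lam)
    have h10 : (1 + 1 / η) * (C * (lam ^ h * M ^ h * mu.real E + b / lam)) =
        (1 + 1 / η) * C / lam * b + mu.real E * ((1 + 1 / η) * C * (lam ^ h * M ^ h)) := by ring
    linarith
  have hadd := integral_add_compl hE hiX
  rw [hbint] at hadd
  have hηb : η * EE (uu x) dd P P 0 ≤ η * b := mul_le_mul_of_nonneg_left hPPb hη.le
  linarith

theorem inj_ge (γ : Type) [Fintype γ] [DecidableEq γ] (S : Finset ℕ) (x : ℝ) (hx0 : 0 ≤ x)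
    (hx1 : x ≤ 1) (h2 : 2 ≤ Fintype.card γ) :
    (∑ a ∈ S, x ^ (2 * a)) ^ Fintype.card γ -
      (Fintype.card γ : ℝ) ^ 2 * (∑ a ∈ S, x ^ (2 * a)) ^ (Fintype.card γ - 1) ≤
    ∑ c ∈ tp γ S with Function.Injective c, x ^ (2 * sm c) := by
  classical
  have h1 := noninj_le (γ := γ) S (x ^ 2) (by positivity) (pow_le_one₀ hx0 hx1) h2
  have h3 := sum_tp (α := γ) (S := S) (x ^ 2)
  rw [← sum_filter_add_sum_filter_not (tp γ S) (fun c => ∃ i j, i ≠ j ∧ c i = c j)] at h3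
  simp only [← pow_mul] at h1 h3
  have h4 : (tp γ S).filter (fun c => ¬ ∃ i j, i ≠ j ∧ c i = c j) =
      (tp γ S).filter (fun c => Function.Injective c) := by
    refine filter_congr fun c _ => ?_
    constructor
    · intro h i j hij
      by_contra hne
      exact h ⟨i, j, hne, hij⟩
    · rintro h ⟨i, j, hne, hij⟩
      exact hne (h hij)
  rw [h4] at h3
  linarith

end Run7.h326.SP
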