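import Pool.Agent.Run7.h326.SP3

set_option autoImplicit false

open Finset MeasureTheory Pool.Agent.H303R3
open scoped ComplexConjugate

namespace Run7.h326.SP

open Run7.h326.VL

theorem mix_bound {p q M : ℝ} (hp : 0 ≤ p) (hq : 0 ≤ q) (hM : 0 < M) {h : ℕ} (hh : 2 ≤ h) :
    p * q ^ (h - 2) ≤ M ^ (h - 1) + (p ^ h + q ^ h) / M := by
  set m := max p q with hm
  have hm0 : 0 ≤ m := hp.trans (le_max_left _ _)
  have hpm : p ≤ m := le_max_left _ _
  have hqm : q ≤ m := le_max_right _ _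
  have h1 : p * q ^ (h - 2) ≤ m ^ (h - 1) := by
    calc p * q ^ (h - 2) ≤ m * m ^ (h - 2) := by gcongr
      _ = m ^ (h - 1) := by
          rw [← pow_succ']
          congr 1
          omega
  have h2 : m ^ h ≤ p ^ h + q ^ h := by
    rcases max_cases p q with ⟨h3, _⟩ | ⟨h3, _⟩
    · rw [hm, h3]
      have : 0 ≤ q ^ h := by positivity
      linarith
    · rw [hm, h3]
      have : 0 ≤ p ^ h := by positivity
      linarith
  by_cases hc : m ≤ M
  · have h3 : m ^ (h - 1) ≤ M ^ (h - 1) := by gcongr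
    have h4 : 0 ≤ (p ^ h + q ^ h) / M := by positivity
    linarith
  · push Not at hc
    have h3 : m ^ (h - 1) ≤ m ^ h / M := by
      rw [le_div_iff₀ hM]
      calc m ^ (h - 1) * M ≤ m ^ (h - 1) * m := by gcongr
        _ = m ^ h := by
            rw [← pow_succ]
            congr 1
            omega
    have h4 : m ^ h / M ≤ (p ^ h + q ^ h) / M := by gcongr
    have h5 : 0 ≤ M ^ (h - 1) := by positivity
    linarith

section

variable {γ : Type} [Fintype γ] [DecidableEq γ] (S : Finset ℕ)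

/-- families of tuples -/
theorem int_fam (Y : Finset (γ → ℕ)) (x : ℝ) :
    ∫ θ : ℝ, ‖∑ c ∈ Y, (circleMap 0 x θ) ^ sm c‖ ^ 2 ∂mu =
      EE (fun c : γ → ℕ => x ^ sm c) (fun c => (sm c : ℤ)) Y Y 0 := by
  rw [← pars]
  refine integral_congr_ae (Filter.Eventually.of_forall fun θ => ?_)
  simp only [← circ_pow']

theorem EE_fam {Y : Finset (γ → ℕ)} {H : ℕ} (hH : ∀ c ∈ Y, sm c < H) (x : ℝ) :
    EE (fun c : γ → ℕ => x ^ sm c) (fun c => (sm c : ℤ)) Y Y 0 =
      ∑ n ∈ range H, ((Y.filter (fun c => sm c = n)).card : ℝ) ^ 2 * x ^ (2 * n) := by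
  unfold EE
  rw [← sum_fiberwise_of_maps_to (s := Y) (t := range H) (g := sm)
    (fun c hc => mem_range.2 (hH c hc))]
  refine sum_congr rfl fun n _ => ?_
  have h1 : ∀ c ∈ Y.filter (fun c => sm c = n), ∑ e ∈ Y,
      (if (sm c : ℤ) + 0 = (sm e : ℤ) then x ^ sm c * x ^ sm e else 0) =
      ((Y.filter (fun c => sm c = n)).card : ℝ) * x ^ (2 * n) := by
    intro c hc
    have hc' := (mem_filter.1 hc).2
    rw [← nsmul_eq_mul, ← sum_const, sum_filter]
    refine sum_congr rfl fun e _ => ?_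
    rw [hc']
    by_cases h : sm e = n
    · rw [if_pos (by rw [h, add_zero]), if_pos h, h]
      ring
    · rw [if_neg (fun h' => h (by rw [add_zero, Nat.cast_inj] at h'; exact h'.symm)), if_neg h]
  rw [sum_congr rfl h1, sum_const, nsmul_eq_mul]
  ring

/-- the sum over tuples with `c i = c j` -/
theorem sum_coinc_c (z : ℂ) (i j : γ) (hij : i ≠ j) :
    ∑ c ∈ tp γ S with c i = c j, z ^ sm c =
      (∑ a ∈ S, z ^ (2 * a)) * (∑ a ∈ S, z ^ a) ^ (Fintype.card γ - 2) := by
  have h1 : ∑ c ∈ tp γ S with c i = c j, z ^ sm c =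
      ∑ a ∈ S, ∑ c ∈ tp γ S, ∏ k, (if k = i ∨ k = j then (if c k = a then z ^ a else 0)
        else z ^ c k) := by
    rw [sum_comm, sum_filter]
    refine sum_congr rfl fun c hc => ?_
    have hc' := mem_tp.1 hc
    have h2 : ∀ a, (∏ k, (if k = i ∨ k = j then (if c k = a then z ^ a else 0) else z ^ c k)) =
        if c i = a ∧ c j = a then z ^ sm c else 0 := by
      intro a
      split_ifs with h
      · have h3 : ∀ k, (if k = i ∨ k = j then (if c k = a then z ^ a else 0) else z ^ c k) =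
            z ^ c k := by
          intro k
          by_cases hk : k = i ∨ k = j
          · rw [if_pos hk]
            rcases hk with rfl | rfl
            · rw [if_pos h.1, h.1]
            · rw [if_pos h.2, h.2]
          · rw [if_neg hk]
        simp only [h3]
        rw [prod_pow_eq_pow_sum]
        rfl
      · rw [not_and_or] at h
        rcases h with h | h
        · exact prod_eq_zero (mem_univ i) (by simp [h])
        · exact prod_eq_zero (mem_univ j) (by simp [h])
    simp only [h2]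
    by_cases h4 : c i = c j
    · rw [if_pos h4, sum_eq_single (c i)]
      · simp [h4]
      · intro a _ ha
        rw [if_neg]
        rintro ⟨h5, _⟩
        exact ha h5.symm
      · intro h5
        exact absurd (hc' i) h5
    · rw [if_neg h4]
      refine (sum_eq_zero fun a _ => ?_).symm
      rw [if_neg]
      rintro ⟨h5, h6⟩
      exact h4 (h5.trans h6.symm)
  rw [h1, sum_mul]
  refine sum_congr rfl fun a ha => ?_
  rw [tp, ← prod_univ_sum (fun _ => S)
    (fun k y => if k = i ∨ k = j then (if y = a then z ^ a else 0) else z ^ y)]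
  have h7 : ∀ k : γ, (∑ y ∈ S, if k = i ∨ k = j then (if y = a then z ^ a else 0) else z ^ y) =
      if k = i ∨ k = j then z ^ a else ∑ y ∈ S, z ^ y := by
    intro k
    split_ifs
    · rw [sum_ite_eq' S a, if_pos ha]
    · rfl
  simp only [h7]
  rw [prod_ite, prod_const, prod_const]
  have h8 : (univ.filter (fun k : γ => k = i ∨ k = j)) = {i, j} := by
    ext k
    simp
  have h9 : (univ.filter (fun k : γ => ¬ (k = i ∨ k = j))).card = Fintype.card γ - 2 := by
    rw [filter_not, card_sdiff_of_subset (filter_subset _ _), h8, card_pair hij, card_univ]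
  rw [h9, h8, card_pair hij, ← pow_mul]
  congr 2
  ring

/-- the high moment of the generating function of the doubled set -/
theorem int_double (x : ℝ) (hx0 : 0 ≤ x) (hx1 : x ≤ 1) :
    ∫ θ : ℝ, ‖∑ a ∈ S, (circleMap 0 x θ) ^ (2 * a)‖ ^ (2 * Fintype.card γ) ∂mu ≤
      FF γ S x 0 0 := by
  have h1 : ∀ θ : ℝ, ‖∑ a ∈ S, (circleMap 0 x θ) ^ (2 * a)‖ ^ (2 * Fintype.card γ) =
      ‖∑ c ∈ tp γ S, ((x ^ (2 * sm c) : ℝ) : ℂ) *
        Complex.exp (((2 * (sm c : ℤ) : ℤ) : ℂ) * θ * Complex.I)‖ ^ 2 := by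
    intro θ
    have h2 : ∀ c : γ → ℕ, ((x ^ (2 * sm c) : ℝ) : ℂ) *
        Complex.exp (((2 * (sm c : ℤ) : ℤ) : ℂ) * θ * Complex.I) =
        ∏ k, (circleMap 0 x θ) ^ (2 * c k) := by
      intro c
      rw [prod_pow_eq_pow_sum, ← mul_sum]
      have h3 := circ_pow' x θ (2 * sm c)
      push_cast at h3 ⊢
      unfold sm at h3 ⊢
      exact h3.symm
    simp only [h2]
    rw [tp, ← prod_univ_sum (fun _ => S) (fun _ a => (circleMap 0 x θ) ^ (2 * a)), norm_prod,
      prod_const, card_univ, ← pow_mul, mul_comm]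
  simp only [h1]
  rw [pars]
  unfold EE FF
  refine sum_le_sum fun c _ => sum_le_sum fun e _ => ?_
  simp only [add_zero]
  have h4 : (2 * (sm c : ℤ) = 2 * (sm e : ℤ)) ↔ sm c = sm e := by omega
  simp only [h4]
  split_ifs with h
  · rw [h, ← pow_add]
    exact pow_le_pow_of_le_one hx0 hx1 (by omega)
  · exact le_rfl

/-- the mean square of the number of representations with two equal summands -/
theorem rep_sq {H : ℕ} (hH : ∀ c ∈ tp γ S, sm c < H) (x : ℝ) (hx0 : 0 ≤ x) (hx1 : x ≤ 1)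
    (hM : 0 < ∑ a ∈ S, x ^ (2 * a)) (h2 : 2 ≤ Fintype.card γ) :
    ∑ n ∈ range H, (VL.Rep γ S n : ℝ) ^ 2 * x ^ (2 * n) ≤ (Fintype.card γ : ℝ) ^ 4 *
      ((∑ a ∈ S, x ^ (2 * a)) ^ (Fintype.card γ - 1) +
        2 * FF γ S x 0 0 / ∑ a ∈ S, x ^ (2 * a)) := by
  classical
  set M := ∑ a ∈ S, x ^ (2 * a) with hMdef
  set b := FF γ S x 0 0 with hb
  set h := Fintype.card γ with hh
  have hpair : ∀ i j : γ, i ≠ j → ∑ n ∈ range H,
      ((((tp γ S).filter (fun c => c i = c j)).filter (fun c => sm c = n)).card : ℝ) ^ 2 *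
        x ^ (2 * n) ≤ M ^ (h - 1) + 2 * b / M := by
    intro i j hij
    rw [← EE_fam (fun c hc => hH c (mem_filter.1 hc).1), ← int_fam]
    simp only [sum_coinc_c S _ i j hij]
    have h3 : ∀ θ : ℝ, ‖(∑ a ∈ S, (circleMap 0 x θ) ^ (2 * a)) *
        (∑ a ∈ S, (circleMap 0 x θ) ^ a) ^ (Fintype.card γ - 2)‖ ^ 2 ≤
        M ^ (h - 1) + (1 / M) * (‖∑ a ∈ S, (circleMap 0 x θ) ^ (2 * a)‖ ^ (2 * h) +
          ‖Ph S x θ‖ ^ (2 * h)) := by
      intro θ
      have h4 := mix_bound (p := ‖∑ a ∈ S, (circleMap 0 x θ) ^ (2 * a)‖ ^ 2)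
        (q := ‖Ph S x θ‖ ^ 2) (by positivity) (by positivity) hM h2
      rw [norm_mul, norm_pow, mul_pow, ← pow_mul, mul_comm (Fintype.card γ - 2) 2, pow_mul]
      rw [← pow_mul, ← pow_mul] at h4
      rw [pow_mul] at h4
      refine le_trans ?_ (h4.trans (le_of_eq ?_))
      · rw [← pow_mul]
        apply le_of_eq
        rw [pow_mul]
        rfl
      · ring
    have hc1 : Continuous fun θ : ℝ => ‖∑ a ∈ S, (circleMap 0 x θ) ^ (2 * a)‖ ^ (2 * h) :=
      (continuous_finsetSum _ fun a _ => (continuous_circleMap 0 x).pow _).norm.pow _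
    have hc2 : Continuous fun θ : ℝ => ‖Ph S x θ‖ ^ (2 * h) := (continuous_Ph S x).norm.pow _
    have i1 := integrable_cont hc1
    have i2 := integrable_cont hc2
    have i12 : Integrable (fun θ : ℝ => (1 / M) * (‖∑ a ∈ S, (circleMap 0 x θ) ^ (2 * a)‖ ^ (2 * h) +
          ‖Ph S x θ‖ ^ (2 * h))) mu := (i1.add i2).const_mul _
    calc _ ≤ ∫ θ : ℝ, (M ^ (h - 1) +
          (1 / M) * (‖∑ a ∈ S, (circleMap 0 x θ) ^ (2 * a)‖ ^ (2 * h) +
          ‖Ph S x θ‖ ^ (2 * h))) ∂mu := by
          refine integral_mono_of_nonneg (Filter.Eventually.of_forall fun θ => by positivity) ?_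
            (Filter.Eventually.of_forall h3)
          exact (integrable_const _).add i12
      _ = M ^ (h - 1) + (1 / M) *
          (∫ θ : ℝ, ‖∑ a ∈ S, (circleMap 0 x θ) ^ (2 * a)‖ ^ (2 * h) ∂mu + b) := by
          rw [integral_add (integrable_const _) i12, integral_const_mul, integral_add i1 i2,
            hb, ← int_all' S x, ← hh]
          simp
      _ ≤ M ^ (h - 1) + (1 / M) * (b + b) := by
          have := int_double (γ := γ) S x hx0 hx1
          gcongr
      _ = _ := by ring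
  have hle : ∀ n, (VL.Rep γ S n : ℝ) ^ 2 ≤ (h : ℝ) ^ 2 * ∑ e ∈ (univ : Finset γ).offDiag,
      ((((tp γ S).filter (fun c => c e.1 = c e.2)).filter (fun c => sm c = n)).card : ℝ) ^ 2 := by
    intro n
    have h3 : (VL.Rep γ S n : ℝ) ≤ ∑ e ∈ (univ : Finset γ).offDiag,
        ((((tp γ S).filter (fun c => c e.1 = c e.2)).filter (fun c => sm c = n)).card : ℝ) := by
      rw [← Nat.cast_sum, Nat.cast_le]
      unfold VL.Rep
      refine (card_le_card ?_).trans card_biUnion_le
      intro c hc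
      rw [mem_filter] at hc
      obtain ⟨hc1, hc2, i, j, hij, hcij⟩ := hc
      rw [mem_biUnion]
      refine ⟨(i, j), ?_, ?_⟩
      · rw [mem_offDiag]
        exact ⟨mem_univ _, mem_univ _, hij⟩
      · rw [mem_filter, mem_filter]
        exact ⟨⟨hc1, hcij⟩, hc2⟩
    calc (VL.Rep γ S n : ℝ) ^ 2 ≤ (∑ e ∈ (univ : Finset γ).offDiag,
        ((((tp γ S).filter (fun c => c e.1 = c e.2)).filter
          (fun c => sm c = n)).card : ℝ)) ^ 2 := by gcongr
      _ ≤ ((univ : Finset γ).offDiag.card : ℝ) * ∑ e ∈ (univ : Finset γ).offDiag,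
        ((((tp γ S).filter (fun c => c e.1 = c e.2)).filter
          (fun c => sm c = n)).card : ℝ) ^ 2 := sq_sum_le_card_mul_sum_sq
      _ ≤ _ := by
          apply mul_le_mul_of_nonneg_right _ (sum_nonneg fun _ _ => by positivity)
          rw [offDiag_card, card_univ, ← hh]
          have : h * h - h ≤ h * h := Nat.sub_le _ _
          calc ((h * h - h : ℕ) : ℝ) ≤ ((h * h : ℕ) : ℝ) := by exact_mod_cast this
            _ = (h : ℝ) ^ 2 := by push_cast; ring
  have hW : 0 ≤ M ^ (h - 1) + 2 * b / M := by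
    have : 0 ≤ b := by
      rw [hb]
      unfold FF
      refine sum_nonneg fun c _ => sum_nonneg fun e _ => ?_
      split_ifs
      · positivity
      · exact le_rfl
    positivity
  calc ∑ n ∈ range H, (VL.Rep γ S n : ℝ) ^ 2 * x ^ (2 * n)
      ≤ ∑ n ∈ range H, ((h : ℝ) ^ 2 * ∑ e ∈ (univ : Finset γ).offDiag,
        ((((tp γ S).filter (fun c => c e.1 = c e.2)).filter (fun c => sm c = n)).card : ℝ) ^ 2) *
        x ^ (2 * n) := by
        refine sum_le_sum fun n _ => ?_
        exact mul_le_mul_of_nonneg_right (hle n) (by positivity)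
    _ = (h : ℝ) ^ 2 * ∑ e ∈ (univ : Finset γ).offDiag, ∑ n ∈ range H,
        ((((tp γ S).filter (fun c => c e.1 = c e.2)).filter (fun c => sm c = n)).card : ℝ) ^ 2 *
        x ^ (2 * n) := by
        rw [sum_comm, mul_sum]
        refine sum_congr rfl fun n _ => ?_
        rw [mul_assoc, sum_mul]
    _ ≤ (h : ℝ) ^ 2 * ∑ e ∈ (univ : Finset γ).offDiag, (M ^ (h - 1) + 2 * b / M) := by
        apply mul_le_mul_of_nonneg_left _ (by positivity)
        refine sum_le_sum fun e he => ?_
        exact hpair e.1 e.2 (mem_offDiag.1 he).2.2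
    _ ≤ (h : ℝ) ^ 2 * ((h : ℝ) ^ 2 * (M ^ (h - 1) + 2 * b / M)) := by
        apply mul_le_mul_of_nonneg_left _ (by positivity)
        rw [sum_const, nsmul_eq_mul]
        apply mul_le_mul_of_nonneg_right _ hW
        rw [offDiag_card, card_univ, ← hh]
        have : h * h - h ≤ h * h := Nat.sub_le _ _
        calc ((h * h - h : ℕ) : ℝ) ≤ ((h * h : ℕ) : ℝ) := by exact_mod_cast this
          _ = (h : ℝ) ^ 2 := by push_cast; ring
    _ = _ := by ring

end

end Run7.h326.SP
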