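import Mathlib
import Pool.Agent.Run7.h326.V4

set_option autoImplicit false

open Finset

namespace Run7.h326.VL

open scoped Classical in
/-- the set `E` of the exceptions has positive lower density (along a sequence) -/
theorem asym (E : ℕ → Prop) {α β : Type} [Fintype α] [DecidableEq α] [Fintype β] [DecidableEq β]
    (h2 : 2 ≤ Fintype.card α + Fintype.card β) (n₀ : ℕ)
    (U U₁ L B κ lam : ℝ) (hU0 : 0 ≤ U) (hU₁0 : 0 ≤ U₁) (hL0 : 0 ≤ L) (hB0 : 0 ≤ B) (hκ : 0 ≤ κ)
    (hlam : 0 ≤ lam)
    (hlam2 : U + L - 2 * lam = ((mixing α β).card : ℝ)) (hδ : lam ^ 2 < U * L)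
    (hex : ∀ N : ℕ, ∃ S : Finset ℕ, (∀ a ∈ S, a < N) ∧
      (∀ n, n₀ ≤ n → ¬ E n → (Rn (α ⊕ β) S n : ℝ) ≤ U) ∧
      (∀ n, n₀ ≤ n → (Rn (α ⊕ β) S n : ℝ) ≤ U₁) ∧
      (∀ n, n < n₀ → (Rn (α ⊕ β) S n : ℝ) ≤ B) ∧
      (∀ n, n₀ ≤ n → n < N → L - κ * Rep (α ⊕ β) S n ≤ (Rn (α ⊕ β) S n : ℝ))) :
    ∃ M₀ B₀ : ℕ, ∃ δ₀ : ℝ, 0 < δ₀ ∧ ∀ M : ℕ, M₀ ≤ M →
      δ₀ * (M : ℝ) ^ (2 * (Fintype.card α + Fintype.card β)) ≤
        (((range (B₀ * M ^ (2 * (Fintype.card α + Fintype.card β)))).filter
          (fun n => E n)).card : ℝ) := by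
  classical
  set h := Fintype.card α + Fintype.card β with hh
  have hcard : Fintype.card (α ⊕ β) = h := Fintype.card_sum
  set cm : ℝ := ((mixing α β).card : ℝ) with hcm
  have hcm0 : 0 ≤ cm := Nat.cast_nonneg _
  set ab : ℝ := ((Fintype.card α * Fintype.card β : ℕ) : ℝ) with hab
  have hab0 : 0 ≤ ab := Nat.cast_nonneg _
  set C : ℝ := n₀ * B + U₁ + 1 with hC
  have hC1 : 1 ≤ C := by
    have : 0 ≤ (n₀ : ℝ) * B := by positivity
    linarith
  have hC0 : 0 ≤ C := by linarith
  set A1 : ℝ := n₀ * (B ^ 2 + U * L) with hA1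
  have hA10 : 0 ≤ A1 := by positivity
  set A2 : ℝ := (cm + U * κ) * ((h : ℕ) ^ 2 * C ^ (h - 1)) with hA2
  have hA20 : 0 ≤ A2 := by positivity
  set A3 : ℝ := 2 * ab * C ^ (2 * h - 1) with hA3
  have hA30 : 0 ≤ A3 := by positivity
  set Cs : ℝ := A1 + A2 + A3 + 2 * lam * C + 1 with hCs
  set δ := U * L - lam ^ 2 with hδdef
  have hδ0 : 0 < δ := by linarith
  have hCs0 : 0 < Cs := by
    have : 0 ≤ 2 * lam * C := by positivity
    linarith
  obtain ⟨M₀, hM₀⟩ := exists_nat_gt (8 * Cs / δ)
  set W : ℝ := U₁ ^ 2 + U * L + 1 with hW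
  have hW0 : 0 < W := by positivity
  obtain ⟨B₀, hB₀⟩ := exists_pow_lt_of_lt_one (show (0 : ℝ) < δ / (16 * W) by positivity)
    (show (1 / 2 : ℝ) < 1 by norm_num)
  refine ⟨M₀, B₀, δ / (16 * W), by positivity, ?_⟩
  intro M hMM
  have hM : 8 * Cs / δ < M := hM₀.trans_le (by exact_mod_cast hMM)
  have hM0 : 0 < M := by
    have h3 : (0 : ℝ) < M := lt_of_le_of_lt (by positivity) hM
    exact_mod_cast h3
  have hM1 : (1 : ℝ) ≤ M := by exact_mod_cast hM0
  set X : ℝ := (M : ℝ) ^ (2 * h) with hX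
  set T : ℕ := M ^ (2 * h - 1) with hT
  have hTr : (T : ℝ) = (M : ℝ) ^ (2 * h - 1) := by rw [hT]; push_cast; rfl
  have hXT : X = M * T := by
    rw [hX, hTr, ← pow_succ']
    congr 1
    omega
  have hT1 : 1 ≤ T := Nat.one_le_pow _ _ hM0
  have hT1r : (1 : ℝ) ≤ T := by exact_mod_cast hT1
  have hT0 : (0 : ℝ) < T := by linarith
  have hX1 : 1 ≤ X := one_le_pow₀ hM1
  have hX0 : 0 < X := by linarith
  set x : ℝ := 1 - 1 / X with hx
  have hx0 : 0 ≤ x := by
    rw [hx, sub_nonneg, div_le_one hX0]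
    exact hX1
  have hx1' : x < 1 := by
    have : 0 < 1 / X := by positivity
    linarith
  have hx1 : x ≤ 1 := hx1'.le
  -- choice of N
  set K : ℝ := 2 * lam * T * U₁ + U₁ ^ 2 * X + 2 with hK
  have hK0 : 2 ≤ K := by
    have : 0 ≤ 2 * lam * T * U₁ := by positivity
    have : 0 ≤ U₁ ^ 2 * X := by positivity
    linarith
  obtain ⟨m, hm⟩ := exists_pow_lt_of_lt_one (show (0 : ℝ) < 1 / K by positivity) hx1'
  set N := T + n₀ + m with hN
  obtain ⟨S, hSN, hU, hU₁, hB, hL⟩ := hex N
  set H := h * N + N + 1 with hHdef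
  have hH : ∀ c ∈ tp (α ⊕ β) S, sm c < H := by
    intro c hc
    have h3 : sm c ≤ ∑ _i : α ⊕ β, N := sum_le_sum fun i _ => (hSN _ (mem_tp.1 hc i)).le
    rw [sum_const, card_univ, hcard, smul_eq_mul] at h3
    omega
  have hNH : N ≤ H := by omega
  have hmas := master S E hH x hx0 hx1 T N n₀ (by omega) hNH (by omega) h2 U U₁ L B κ lam hU0
    hL0 hκ hlam hU hU₁ hB hL hlam2
  set R : ℕ → ℝ := fun n => (Rn (α ⊕ β) S n : ℝ) with hR
  have hR0 : ∀ n, 0 ≤ R n := fun n => Nat.cast_nonneg _
  set F := ∑ a ∈ S, x ^ (2 * a) with hF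
  set f := ∑ a ∈ S, x ^ a with hf
  set Z := ∑ n ∈ range N, x ^ (2 * n) with hZ
  set Y := ∑ n ∈ range N, R n * x ^ (2 * n) with hY
  set Y' := ∑ n ∈ range (N - T), R n * x ^ (2 * n) with hY'
  set tau := ∑ n ∈ range H with N ≤ n, x ^ (2 * n) with htau
  have hF0 : 0 ≤ F := sum_nonneg fun a _ => by positivity
  have hf0 : 0 ≤ f := sum_nonneg fun a _ => by positivity
  have hFf : F ≤ f := sum_le_sum fun a _ => pow_le_pow_of_le_one hx0 hx1 (by omega)
  have hxm : ∀ k, m ≤ k → x ^ k ≤ 1 / K := fun k hk =>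
    (pow_le_pow_of_le_one hx0 hx1 hk).trans hm.le
  -- geometric sums
  have hgeo : ∑ n ∈ range H, x ^ n ≤ X := by
    have h3 := mul_neg_geom_sum x H
    have h4 : 1 - x = 1 / X := by rw [hx]; ring
    rw [h4] at h3
    have h5 : 0 ≤ x ^ H := by positivity
    have h6 : ∑ n ∈ range H, x ^ n = X * (1 - x ^ H) := by
      rw [← h3]
      field_simp
    rw [h6]
    nlinarith
  have hZge : X / 4 ≤ Z := by
    have h3 := mul_neg_geom_sum (x ^ 2) N
    have h4 : Z = ∑ n ∈ range N, (x ^ 2) ^ n := by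
      rw [hZ]
      refine sum_congr rfl fun n _ => ?_
      rw [← pow_mul]
    rw [← h4] at h3
    have h5 : (x ^ 2) ^ N ≤ 1 / 2 := by
      rw [← pow_mul]
      refine (hxm _ (by omega)).trans ?_
      exact one_div_le_one_div_of_le (by norm_num) hK0
    have h6 : 1 - x ^ 2 ≤ 2 / X := by
      have : 1 - x ^ 2 = (1 - x) * (1 + x) := by ring
      rw [this]
      have h7 : 1 - x = 1 / X := by rw [hx]; ring
      rw [h7, div_mul_eq_mul_div, one_mul]
      gcongr
      linarith
    have hZ0 : 0 ≤ Z := sum_nonneg fun n _ => by positivity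
    have h8 : 1 / 2 ≤ 2 / X * Z := by
      calc 1 / 2 ≤ (1 - x ^ 2) * Z := by rw [h3]; linarith
        _ ≤ 2 / X * Z := mul_le_mul_of_nonneg_right h6 hZ0
    have h9 : 2 / X * Z = 2 * Z / X := by ring
    rw [h9, le_div_iff₀ hX0] at h8
    linarith
  have htau_le : tau ≤ X / K := by
    calc tau ≤ ∑ n ∈ range H with N ≤ n, x ^ N * x ^ n := by
          refine sum_le_sum fun n hn => ?_
          have h3 := (mem_filter.1 hn).2
          rw [← pow_add]
          exact pow_le_pow_of_le_one hx0 hx1 (by omega)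
      _ ≤ ∑ n ∈ range H, x ^ N * x ^ n :=
          sum_le_sum_of_subset_of_nonneg (filter_subset _ _) fun n _ _ => by positivity
      _ = x ^ N * ∑ n ∈ range H, x ^ n := by rw [mul_sum]
      _ ≤ 1 / K * X := mul_le_mul (hxm _ (by omega)) hgeo
          (sum_nonneg fun n _ => by positivity) (by positivity)
      _ = X / K := by ring
  -- bounds for f
  have hfh : f ^ h = ∑ n ∈ range H, R n * x ^ n := by
    have h3 := sum_tp (α := α ⊕ β) (S := S) x
    rw [hcard] at h3
    rw [hf, ← h3, sum_Rn S hH (fun n => x ^ n)]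
  have hfX : f ^ h ≤ C * X := by
    rw [hfh]
    calc ∑ n ∈ range H, R n * x ^ n ≤ ∑ n ∈ range H, ((if n < n₀ then B else 0) + U₁ * x ^ n) := by
          refine sum_le_sum fun n _ => ?_
          have h3 : 0 ≤ x ^ n := by positivity
          have h4 : x ^ n ≤ 1 := pow_le_one₀ hx0 hx1
          by_cases h5 : n < n₀
          · rw [if_pos h5]
            have h6 := hB n h5
            have h7 : 0 ≤ U₁ * x ^ n := by positivity
            have h8 : R n * x ^ n ≤ B * 1 := mul_le_mul h6 h4 h3 hB0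
            linarith
          · rw [if_neg h5, zero_add]
            exact mul_le_mul_of_nonneg_right (hU₁ n (by omega)) h3
      _ = n₀ * B + U₁ * ∑ n ∈ range H, x ^ n := by
          rw [sum_add_distrib, ← mul_sum, ← sum_filter]
          have e2 : (range H).filter (fun n => n < n₀) = range n₀ := by
            ext n
            simp only [mem_range, mem_filter]
            omega
          rw [e2, sum_const, card_range, nsmul_eq_mul]
      _ ≤ n₀ * B + U₁ * X := by gcongr
      _ ≤ C * X := by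
          have h3 : (n₀ : ℝ) * B ≤ n₀ * B * X := le_mul_of_one_le_right (by positivity) hX1
          rw [hC]
          linarith
  have hfM : f ≤ C * M ^ 2 := by
    by_contra hcon
    push Not at hcon
    have h3 : (C * M ^ 2) ^ h < f ^ h := pow_lt_pow_left₀ hcon (by positivity) (by omega)
    have h4 : C * X ≤ (C * M ^ 2) ^ h := by
      rw [mul_pow, ← pow_mul, hX]
      have h5 : C ≤ C ^ h := le_self_pow₀ hC1 (by omega)
      gcongr
    linarith
  have hYX : Y ≤ C * X := by
    refine le_trans ?_ hfX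
    rw [hfh]
    calc Y ≤ ∑ n ∈ range N, R n * x ^ n := by
          refine sum_le_sum fun n _ => ?_
          exact mul_le_mul_of_nonneg_left (pow_le_pow_of_le_one hx0 hx1 (by omega)) (hR0 n)
      _ ≤ _ := sum_le_sum_of_subset_of_nonneg (range_subset_range.2 hNH) fun n _ _ => by
          have := hR0 n
          positivity
  -- Y - x^T Y'
  have hYY : Y - x ^ T * Y' ≤ T * U₁ / K + T * C := by
    have hY'0 : 0 ≤ Y' := sum_nonneg fun n _ => by
      have := hR0 n
      positivity
    have hsp : Y = Y' + ∑ n ∈ range N with N - T ≤ n, R n * x ^ (2 * n) := by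
      rw [hY, hY', ← sum_filter_add_sum_filter_not (range N) (fun n => n < N - T)]
      congr 1
      · congr 1
        ext n
        simp only [mem_range, mem_filter]
        omega
      · congr 1
        ext n
        simp only [mem_range, mem_filter]
        omega
    have h3 : ∑ n ∈ range N with N - T ≤ n, R n * x ^ (2 * n) ≤ T * (U₁ * (1 / K)) := by
      calc _ ≤ ∑ n ∈ range N with N - T ≤ n, U₁ * (1 / K) := by
            refine sum_le_sum fun n hn => ?_
            have h4 := (mem_filter.1 hn).2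
            exact mul_le_mul (hU₁ n (by omega)) (hxm _ (by omega)) (by positivity) hU₁0
        _ ≤ T * (U₁ * (1 / K)) := by
            rw [sum_const, nsmul_eq_mul]
            have h5 : ((range N).filter (fun n => N - T ≤ n)).card ≤ T := by
              have : (range N).filter (fun n => N - T ≤ n) ⊆ Ico (N - T) N := by
                intro n hn
                simp only [mem_range, mem_filter, mem_Ico] at hn ⊢
                omega
              refine (card_le_card this).trans ?_
              rw [Nat.card_Ico]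
              omega
            have h6 : 0 ≤ U₁ * (1 / K) := by positivity
            gcongr
    have h4 : 1 - (T : ℝ) / X ≤ x ^ T := by
      have h5 := one_add_mul_le_pow (a := -(1 / X)) (by
        have : 1 / X ≤ 1 := by rw [div_le_one hX0]; exact hX1
        linarith) T
      have h6 : 1 + -(1 / X) = x := by rw [hx]; ring
      rw [h6] at h5
      have h7 : 1 + (T : ℝ) * -(1 / X) = 1 - T / X := by ring
      rwa [h7] at h5
    have h5 : (1 - x ^ T) * Y' ≤ T / X * (C * X) := by
      have h6 : Y' ≤ C * X := by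
        have : 0 ≤ ∑ n ∈ range N with N - T ≤ n, R n * x ^ (2 * n) := sum_nonneg fun n _ => by
          have := hR0 n
          positivity
        linarith
      have h7 : 0 ≤ 1 - x ^ T := by
        have := pow_le_one₀ (n := T) hx0 hx1
        linarith
      calc (1 - x ^ T) * Y' ≤ (1 - x ^ T) * (C * X) := mul_le_mul_of_nonneg_left h6 h7
        _ ≤ T / X * (C * X) := mul_le_mul_of_nonneg_right (by linarith) (by positivity)
    have h6 : (T : ℝ) / X * (C * X) = T * C := by field_simp
    have h7 : (T : ℝ) * (U₁ * (1 / K)) = T * U₁ / K := by ring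
    rw [h6] at h5
    rw [h7] at h3
    linarith
  -- the last term
  have hlast : F * f ^ (h - 2) * f ^ h ≤ C ^ (2 * h - 1) * (T * T) := by
    have h3 : F * f ^ (h - 2) * f ^ h ≤ f * f ^ (h - 2) * f ^ h := by
      have : 0 ≤ f ^ (h - 2) * f ^ h := by positivity
      nlinarith
    have h4 : f * f ^ (h - 2) * f ^ h = f ^ (2 * h - 1) := by
      rw [← pow_succ', ← pow_add]
      congr 1
      omega
    have h5 : f ^ (2 * h - 1) ≤ (C * M ^ 2) ^ (2 * h - 1) := pow_le_pow_left₀ hf0 hfM _
    have h6 : (C * (M : ℝ) ^ 2) ^ (2 * h - 1) = C ^ (2 * h - 1) * (T * T) := by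
      rw [mul_pow, ← pow_mul, hTr, ← pow_add]
      congr 2
      omega
    linarith
  have hFh : F ^ (h - 1) ≤ C ^ (h - 1) * T := by
    have h3 : F ^ (h - 1) ≤ (C * M ^ 2) ^ (h - 1) := pow_le_pow_left₀ hF0 (hFf.trans hfM) _
    have h4 : (C * (M : ℝ) ^ 2) ^ (h - 1) ≤ C ^ (h - 1) * T := by
      rw [mul_pow, ← pow_mul, hTr]
      have : (M : ℝ) ^ (2 * (h - 1)) ≤ (M : ℝ) ^ (2 * h - 1) := pow_le_pow_right₀ hM1 (by omega)
      gcongr
    exact h3.trans h4
  -- assemble
  have q1 : (lam ^ 2 - U * L) * Z ≤ -(δ * (X / 4)) := by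
    have : δ * (X / 4) ≤ δ * Z := mul_le_mul_of_nonneg_left hZge hδ0.le
    have h3 : (lam ^ 2 - U * L) * Z = -(δ * Z) := by rw [hδdef]; ring
    rw [h3]
    linarith
  have q2 : (cm + U * κ) * ((h : ℕ) ^ 2 * F ^ (h - 1)) ≤ A2 * T := by
    have h3 : (cm + U * κ) * ((h : ℕ) ^ 2 * F ^ (h - 1)) ≤
        (cm + U * κ) * ((h : ℕ) ^ 2 * (C ^ (h - 1) * T)) := by gcongr
    refine h3.trans (le_of_eq ?_)
    rw [hA2]
    ring
  have q3 : 2 * lam * (Y - x ^ T * Y') + U₁ ^ 2 * tau ≤ 2 * lam * C * T + 1 := by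
    have h3 := mul_le_mul_of_nonneg_left hYY (by positivity : (0 : ℝ) ≤ 2 * lam)
    have h4 := mul_le_mul_of_nonneg_left htau_le (sq_nonneg U₁)
    have h5 : 2 * lam * (T * U₁ / K) + U₁ ^ 2 * (X / K) ≤ 1 := by
      have h6 : 2 * lam * (T * U₁ / K) + U₁ ^ 2 * (X / K) =
          (2 * lam * T * U₁ + U₁ ^ 2 * X) / K := by
        ring
      rw [h6, div_le_one (by linarith)]
      linarith
    linarith
  have q4 : 2 * (T : ℝ) * (ab * (F * f ^ (h - 2)) * f ^ h) ≤ (T : ℝ) ^ 2 * (A3 * T) := by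
    have h3 := mul_le_mul_of_nonneg_left hlast (by positivity : (0 : ℝ) ≤ 2 * T * ab)
    have h4 : 2 * (T : ℝ) * ab * (C ^ (2 * h - 1) * (T * T)) = (T : ℝ) ^ 2 * (A3 * T) := by
      rw [hA3]
      ring
    linarith
  set tauE := ∑ n ∈ range N with E n, x ^ (2 * n) with htauE
  have htauE0 : 0 ≤ tauE := sum_nonneg fun n _ => by positivity
  have q5 : 0 ≤ (T : ℝ) ^ 2 * (-(δ * (X / 4)) + A1 + A2 * T + (2 * lam * C * T + 1) + A3 * T +
      W * tauE) := by
    have hT2 : (0 : ℝ) ≤ (T : ℝ) ^ 2 := sq_nonneg _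
    have h3 : (lam ^ 2 - U * L) * Z + A1 + (cm + U * κ) * ((h : ℕ) ^ 2 * F ^ (h - 1)) +
        2 * lam * (Y - x ^ T * Y') + U₁ ^ 2 * tau + (U₁ ^ 2 + U * L) * tauE ≤
        -(δ * (X / 4)) + A1 + A2 * T + (2 * lam * C * T + 1) + W * tauE := by
      have h4 : (U₁ ^ 2 + U * L) * tauE ≤ W * tauE :=
        mul_le_mul_of_nonneg_right (by rw [hW]; linarith) htauE0
      linarith
    have h4 := mul_le_mul_of_nonneg_left h3 hT2
    linarith
  have q6 : 0 ≤ -(δ * (X / 4)) + A1 + A2 * T + (2 * lam * C * T + 1) + A3 * T + W * tauE :=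
    nonneg_of_mul_nonneg_right q5 (by positivity)
  have q7 : A1 ≤ A1 * T := le_mul_of_one_le_right hA10 hT1r
  have q8 : δ * (X / 4) ≤ Cs * T + W * tauE := by
    rw [hCs]
    linarith
  have q9 : Cs * T ≤ δ * (X / 8) := by
    rw [div_lt_iff₀ hδ0] at hM
    rw [hXT]
    have := mul_le_mul_of_nonneg_right hM.le hT0.le
    linarith
  have q10 : δ * (X / 8) ≤ W * tauE := by linarith
  -- from the weighted sum to the counting function
  set D := B₀ * M ^ (2 * h) with hD
  have hXn : X = ((M ^ (2 * h) : ℕ) : ℝ) := by rw [hX]; push_cast; rfl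
  have hxX : x ^ (M ^ (2 * h)) ≤ 1 / 2 := by
    have h3 : x ≤ Real.exp (-(1 / X)) := by
      have := Real.add_one_le_exp (-(1 / X))
      rw [hx]
      linarith
    calc x ^ (M ^ (2 * h)) ≤ Real.exp (-(1 / X)) ^ (M ^ (2 * h)) := pow_le_pow_left₀ hx0 h3 _
      _ = Real.exp (-1) := by
          rw [← Real.exp_nat_mul, ← hXn]
          congr 1
          field_simp
      _ ≤ 1 / 2 := by
          rw [Real.exp_neg, one_div]
          apply inv_anti₀ (by norm_num)
          have := Real.add_one_le_exp (1 : ℝ)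
          linarith
  have hxD : x ^ D ≤ δ / (16 * W) := by
    rw [hD, mul_comm, pow_mul]
    exact (pow_le_pow_left₀ (by positivity) hxX _).trans hB₀.le
  have hcount : tauE ≤ (((range D).filter (fun n => E n)).card : ℝ) + δ / (16 * W) * X := by
    calc tauE ≤ ∑ n ∈ range H with E n, x ^ (2 * n) := by
          refine sum_le_sum_of_subset_of_nonneg ?_ fun n _ _ => by positivity
          intro n hn
          rw [mem_filter, mem_range] at hn ⊢
          exact ⟨by omega, hn.2⟩
      _ ≤ ∑ n ∈ range H with E n, ((if n < D then 1 else 0) + x ^ D * x ^ n) := by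
          refine sum_le_sum fun n _ => ?_
          have h3 : 0 ≤ x ^ D * x ^ n := by positivity
          have h4 : x ^ (2 * n) ≤ 1 := pow_le_one₀ hx0 hx1
          split_ifs with h5
          · linarith
          · rw [zero_add, ← pow_add]
            exact pow_le_pow_of_le_one hx0 hx1 (by omega)
      _ ≤ _ := by
          rw [sum_add_distrib]
          refine add_le_add ?_ ?_
          · rw [← sum_filter, sum_const, nsmul_eq_mul, mul_one]
            have : (((range H).filter (fun n => E n)).filter (fun n => n < D)).card ≤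
                ((range D).filter (fun n => E n)).card := by
              apply card_le_card
              intro n hn
              rw [mem_filter, mem_filter] at hn
              rw [mem_filter, mem_range]
              exact ⟨hn.2, hn.1.2⟩
            exact_mod_cast this
          · rw [← mul_sum]
            have h3 : ∑ n ∈ range H with E n, x ^ n ≤ X :=
              (sum_le_sum_of_subset_of_nonneg (filter_subset _ _)
                fun n _ _ => by positivity).trans hgeo
            exact mul_le_mul hxD h3 (sum_nonneg fun n _ => by positivity) (by positivity)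
  have q11 : δ / (8 * W) * X ≤ tauE := by
    have h3 : δ / (8 * W) * X = δ * (X / 8) / W := by field_simp
    rw [h3, div_le_iff₀ hW0]
    linarith
  have q12 : δ / (8 * W) * X = δ / (16 * W) * X + δ / (16 * W) * X := by
    field_simp
    ring
  linarith

end Run7.h326.VL
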