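import Mathlib
import Pool.Agent.Run7.h326.V5

set_option autoImplicit false

open Finset

namespace Run7.h326.VL

/-- the multiset of the values -/
def ms {γ : Type} [Fintype γ] (c : γ → ℕ) : Multiset ℕ := (univ : Finset γ).val.map c

section

variable {γ : Type} [Fintype γ] [DecidableEq γ]

omit [DecidableEq γ] in
theorem sum_ms (c : γ → ℕ) : (ms c).sum = sm c := rfl

omit [DecidableEq γ] in
theorem card_ms (c : γ → ℕ) : Multiset.card (ms c) = Fintype.card γ := by
  simp [ms]

omit [DecidableEq γ] in
theorem mem_ms {c : γ → ℕ} {a : ℕ} : a ∈ ms c ↔ ∃ i, c i = a := by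
  simp [ms]

omit [DecidableEq γ] in
theorem exists_perm {c e : γ → ℕ} (h : ms c = ms e) : ∃ π : Equiv.Perm γ, c = e ∘ π := by
  classical
  have hcard : ∀ v : ℕ, Fintype.card {i // c i = v} = Fintype.card {i // e i = v} := by
    intro v
    have h1 := congrArg (Multiset.count v) h
    unfold ms at h1
    rw [Multiset.count_map, Multiset.count_map] at h1
    rw [Fintype.card_subtype, Fintype.card_subtype]
    have h2 : ∀ c : γ → ℕ, (univ.filter (fun i => c i = v)).card =
        Multiset.card ((univ : Finset γ).val.filter (fun i => v = c i)) := by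
      intro c
      rw [Finset.card_def, Finset.filter_val]
      congr 1
      exact Multiset.filter_congr fun i _ => eq_comm
    rw [h2 c, h2 e]
    exact h1
  have E : ∀ v : ℕ, Nonempty ({i // c i = v} ≃ {i // e i = v}) := fun v =>
    Fintype.card_eq.1 (hcard v)
  let E' : ∀ v : ℕ, {i // c i = v} ≃ {i // e i = v} := fun v => (E v).some
  refine ⟨(Equiv.sigmaFiberEquiv c).symm.trans ((Equiv.sigmaCongrRight E').trans
    (Equiv.sigmaFiberEquiv e)), ?_⟩
  ext i
  simp only [Function.comp, Equiv.trans_apply]
  have := (E' (c i) ⟨i, rfl⟩).2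
  simp only [Equiv.sigmaFiberEquiv, Equiv.coe_fn_symm_mk, Equiv.sigmaCongrRight_apply,
    Equiv.coe_fn_mk]
  exact this.symm

theorem fiber_le (T : Finset (γ → ℕ)) (s : Multiset ℕ) :
    (T.filter (fun c => ms c = s)).card ≤ (Fintype.card γ).factorial := by
  classical
  by_cases h : ∃ e ∈ T, ms e = s
  · obtain ⟨e, _, rfl⟩ := h
    calc _ ≤ ((univ : Finset (Equiv.Perm γ)).image (fun π : Equiv.Perm γ => e ∘ π)).card := by
          apply card_le_card
          intro c hc
          obtain ⟨π, hπ⟩ := exists_perm (mem_filter.1 hc).2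
          exact mem_image.2 ⟨π, mem_univ _, hπ.symm⟩
      _ ≤ (univ : Finset (Equiv.Perm γ)).card := card_image_le
      _ = _ := by rw [card_univ, Fintype.card_perm]
  · push Not at h
    rw [card_eq_zero.2]
    · exact Nat.zero_le _
    · rw [filter_eq_empty_iff]
      intro c hc
      exact h c hc

omit [DecidableEq γ] in
theorem exists_tuple {s : Multiset ℕ} (hs : Multiset.card s = Fintype.card γ) :
    ∃ c : γ → ℕ, ms c = s := by
  classical
  induction s using Quotient.inductionOn with
  | _ l =>
    have hl : l.length = Fintype.card γ := by simpa using hs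
    let e : γ ≃ Fin l.length := (Fintype.equivFin γ).trans (finCongr hl.symm)
    refine ⟨fun i => l.get (e i), ?_⟩
    unfold ms
    have h1 : (univ : Finset γ).val.map (fun i => l.get (e i)) =
        ((univ : Finset (Fin l.length)).val).map l.get := by
      have h2 : (univ : Finset (Fin l.length)).val = (univ : Finset γ).val.map e :=
        (Multiset.map_univ_val_equiv e).symm
      rw [h2, Multiset.map_map]
      rfl
    rw [h1, Fin.univ_val_map, List.ofFn_get]
    rfl

end

/-- representations as multisets -/
def Mset (A : Set ℕ) (h n : ℕ) : Set (Multiset ℕ) :=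
  {s : Multiset ℕ | Multiset.card s = h ∧ (∀ a ∈ s, a ∈ A) ∧ s.sum = n}

theorem Mset_finite (A : Set ℕ) (h n : ℕ) : (Mset A h n).Finite := by
  classical
  refine Set.Finite.subset (Finset.finite_toSet
    ((tp (Fin h) (range (n + 1))).image (fun c => ms c))) ?_
  rintro s ⟨hs, _, hsum⟩
  obtain ⟨c, hc⟩ := exists_tuple (γ := Fin h) (s := s) (by simpa using hs)
  rw [mem_coe, mem_image]
  refine ⟨c, mem_tp.2 fun i => ?_, hc⟩
  rw [mem_range, Nat.lt_succ_iff, ← hsum]
  exact Multiset.le_sum_of_mem (by rw [← hc, mem_ms]; exact ⟨i, rfl⟩)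

/-- number of representations -/
noncomputable def r (A : Set ℕ) (h n : ℕ) : ℕ := (Mset A h n).ncard

section

variable {γ : Type} [Fintype γ] [DecidableEq γ]

theorem Rn_le (A : Set ℕ) (S : Finset ℕ) (hS : ∀ a ∈ S, a ∈ A) (n : ℕ) :
    Rn γ S n ≤ (Fintype.card γ).factorial * r A (Fintype.card γ) n := by
  classical
  unfold Rn r
  rw [Set.ncard_eq_toFinset_card _ (Mset_finite A (Fintype.card γ) n)]
  refine card_le_mul_card_image_of_maps_to (f := fun c : γ → ℕ => ms c) ?_ _ ?_
  · intro c hc
    rw [mem_filter] at hc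
    rw [Set.Finite.mem_toFinset]
    refine ⟨card_ms c, ?_, hc.2⟩
    intro a ha
    obtain ⟨i, rfl⟩ := mem_ms.1 ha
    exact hS _ (mem_tp.1 hc.1 i)
  · intro s _
    exact fiber_le _ s

theorem le_Rn (A : Set ℕ) (S : Finset ℕ) (n : ℕ) (hS : ∀ a ∈ A, a ≤ n → a ∈ S)
    (hS' : ∀ a ∈ S, a ∈ A) :
    (Fintype.card γ).factorial * r A (Fintype.card γ) n ≤
      Rn γ S n + (Fintype.card γ).factorial * Rep γ S n := by
  classical
  unfold r
  rw [Set.ncard_eq_toFinset_card _ (Mset_finite A (Fintype.card γ) n)]
  set MM := (Mset_finite A (Fintype.card γ) n).toFinset with hMM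
  have hmem : ∀ c : γ → ℕ, ms c ∈ MM → c ∈ tp γ S ∧ sm c = n := by
    intro c hc
    rw [hMM, Set.Finite.mem_toFinset] at hc
    obtain ⟨h1, h2, h3⟩ := hc
    have h4 : sm c = n := h3
    refine ⟨mem_tp.2 fun i => ?_, h4⟩
    have h5 : c i ∈ ms c := mem_ms.2 ⟨i, rfl⟩
    refine hS _ (h2 _ h5) ?_
    rw [← h3]
    exact Multiset.le_sum_of_mem h5
  have hex : ∀ s ∈ MM, ∃ c : γ → ℕ, ms c = s := by
    intro s hs
    rw [hMM, Set.Finite.mem_toFinset] at hs
    exact exists_tuple hs.1
  have hnd : (Fintype.card γ).factorial * (MM.filter Multiset.Nodup).card ≤ Rn γ S n := by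
    unfold Rn
    have h1 : ((tp γ S).filter (fun c => sm c = n ∧ (ms c).Nodup)).card ≤
        ((tp γ S).filter (fun c => sm c = n)).card := by
      apply card_le_card
      intro c hc
      rw [mem_filter] at hc ⊢
      exact ⟨hc.1, hc.2.1⟩
    refine le_trans ?_ h1
    rw [mul_comm]
    rw [← smul_eq_mul, ← sum_const]
    rw [card_eq_sum_card_fiberwise (f := fun c : γ → ℕ => ms c) (t := MM.filter Multiset.Nodup)]
    · refine sum_le_sum fun s hs => ?_
      rw [mem_filter] at hs
      obtain ⟨c, hc⟩ := hex s hs.1
      have hinj : Function.Injective c := by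
        have h2 : (ms c).Nodup := by rw [hc]; exact hs.2
        intro i j hij
        exact Multiset.inj_on_of_nodup_map h2 i (mem_univ i) j (mem_univ j) hij
      calc (Fintype.card γ).factorial =
            ((univ : Finset (Equiv.Perm γ)).image (fun π : Equiv.Perm γ => c ∘ π)).card := by
            rw [card_image_of_injective, card_univ, Fintype.card_perm]
            intro π π' h
            ext i
            exact hinj (congrFun h i)
        _ ≤ _ := by
            apply card_le_card
            intro e he
            obtain ⟨π, _, rfl⟩ := mem_image.1 he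
            have h3 : ms (c ∘ π) = s := by
              rw [← hc]
              unfold ms
              rw [← Multiset.map_map]
              rw [Multiset.map_univ_val_equiv π]
            have h4 := hmem (c ∘ π) (by rw [h3]; exact hs.1)
            rw [mem_filter, mem_filter]
            exact ⟨⟨h4.1, h4.2, by rw [h3]; exact hs.2⟩, h3⟩
    · intro c hc
      rw [mem_coe, mem_filter] at hc
      rw [mem_coe, mem_filter]
      refine ⟨?_, hc.2.2⟩
      rw [hMM, Set.Finite.mem_toFinset]
      refine ⟨card_ms c, ?_, hc.2.1⟩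
      intro a ha
      obtain ⟨i, rfl⟩ := mem_ms.1 ha
      exact hS' _ (mem_tp.1 hc.1 i)
  have hrep : (MM.filter (fun s => ¬ s.Nodup)).card ≤ Rep γ S n := by
    choose! g hg using hex
    unfold Rep
    apply card_le_card_of_injOn g
    · intro s hs
      rw [mem_coe, mem_filter] at hs
      rw [mem_coe, mem_filter]
      have h1 := hg s hs.1
      have h2 := hmem (g s) (by rw [h1]; exact hs.1)
      refine ⟨h2.1, h2.2, ?_⟩
      by_contra hcon
      push Not at hcon
      apply hs.2
      rw [← h1]
      unfold ms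
      refine Multiset.Nodup.map_on ?_ (univ : Finset γ).nodup
      intro i _ j _ hij
      by_contra hne
      exact hcon i j hne hij
    · intro s hs s' hs' h
      rw [mem_coe, mem_filter] at hs hs'
      rw [← hg s hs.1, ← hg s' hs'.1, h]
  have hsplit := card_filter_add_card_filter_not (s := MM) Multiset.Nodup
  calc (Fintype.card γ).factorial * MM.card
      = (Fintype.card γ).factorial * (MM.filter Multiset.Nodup).card +
        (Fintype.card γ).factorial * (MM.filter (fun s => ¬ s.Nodup)).card := by
        rw [← mul_add, hsplit]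
    _ ≤ _ := Nat.add_le_add hnd (Nat.mul_le_mul_left _ hrep)

end

end Run7.h326.VL
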