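import Pool.Agent.H303R3.ET.SingFin
import Pool.Agent.Run7.h326.SP4
import Pool.Agent.Run7.h326.V6

set_option autoImplicit false

open Finset MeasureTheory Pool.Agent.H303R3 Filter Topology
open scoped ComplexConjugate

namespace Run7.h326.SP

open Run7.h326.VL
open Pool.Agent.H303R3.ET (Pw conv_Pw Pw_add abel_le)

theorem int_mu_eq {f : ℝ → ℝ} :
    ∫ θ, f θ ∂mu = (2 * Real.pi)⁻¹ • ∫ θ in (0 : ℝ)..(2 * Real.pi), f θ := by
  have hpi : (0 : ℝ) < 2 * Real.pi := by positivity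
  unfold mu
  rw [integral_smul_measure, intervalIntegral.integral_of_le hpi.le, ENNReal.toReal_inv,
    ENNReal.toReal_ofReal hpi.le]

theorem pars_mu {c : ℕ → ℝ} (hc : Conv (Pw c)) {x : ℝ} (h0 : 0 ≤ x) (h1 : x < 1) :
    HasSum (fun n => c n ^ 2 * x ^ (2 * n)) (∫ θ, ‖ev (Pw c) (circleMap 0 x θ)‖ ^ 2 ∂mu) := by
  have h2 := parseval hc h0 h1
  have h3 : Real.circleAverage (fun z => ‖ev (Pw c) z‖ ^ 2) 0 x =
      ∫ θ, ‖ev (Pw c) (circleMap 0 x θ)‖ ^ 2 ∂mu := by
    rw [int_mu_eq]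
    rfl
  rw [h3] at h2
  refine h2.congr_fun ?_
  intro n
  unfold Pw
  rw [PowerSeries.coeff_mk, Complex.norm_real, Real.norm_eq_abs, sq_abs, pow_mul]

theorem ev_Pw_add {c d : ℕ → ℝ} (hc : Conv (Pw c)) (hd : Conv (Pw d)) {z : ℂ} (hz : ‖z‖ < 1) :
    ev (Pw fun n => c n + d n) z = ev (Pw c) z + ev (Pw d) z := by
  rw [← Pw_add, ev_add hc hd hz]

theorem ev_Pw_mul {c : ℕ → ℝ} (k : ℝ) (z : ℂ) :
    ev (Pw fun n => k * c n) z = k * ev (Pw c) z := by
  have h1 : (Pw fun n => k * c n) = (k : ℂ) • Pw c := by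
    ext n
    rw [PowerSeries.coeff_smul]
    unfold Pw
    simp only [PowerSeries.coeff_mk]
    push_cast
    rfl
  rw [h1, ev_smul]

section

variable {γ : Type} [Fintype γ] [DecidableEq γ] (S : Finset ℕ)

theorem Rn_zero {H : ℕ} (hH : ∀ c ∈ tp γ S, sm c < H) {n : ℕ} (hn : H ≤ n) : Rn γ S n = 0 := by
  unfold VL.Rn
  rw [card_eq_zero, filter_eq_empty_iff]
  intro c hc h
  have := hH c hc
  omega

theorem conv_fin {c : ℕ → ℝ} {H : ℕ} (h : ∀ n, H ≤ n → c n = 0) : Conv (Pw c) := by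
  intro ρ _ _
  refine summable_of_ne_finset_zero (s := range H) ?_
  intro n hn
  rw [mem_range, not_lt] at hn
  unfold Pw
  rw [PowerSeries.coeff_mk, h n hn]
  simp

/-- the generating function of the number of ordered representations -/
theorem ev_Rn {H : ℕ} (hH : ∀ c ∈ tp γ S, sm c < H) (x θ : ℝ) :
    ev (Pw fun n => (Rn γ S n : ℝ)) (circleMap 0 x θ) = Ph S x θ ^ Fintype.card γ := by
  unfold ev
  rw [tsum_eq_sum (s := range H)]
  · have h1 : Ph S x θ ^ Fintype.card γ = ∑ c ∈ tp γ S, (circleMap 0 x θ) ^ sm c := by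
      have h2 : ∀ c : γ → ℕ, (circleMap 0 x θ) ^ sm c = ∏ j, (circleMap 0 x θ) ^ c j := by
        intro c
        rw [prod_pow_eq_pow_sum]
        rfl
      simp only [h2]
      rw [tp, ← prod_univ_sum, prod_const, card_univ]
      rfl
    rw [h1, ← sum_fiberwise_of_maps_to (s := tp γ S) (t := range H) (g := sm)
      (fun c hc => mem_range.2 (hH c hc))]
    refine sum_congr rfl fun n _ => ?_
    unfold Pw
    rw [PowerSeries.coeff_mk]
    have h3 : ∑ c ∈ tp γ S with sm c = n, circleMap 0 x θ ^ sm c =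
        ∑ c ∈ tp γ S with sm c = n, circleMap 0 x θ ^ n :=
      sum_congr rfl fun c hc => by rw [(mem_filter.1 hc).2]
    rw [h3, sum_const, nsmul_eq_mul]
    unfold VL.Rn
    push_cast
    rfl
  · intro n hn
    rw [mem_range, not_lt] at hn
    unfold Pw
    rw [PowerSeries.coeff_mk]
    simp only [Rn_zero S hH hn]
    simp

end

/-- the elements below `L` -/
noncomputable def cut (A : Set ℕ) (L : ℕ) : Finset ℕ := by
  classical
  exact (range L).filter (fun a => a ∈ A)

theorem mem_cut {A : Set ℕ} {L a : ℕ} : a ∈ cut A L ↔ a < L ∧ a ∈ A := by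
  unfold cut
  simp

theorem cut_lt {γ : Type} [Fintype γ] [DecidableEq γ] (A : Set ℕ) (L : ℕ) :
    ∀ c ∈ tp γ (cut A L), sm c < Fintype.card γ * L + 1 := by
  intro c hc
  have h1 := mem_tp.1 hc
  have h2 : sm c ≤ ∑ _i : γ, L := sum_le_sum fun i _ => (mem_cut.1 (h1 i)).1.le
  rw [sum_const, card_univ, smul_eq_mul] at h2
  omega

/-- everything about the truncation at one radius -/
theorem trunc (γ : Type) [Fintype γ] [DecidableEq γ] (h2 : 2 ≤ Fintype.card γ) (A : Set ℕ)
    (x : ℝ) (hx0 : 0 ≤ x) (hx1 : x < 1)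
    (hR : Conv (Pw fun n => (r A (Fintype.card γ) n : ℝ))) (L₀ : ℕ) :
    ∃ L, L₀ ≤ L ∧
      (∑ a ∈ cut A L, x ^ (2 * a)) ^ Fintype.card γ ≤
        (Fintype.card γ).factorial * ∑' n, (r A (Fintype.card γ) n : ℝ) * x ^ (2 * n) ∧
      (Fintype.card γ).factorial * ∑' n, (r A (Fintype.card γ) n : ℝ) * x ^ (2 * n) ≤
        (∑ a ∈ cut A L, x ^ (2 * a)) ^ Fintype.card γ + (Fintype.card γ).factorial *
          ((Fintype.card γ : ℝ) ^ 2 * (∑ a ∈ cut A L, x ^ (2 * a)) ^ (Fintype.card γ - 1) + 1) ∧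
      FF γ (cut A L) x 0 0 ≤ ((Fintype.card γ).factorial : ℝ) ^ 2 *
        ∑' n, (r A (Fintype.card γ) n : ℝ) ^ 2 * x ^ (2 * n) ∧
      ∃ Δ : ℕ → ℝ, Conv (Pw Δ) ∧
        (∀ θ : ℝ, ((Fintype.card γ).factorial : ℂ) *
          ev (Pw fun n => (r A (Fintype.card γ) n : ℝ)) (circleMap 0 x θ) =
          Ph (cut A L) x θ ^ Fintype.card γ + ev (Pw Δ) (circleMap 0 x θ)) ∧
        ∑' n, Δ n ^ 2 * x ^ (2 * n) ≤ ((Fintype.card γ).factorial : ℝ) ^ 2 *
          (∑ n ∈ range (Fintype.card γ * L + 1),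
            (VL.Rep γ (cut A L) n : ℝ) ^ 2 * x ^ (2 * n) + 1) := by
  classical
  set h := Fintype.card γ with hh
  set f : ℝ := (h.factorial : ℝ) with hf
  have hf0 : 0 < f := by rw [hf]; positivity
  have hx2 : x ^ 2 < 1 := by nlinarith
  -- summability
  have hs2 : Summable fun n => (r A h n : ℝ) ^ 2 * x ^ (2 * n) := (pars_mu hR hx0 hx1).summable
  have hs1 : Summable fun n => (r A h n : ℝ) * x ^ (2 * n) := by
    refine (hR (x ^ 2) (by positivity) hx2).congr fun n => ?_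
    unfold Pw
    rw [PowerSeries.coeff_mk, Complex.norm_real, Real.norm_eq_abs,
      abs_of_nonneg (Nat.cast_nonneg _), pow_mul]
  have ht1 := (tendsto_order.1 (tendsto_sum_nat_add
    (fun n => (r A h n : ℝ) * x ^ (2 * n)))).2 1 one_pos
  have ht2 := (tendsto_order.1 (tendsto_sum_nat_add
    (fun n => (r A h n : ℝ) ^ 2 * x ^ (2 * n)))).2 1 one_pos
  obtain ⟨L, hL1, hL2, hL0⟩ := (ht1.and (ht2.and (eventually_ge_atTop L₀))).exists
  refine ⟨L, hL0, ?_⟩
  set S := cut A L with hS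
  set H := h * L + 1 with hHdef
  have hLH : L ≤ H := by
    rw [hHdef]
    nlinarith
  have hH : ∀ c ∈ tp γ S, sm c < H := cut_lt A L
  have hle : ∀ n, (Rn γ S n : ℝ) ≤ f * r A h n := by
    intro n
    have := Rn_le (γ := γ) A S (fun a ha => (mem_cut.1 ha).2) n
    rw [hf]
    exact_mod_cast this
  have hge : ∀ n, n < L → f * r A h n ≤ Rn γ S n + f * VL.Rep γ S n := by
    intro n hn
    have := le_Rn (γ := γ) A S n (fun a ha han => mem_cut.2 ⟨by omega, ha⟩)
      (fun a ha => (mem_cut.1 ha).2)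
    rw [hf]
    exact_mod_cast this
  have hM : (∑ a ∈ S, x ^ (2 * a)) ^ h = ∑ n ∈ range H, (Rn γ S n : ℝ) * x ^ (2 * n) := by
    have h3 := sum_tp (α := γ) (S := S) (x ^ 2)
    simp only [← pow_mul] at h3
    rw [← hh] at h3
    rw [← h3, ← sum_Rn S hH (fun n => x ^ (2 * n))]
  have hRs : ∑' n, (Rn γ S n : ℝ) * x ^ (2 * n) = ∑ n ∈ range H, (Rn γ S n : ℝ) * x ^ (2 * n) := by
    refine tsum_eq_sum fun n hn => ?_
    rw [mem_range, not_lt] at hn
    rw [Rn_zero S hH hn]
    simp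
  have hRsum : Summable fun n => (Rn γ S n : ℝ) * x ^ (2 * n) := by
    refine summable_of_ne_finset_zero (s := range H) fun n hn => ?_
    rw [mem_range, not_lt] at hn
    rw [Rn_zero S hH hn]
    simp
  set Δ : ℕ → ℝ := fun n => f * r A h n - Rn γ S n with hΔ
  have hΔ0 : ∀ n, 0 ≤ Δ n := fun n => by
    have := hle n
    simp only [hΔ]
    linarith
  have hΔ1 : ∀ n, Δ n ≤ f * r A h n := fun n => by
    have : (0 : ℝ) ≤ Rn γ S n := Nat.cast_nonneg _
    simp only [hΔ]
    linarith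
  have hΔ2 : ∀ n, n < L → Δ n ≤ f * VL.Rep γ S n := fun n hn => by
    have := hge n hn
    simp only [hΔ]
    linarith
  have hΔc : Conv (Pw Δ) := by
    refine Conv.of_le (b := fun n => f * r A h n) (fun n => ?_) ?_
    · unfold Pw
      rw [PowerSeries.coeff_mk, Complex.norm_real, Real.norm_eq_abs, abs_of_nonneg (hΔ0 n)]
      exact hΔ1 n
    · intro ρ h0 h1
      simp only [mul_assoc]
      refine Summable.mul_left _ ((hR ρ h0 h1).congr fun n => ?_)
      unfold Pw
      rw [PowerSeries.coeff_mk, Complex.norm_real, Real.norm_eq_abs,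
        abs_of_nonneg (Nat.cast_nonneg _)]
  have hΔs : Summable fun n => Δ n * x ^ (2 * n) := by
    have := (hs1.mul_left f).sub hRsum
    refine this.congr fun n => ?_
    simp only [hΔ]
    ring
  have hΔs2 : Summable fun n => Δ n ^ 2 * x ^ (2 * n) := (pars_mu hΔc hx0 hx1).summable
  refine ⟨?_, ?_, ?_, Δ, hΔc, ?_, ?_⟩
  · rw [hM, ← hRs, ← tsum_mul_left]
    refine hRsum.tsum_le_tsum (fun n => ?_) (hs1.mul_left f)
    rw [← mul_assoc]
    exact mul_le_mul_of_nonneg_right (hle n) (by positivity)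
  · have h3 : f * ∑' n, (r A h n : ℝ) * x ^ (2 * n) =
        ∑' n, (Rn γ S n : ℝ) * x ^ (2 * n) + ∑' n, Δ n * x ^ (2 * n) := by
      rw [← tsum_mul_left, ← hRsum.tsum_add hΔs]
      refine tsum_congr fun n => ?_
      simp only [hΔ]
      ring
    rw [h3, hRs, ← hM]
    have h4 : ∑' n, Δ n * x ^ (2 * n) ≤ f * ((h : ℝ) ^ 2 *
        (∑ a ∈ S, x ^ (2 * a)) ^ (h - 1) + 1) := by
      rw [← hΔs.sum_add_tsum_nat_add L]
      have h5 : ∑ n ∈ range L, Δ n * x ^ (2 * n) ≤ f * ((h : ℝ) ^ 2 *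
          (∑ a ∈ S, x ^ (2 * a)) ^ (h - 1)) := by
        have h6 := noninj_le (γ := γ) S (x ^ 2) (by positivity) hx2.le h2
        have h7 := sum_Rep (γ := γ) S hH (fun n => (x ^ 2) ^ n)
        rw [h7] at h6
        simp only [← pow_mul] at h6
        rw [← hh] at h6
        calc ∑ n ∈ range L, Δ n * x ^ (2 * n)
            ≤ ∑ n ∈ range L, f * ((VL.Rep γ S n : ℝ) * x ^ (2 * n)) := by
              refine sum_le_sum fun n hn => ?_
              rw [← mul_assoc]
              exact mul_le_mul_of_nonneg_right (hΔ2 n (mem_range.1 hn)) (by positivity)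
          _ = f * ∑ n ∈ range L, (VL.Rep γ S n : ℝ) * x ^ (2 * n) := by rw [mul_sum]
          _ ≤ f * ∑ n ∈ range H, (VL.Rep γ S n : ℝ) * x ^ (2 * n) := by
              apply mul_le_mul_of_nonneg_left _ hf0.le
              exact sum_le_sum_of_subset_of_nonneg (range_subset_range.2 hLH)
                fun n _ _ => by positivity
          _ ≤ _ := mul_le_mul_of_nonneg_left h6 hf0.le
      have h8 : ∑' n, Δ (n + L) * x ^ (2 * (n + L)) ≤ f * 1 := by
        calc ∑' n, Δ (n + L) * x ^ (2 * (n + L))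
            ≤ ∑' n, f * ((r A h (n + L) : ℝ) * x ^ (2 * (n + L))) := by
              refine ((summable_nat_add_iff L).2 hΔs).tsum_le_tsum (fun n => ?_)
                (((summable_nat_add_iff L).2 hs1).mul_left f)
              rw [← mul_assoc]
              exact mul_le_mul_of_nonneg_right (hΔ1 _) (by positivity)
          _ = f * ∑' n, (r A h (n + L) : ℝ) * x ^ (2 * (n + L)) := tsum_mul_left
          _ ≤ f * 1 := mul_le_mul_of_nonneg_left hL1.le hf0.le
      linarith
    linarith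
  · rw [FF_zero_eq S hH, ← tsum_mul_left]
    have h3 : ∑ n ∈ range H, (Rn γ S n : ℝ) ^ 2 * x ^ (2 * n) ≤
        ∑ n ∈ range H, f ^ 2 * ((r A h n : ℝ) ^ 2 * x ^ (2 * n)) := by
      refine sum_le_sum fun n _ => ?_
      rw [← mul_assoc]
      apply mul_le_mul_of_nonneg_right _ (by positivity)
      rw [← mul_pow]
      have := hle n
      gcongr
    exact h3.trans ((hs2.mul_left (f ^ 2)).sum_le_tsum _ fun n _ => by positivity)
  · intro θ
    have hz : ‖circleMap 0 x θ‖ < 1 := by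
      rw [norm_circleMap_zero, abs_of_nonneg hx0]
      exact hx1
    rw [hh, ← ev_Rn S hH, ← hh]
    have hRc : Conv (Pw fun n => (Rn γ S n : ℝ)) := conv_fin fun n hn => by
      rw [Rn_zero S hH hn]
      simp
    rw [← ev_Pw_add hRc hΔc hz]
    have h3 := ev_Pw_mul (c := fun n => (r A h n : ℝ)) f (circleMap 0 x θ)
    have h4 : (f : ℂ) = (h.factorial : ℂ) := by rw [hf]; push_cast; rfl
    rw [h4] at h3
    rw [← h3]
    congr 2
    funext n
    simp only [hΔ]
    ring
  · rw [← hΔs2.sum_add_tsum_nat_add L, mul_add, mul_one]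
    apply add_le_add
    · calc ∑ n ∈ range L, Δ n ^ 2 * x ^ (2 * n)
          ≤ ∑ n ∈ range L, f ^ 2 * ((VL.Rep γ S n : ℝ) ^ 2 * x ^ (2 * n)) := by
            refine sum_le_sum fun n hn => ?_
            rw [← mul_assoc]
            apply mul_le_mul_of_nonneg_right _ (by positivity)
            rw [← mul_pow]
            have h3 := hΔ2 n (mem_range.1 hn)
            have h4 := hΔ0 n
            gcongr
        _ = f ^ 2 * ∑ n ∈ range L, (VL.Rep γ S n : ℝ) ^ 2 * x ^ (2 * n) := by rw [mul_sum]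
        _ ≤ f ^ 2 * ∑ n ∈ range H, (VL.Rep γ S n : ℝ) ^ 2 * x ^ (2 * n) := by
            apply mul_le_mul_of_nonneg_left _ (by positivity)
            exact sum_le_sum_of_subset_of_nonneg (range_subset_range.2 hLH)
              fun n _ _ => by positivity
    · calc ∑' n, Δ (n + L) ^ 2 * x ^ (2 * (n + L))
          ≤ ∑' n, f ^ 2 * ((r A h (n + L) : ℝ) ^ 2 * x ^ (2 * (n + L))) := by
            refine ((summable_nat_add_iff L).2 hΔs2).tsum_le_tsum (fun n => ?_)
              (((summable_nat_add_iff L).2 hs2).mul_left (f ^ 2))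
            rw [← mul_assoc]
            apply mul_le_mul_of_nonneg_right _ (by positivity)
            rw [← mul_pow]
            have h3 := hΔ1 (n + L)
            have h4 := hΔ0 (n + L)
            gcongr
        _ = f ^ 2 * ∑' n, (r A h (n + L) : ℝ) ^ 2 * x ^ (2 * (n + L)) := tsum_mul_left
        _ ≤ f ^ 2 * 1 := mul_le_mul_of_nonneg_left hL2.le (by positivity)
        _ = f ^ 2 := mul_one _

end Run7.h326.SP
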