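import Pool.Agent.Run7.h326.SP5

set_option autoImplicit false

open Finset MeasureTheory Pool.Agent.H303R3 Filter Topology
open scoped ComplexConjugate

namespace Run7.h326.SP

open Run7.h326.VL
open Pool.Agent.H303R3.ET (Pw conv_Pw Pw_add abel_le)

theorem radial_at {p q h : ℕ} (hpq : p + q = h) (hh : 2 ≤ h) (A : Set ℕ) {x : ℝ} (hx0 : 0 ≤ x)
    (hx1 : x < 1) (hR : Conv (Pw fun n => (r A h n : ℝ))) {B₁ ε η κ lam δ₀ M₀ f C C₂ mix : ℝ}
    (hf : f = (h.factorial : ℝ)) (hC : C = 4 ^ (cross (Fin p) (Fin q)).card)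
    (hC₂ : C₂ = f ^ 2 * ((h : ℝ) ^ 4 * (1 + 2 * B₁) + 1))
    (hmix : mix = ((mixing (Fin p) (Fin q)).card : ℝ))
    (hB₁ : 0 ≤ B₁) (hε : 0 < ε) (hε1 : ε ≤ 1) (hη : 0 < η) (hηε : η ≤ ε) (hηB : η * B₁ ≤ ε)
    (hκ0 : 0 ≤ κ) (hκ1 : κ ≤ 1) (hκ : κ * f + (4 + 3 * f) * ε ≤ mix)
    (hlam1 : 1 ≤ lam) (hlam : (1 + 1 / η) * C * B₁ ≤ ε * lam)
    (hδ₀ : (1 + 1 / η) * C * lam ^ h * δ₀ ≤ ε)
    (hM₀ : 1 ≤ M₀) (hM₁ : mix * (h : ℝ) ^ 2 + (1 + 1 / η) * C₂ ≤ ε * M₀)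
    (hM₂ : f * ((h : ℝ) ^ 2 + 1) ≤ ε * M₀) (L₀ : ℕ) (hL : M₀ ≤ ∑ a ∈ cut A L₀, x ^ (2 * a))
    (hs : f ^ 2 * ∑' n, (r A h n : ℝ) ^ 2 * x ^ (2 * n) ≤
      B₁ * (∑ a ∈ cut A L₀, x ^ (2 * a)) ^ h)
    (E : Set ℝ) (hE : MeasurableSet E) (hμ : mu.real E ≤ δ₀) :
    κ * ∑' n, (r A h n : ℝ) * x ^ (2 * n) ≤
      ∫ θ in Eᶜ, ‖ev (Pw fun n => (r A h n : ℝ)) (circleMap 0 x θ)‖ ^ 2 ∂mu := by
  have hcard : Fintype.card (Fin p ⊕ Fin q) = h := by simp [hpq]
  have hcard' : Fintype.card (Fin p) + Fintype.card (Fin q) = h := by simp [hpq]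
  have htr := trunc (Fin p ⊕ Fin q) (by rw [hcard]; exact hh) A x hx0 hx1
    (by rw [hcard]; exact hR) L₀
  rw [hcard] at htr
  rw [← hf] at htr
  obtain ⟨L, hLL, -, hm, hFF, Δ, hΔc, hΔe, hΔs⟩ := htr
  set S := cut A L with hS
  set M := ∑ a ∈ S, x ^ (2 * a) with hM
  have hsub : cut A L₀ ⊆ S := by
    intro a ha
    rw [mem_cut] at ha
    exact mem_cut.2 ⟨by omega, ha.2⟩
  have hML : ∑ a ∈ cut A L₀, x ^ (2 * a) ≤ M :=
    sum_le_sum_of_subset_of_nonneg hsub fun a _ _ => by positivity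
  have hMM₀ : M₀ ≤ M := hL.trans hML
  have hM1 : 1 ≤ M := hM₀.trans hMM₀
  have hM0 : 0 < M := by linarith
  set b := FF (Fin p ⊕ Fin q) S x 0 0 with hb
  have hf0 : 0 < f := by rw [hf]; positivity
  have hbB : b ≤ B₁ * M ^ h := by
    refine hFF.trans (hs.trans ?_)
    have h0 : 0 ≤ ∑ a ∈ cut A L₀, x ^ (2 * a) := sum_nonneg fun a _ => by positivity
    gcongr
  have hb0 : 0 ≤ b := by
    rw [hb]
    unfold FF
    refine sum_nonneg fun c _ => sum_nonneg fun e _ => ?_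
    split_ifs
    · positivity
    · exact le_rfl
  have hpow : M ^ h = M * M ^ (h - 1) := by
    rw [← pow_succ']
    congr 1
    omega
  have hP1 : 1 ≤ M ^ (h - 1) := one_le_pow₀ hM1
  have hP0 : 0 < M ^ (h - 1) := by linarith
  have hC0 : 0 < C := by rw [hC]; positivity
  have hη1 : 0 < 1 + 1 / η := by positivity
  have hmix0 : 0 ≤ mix := by rw [hmix]; positivity
  -- the core inequality
  have hcore := core_set (Fin p) (Fin q) S x hx0 hx1.le hM1 E hE η lam hη hlam1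
  rw [hcard', ← hmix, ← hC, ← hb, ← hM] at hcore
  have hinj := inj_ge (Fin p ⊕ Fin q) S x hx0 hx1.le (by rw [hcard]; exact hh)
  rw [hcard, ← hM] at hinj
  have h1 := mul_le_mul_of_nonneg_left hinj hmix0
  have h2 : η * b ≤ ε * M ^ h := by
    calc η * b ≤ η * (B₁ * M ^ h) := by gcongr
      _ = η * B₁ * M ^ h := by ring
      _ ≤ ε * M ^ h := by gcongr
  have h3 : (1 + 1 / η) * (C * (lam ^ h * M ^ h * mu.real E + b / lam)) ≤
      ε * M ^ h + ε * M ^ h := by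
    have h4 : (1 + 1 / η) * (C * (lam ^ h * M ^ h * mu.real E + b / lam)) =
        (1 + 1 / η) * C * lam ^ h * mu.real E * M ^ h + (1 + 1 / η) * C * b / lam := by ring
    rw [h4]
    apply add_le_add
    · apply mul_le_mul_of_nonneg_right _ (by positivity)
      refine le_trans ?_ hδ₀
      apply mul_le_mul_of_nonneg_left hμ
      positivity
    · rw [div_le_iff₀ (by linarith)]
      calc (1 + 1 / η) * C * b ≤ (1 + 1 / η) * C * (B₁ * M ^ h) := by gcongr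
        _ = ((1 + 1 / η) * C * B₁) * M ^ h := by ring
        _ ≤ (ε * lam) * M ^ h := by gcongr
        _ = ε * M ^ h * lam := by ring
  -- the error
  have hrep := rep_sq (γ := Fin p ⊕ Fin q) S (H := Fintype.card (Fin p ⊕ Fin q) * L + 1)
    (cut_lt A L) x hx0 hx1.le (by linarith) (by rw [hcard]; exact hh)
  rw [hcard, ← hM, ← hb] at hrep
  have hΔb : ∑' n, Δ n ^ 2 * x ^ (2 * n) ≤ C₂ * M ^ (h - 1) := by
    refine hΔs.trans ?_
    rw [hC₂, mul_assoc]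
    apply mul_le_mul_of_nonneg_left _ (by positivity)
    have h5 : b / M ≤ B₁ * M ^ (h - 1) := by
      rw [div_le_iff₀ hM0]
      refine hbB.trans (le_of_eq ?_)
      rw [hpow]
      ring
    have h6 : (h : ℝ) ^ 4 * (M ^ (h - 1) + 2 * b / M) ≤
        (h : ℝ) ^ 4 * (M ^ (h - 1) + 2 * (B₁ * M ^ (h - 1))) := by
      rw [mul_div_assoc]
      gcongr
    nlinarith
  -- comparison of the two functions
  set I := ∫ θ in Eᶜ, ‖ev (Pw fun n => (r A h n : ℝ)) (circleMap 0 x θ)‖ ^ 2 ∂mu with hI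
  have hIle : ∫ θ in Eᶜ, ‖Ph S x θ‖ ^ (2 * h) ∂mu ≤
      (1 + η) * (f ^ 2 * I) + (1 + 1 / η) * (C₂ * M ^ (h - 1)) := by
    have hp : ∀ θ, ‖Ph S x θ‖ ^ (2 * h) ≤ (1 + η) * f ^ 2 *
        ‖ev (Pw fun n => (r A h n : ℝ)) (circleMap 0 x θ)‖ ^ 2 +
        (1 + 1 / η) * ‖ev (Pw Δ) (circleMap 0 x θ)‖ ^ 2 := by
      intro θ
      have h5 := norm_add_sq_le ((h.factorial : ℂ) *
        ev (Pw fun n => (r A h n : ℝ)) (circleMap 0 x θ)) (-ev (Pw Δ) (circleMap 0 x θ)) hη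
      rw [hΔe θ, add_neg_cancel_right, norm_neg, ← hΔe θ, norm_mul, Complex.norm_natCast, ← hf,
        norm_pow, ← pow_mul, mul_pow, mul_comm h 2] at h5
      linarith
    have i1 : Integrable (fun θ => ‖ev (Pw fun n => (r A h n : ℝ)) (circleMap 0 x θ)‖ ^ 2) mu :=
      integrable_cont ((ev_cont hR hx0 hx1).norm.pow 2)
    have i2 : Integrable (fun θ => ‖ev (Pw Δ) (circleMap 0 x θ)‖ ^ 2) mu :=
      integrable_cont ((ev_cont hΔc hx0 hx1).norm.pow 2)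
    have j1 : Integrable (fun θ => (1 + η) * f ^ 2 *
        ‖ev (Pw fun n => (r A h n : ℝ)) (circleMap 0 x θ)‖ ^ 2) (mu.restrict Eᶜ) :=
      (i1.integrableOn).const_mul _
    have j2 : Integrable (fun θ => (1 + 1 / η) * ‖ev (Pw Δ) (circleMap 0 x θ)‖ ^ 2)
        (mu.restrict Eᶜ) := (i2.integrableOn).const_mul _
    calc _ ≤ ∫ θ in Eᶜ, ((1 + η) * f ^ 2 *
          ‖ev (Pw fun n => (r A h n : ℝ)) (circleMap 0 x θ)‖ ^ 2 +
          (1 + 1 / η) * ‖ev (Pw Δ) (circleMap 0 x θ)‖ ^ 2) ∂mu := by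
          refine integral_mono_of_nonneg (Filter.Eventually.of_forall fun θ => by positivity)
            (j1.add j2) (Filter.Eventually.of_forall hp)
      _ = (1 + η) * (f ^ 2 * I) + (1 + 1 / η) *
          ∫ θ in Eᶜ, ‖ev (Pw Δ) (circleMap 0 x θ)‖ ^ 2 ∂mu := by
          rw [integral_add j1 j2, integral_const_mul, integral_const_mul, mul_assoc]
      _ ≤ _ := by
          have h7 : ∫ θ in Eᶜ, ‖ev (Pw Δ) (circleMap 0 x θ)‖ ^ 2 ∂mu ≤ C₂ * M ^ (h - 1) := by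
            refine (setIntegral_le_integral i2
              (Filter.Eventually.of_forall fun θ => by positivity)).trans ?_
            rw [← (pars_mu hΔc hx0 hx1).tsum_eq]
            exact hΔb
          have := mul_le_mul_of_nonneg_left h7 hη1.le
          linarith
  -- the final computation
  have hkey : (mix - 4 * ε) * M ^ h ≤ (1 + η) * (f ^ 2 * I) := by
    have h8 : (mix * (h : ℝ) ^ 2 + (1 + 1 / η) * C₂) * M ^ (h - 1) ≤ ε * M ^ h := by
      calc (mix * (h : ℝ) ^ 2 + (1 + 1 / η) * C₂) * M ^ (h - 1) ≤ (ε * M) * M ^ (h - 1) := by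
            apply mul_le_mul_of_nonneg_right _ hP0.le
            refine hM₁.trans ?_
            gcongr
        _ = ε * M ^ h := by rw [hpow]; ring
    nlinarith
  have hm2 : f * ∑' n, (r A h n : ℝ) * x ^ (2 * n) ≤ (1 + ε) * M ^ h := by
    refine hm.trans ?_
    have h9 : f * ((h : ℝ) ^ 2 * M ^ (h - 1) + 1) ≤ ε * M ^ h := by
      calc f * ((h : ℝ) ^ 2 * M ^ (h - 1) + 1) ≤ f * ((h : ℝ) ^ 2 * M ^ (h - 1) +
            M ^ (h - 1)) := by gcongr
        _ = (f * ((h : ℝ) ^ 2 + 1)) * M ^ (h - 1) := by ring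
        _ ≤ (ε * M) * M ^ (h - 1) := by
            apply mul_le_mul_of_nonneg_right _ hP0.le
            refine hM₂.trans ?_
            gcongr
        _ = ε * M ^ h := by rw [hpow]; ring
    linarith
  set m := ∑' n, (r A h n : ℝ) * x ^ (2 * n) with hmdef
  have hMh : 0 < M ^ h := by positivity
  have h10 : (1 + η) * (f ^ 2 * (κ * m)) ≤ (1 + η) * (f ^ 2 * I) := by
    refine le_trans ?_ hkey
    calc (1 + η) * (f ^ 2 * (κ * m)) = (1 + η) * (f * κ) * (f * m) := by ring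
      _ ≤ (1 + η) * (f * κ) * ((1 + ε) * M ^ h) := by gcongr
      _ ≤ (1 + ε) * (f * κ) * ((1 + ε) * M ^ h) := by gcongr
      _ = (κ * f * (1 + ε) ^ 2) * M ^ h := by ring
      _ ≤ (mix - 4 * ε) * M ^ h := by
          apply mul_le_mul_of_nonneg_right _ hMh.le
          have h11 : (1 + ε) ^ 2 ≤ 1 + 3 * ε := by nlinarith
          have h12 : κ * f * (1 + ε) ^ 2 ≤ κ * f * (1 + 3 * ε) := by gcongr
          have h13 : κ * f * (3 * ε) ≤ 1 * f * (3 * ε) := by gcongr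
          nlinarith
  have h14 : 0 < (1 + η) * f ^ 2 := by positivity
  nlinarith [le_of_mul_le_mul_left (by linarith : ((1 + η) * f ^ 2) * (κ * m) ≤
    ((1 + η) * f ^ 2) * I) h14]

end Run7.h326.SP
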