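import Pool.Agent.Run7.h326.SP6

set_option autoImplicit false

open Finset MeasureTheory Pool.Agent.H303R3 Filter Topology
open scoped ComplexConjugate

namespace Run7.h326.SP

open Run7.h326.VL
open Pool.Agent.H303R3.ET (Pw conv_Pw Pw_add abel_le tendsto_T)

theorem conv_r {A : Set ℕ} {h : ℕ} {B D : ℝ} (hB : 0 ≤ B)
    (hs : ∀ N : ℕ, ∑ n ∈ range N, (r A h n : ℝ) ^ 2 ≤ B * N + D) :
    Conv (Pw fun n => (r A h n : ℝ)) := by
  refine conv_Pw (D := B + |D|) fun n => ?_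
  rw [abs_of_nonneg (Nat.cast_nonneg _)]
  have h1 := hs (n + 1)
  have h2 : (r A h n : ℝ) ^ 2 ≤ ∑ m ∈ range (n + 1), (r A h m : ℝ) ^ 2 :=
    single_le_sum (f := fun m => (r A h m : ℝ) ^ 2) (fun _ _ => sq_nonneg _)
      (mem_range.2 (Nat.lt_succ_self n))
  have h3 : (r A h n : ℝ) ≤ (r A h n : ℝ) ^ 2 := by
    have : r A h n ≤ r A h n ^ 2 := Nat.le_self_pow two_ne_zero _
    exact_mod_cast this
  push_cast at h1
  have h4 := le_abs_self D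
  have hn : (0 : ℝ) ≤ n := Nat.cast_nonneg n
  have h5 : 0 ≤ |D| := abs_nonneg D
  nlinarith [mul_nonneg hB hn, mul_nonneg h5 hn, mul_nonneg hB (mul_nonneg hn hn),
    mul_nonneg h5 (mul_nonneg hn hn)]

/-- the choice of the constant -/
theorem mix_gt {h : ℕ} (hh : 2 ≤ h) {κ : ℝ} (hκ : κ < 1 - 1 / (h.choose (h / 2) : ℝ)) :
    κ * (h.factorial : ℝ) < ((mixing (Fin (h - h / 2)) (Fin (h / 2))).card : ℝ) := by
  have h1 := card_mixing (Fin (h - h / 2)) (Fin (h / 2))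
  simp only [Fintype.card_fin] at h1
  have h2 : h - h / 2 + h / 2 = h := by omega
  rw [h2] at h1
  have h3 := Nat.choose_mul_factorial_mul_factorial (Nat.div_le_self h 2)
  have hc : 0 < h.choose (h / 2) := Nat.choose_pos (Nat.div_le_self h 2)
  have h4 : (h.factorial : ℝ) ≤ ((mixing (Fin (h - h / 2)) (Fin (h / 2))).card : ℝ) +
      ((h - h / 2).factorial * (h / 2).factorial : ℝ) := by exact_mod_cast h1
  have h5 : (h.choose (h / 2) : ℝ) * ((h - h / 2).factorial * (h / 2).factorial : ℝ) =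
      (h.factorial : ℝ) := by
    rw [← h3]
    push_cast
    ring
  have hc' : (0 : ℝ) < (h.choose (h / 2) : ℝ) := by exact_mod_cast hc
  have hf0 : (0 : ℝ) < (h.factorial : ℝ) := by positivity
  have h6 : ((h - h / 2).factorial * (h / 2).factorial : ℝ) =
      1 / (h.choose (h / 2) : ℝ) * (h.factorial : ℝ) := by
    rw [← h5]
    field_simp
  rw [h6] at h4
  nlinarith

theorem choose_two {h : ℕ} (hh : 2 ≤ h) : (0 : ℝ) < 1 - 1 / (h.choose (h / 2) : ℝ) := by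
  have h1 : 2 ≤ h.choose (h / 2) := by
    have h2 : h.choose 1 ≤ h.choose (h / 2) := Nat.choose_le_middle 1 h
    rw [Nat.choose_one_right] at h2
    omega
  have h3 : (2 : ℝ) ≤ (h.choose (h / 2) : ℝ) := by exact_mod_cast h1
  have h4 : 1 / (h.choose (h / 2) : ℝ) ≤ 1 / 2 := by gcongr
  linarith

/-- the lower bound for the sum over the elements -/
theorem M_low {A : Set ℕ} {c : ℝ} {h N₀ : ℕ} (hc : 0 < c)
    (hA : ∀ N, N₀ ≤ N → c * N ≤ ((cut A N).card : ℝ) ^ h) {x T : ℝ} (hx0 : 0 ≤ x) (hx1 : x < 1)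
    (hT : T = (1 - x ^ 2)⁻¹) (hT4 : 4 ≤ T) (hTN : 2 * (N₀ + 1 : ℝ) ≤ T) :
    c / (4 * 2 ^ h) * T ≤ (∑ a ∈ cut A ⌊T / 2⌋₊, x ^ (2 * a)) ^ h := by
  set N := ⌊T / 2⌋₊ with hN
  have h1 : (N : ℝ) ≤ T / 2 := Nat.floor_le (by linarith)
  have h2 : T / 2 < N + 1 := Nat.lt_floor_add_one _
  have h3 : N₀ ≤ N := by
    have : (N₀ : ℝ) < N + 1 := by linarith
    have h4 : N₀ < N + 1 := by exact_mod_cast this
    omega
  have hx2 : 0 < 1 - x ^ 2 := by nlinarith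
  have hT0 : 0 < T := by linarith
  have h5 : (1 : ℝ) / 2 ≤ (x ^ 2) ^ N := by
    have h6 := one_add_mul_le_pow (a := x ^ 2 - 1) (by nlinarith) N
    have h7 : (N : ℝ) * (1 - x ^ 2) ≤ 1 / 2 := by
      calc (N : ℝ) * (1 - x ^ 2) ≤ (T / 2) * (1 - x ^ 2) := by gcongr
        _ = 1 / 2 := by
            rw [hT]
            field_simp
    have h8 : (1 : ℝ) + (x ^ 2 - 1) = x ^ 2 := by ring
    rw [h8] at h6
    linarith
  have h9 : ((cut A N).card : ℝ) / 2 ≤ ∑ a ∈ cut A N, x ^ (2 * a) := by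
    calc ((cut A N).card : ℝ) / 2 = ∑ a ∈ cut A N, (1 / 2 : ℝ) := by
          rw [sum_const, nsmul_eq_mul]
          ring
      _ ≤ ∑ a ∈ cut A N, x ^ (2 * a) := by
          refine sum_le_sum fun a ha => ?_
          rw [pow_mul]
          refine h5.trans ?_
          exact pow_le_pow_of_le_one (by positivity) (by nlinarith) (mem_cut.1 ha).1.le
  calc c / (4 * 2 ^ h) * T = (c * (T / 4)) / 2 ^ h := by ring
    _ ≤ (c * N) / 2 ^ h := by
        have : T / 4 ≤ N := by linarith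
        gcongr
    _ ≤ ((cut A N).card : ℝ) ^ h / 2 ^ h := by
        have := hA N h3
        gcongr
    _ = (((cut A N).card : ℝ) / 2) ^ h := by rw [div_pow]
    _ ≤ _ := by gcongr

/-- The part of the mass of the generating function of `r` outside of small sets. -/
theorem radial (h : ℕ) (hh : 2 ≤ h) (c B κ : ℝ) (hc : 0 < c) (hB : 0 ≤ B)
    (hκ : κ < 1 - 1 / (h.choose (h / 2) : ℝ)) :
    ∃ δ₀ : ℝ, 0 < δ₀ ∧ ∃ c₃ : ℝ, 0 < c₃ ∧ ∀ (A : Set ℕ) (D : ℝ) (N₀ : ℕ),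
      (∀ N, N₀ ≤ N → c * N ≤ ((cut A N).card : ℝ) ^ h) →
      (∀ N : ℕ, ∑ n ∈ range N, (r A h n : ℝ) ^ 2 ≤ B * N + D) →
      ∀ᶠ x : ℝ in 𝓝[<] 1, c₃ * (1 - x ^ 2)⁻¹ ≤ ∑' n, (r A h n : ℝ) * x ^ (2 * n) ∧
        ∀ E : Set ℝ, MeasurableSet E → mu.real E ≤ δ₀ →
          κ * ∑' n, (r A h n : ℝ) * x ^ (2 * n) ≤
            ∫ θ in Eᶜ, ‖ev (Pw fun n => (r A h n : ℝ)) (circleMap 0 x θ)‖ ^ 2 ∂mu := by
  set κ' := max κ 0 with hκ'
  have hκ'0 : 0 ≤ κ' := le_max_right _ _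
  have hκκ : κ ≤ κ' := le_max_left _ _
  have hκ'1 : κ' < 1 - 1 / (h.choose (h / 2) : ℝ) := max_lt hκ (choose_two hh)
  have hκ'2 : κ' ≤ 1 := by
    have : 0 ≤ 1 / (h.choose (h / 2) : ℝ) := by positivity
    linarith
  set f : ℝ := (h.factorial : ℝ) with hf
  have hf0 : 0 < f := by rw [hf]; positivity
  set mix : ℝ := ((mixing (Fin (h - h / 2)) (Fin (h / 2))).card : ℝ) with hmix
  have hmk : κ' * f < mix := mix_gt hh hκ'1
  have hmix0 : 0 ≤ mix := by rw [hmix]; positivity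
  set ε : ℝ := min 1 ((mix - κ' * f) / (4 + 3 * f)) with hε
  have hε0 : 0 < ε := lt_min one_pos (div_pos (by linarith) (by linarith))
  have hε1 : ε ≤ 1 := min_le_left _ _
  have hεm : κ' * f + (4 + 3 * f) * ε ≤ mix := by
    have h1 : ε ≤ (mix - κ' * f) / (4 + 3 * f) := min_le_right _ _
    rw [le_div_iff₀ (by linarith)] at h1
    linarith
  set c₃' : ℝ := c / (4 * 2 ^ h) with hc₃'
  have hc₃0 : 0 < c₃' := by rw [hc₃']; positivity
  set B₁ : ℝ := f ^ 2 * (B + 1) / c₃' with hB₁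
  have hB₁0 : 0 ≤ B₁ := by rw [hB₁]; positivity
  set η : ℝ := ε / (B₁ + 1) with hη
  have hη0 : 0 < η := by rw [hη]; positivity
  have hηε : η ≤ ε := div_le_self hε0.le (by linarith)
  have hηB : η * B₁ ≤ ε := by
    rw [hη, div_mul_eq_mul_div, div_le_iff₀ (by linarith)]
    nlinarith
  set C : ℝ := 4 ^ (cross (Fin (h - h / 2)) (Fin (h / 2))).card with hC
  have hC0 : 0 < C := by rw [hC]; positivity
  set C₂ : ℝ := f ^ 2 * ((h : ℝ) ^ 4 * (1 + 2 * B₁) + 1) with hC₂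
  have hC₂0 : 0 ≤ C₂ := by rw [hC₂]; positivity
  have hη1 : 0 < 1 + 1 / η := by positivity
  set lam : ℝ := 1 + (1 + 1 / η) * C * B₁ / ε with hlam
  have hlam1 : 1 ≤ lam := by
    have : 0 ≤ (1 + 1 / η) * C * B₁ / ε := by positivity
    linarith
  have hlam2 : (1 + 1 / η) * C * B₁ ≤ ε * lam := by
    have : ε * lam = ε + (1 + 1 / η) * C * B₁ := by
      rw [hlam]
      field_simp
    linarith
  set δ₀ : ℝ := ε / ((1 + 1 / η) * C * lam ^ h) with hδ₀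
  have hden : 0 < (1 + 1 / η) * C * lam ^ h := by positivity
  have hδ₀0 : 0 < δ₀ := div_pos hε0 hden
  have hδ₀1 : (1 + 1 / η) * C * lam ^ h * δ₀ ≤ ε := by
    rw [hδ₀, mul_div_cancel₀ _ hden.ne']
  set M₀ : ℝ := 1 + (mix * (h : ℝ) ^ 2 + (1 + 1 / η) * C₂ + f * ((h : ℝ) ^ 2 + 1)) / ε with hM₀
  have hε' : ε * M₀ = ε + (mix * (h : ℝ) ^ 2 + (1 + 1 / η) * C₂ + f * ((h : ℝ) ^ 2 + 1)) := by
    rw [hM₀]
    field_simp
  have p1 : 0 ≤ mix * (h : ℝ) ^ 2 := by positivity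
  have p2 : 0 ≤ (1 + 1 / η) * C₂ := by positivity
  have p3 : 0 ≤ f * ((h : ℝ) ^ 2 + 1) := by positivity
  have hM₀1 : 1 ≤ M₀ := by
    have : 0 ≤ (mix * (h : ℝ) ^ 2 + (1 + 1 / η) * C₂ + f * ((h : ℝ) ^ 2 + 1)) / ε := by positivity
    linarith
  have hM₁ : mix * (h : ℝ) ^ 2 + (1 + 1 / η) * C₂ ≤ ε * M₀ := by linarith
  have hM₂ : f * ((h : ℝ) ^ 2 + 1) ≤ ε * M₀ := by linarith
  refine ⟨δ₀, hδ₀0, c₃' / f, div_pos hc₃0 hf0, fun A D N₀ hA hs => ?_⟩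
  have hR := conv_r hB hs
  have hT := tendsto_T
  have hIoo : ∀ᶠ x : ℝ in 𝓝[<] 1, x ∈ Set.Ioo (0 : ℝ) 1 :=
    Ioo_mem_nhdsLT (show (0 : ℝ) < 1 by norm_num)
  filter_upwards [hIoo, hT.eventually_ge_atTop 4, hT.eventually_ge_atTop (2 * (N₀ + 1 : ℝ)),
    hT.eventually_ge_atTop D, hT.eventually_ge_atTop (M₀ ^ h / c₃')] with x hx hT4 hTN hTD hTM
  obtain ⟨hx0, hx1⟩ := hx
  set T : ℝ := (1 - x ^ 2)⁻¹ with hTdef
  have hlow := M_low hc hA hx0.le hx1 hTdef hT4 hTN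
  rw [← hc₃'] at hlow
  set L₀ := ⌊T / 2⌋₊ with hL₀
  set M := ∑ a ∈ cut A L₀, x ^ (2 * a) with hM
  have hM0 : 0 ≤ M := sum_nonneg fun a _ => by positivity
  have hMM : M₀ ≤ M := by
    have h1 : M₀ ^ h ≤ M ^ h := by
      rw [div_le_iff₀ hc₃0] at hTM
      linarith
    exact le_of_pow_le_pow_left₀ (by omega) hM0 h1
  have hx2 : x ^ 2 < 1 := by nlinarith
  have hs2 : ∑' n, (r A h n : ℝ) ^ 2 * x ^ (2 * n) ≤ B * T + D := by
    have hsum := (pars_mu hR hx0.le hx1).summable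
    simp only [pow_mul] at hsum ⊢
    exact abel_le (by positivity) hx2 hsum hs
  have hs3 : f ^ 2 * ∑' n, (r A h n : ℝ) ^ 2 * x ^ (2 * n) ≤ B₁ * M ^ h := by
    calc f ^ 2 * ∑' n, (r A h n : ℝ) ^ 2 * x ^ (2 * n) ≤ f ^ 2 * (B * T + D) := by gcongr
      _ ≤ f ^ 2 * (B * T + T) := by gcongr
      _ = B₁ * (c₃' * T) := by
          rw [hB₁]
          field_simp
      _ ≤ B₁ * M ^ h := by gcongr
  have hmlow : c₃' / f * T ≤ ∑' n, (r A h n : ℝ) * x ^ (2 * n) := by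
    have hcard : Fintype.card (Fin h) = h := Fintype.card_fin h
    obtain ⟨L, hLL, hLm, -⟩ := trunc (Fin h) (by rw [hcard]; exact hh) A x hx0.le hx1
      (by rw [hcard]; exact hR) L₀
    rw [hcard, ← hf] at hLm
    have hsub : cut A L₀ ⊆ cut A L := by
      intro a ha
      rw [mem_cut] at ha
      exact mem_cut.2 ⟨by omega, ha.2⟩
    have hML : M ≤ ∑ a ∈ cut A L, x ^ (2 * a) :=
      sum_le_sum_of_subset_of_nonneg hsub fun a _ _ => by positivity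
    rw [div_mul_eq_mul_div, div_le_iff₀ hf0]
    calc c₃' * T ≤ M ^ h := hlow
      _ ≤ (∑ a ∈ cut A L, x ^ (2 * a)) ^ h := by gcongr
      _ ≤ _ := by linarith
  refine ⟨hmlow, fun E hE hμ => ?_⟩
  have hm0 : 0 ≤ ∑' n, (r A h n : ℝ) * x ^ (2 * n) := tsum_nonneg fun n => by positivity
  refine (mul_le_mul_of_nonneg_right hκκ hm0).trans ?_
  exact radial_at (p := h - h / 2) (q := h / 2) (by omega) hh A hx0.le hx1 hR hf hC hC₂ hmix hB₁0
    hε0 hε1 hη0 hηε hηB hκ'0 hκ'2 hεm hlam1 hlam2 hδ₀1 hM₀1 hM₁ hM₂ L₀ hMM hs3 E hE hμ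

end Run7.h326.SP
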