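import Pool.Agent.Run7.h326.SP7

set_option autoImplicit false

open Finset MeasureTheory Pool.Agent.H303R3 Filter Topology
open scoped ComplexConjugate

namespace Run7.h326.SP

open Run7.h326.VL
open Pool.Agent.H303R3.ET (Pw conv_Pw Pw_add abel_le tendsto_T ev_bound Conc mu_le)

theorem mu_real_le {V : Set ℝ} {ε : ℝ} (hε : 0 ≤ ε) (hV : volume V ≤ ENNReal.ofReal ε) :
    mu.real V ≤ ε := by
  have h1 : mu V ≤ ENNReal.ofReal ε := (mu_le V).trans hV
  exact ENNReal.toReal_le_of_le_ofReal hε h1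

theorem int_compl_le {f : ℝ → ℝ} (hf : ∀ θ, 0 ≤ f θ) {V : Set ℝ} (hV : MeasurableSet V) :
    ∫ θ in Vᶜ, f θ ∂mu ≤ ∫ θ in Set.Ioc 0 (2 * Real.pi) \ V, f θ := by
  have hpi : (0 : ℝ) < 2 * Real.pi := by positivity
  unfold mu
  rw [Measure.restrict_smul, integral_smul_measure, Measure.restrict_restrict hV.compl,
    ENNReal.toReal_inv, ENNReal.toReal_ofReal hpi.le, smul_eq_mul]
  have hset : Vᶜ ∩ Set.Ioc 0 (2 * Real.pi) = Set.Ioc 0 (2 * Real.pi) \ V := by
    ext x
    simp only [Set.mem_inter_iff, Set.mem_compl_iff, Set.mem_sdiff]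
    tauto
  rw [hset]
  have h1 : 0 ≤ ∫ θ in Set.Ioc 0 (2 * Real.pi) \ V, f θ := integral_nonneg fun θ => hf θ
  have h2 : (2 * Real.pi)⁻¹ ≤ 1 := by
    apply inv_le_one_of_one_le₀
    have := Real.pi_gt_three
    linarith
  calc _ ≤ 1 * ∫ θ in Set.Ioc 0 (2 * Real.pi) \ V, f θ := by gcongr
    _ = _ := one_mul _

/-- The representation function is not close to functions with concentrated generating function. -/
theorem sing_main {h : ℕ} (hh : 2 ≤ h) {A : Set ℕ} {c : ℝ} (hc : 0 < c)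
    (hA : ∀ᶠ N : ℕ in atTop, c * N ≤ ((cut A N).card : ℝ) ^ h) {P : ℕ → ℝ} (hP : Conc P) {κ : ℝ}
    (hκ : κ < 1 - 1 / (h.choose (h / 2) : ℝ))
    (hd : ∀ᶠ N : ℕ in atTop, ∑ n ∈ range N, ((r A h n : ℝ) - P n) ^ 2 ≤
      κ * ∑ n ∈ range N, (r A h n : ℝ))
    {B : ℝ} (hB : ∀ᶠ N : ℕ in atTop, ∑ n ∈ range N, (r A h n : ℝ) ^ 2 ≤ B * N) : False := by
  set κs := 1 - 1 / (h.choose (h / 2) : ℝ) with hκs
  set κ' := max κ 0 with hκ'
  have hκ'0 : 0 ≤ κ' := le_max_right _ _
  have hκκ : κ ≤ κ' := le_max_left _ _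
  have hκ'1 : κ' < κs := max_lt hκ (choose_two hh)
  have hκs1 : κs ≤ 1 := by
    have : 0 ≤ 1 / (h.choose (h / 2) : ℝ) := by positivity
    linarith
  set κ₁ := (κ' + κs) / 2 with hκ₁
  set d := κ₁ - κ' with hd'
  have hd0 : 0 < d := by rw [hd', hκ₁]; linarith
  have hκ₁s : κ₁ < κs := by rw [hκ₁]; linarith
  set B' := max B 0 with hB'
  have hB0 : 0 ≤ B' := le_max_right _ _
  have hBB : B ≤ B' := le_max_left _ _
  obtain ⟨D1, hD10, hD1⟩ := ev_bound (c := fun n => ((r A h n : ℝ) - P n) ^ 2 - κ' * r A h n)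
    (B := 0) (by
      filter_upwards [hd] with N hN
      rw [sum_sub_distrib, ← mul_sum, zero_mul]
      have h1 : 0 ≤ ∑ n ∈ range N, (r A h n : ℝ) := sum_nonneg fun _ _ => Nat.cast_nonneg _
      nlinarith)
  obtain ⟨D2, hD20, hD2⟩ := ev_bound (c := fun n => (r A h n : ℝ) ^ 2) (B := B')
    (by
      filter_upwards [hB] with N hN
      exact hN.trans (by gcongr))
  obtain ⟨N₀, hN₀⟩ := eventually_atTop.1 hA
  obtain ⟨δ₀, hδ₀, c₃, hc₃, hrad⟩ := radial h hh c B' κ₁ hc hB0 hκ₁s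
  have hrad' := hrad A D2 N₀ hN₀ hD2
  set η := min 1 (d / 4) with hη
  have hη0 : 0 < η := lt_min one_pos (by linarith)
  have hη1 : η ≤ d / 4 := min_le_right _ _
  have hηi : 0 < 1 + 1 / η := by positivity
  set ε := min δ₀ (d * c₃ / (8 * (1 + 1 / η))) with hε
  have hε0 : 0 < ε := lt_min hδ₀ (by positivity)
  have hε1 : ε ≤ δ₀ := min_le_left _ _
  have hε2 : ε * (8 * (1 + 1 / η)) ≤ d * c₃ := by
    have : ε ≤ d * c₃ / (8 * (1 + 1 / η)) := min_le_right _ _
    rwa [le_div_iff₀ (by positivity)] at this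
  have hIoo : ∀ᶠ x : ℝ in 𝓝[<] 1, x ∈ Set.Ioo (0 : ℝ) 1 :=
    Ioo_mem_nhdsLT (show (0 : ℝ) < 1 by norm_num)
  obtain ⟨x, ⟨V, hV, hV1, hV2⟩, ⟨hx0, hx1⟩, ⟨hm, hx⟩, hT⟩ := ((hP ε hε0).and_eventually
    (hIoo.and (hrad'.and (tendsto_T.eventually_gt_atTop (4 * D1 / d / c₃))))).exists
  -- convergence
  have hR := conv_r hB0 hD2
  have hgr : ∀ n : ℕ, ((r A h n : ℝ) - P n) ^ 2 ≤ (B' + D1 + D2) * ((n : ℝ) + 1) := by
    intro n
    have h1 := hD1 (n + 1)
    rw [sum_sub_distrib, zero_mul, zero_add] at h1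
    have h2 : ((r A h n : ℝ) - P n) ^ 2 ≤ ∑ m ∈ range (n + 1), ((r A h m : ℝ) - P m) ^ 2 :=
      single_le_sum (f := fun m => ((r A h m : ℝ) - P m) ^ 2) (fun _ _ => sq_nonneg _)
        (mem_range.2 (Nat.lt_succ_self n))
    have h3 : ∑ m ∈ range (n + 1), κ' * (r A h m : ℝ) ≤ ∑ m ∈ range (n + 1), (r A h m : ℝ) ^ 2 := by
      refine sum_le_sum fun m _ => ?_
      have h4 : (r A h m : ℝ) ≤ (r A h m : ℝ) ^ 2 := by
        have : r A h m ≤ r A h m ^ 2 := Nat.le_self_pow two_ne_zero _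
        exact_mod_cast this
      have h5 : (0 : ℝ) ≤ r A h m := Nat.cast_nonneg _
      nlinarith
    have h4 := hD2 (n + 1)
    push_cast at h4
    have hn : (0 : ℝ) ≤ n := Nat.cast_nonneg n
    nlinarith [mul_nonneg hD10 hn, mul_nonneg hD20 hn]
  have hBD : 0 ≤ B' + D1 + D2 := by positivity
  have hQc : Conv (Pw fun n => (r A h n : ℝ) - P n) := by
    refine conv_Pw (D := 1 + (B' + D1 + D2)) fun n => ?_
    have h1 := hgr n
    have h2 : |(r A h n : ℝ) - P n| ≤ 1 + ((r A h n : ℝ) - P n) ^ 2 := by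
      have := sq_abs ((r A h n : ℝ) - P n)
      nlinarith [sq_nonneg (|(r A h n : ℝ) - P n| - 1), abs_nonneg ((r A h n : ℝ) - P n)]
    have hn : (0 : ℝ) ≤ n := Nat.cast_nonneg n
    nlinarith [mul_nonneg hBD hn, mul_nonneg hBD (mul_nonneg hn hn), mul_nonneg hn hn]
  have hPc : Conv (Pw P) := by
    have h1 : Pw P = Pw (fun n => (r A h n : ℝ)) + (-1 : ℂ) • Pw (fun n => (r A h n : ℝ) - P n) := by
      ext n
      rw [map_add, PowerSeries.coeff_smul]
      unfold Pw
      simp only [PowerSeries.coeff_mk]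
      push_cast
      ring
    rw [h1]
    exact hR.add (hQc.smul _)
  -- the main inequality
  have hmu : mu.real V ≤ δ₀ := (mu_real_le hε0.le hV1).trans hε1
  have hmain := hx V hV hmu
  set m := ∑' n, (r A h n : ℝ) * x ^ (2 * n) with hmdef
  have hx2 : x ^ 2 < 1 := by nlinarith
  set T := (1 - x ^ 2)⁻¹ with hTdef
  have hT0 : 0 < T := by rw [hTdef]; exact inv_pos.2 (by linarith)
  have hm0 : 0 < m := lt_of_lt_of_le (by positivity) hm
  have hstep : ∫ θ in Vᶜ, ‖ev (Pw fun n => (r A h n : ℝ)) (circleMap 0 x θ)‖ ^ 2 ∂mu ≤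
      (1 + η) * (κ' * m + D1) + (1 + 1 / η) * (ε * (2 * T)) := by
    have hp : ∀ θ, ‖ev (Pw fun n => (r A h n : ℝ)) (circleMap 0 x θ)‖ ^ 2 ≤
        (1 + η) * ‖ev (Pw fun n => (r A h n : ℝ) - P n) (circleMap 0 x θ)‖ ^ 2 +
        (1 + 1 / η) * ‖ev (Pw P) (circleMap 0 x θ)‖ ^ 2 := by
      intro θ
      have hz : ‖circleMap 0 x θ‖ < 1 := by
        rw [norm_circleMap_zero, abs_of_nonneg hx0.le]
        exact hx1
      have h1 := ev_Pw_add hQc hPc hz
      have h2 : (fun n => (r A h n : ℝ) - P n + P n) = fun n => (r A h n : ℝ) := by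
        funext n
        ring
      rw [h2] at h1
      rw [h1]
      exact norm_add_sq_le _ _ hη0
    have i1 : Integrable (fun θ => ‖ev (Pw fun n => (r A h n : ℝ) - P n)
        (circleMap 0 x θ)‖ ^ 2) mu := integrable_cont ((ev_cont hQc hx0.le hx1).norm.pow 2)
    have i2 : Integrable (fun θ => ‖ev (Pw P) (circleMap 0 x θ)‖ ^ 2) mu :=
      integrable_cont ((ev_cont hPc hx0.le hx1).norm.pow 2)
    have j1 : Integrable (fun θ => (1 + η) * ‖ev (Pw fun n => (r A h n : ℝ) - P n)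
        (circleMap 0 x θ)‖ ^ 2) (mu.restrict Vᶜ) := (i1.integrableOn).const_mul _
    have j2 : Integrable (fun θ => (1 + 1 / η) * ‖ev (Pw P) (circleMap 0 x θ)‖ ^ 2)
        (mu.restrict Vᶜ) := (i2.integrableOn).const_mul _
    calc _ ≤ ∫ θ in Vᶜ, ((1 + η) * ‖ev (Pw fun n => (r A h n : ℝ) - P n)
          (circleMap 0 x θ)‖ ^ 2 + (1 + 1 / η) * ‖ev (Pw P) (circleMap 0 x θ)‖ ^ 2) ∂mu := by
          refine integral_mono_of_nonneg (Filter.Eventually.of_forall fun θ => by positivity)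
            (j1.add j2) (Filter.Eventually.of_forall hp)
      _ = (1 + η) * ∫ θ in Vᶜ, ‖ev (Pw fun n => (r A h n : ℝ) - P n)
          (circleMap 0 x θ)‖ ^ 2 ∂mu + (1 + 1 / η) *
          ∫ θ in Vᶜ, ‖ev (Pw P) (circleMap 0 x θ)‖ ^ 2 ∂mu := by
          rw [integral_add j1 j2, integral_const_mul, integral_const_mul]
      _ ≤ _ := by
          apply add_le_add
          · apply mul_le_mul_of_nonneg_left _ (by positivity)
            refine (setIntegral_le_integral i1
              (Filter.Eventually.of_forall fun θ => by positivity)).trans ?_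
            have hsum := pars_mu hQc hx0.le hx1
            rw [← hsum.tsum_eq]
            have hs1 : Summable fun n => (r A h n : ℝ) * (x ^ 2) ^ n := by
              refine (hR (x ^ 2) (by positivity) hx2).congr fun n => ?_
              unfold Pw
              rw [PowerSeries.coeff_mk, Complex.norm_real, Real.norm_eq_abs,
                abs_of_nonneg (Nat.cast_nonneg _)]
            have hs2 := hsum.summable
            simp only [pow_mul] at hs2 ⊢
            have hs' := hs1.mul_left κ'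
            have h3 := abel_le (c := fun n => ((r A h n : ℝ) - P n) ^ 2 - κ' * r A h n) (B := 0)
              (D := D1) (by positivity : (0 : ℝ) ≤ x ^ 2) hx2 (by
                simp_rw [sub_mul, mul_assoc]
                exact hs2.sub hs') hD1
            simp_rw [sub_mul, mul_assoc] at h3
            rw [hs2.tsum_sub hs', tsum_mul_left] at h3
            rw [hmdef]
            simp only [pow_mul]
            linarith
          · apply mul_le_mul_of_nonneg_left _ hηi.le
            refine (int_compl_le (fun θ => by positivity) hV).trans ?_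
            have hev : ∀ θ : ℝ, ev (Pw P) (circleMap 0 x θ) =
                ∑' n : ℕ, (P n : ℂ) * circleMap 0 x θ ^ n := by
              intro θ
              unfold ev Pw
              simp only [PowerSeries.coeff_mk]
            simp_rw [hev]
            set Q := ∫ θ in Set.Ioc 0 (2 * Real.pi) \ V,
              ‖∑' n : ℕ, (P n : ℂ) * circleMap 0 x θ ^ n‖ ^ 2 with hQ
            have hQ0 : 0 ≤ Q := integral_nonneg fun θ => by positivity
            have h4 : Q * (1 - x ^ 2) ≤ ε * 2 := by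
              have h5 : Q * (1 - x ^ 2) = ((1 - x) * Q) * (1 + x) := by ring
              rw [h5]
              have h6 : 0 ≤ (1 - x) * Q := mul_nonneg (by linarith) hQ0
              nlinarith
            have h7 : Q ≤ ε * 2 * T := by
              rw [hTdef, ← div_eq_mul_inv, le_div_iff₀ (by linarith)]
              exact h4
            linarith
  have h1 : κ₁ * m ≤ (1 + η) * (κ' * m + D1) + (1 + 1 / η) * (ε * (2 * T)) := hmain.trans hstep
  have h2 : (1 + 1 / η) * (ε * (2 * T)) ≤ d / 4 * m := by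
    have h3 : (1 + 1 / η) * (ε * (2 * T)) = (ε * (8 * (1 + 1 / η))) * T / 4 := by ring
    rw [h3]
    calc (ε * (8 * (1 + 1 / η))) * T / 4 ≤ (d * c₃) * T / 4 := by gcongr
      _ = d / 4 * (c₃ * T) := by ring
      _ ≤ d / 4 * m := by gcongr
  have h3 : (1 + η) * (κ' * m + D1) ≤ κ' * m + d / 4 * m + 2 * D1 := by
    have h4 : η * κ' * m ≤ d / 4 * m := by
      apply mul_le_mul_of_nonneg_right _ hm0.le
      calc η * κ' ≤ η * 1 := by
            have : κ' ≤ 1 := by linarith
            gcongr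
        _ ≤ d / 4 := by linarith
    have h5 : η * D1 ≤ 1 * D1 := by
      have : η ≤ 1 := min_le_left _ _
      gcongr
    nlinarith
  have h4 : 4 * D1 / d < m := by
    have h5 : 4 * D1 / d / c₃ < T := hT
    rw [div_lt_iff₀ hc₃] at h5
    linarith
  rw [div_lt_iff₀ hd0] at h4
  have h5 : κ₁ = κ' + d := by rw [hd']; ring
  rw [h5] at h1
  nlinarith

end Run7.h326.SP
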