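import Pool.Agent.H303R3.ET.SpecC
import Pool.Agent.Run7.h326.SP8

set_option autoImplicit false

open Finset MeasureTheory Pool.Agent.H303R3 Filter Topology
open scoped ComplexConjugate

namespace Run7.h326.SP

open Run7.h326.VL
open Pool.Agent.H303R3.ET (Pw conv_Pw Pw_add abel_le tendsto_T ev_bound Conc mu_le conv_poly ev_poly
  unif_close)

/-- A nonzero integer polynomial is small only on a small part of the circle. -/
theorem small_set (g : Polynomial ℤ) (hg : g ≠ 0) {V s : ℝ}
    (hV : ∑ i ∈ g.support, (g.coeff i : ℝ) ^ 2 ≤ V) (hs0 : 0 < s) (hs1 : s < 1) :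
    mu.real {θ : ℝ | ‖(g.map (Int.castRingHom ℂ)).eval (circleMap 0 1 θ)‖ < s} ≤
      V / (2 * Real.log (1 / s)) := by
  set p : Polynomial ℂ := g.map (Int.castRingHom ℂ) with hp
  have hp0 : p ≠ 0 := by
    rw [hp]
    exact (Polynomial.map_ne_zero_iff (RingHom.injective_int _)).2 hg
  have hlogs : 0 < Real.log (1 / s) := Real.log_pos (by rw [lt_div_iff₀ hs0]; linarith)
  have hc : Continuous fun θ : ℝ => ‖p.eval (circleMap 0 1 θ)‖ := by fun_prop
  set E : Set ℝ := {θ : ℝ | ‖p.eval (circleMap 0 1 θ)‖ < s} with hE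
  have hEm : MeasurableSet E := (isOpen_lt hc continuous_const).measurableSet
  -- the zeros
  have hae : ∀ᵐ θ : ℝ ∂mu, 0 < ‖p.eval (circleMap 0 1 θ)‖ := by
    unfold mu
    apply Measure.ae_smul_measure
    rw [ae_restrict_iff' measurableSet_Ioc]
    refine Set.Finite.measure_zero ?_ _
    simp only [norm_pos_iff, ne_eq, Set.compl_ofPred, Classical.not_imp, Decidable.not_not]
    refine Set.Finite.of_finite_image (f := circleMap 0 1) (p.roots.finite_toSet.subset ?_) ?_
    · rintro z ⟨θ, ⟨_, heval⟩, rfl⟩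
      exact (Polynomial.mem_roots hp0).mpr heval
    · rw [Set.ofPred_and]
      refine Set.InjOn.mono Set.inter_subset_left ?_
      have := injOn_circleMap_of_abs_sub_le (c := 0) (R := 1) (a := 0) (b := 2 * Real.pi)
        one_ne_zero (by simp [abs_of_pos Real.pi_pos])
      rw [Set.uIoc_of_le (by positivity)] at this
      exact this
  have hlogint : Integrable (fun θ : ℝ => Real.log ‖p.eval (circleMap 0 1 θ)‖) mu := by
    unfold mu
    apply Integrable.smul_measure
    · have h1 := p.intervalIntegrable_mahlerMeasure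
      rw [intervalIntegrable_iff_integrableOn_Ioc_of_le (by positivity)] at h1
      exact h1
    · rw [ENNReal.inv_ne_top]
      have : (0 : ℝ) < 2 * Real.pi := by positivity
      exact (ENNReal.ofReal_pos.2 this).ne'
  have hsqint : Integrable (fun θ : ℝ => ‖p.eval (circleMap 0 1 θ)‖ ^ 2) mu :=
    integrable_cont (hc.pow 2)
  have hM : 0 ≤ ∫ θ : ℝ, Real.log ‖p.eval (circleMap 0 1 θ)‖ ∂mu := by
    have h1 : 0 ≤ p.logMahlerMeasure := by
      rw [p.logMahlerMeasure_eq_log_MahlerMeasure]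
      exact Real.log_nonneg (Polynomial.one_le_mahlerMeasure_of_ne_zero hg)
    rw [p.logMahlerMeasure_def] at h1
    rw [int_mu_eq]
    exact h1
  have hsq : ∫ θ : ℝ, ‖p.eval (circleMap 0 1 θ)‖ ^ 2 ∂mu ≤ V := by
    have h1 := p.sum_sq_norm_coeff_eq_circleAverage
    have h2 : ∑ i ∈ p.support, ‖p.coeff i‖ ^ 2 = ∑ i ∈ g.support, (g.coeff i : ℝ) ^ 2 := by
      have h3 : p.support = g.support :=
        Polynomial.support_map_of_injective g (RingHom.injective_int _)
      rw [h3]
      refine sum_congr rfl fun i _ => ?_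
      rw [hp, Polynomial.coeff_map]
      simp
    rw [int_mu_eq]
    rw [h2] at h1
    refine le_trans (le_of_eq ?_) hV
    exact h1.symm
  have hpt : ∀ᵐ θ : ℝ ∂mu, Real.log ‖p.eval (circleMap 0 1 θ)‖ ≤
      (1 / 2) * ‖p.eval (circleMap 0 1 θ)‖ ^ 2 -
        E.indicator (fun _ => Real.log (1 / s)) θ := by
    filter_upwards [hae] with θ hθ
    by_cases hθE : θ ∈ E
    · rw [Set.indicator_of_mem hθE]
      have h1 : ‖p.eval (circleMap 0 1 θ)‖ < s := hθE
      have h2 := Real.log_le_log hθ h1.le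
      have h3 : Real.log (1 / s) = - Real.log s := by rw [one_div, Real.log_inv]
      rw [h3]
      have : 0 ≤ ‖p.eval (circleMap 0 1 θ)‖ ^ 2 := by positivity
      linarith
    · rw [Set.indicator_of_notMem hθE, sub_zero]
      have h1 := Real.log_le_sub_one_of_pos (pow_pos hθ 2)
      rw [Real.log_pow] at h1
      push_cast at h1
      linarith
  have hind : Integrable (E.indicator fun _ => Real.log (1 / s)) mu :=
    (integrable_const _).indicator hEm
  have h4 := integral_mono_ae hlogint ((hsqint.const_mul (1 / 2)).sub hind) hpt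
  have h5 : ∫ θ, ((1 / 2) * ‖p.eval (circleMap 0 1 θ)‖ ^ 2 -
        E.indicator (fun _ => Real.log (1 / s)) θ) ∂mu =
      (1 / 2) * ∫ θ, ‖p.eval (circleMap 0 1 θ)‖ ^ 2 ∂mu - mu.real E * Real.log (1 / s) := by
    rw [integral_sub (hsqint.const_mul (1 / 2)) hind, integral_const_mul,
      integral_indicator_const _ hEm, smul_eq_mul]
  have h6 : 0 ≤ (1 / 2) * ∫ θ, ‖p.eval (circleMap 0 1 θ)‖ ^ 2 ∂mu -
      mu.real E * Real.log (1 / s) := by
    rw [← h5]
    exact hM.trans h4
  rw [le_div_iff₀ (by positivity)]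
  nlinarith

/-- from power series to partial sums -/
theorem taub {B' δ₁ : ℝ} (hB' : 0 ≤ B') (hδ₁ : 0 < δ₁) : ∃ δ : ℝ, 0 < δ ∧ ∀ (y : ℕ → ℝ) (D' D₃ : ℝ),
    (∀ n, 0 ≤ y n) → (∀ N : ℕ, ∑ n ∈ range N, y n ≤ B' * N + D') →
    (∀ᶠ x : ℝ in 𝓝[<] 1, δ₁ * (1 - x ^ 2)⁻¹ - D₃ ≤ ∑' n, y n * x ^ (2 * n)) →
    ∀ᶠ N : ℕ in atTop, δ * N ≤ ∑ n ∈ range N, y n := by
  set lam : ℝ := 4 * B' / δ₁ + 1 with hlam
  have hlam1 : 1 ≤ lam := by
    have : 0 ≤ 4 * B' / δ₁ := by positivity
    linarith
  have hlam0 : 0 < lam := by linarith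
  refine ⟨δ₁ / (8 * lam), by positivity, fun y D' D₃ hy hY hx => ?_⟩
  have hD' : 0 ≤ D' := by
    have := hY 0
    simpa using this
  have ht : Tendsto (fun N : ℕ => 1 - lam / (N : ℝ)) atTop (𝓝[<] 1) := by
    rw [tendsto_nhdsWithin_iff]
    constructor
    · have h1 : Tendsto (fun N : ℕ => lam / (N : ℝ)) atTop (𝓝 0) :=
        tendsto_const_div_atTop_nhds_zero_nat lam
      have h2 := tendsto_const_nhds (x := (1 : ℝ)) |>.sub h1
      simpa using h2
    · filter_upwards [eventually_gt_atTop 0] with N hN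
      have : (0 : ℝ) < N := by exact_mod_cast hN
      have h3 : 0 < lam / N := by positivity
      simp only [Set.mem_Iio]
      linarith
  have hbig : ∀ᶠ N : ℕ in atTop, (|D₃| + D') * (8 * lam) / δ₁ ≤ (N : ℝ) :=
    tendsto_natCast_atTop_atTop.eventually_ge_atTop _
  have hbig2 : ∀ᶠ N : ℕ in atTop, lam + 1 ≤ (N : ℝ) :=
    tendsto_natCast_atTop_atTop.eventually_ge_atTop _
  filter_upwards [ht.eventually hx, hbig, hbig2] with N h1 h2 h3
  set x : ℝ := 1 - lam / N with hxdef
  have hN0 : (0 : ℝ) < N := by linarith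
  have hx1 : x < 1 := by
    have : 0 < lam / N := by positivity
    linarith
  have hx0 : 0 < x := by
    have : lam / N < 1 := by
      rw [div_lt_one hN0]
      linarith
    linarith
  have hsx : Summable fun n => y n * x ^ n := by
    -- comparison with a polynomial growth
    have hgr : ∀ n, y n ≤ (B' + D') * ((n : ℝ) + 1) := by
      intro n
      have h4 := hY (n + 1)
      have h5 : y n ≤ ∑ m ∈ range (n + 1), y m :=
        single_le_sum (fun m _ => hy m) (mem_range.2 (Nat.lt_succ_self n))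
      push_cast at h4
      have hn : (0 : ℝ) ≤ n := Nat.cast_nonneg n
      nlinarith [mul_nonneg hD' hn]
    have h6 := summable_pow_mul_geometric_of_norm_lt_one (R := ℝ) 1 (r := x)
      (by rwa [Real.norm_of_nonneg hx0.le])
    have h7 := (h6.add (summable_geometric_of_lt_one hx0.le hx1)).mul_left (B' + D')
    refine Summable.of_nonneg_of_le (fun n => mul_nonneg (hy n) (by positivity)) (fun n => ?_) h7
    calc y n * x ^ n ≤ ((B' + D') * ((n : ℝ) + 1)) * x ^ n :=
          mul_le_mul_of_nonneg_right (hgr n) (by positivity)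
      _ = _ := by ring
  have hsx2 : Summable fun n => y n * x ^ (2 * n) := by
    refine Summable.of_nonneg_of_le (fun n => mul_nonneg (hy n) (by positivity)) (fun n => ?_) hsx
    apply mul_le_mul_of_nonneg_left _ (hy n)
    exact pow_le_pow_of_le_one hx0.le hx1.le (by omega)
  have hab : ∑' n, y n * x ^ n ≤ B' * (1 - x)⁻¹ + D' := abel_le hx0.le hx1 hsx hY
  have h1x : 1 - x = lam / N := by rw [hxdef]; ring
  have hinv : (1 - x)⁻¹ = N / lam := by rw [h1x, inv_div]
  -- the tail
  have hxN : x ^ N * B' ≤ δ₁ / 4 := by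
    have h4 : x ≤ Real.exp (-(lam / N)) := by
      have := Real.add_one_le_exp (-(lam / N))
      rw [hxdef]
      linarith
    have h5 : x ^ N ≤ Real.exp (-lam) := by
      calc x ^ N ≤ (Real.exp (-(lam / N))) ^ N := by gcongr
        _ = Real.exp (-lam) := by
            rw [← Real.exp_nat_mul]
            congr 1
            field_simp
    have h6 := Real.add_one_le_exp lam
    have h7 : 4 * B' / δ₁ ≤ Real.exp lam := by linarith
    rw [div_le_iff₀ hδ₁] at h7
    have h8 : 0 < Real.exp lam := Real.exp_pos _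
    calc x ^ N * B' ≤ Real.exp (-lam) * B' := by gcongr
      _ = B' / Real.exp lam := by rw [Real.exp_neg]; ring
      _ ≤ δ₁ / 4 := by
          rw [div_le_iff₀ h8]
          linarith
  have hxN1 : x ^ N ≤ 1 := pow_le_one₀ hx0.le hx1.le
  rw [← hsx2.sum_add_tsum_nat_add N] at h1
  have h4 : ∑ n ∈ range N, y n * x ^ (2 * n) ≤ ∑ n ∈ range N, y n := by
    refine sum_le_sum fun n _ => ?_
    calc y n * x ^ (2 * n) ≤ y n * 1 :=
          mul_le_mul_of_nonneg_left (pow_le_one₀ hx0.le hx1.le) (hy n)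
      _ = y n := mul_one _
  have h5 : ∑' n, y (n + N) * x ^ (2 * (n + N)) ≤ x ^ N * (B' * (1 - x)⁻¹ + D') := by
    calc ∑' n, y (n + N) * x ^ (2 * (n + N)) ≤ ∑' n, x ^ N * (y (n + N) * x ^ (n + N)) := by
          refine ((summable_nat_add_iff N).2 hsx2).tsum_le_tsum (fun n => ?_)
            (((summable_nat_add_iff N).2 hsx).mul_left _)
          have e1 : x ^ (2 * (n + N)) = x ^ (n + N) * x ^ (n + N) := by
            rw [← pow_add]
            congr 1
            ring
          have e2 : x ^ (n + N) ≤ x ^ N := pow_le_pow_of_le_one hx0.le hx1.le (by omega)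
          rw [e1]
          calc y (n + N) * (x ^ (n + N) * x ^ (n + N)) =
                x ^ (n + N) * (y (n + N) * x ^ (n + N)) := by ring
            _ ≤ x ^ N * (y (n + N) * x ^ (n + N)) :=
                mul_le_mul_of_nonneg_right e2 (mul_nonneg (hy _) (by positivity))
      _ = x ^ N * ∑' n, y (n + N) * x ^ (n + N) := tsum_mul_left
      _ ≤ x ^ N * ∑' n, y n * x ^ n := by
          apply mul_le_mul_of_nonneg_left _ (by positivity)
          rw [← hsx.sum_add_tsum_nat_add N]
          have : 0 ≤ ∑ n ∈ range N, y n * x ^ n :=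
            sum_nonneg fun n _ => mul_nonneg (hy n) (by positivity)
          linarith
      _ ≤ _ := mul_le_mul_of_nonneg_left hab (by positivity)
  have h6 : x ^ N * (B' * (1 - x)⁻¹ + D') ≤ δ₁ / 4 * (N / lam) + D' := by
    rw [hinv]
    have e1 : x ^ N * (B' * (N / lam) + D') = (x ^ N * B') * (N / lam) + x ^ N * D' := by ring
    rw [e1]
    have e2 : (x ^ N * B') * (N / lam) ≤ δ₁ / 4 * (N / lam) := by gcongr
    have e3 : x ^ N * D' ≤ 1 * D' := by gcongr
    linarith
  have h7 : (N : ℝ) / lam / 2 ≤ (1 - x ^ 2)⁻¹ := by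
    have e1 : 1 - x ^ 2 ≤ 2 * (lam / N) := by
      have : 1 - x ^ 2 = (1 - x) * (1 + x) := by ring
      rw [this, h1x]
      have : 0 < lam / N := by positivity
      nlinarith
    have e2 : 0 < 1 - x ^ 2 := by nlinarith
    calc (N : ℝ) / lam / 2 = (2 * (lam / N))⁻¹ := by field_simp
      _ ≤ _ := by gcongr
  have h8 : δ₁ * ((N : ℝ) / lam / 2) ≤ δ₁ * (1 - x ^ 2)⁻¹ := by gcongr
  have h9 : |D₃| + D' ≤ δ₁ / (8 * lam) * N := by
    rw [div_le_iff₀ hδ₁] at h2
    rw [div_mul_eq_mul_div, le_div_iff₀ (by positivity)]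
    linarith
  have h10 := le_abs_self D₃
  have h11 : δ₁ * ((N : ℝ) / lam / 2) = 4 * (δ₁ / (8 * lam) * N) := by
    field_simp
    ring
  have h12 : δ₁ / 4 * ((N : ℝ) / lam) = 2 * (δ₁ / (8 * lam) * N) := by
    field_simp
    ring
  linarith

end Run7.h326.SP
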