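import Pool.Agent.H303R3.ET.SingMain
import Pool.Agent.Run7.h326.SP10

set_option autoImplicit false

open Finset MeasureTheory Pool.Agent.H303R3 Filter Topology

namespace Run7.h326.TR

open Run7.h326.SP
open Pool.Agent.H303R3.ET (Pw conv_Pw Pw_add)

theorem ev_analytic {F : PowerSeries ℂ} (hF : Conv F) {x : ℝ} (hx0 : 0 ≤ x) (hx1 : x < 1) :
    AnalyticOnNhd ℂ (ev F) (Metric.closedBall 0 x) := by
  obtain ⟨r, hxr, hr1⟩ := exists_between hx1
  have hd : DifferentiableOn ℂ (ev F) (Metric.ball 0 r) := by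
    have h := Complex.differentiableOn_tsum_of_summable_norm
      (F := fun (n : ℕ) (z : ℂ) => PowerSeries.coeff n F * z ^ n) (U := Metric.ball 0 r)
      (hF r (by linarith) hr1) (fun n => by fun_prop) Metric.isOpen_ball (by
        intro n w hw
        rw [norm_mul, norm_pow]
        rw [mem_ball_zero_iff] at hw
        gcongr)
    exact h
  have h2 := hd.analyticOnNhd Metric.isOpen_ball
  refine h2.mono ?_
  exact Metric.closedBall_subset_ball hxr

theorem ev_at_zero (F : PowerSeries ℂ) : ev F 0 = PowerSeries.coeff 0 F := by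
  unfold ev
  rw [tsum_eq_single 0]
  · simp
  · intro n hn
    simp [hn]

/-- the mean value of `log |F|` on a circle is at least `log |F(0)|` -/
theorem jensen_low {F : PowerSeries ℂ} (hF : Conv F) (h0 : 1 ≤ ‖PowerSeries.coeff 0 F‖) {x : ℝ}
    (hx0 : 0 < x) (hx1 : x < 1) :
    0 ≤ ∫ θ, Real.log ‖ev F (circleMap 0 x θ)‖ ∂mu := by
  have hxa : |x| = x := abs_of_pos hx0
  have hA : AnalyticOnNhd ℂ (ev F) (Metric.closedBall 0 |x|) := by
    rw [hxa]
    exact ev_analytic hF hx0.le hx1
  have hne : ev F 0 ≠ 0 := by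
    rw [ev_at_zero]
    intro h
    rw [h, norm_zero] at h0
    linarith
  have hJ := AnalyticOnNhd.circleAverage_log_norm hx0.ne' hA hne
  have h1 : Real.circleAverage (fun z => Real.log ‖ev F z‖) 0 x =
      ∫ θ, Real.log ‖ev F (circleMap 0 x θ)‖ ∂mu := by
    rw [int_mu_eq]
    rfl
  rw [← h1, hJ]
  have h2 : 0 ≤ Real.log ‖ev F 0‖ := by
    rw [ev_at_zero]
    exact Real.log_nonneg h0
  refine add_nonneg (finsum_nonneg fun u => ?_) h2
  by_cases hu : u ∈ Metric.closedBall (0 : ℂ) |x|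
  · refine mul_nonneg (by exact_mod_cast MeromorphicOn.AnalyticOnNhd.divisor_nonneg hA u) ?_
    rw [zero_sub, norm_neg]
    rw [mem_closedBall_zero_iff, hxa] at hu
    rcases eq_or_ne u 0 with rfl | hu0
    · simp
    · have hp : 0 < ‖u‖ := norm_pos_iff.2 hu0
      apply Real.log_nonneg
      rw [← div_eq_mul_inv, le_div_iff₀ hp]
      linarith
  · rw [Function.locallyFinsuppWithin.apply_eq_zero_of_notMem _ hu]
    simp

theorem ae_pos {F : PowerSeries ℂ} (hF : Conv F) (h0 : 1 ≤ ‖PowerSeries.coeff 0 F‖) {x : ℝ}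
    (hx0 : 0 < x) (hx1 : x < 1) : ∀ᵐ θ : ℝ ∂mu, 0 < ‖ev F (circleMap 0 x θ)‖ := by
  have hA : AnalyticOnNhd ℂ (ev F) (Metric.closedBall 0 x) := ev_analytic hF hx0.le hx1
  have hne : ev F 0 ≠ 0 := by
    rw [ev_at_zero]
    intro h
    rw [h, norm_zero] at h0
    linarith
  have h0x : (0 : ℂ) ∈ Metric.closedBall (0 : ℂ) x := by
    rw [mem_closedBall_zero_iff, norm_zero]
    exact hx0.le
  have hord0 : analyticOrderAt (ev F) 0 ≠ ⊤ := by
    rw [(hA 0 h0x).analyticOrderAt_eq_zero.mpr hne]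
    simp
  have hfin := (MeromorphicOn.divisor (ev F) (Metric.closedBall 0 x)).finiteSupport
    (isCompact_closedBall 0 x)
  have hz : {z : ℂ | z ∈ Metric.closedBall (0 : ℂ) x ∧ ev F z = 0}.Finite := by
    refine hfin.subset ?_
    rintro z ⟨hz1, hz2⟩
    rw [Function.mem_support, MeromorphicOn.AnalyticOnNhd.divisor_apply hA hz1]
    have h1 : analyticOrderAt (ev F) z ≠ ⊤ :=
      hA.analyticOrderAt_ne_top_of_isPreconnected (convex_closedBall 0 x).isPreconnected
        h0x hz1 hord0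
    have h2 : analyticOrderAt (ev F) z ≠ 0 := by
      rw [Ne, (hA z hz1).analyticOrderAt_eq_zero]
      simp [hz2]
    obtain ⟨n, hn⟩ := ENat.ne_top_iff_exists.1 h1
    rw [← hn] at h2 ⊢
    have h3 : n ≠ 0 := by
      rintro rfl
      exact h2 rfl
    simpa using h3
  unfold mu
  apply Measure.ae_smul_measure
  rw [ae_restrict_iff' measurableSet_Ioc]
  refine Set.Finite.measure_zero ?_ _
  simp only [norm_pos_iff, ne_eq, Set.compl_ofPred, Classical.not_imp, Decidable.not_not]
  refine Set.Finite.of_finite_image (f := circleMap 0 x) (hz.subset ?_) ?_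
  · rintro z ⟨θ, ⟨_, heval⟩, rfl⟩
    refine ⟨?_, heval⟩
    rw [mem_closedBall_zero_iff, norm_circleMap_zero, abs_of_pos hx0]
  · rw [Set.ofPred_and]
    refine Set.InjOn.mono Set.inter_subset_left ?_
    have := injOn_circleMap_of_abs_sub_le (c := 0) (R := x) (a := 0) (b := 2 * Real.pi)
      hx0.ne' (by simp [abs_of_pos Real.pi_pos])
    rw [Set.uIoc_of_le (by positivity)] at this
    exact this

/-- A power series with constant coefficient of modulus at least one is small only on a small part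
of the circle. -/
theorem small_ball {F : PowerSeries ℂ} (hF : Conv F) (h0 : 1 ≤ ‖PowerSeries.coeff 0 F‖) {x V L : ℝ}
    (hx0 : 0 < x) (hx1 : x < 1) (hV0 : 0 ≤ V)
    (hV : ∑' n, ‖PowerSeries.coeff n F‖ ^ 2 * x ^ (2 * n) ≤ V) (hL : 0 < L) :
    mu.real {θ : ℝ | ‖ev F (circleMap 0 x θ)‖ < Real.exp (-L)} ≤ Real.log (1 + V) / (2 * L) := by
  set f : ℝ → ℝ := fun θ => ‖ev F (circleMap 0 x θ)‖ with hf
  have hc : Continuous f := (ev_cont hF hx0.le hx1).norm
  set E : Set ℝ := {θ : ℝ | f θ < Real.exp (-L)} with hE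
  have hEm : MeasurableSet E := (isOpen_lt hc continuous_const).measurableSet
  have hae := ae_pos hF h0 hx0 hx1
  have hlogint : Integrable (fun θ : ℝ => Real.log (f θ)) mu := by
    unfold mu
    apply Integrable.smul_measure
    · have hA : AnalyticOnNhd ℂ (ev F) (Metric.closedBall 0 |x|) := by
        rw [abs_of_pos hx0]
        exact ev_analytic hF hx0.le hx1
      have h1 : CircleIntegrable (fun z => Real.log ‖ev F z‖) 0 x :=
        (hA.mono Metric.sphere_subset_closedBall).meromorphicOn.circleIntegrable_log_norm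
      unfold CircleIntegrable at h1
      rw [intervalIntegrable_iff_integrableOn_Ioc_of_le (by positivity)] at h1
      exact h1
    · rw [ENNReal.inv_ne_top]
      have : (0 : ℝ) < 2 * Real.pi := by positivity
      exact (ENNReal.ofReal_pos.2 this).ne'
  have hsqint : Integrable (fun θ : ℝ => f θ ^ 2) mu := integrable_cont (hc.pow 2)
  have hM : 0 ≤ ∫ θ : ℝ, Real.log (f θ) ∂mu := jensen_low hF h0 hx0 hx1
  have hsq : ∫ θ : ℝ, f θ ^ 2 ∂mu ≤ V := by
    rw [← (pars_gen hF hx0.le hx1).tsum_eq]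
    exact hV
  have h1V : 0 < 1 + V := by linarith
  have hpt : ∀ᵐ θ : ℝ ∂mu, Real.log (f θ) ≤
      ((1 / 2) * (Real.log (1 + V) - V / (1 + V)) + (1 / (2 * (1 + V))) * f θ ^ 2) -
        E.indicator (fun _ => L) θ := by
    filter_upwards [hae] with θ hθ
    -- concavity
    have hconc : Real.log (1 + f θ ^ 2) ≤ Real.log (1 + V) - V / (1 + V) + f θ ^ 2 / (1 + V) := by
      have h2 : 0 < (1 + f θ ^ 2) / (1 + V) := by positivity
      have h3 := Real.log_le_sub_one_of_pos h2
      rw [Real.log_div (by positivity) h1V.ne'] at h3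
      have h4 : (1 + f θ ^ 2) / (1 + V) - 1 = - (V / (1 + V)) + f θ ^ 2 / (1 + V) := by
        field_simp
        ring
      linarith
    have hkey : (1 / 2) * (Real.log (1 + V) - V / (1 + V)) + (1 / (2 * (1 + V))) * f θ ^ 2 =
        (1 / 2) * (Real.log (1 + V) - V / (1 + V) + f θ ^ 2 / (1 + V)) := by
      field_simp
    rw [hkey]
    by_cases hθE : θ ∈ E
    · rw [Set.indicator_of_mem hθE]
      have h2 : f θ < Real.exp (-L) := hθE
      have h3 := Real.log_le_log hθ h2.le
      rw [Real.log_exp] at h3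
      have h4 : 0 ≤ Real.log (1 + f θ ^ 2) := Real.log_nonneg (by nlinarith [sq_nonneg (f θ)])
      linarith
    · rw [Set.indicator_of_notMem hθE, sub_zero]
      have h2 : Real.log (f θ) = (1 / 2) * Real.log (f θ ^ 2) := by
        rw [Real.log_pow]
        push_cast
        ring
      rw [h2]
      have h3 : Real.log (f θ ^ 2) ≤ Real.log (1 + f θ ^ 2) :=
        Real.log_le_log (pow_pos hθ 2) (by linarith)
      linarith
  have hind : Integrable (E.indicator fun _ => L) mu := (integrable_const _).indicator hEm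
  have hci : Integrable (fun _ : ℝ => (1 / 2) * (Real.log (1 + V) - V / (1 + V))) mu :=
    integrable_const _
  have h4 := integral_mono_ae hlogint ((hci.add (hsqint.const_mul (1 / (2 * (1 + V))))).sub hind) hpt
  have h5 : ∫ θ, (((1 / 2) * (Real.log (1 + V) - V / (1 + V)) + (1 / (2 * (1 + V))) * f θ ^ 2) -
        E.indicator (fun _ => L) θ) ∂mu =
      (1 / 2) * (Real.log (1 + V) - V / (1 + V)) + (1 / (2 * (1 + V))) * ∫ θ, f θ ^ 2 ∂mu -
        mu.real E * L := by
    have e1 : Integrable (fun θ : ℝ => (1 / 2) * (Real.log (1 + V) - V / (1 + V)) +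
        (1 / (2 * (1 + V))) * f θ ^ 2) mu := hci.add (hsqint.const_mul (1 / (2 * (1 + V))))
    have e2 : ∫ θ, ((1 / 2) * (Real.log (1 + V) - V / (1 + V)) + (1 / (2 * (1 + V))) * f θ ^ 2) ∂mu
        = (1 / 2) * (Real.log (1 + V) - V / (1 + V)) + (1 / (2 * (1 + V))) * ∫ θ, f θ ^ 2 ∂mu := by
      rw [integral_add hci (hsqint.const_mul (1 / (2 * (1 + V))))]
      congr 1
      · rw [integral_const]
        simp
      · rw [integral_const_mul]
    rw [integral_sub e1 hind, e2, integral_indicator_const _ hEm, smul_eq_mul]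
  have h6 : 0 ≤ (1 / 2) * (Real.log (1 + V) - V / (1 + V)) + (1 / (2 * (1 + V))) *
      ∫ θ, f θ ^ 2 ∂mu - mu.real E * L := by
    rw [← h5]
    exact hM.trans h4
  have h7 : (1 / (2 * (1 + V))) * ∫ θ, f θ ^ 2 ∂mu ≤ (1 / 2) * (V / (1 + V)) := by
    calc (1 / (2 * (1 + V))) * ∫ θ, f θ ^ 2 ∂mu ≤ (1 / (2 * (1 + V))) * V := by gcongr
      _ = _ := by field_simp
  rw [le_div_iff₀ (by positivity)]
  linarith

end Run7.h326.TR
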