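import Pool.Agent.Run7.h326.TR1

set_option autoImplicit false

open Finset MeasureTheory Pool.Agent.H303R3 Filter Topology

namespace Run7.h326.TR

open Run7.h326.SP
open Pool.Agent.H303R3.ET (Pw conv_Pw Pw_add)

/-- `∑_{a ∈ A} y ^ a` -/
noncomputable def mass (A : Set ℕ) (y : ℝ) : ℝ := ∑' n, A.indicator (fun n => y ^ n) n

theorem conv_ind (A : Set ℕ) : Conv (ind A) := by
  refine Conv.of_bdd (B := 1) fun n => ?_
  unfold ind
  rw [PowerSeries.coeff_mk]
  split_ifs <;> simp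

theorem coeff_ind_norm (A : Set ℕ) (n : ℕ) (y : ℝ) :
    ‖PowerSeries.coeff n (ind A)‖ * y ^ n = A.indicator (fun n => y ^ n) n := by
  classical
  unfold ind
  rw [PowerSeries.coeff_mk]
  by_cases h : n ∈ A
  · rw [Set.indicator_of_mem h, if_pos h]
    simp
  · rw [Set.indicator_of_notMem h, if_neg h]
    simp

theorem mass_summable (A : Set ℕ) {y : ℝ} (h0 : 0 ≤ y) (h1 : y < 1) :
    Summable (fun n => A.indicator (fun n => y ^ n) n) :=
  (conv_ind A y h0 h1).congr fun n => coeff_ind_norm A n y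

theorem mass_nonneg (A : Set ℕ) {y : ℝ} (h0 : 0 ≤ y) : 0 ≤ mass A y :=
  tsum_nonneg fun n => Set.indicator_nonneg (fun _ _ => by positivity) n

theorem int_ind_sq (A : Set ℕ) {x : ℝ} (h0 : 0 ≤ x) (h1 : x < 1) :
    ∫ θ, ‖ev (ind A) (circleMap 0 x θ)‖ ^ 2 ∂mu = mass A (x ^ 2) := by
  rw [← (pars_gen (conv_ind A) h0 h1).tsum_eq]
  unfold mass
  refine tsum_congr fun n => ?_
  rw [← coeff_ind_norm]
  have h : ‖PowerSeries.coeff n (ind A)‖ ^ 2 = ‖PowerSeries.coeff n (ind A)‖ := by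
    classical
    unfold ind
    rw [PowerSeries.coeff_mk]
    split_ifs <;> simp
  rw [h, pow_mul]

theorem int_ind_four (A : Set ℕ) {x : ℝ} (h0 : 0 ≤ x) (h1 : x < 1) :
    ∫ θ, ‖ev (ind A) (circleMap 0 x θ)‖ ^ 4 ∂mu = ∑' n, (rep A n : ℝ) ^ 2 * x ^ (2 * n) := by
  have h2 := (pars_gen ((conv_ind A).mul (conv_ind A)) h0 h1).tsum_eq
  have h3 : ∀ θ : ℝ, ‖ev (ind A * ind A) (circleMap 0 x θ)‖ ^ 2 =
      ‖ev (ind A) (circleMap 0 x θ)‖ ^ 4 := by
    intro θ
    have hz : ‖circleMap 0 x θ‖ < 1 := by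
      rw [norm_circleMap_zero, abs_of_nonneg h0]
      exact h1
    rw [ev_mul (conv_ind A) (conv_ind A) hz, norm_mul]
    ring
  simp only [h3] at h2
  rw [← h2]
  refine tsum_congr fun n => ?_
  rw [coeff_ind_sq, Complex.norm_natCast]

/-- `∑ r(n) y ^ n = (∑_{a ∈ A} y ^ a) ^ 2` -/
theorem rep_mass (A : Set ℕ) {y : ℝ} (h0 : 0 ≤ y) (h1 : y < 1) :
    HasSum (fun n => (rep A n : ℝ) * y ^ n) (mass A y ^ 2) := by
  have hz : ‖(y : ℂ)‖ < 1 := by
    rw [Complex.norm_real, Real.norm_of_nonneg h0]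
    exact h1
  have h2 := ((conv_ind A).mul (conv_ind A)).hasSum hz
  rw [ev_mul (conv_ind A) (conv_ind A) hz] at h2
  have h3 : ev (ind A) (y : ℂ) = (mass A y : ℂ) := by
    unfold ev mass
    rw [Complex.ofReal_tsum]
    refine tsum_congr fun n => ?_
    classical
    unfold ind
    rw [PowerSeries.coeff_mk]
    by_cases h : n ∈ A
    · rw [Set.indicator_of_mem h, if_pos h]
      simp
    · rw [Set.indicator_of_notMem h, if_neg h]
      simp
  rw [h3] at h2
  have h4 : HasSum (fun n => (((rep A n : ℝ) * y ^ n : ℝ) : ℂ)) (((mass A y ^ 2 : ℝ)) : ℂ) := by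
    convert h2 using 1
    · funext n
      rw [coeff_ind_sq]
      push_cast
      ring
    · push_cast
      ring
  exact_mod_cast h4

/-- **The main inequality.** -/
theorem main_ineq (A : Set ℕ) {G : PowerSeries ℂ} (hG : Conv G)
    (hG0 : 1 ≤ ‖PowerSeries.coeff 0 G‖) {x V B : ℝ} (hx0 : 0 < x) (hx1 : x < 1) (hV0 : 0 < V)
    (hV : ∑' n, ‖PowerSeries.coeff n G‖ ^ 2 * x ^ (2 * n) ≤ V) (hB0 : 0 < B)
    (hB : ∑' n, (rep A n : ℝ) ^ 2 * x ^ (2 * n) ≤ B * mass A (x ^ 2) ^ 2) :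
    (1 / 4) * Real.exp (-(4 * B * Real.log (1 + V))) * mass A (x ^ 2) ^ 2 ≤
      ∑' n, ‖PowerSeries.coeff n (G * (ind A * ind A))‖ ^ 2 * x ^ (2 * n) := by
  set m := mass A (x ^ 2) with hm
  have hm0 : 0 ≤ m := mass_nonneg A (by positivity)
  rcases hm0.eq_or_lt with hm1 | hm1
  · rw [← hm1]
    have h1 : 0 ≤ ∑' n, ‖PowerSeries.coeff n (G * (ind A * ind A))‖ ^ 2 * x ^ (2 * n) :=
      tsum_nonneg fun n => by positivity
    simpa using h1
  have hlog : 0 < Real.log (1 + V) := Real.log_pos (by linarith)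
  set L := 2 * B * Real.log (1 + V) with hL
  have hL0 : 0 < L := by positivity
  set f : ℝ → ℝ := fun θ => ‖ev (ind A) (circleMap 0 x θ)‖ with hf
  have hfc : Continuous f := (ev_cont (conv_ind A) hx0.le hx1).norm
  set E : Set ℝ := {θ : ℝ | ‖ev G (circleMap 0 x θ)‖ < Real.exp (-L)} with hE
  have hgc : Continuous fun θ : ℝ => ‖ev G (circleMap 0 x θ)‖ := (ev_cont hG hx0.le hx1).norm
  have hEm : MeasurableSet E := (isOpen_lt hgc continuous_const).measurableSet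
  have hEs : mu.real E ≤ 1 / (4 * B) := by
    refine (small_ball hG hG0 hx0 hx1 hV0.le hV hL0).trans (le_of_eq ?_)
    rw [hL]
    field_simp
    ring
  have i2 : Integrable (fun θ => f θ ^ 2) mu := integrable_cont (hfc.pow 2)
  have i4 : Integrable (fun θ => f θ ^ 4) mu := integrable_cont (hfc.pow 4)
  have e2 : ∫ θ, f θ ^ 2 ∂mu = m := int_ind_sq A hx0.le hx1
  have e4 : ∫ θ, f θ ^ 4 ∂mu ≤ B * m ^ 2 := by
    rw [int_ind_four A hx0.le hx1]
    exact hB
  -- the part of the square integral over `E`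
  have hpE : ∫ θ in E, f θ ^ 2 ∂mu ≤ m / 2 := by
    have h1 : ∫ θ in E, f θ ^ 2 ∂mu ≤ ∫ θ in E, (B * m + (1 / (4 * (B * m))) * f θ ^ 4) ∂mu := by
      refine setIntegral_mono_on i2.integrableOn
        ((integrable_const _).add (i4.const_mul _)).integrableOn hEm ?_
      intro θ _
      have h2 : 0 ≤ (f θ ^ 2 - 2 * (B * m)) ^ 2 := sq_nonneg _
      have h3 : 0 < B * m := by positivity
      have h4 : B * m + (1 / (4 * (B * m))) * f θ ^ 4 - f θ ^ 2 =
          (f θ ^ 2 - 2 * (B * m)) ^ 2 / (4 * (B * m)) := by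
        field_simp
        ring
      have h5 : 0 ≤ (f θ ^ 2 - 2 * (B * m)) ^ 2 / (4 * (B * m)) := by positivity
      linarith
    have h2 : ∫ θ in E, (B * m + (1 / (4 * (B * m))) * f θ ^ 4) ∂mu =
        mu.real E * (B * m) + (1 / (4 * (B * m))) * ∫ θ in E, f θ ^ 4 ∂mu := by
      rw [integral_add (integrable_const _) (i4.const_mul _).integrableOn]
      congr 1
      · rw [setIntegral_const, smul_eq_mul]
      · rw [integral_const_mul]
    have h3 : ∫ θ in E, f θ ^ 4 ∂mu ≤ B * m ^ 2 :=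
      (setIntegral_le_integral i4 (Eventually.of_forall fun θ => by positivity)).trans e4
    have h4 : mu.real E * (B * m) ≤ 1 / (4 * B) * (B * m) := by gcongr
    have h5 : (1 / (4 * (B * m))) * ∫ θ in E, f θ ^ 4 ∂mu ≤ (1 / (4 * (B * m))) * (B * m ^ 2) := by
      gcongr
    have h6 : 1 / (4 * B) * (B * m) = m / 4 := by field_simp
    have h7 : (1 / (4 * (B * m))) * (B * m ^ 2) = m / 4 := by field_simp
    linarith
  have hpc : m / 2 ≤ ∫ θ in Eᶜ, f θ ^ 2 ∂mu := by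
    have h1 := integral_add_compl hEm i2
    rw [e2] at h1
    linarith
  have hp4 : m ^ 2 / 4 ≤ ∫ θ in Eᶜ, f θ ^ 4 ∂mu := by
    have h1 : ∫ θ in Eᶜ, (m * f θ ^ 2 - m ^ 2 / 4) ∂mu ≤ ∫ θ in Eᶜ, f θ ^ 4 ∂mu := by
      refine setIntegral_mono_on ((i2.const_mul m).sub (integrable_const _)).integrableOn
        i4.integrableOn hEm.compl ?_
      intro θ _
      have h2 : 0 ≤ (f θ ^ 2 - m / 2) ^ 2 := sq_nonneg _
      nlinarith
    have h2 : ∫ θ in Eᶜ, (m * f θ ^ 2 - m ^ 2 / 4) ∂mu =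
        m * ∫ θ in Eᶜ, f θ ^ 2 ∂mu - mu.real Eᶜ * (m ^ 2 / 4) := by
      rw [integral_sub (i2.const_mul m).integrableOn (integrable_const _)]
      congr 1
      · rw [integral_const_mul]
      · rw [setIntegral_const, smul_eq_mul]
    have h3 : mu.real Eᶜ ≤ 1 := measureReal_le_one
    have h4 : mu.real Eᶜ * (m ^ 2 / 4) ≤ 1 * (m ^ 2 / 4) := by gcongr
    have h5 : m * (m / 2) ≤ m * ∫ θ in Eᶜ, f θ ^ 2 ∂mu := by gcongr
    nlinarith
  -- the product
  have hF : Conv (G * (ind A * ind A)) := hG.mul ((conv_ind A).mul (conv_ind A))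
  rw [(pars_gen hF hx0.le hx1).tsum_eq]
  have i1 : Integrable (fun θ => ‖ev (G * (ind A * ind A)) (circleMap 0 x θ)‖ ^ 2) mu :=
    integrable_cont ((ev_cont hF hx0.le hx1).norm.pow 2)
  have hfin : Real.exp (-(4 * B * Real.log (1 + V))) * ∫ θ in Eᶜ, f θ ^ 4 ∂mu ≤
      ∫ θ, ‖ev (G * (ind A * ind A)) (circleMap 0 x θ)‖ ^ 2 ∂mu := by
    refine le_trans ?_ (setIntegral_le_integral (s := Eᶜ) i1
      (Filter.Eventually.of_forall fun θ => by positivity))
    rw [← integral_const_mul]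
    refine setIntegral_mono_on (i4.integrableOn.const_mul _) i1.integrableOn hEm.compl ?_
    intro θ hθ
    have hz : ‖circleMap 0 x θ‖ < 1 := by
      rw [norm_circleMap_zero, abs_of_nonneg hx0.le]
      exact hx1
    have h1 : Real.exp (-L) ≤ ‖ev G (circleMap 0 x θ)‖ := by
      have : ¬ ‖ev G (circleMap 0 x θ)‖ < Real.exp (-L) := hθ
      linarith
    rw [ev_mul hG ((conv_ind A).mul (conv_ind A)) hz, ev_mul (conv_ind A) (conv_ind A) hz,
      norm_mul, norm_mul]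
    have h2 : Real.exp (-(4 * B * Real.log (1 + V))) = Real.exp (-L) ^ 2 := by
      rw [← Real.exp_nat_mul]
      congr 1
      rw [hL]
      push_cast
      ring
    rw [h2]
    have h3 : (‖ev G (circleMap 0 x θ)‖ * (‖ev (ind A) (circleMap 0 x θ)‖ *
        ‖ev (ind A) (circleMap 0 x θ)‖)) ^ 2 = ‖ev G (circleMap 0 x θ)‖ ^ 2 * f θ ^ 4 := by
      rw [hf]
      ring
    rw [h3]
    have h4 : 0 ≤ Real.exp (-L) := (Real.exp_pos _).le
    gcongr
  have h8 : Real.exp (-(4 * B * Real.log (1 + V))) * (m ^ 2 / 4) ≤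
      Real.exp (-(4 * B * Real.log (1 + V))) * ∫ θ in Eᶜ, f θ ^ 4 ∂mu := by gcongr
  linarith

end Run7.h326.TR
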