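import Pool.Agent.Run7.h326.TR2

set_option autoImplicit false

open Finset MeasureTheory Pool.Agent.H303R3 Filter Topology

namespace Run7.h326.TR

open Run7.h326.SP
open Pool.Agent.H303R3.ET (Pw conv_Pw Pw_add)

/-- the convolution of `g` with the representation function -/
noncomputable def cv (A : Set ℕ) (g : ℕ → ℝ) (n : ℕ) : ℝ :=
  ∑ j ∈ range (n + 1), g j * (rep A (n - j) : ℝ)

theorem coeff_cv (A : Set ℕ) (g : ℕ → ℝ) (n : ℕ) :
    PowerSeries.coeff n (Pw g * (ind A * ind A)) = ((cv A g n : ℝ) : ℂ) := by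
  rw [PowerSeries.coeff_mul, Nat.sum_antidiagonal_eq_sum_range_succ
    (fun i m => PowerSeries.coeff i (Pw g) * PowerSeries.coeff m (ind A * ind A))]
  unfold cv
  push_cast
  refine sum_congr rfl fun j _ => ?_
  rw [coeff_ind_sq]
  unfold Pw
  rw [PowerSeries.coeff_mk]

theorem ineq_real (A : Set ℕ) {g : ℕ → ℝ} {V B y : ℝ} (hg0 : 1 ≤ |g 0|)
    (hV : ∀ n, ∑ j ∈ range n, g j ^ 2 ≤ V) (hB0 : 0 < B) (hy0 : 0 < y) (hy1 : y < 1)
    (hB : ∑' n, (rep A n : ℝ) ^ 2 * y ^ n ≤ B * mass A y ^ 2) :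
    (1 / 4) * Real.exp (-(4 * B * Real.log (1 + V))) * mass A y ^ 2 ≤
      ∑' n, cv A g n ^ 2 * y ^ n := by
  have hV0 : 1 ≤ V := by
    have h1 := hV 1
    rw [sum_range_one] at h1
    have h2 : 1 ≤ g 0 ^ 2 := by
      rw [← sq_abs]
      nlinarith
    linarith
  set x := Real.sqrt y with hx
  have hx2 : x ^ 2 = y := Real.sq_sqrt hy0.le
  have hx0 : 0 < x := Real.sqrt_pos.2 hy0
  have hx1 : x < 1 := by
    rw [hx, Real.sqrt_lt' one_pos]
    simpa using hy1
  have hpow : ∀ n, x ^ (2 * n) = y ^ n := by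
    intro n
    rw [pow_mul, hx2]
  have hG : Conv (Pw g) := by
    refine Conv.of_bdd (B := V) fun n => ?_
    unfold Pw
    rw [PowerSeries.coeff_mk, Complex.norm_real, Real.norm_eq_abs]
    have h1 : g n ^ 2 ≤ V := by
      refine le_trans ?_ (hV (n + 1))
      exact single_le_sum (f := fun j => g j ^ 2) (fun j _ => sq_nonneg _)
        (mem_range.2 (Nat.lt_succ_self n))
    have h2 : |g n| ^ 2 ≤ V ^ 2 := by
      rw [sq_abs]
      nlinarith
    exact abs_le_of_sq_le_sq' h2 (by linarith) |>.2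
  have hcoef : ∀ n, ‖PowerSeries.coeff n (Pw g)‖ ^ 2 = g n ^ 2 := by
    intro n
    unfold Pw
    rw [PowerSeries.coeff_mk, Complex.norm_real, Real.norm_eq_abs, sq_abs]
  have hG0 : 1 ≤ ‖PowerSeries.coeff 0 (Pw g)‖ := by
    unfold Pw
    rw [PowerSeries.coeff_mk, Complex.norm_real, Real.norm_eq_abs]
    exact hg0
  have hVx : ∑' n, ‖PowerSeries.coeff n (Pw g)‖ ^ 2 * x ^ (2 * n) ≤ V := by
    refine Real.tsum_le_of_sum_range_le (fun n => by positivity) fun n => ?_
    refine le_trans (sum_le_sum fun j _ => ?_) (hV n)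
    rw [hcoef]
    calc g j ^ 2 * x ^ (2 * j) ≤ g j ^ 2 * 1 :=
          mul_le_mul_of_nonneg_left (pow_le_one₀ hx0.le hx1.le) (sq_nonneg _)
      _ = g j ^ 2 := mul_one _
  have h := main_ineq A hG hG0 hx0 hx1 (by linarith) hVx hB0 (by
    rw [hx2]
    simp only [hpow]
    exact hB)
  rw [hx2] at h
  refine h.trans (le_of_eq (tsum_congr fun n => ?_))
  rw [coeff_cv, Complex.norm_real, Real.norm_eq_abs, sq_abs, hpow]

/-- the mean square is at most the maximum times the mean -/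
theorem energy_le (A : Set ℕ) {K : ℕ} (hK : ∀ n, rep A n ≤ K) {y : ℝ} (hy0 : 0 ≤ y) (hy1 : y < 1) :
    ∑' n, (rep A n : ℝ) ^ 2 * y ^ n ≤ K * mass A y ^ 2 := by
  have h1 := rep_mass A hy0 hy1
  have h2 : ∀ n, (rep A n : ℝ) ^ 2 * y ^ n ≤ K * ((rep A n : ℝ) * y ^ n) := by
    intro n
    have h3 : (rep A n : ℝ) ≤ K := by exact_mod_cast hK n
    have h4 : (0 : ℝ) ≤ (rep A n : ℝ) * y ^ n := by positivity
    calc (rep A n : ℝ) ^ 2 * y ^ n = (rep A n : ℝ) * ((rep A n : ℝ) * y ^ n) := by ring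
      _ ≤ _ := mul_le_mul_of_nonneg_right h3 h4
  have h5 : Summable fun n => (K : ℝ) * ((rep A n : ℝ) * y ^ n) := h1.summable.mul_left _
  have h6 : Summable fun n => (rep A n : ℝ) ^ 2 * y ^ n :=
    Summable.of_nonneg_of_le (fun n => by positivity) h2 h5
  calc _ ≤ ∑' n, (K : ℝ) * ((rep A n : ℝ) * y ^ n) := h6.tsum_le_tsum h2 h5
    _ = _ := by rw [tsum_mul_left, h1.tsum_eq]

/-- the set where an integer recurrence fails -/
def Dset (A : Set ℕ) (c : ℕ → ℤ) : Set ℕ := {n | cv A (fun j => (c j : ℝ)) n ≠ 0}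

theorem abs_le_sq (z : ℤ) : |(z : ℝ)| ≤ (z : ℝ) ^ 2 := by
  have h : |z| ≤ z ^ 2 := by
    rw [← sq_abs]
    have h0 : 0 ≤ |z| := abs_nonneg z
    rcases h0.eq_or_lt with h1 | h1
    · rw [← h1]
      simp
    · nlinarith
  exact_mod_cast h

theorem cv_abs (A : Set ℕ) {K : ℕ} (hK : ∀ n, rep A n ≤ K) {c : ℕ → ℤ} {V : ℝ}
    (hV : ∀ n, ∑ j ∈ range n, (c j : ℝ) ^ 2 ≤ V) (n : ℕ) :
    |cv A (fun j => (c j : ℝ)) n| ≤ K * V := by
  unfold cv
  calc |∑ j ∈ range (n + 1), (c j : ℝ) * (rep A (n - j) : ℝ)|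
      ≤ ∑ j ∈ range (n + 1), |(c j : ℝ) * (rep A (n - j) : ℝ)| := abs_sum_le_sum_abs _ _
    _ ≤ ∑ j ∈ range (n + 1), (K : ℝ) * (c j : ℝ) ^ 2 := by
        refine sum_le_sum fun j _ => ?_
        rw [abs_mul, Nat.abs_cast, mul_comm]
        have h1 : (rep A (n - j) : ℝ) ≤ K := by exact_mod_cast hK _
        exact mul_le_mul h1 (abs_le_sq _) (abs_nonneg _) (Nat.cast_nonneg _)
    _ = K * ∑ j ∈ range (n + 1), (c j : ℝ) ^ 2 := by rw [mul_sum]
    _ ≤ _ := mul_le_mul_of_nonneg_left (hV _) (Nat.cast_nonneg _)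

/-- lower bound for the set where the recurrence fails -/
theorem dset_lower (A : Set ℕ) {K : ℕ} (hK0 : 0 < K) (hK : ∀ n, rep A n ≤ K) {c : ℕ → ℤ} {V : ℝ}
    (hc0 : c 0 ≠ 0) (hV : ∀ n, ∑ j ∈ range n, (c j : ℝ) ^ 2 ≤ V) {y : ℝ} (hy0 : 0 < y)
    (hy1 : y < 1) :
    (1 / 4) * Real.exp (-(4 * K * Real.log (1 + V))) * mass A y ^ 2 ≤
      (K * V) ^ 2 * ∑' n, (Dset A c).indicator (fun n => y ^ n) n := by
  have hKr : (0 : ℝ) < K := by exact_mod_cast hK0
  have h := ineq_real A (g := fun j => (c j : ℝ)) (V := V) (B := K) (y := y) (by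
    have h1 : 1 ≤ |c 0| := Int.one_le_abs hc0
    exact_mod_cast h1) hV hKr hy0 hy1 (energy_le A hK hy0.le hy1)
  refine h.trans ?_
  rw [← tsum_mul_left]
  have hV0 : 0 ≤ V := by
    have := hV 0
    simpa using this
  have hgeo := summable_geometric_of_lt_one hy0.le hy1
  have h2 : Summable fun n => (Dset A c).indicator (fun n => y ^ n) n :=
    hgeo.indicator _
  have h3 : ∀ n, cv A (fun j => (c j : ℝ)) n ^ 2 * y ^ n ≤
      (K * V) ^ 2 * (Dset A c).indicator (fun n => y ^ n) n := by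
    intro n
    by_cases hn : n ∈ Dset A c
    · rw [Set.indicator_of_mem hn]
      have h4 := cv_abs A hK hV n
      have h5 : cv A (fun j => (c j : ℝ)) n ^ 2 ≤ (K * V) ^ 2 := by
        rw [← sq_abs]
        gcongr
      gcongr
    · rw [Set.indicator_of_notMem hn]
      have h4 : cv A (fun j => (c j : ℝ)) n = 0 := by
        by_contra h5
        exact hn h5
      rw [h4]
      simp
  refine Summable.tsum_le_tsum h3 ?_ (h2.mul_left _)
  refine Summable.of_nonneg_of_le (fun n => by positivity) h3 (h2.mul_left _)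

/-- upper bound for the set where the recurrence fails -/
theorem dset_upper (A : Set ℕ) {c : ℕ → ℤ} {V : ℝ}
    (hV : ∀ n, ∑ j ∈ range n, (c j : ℝ) ^ 2 ≤ V) {y : ℝ} (hy0 : 0 < y) (hy1 : y < 1) :
    ∑' n, (Dset A c).indicator (fun n => y ^ n) n ≤ V * mass A y ^ 2 := by
  have hV0 : 0 ≤ V := by
    have := hV 0
    simpa using this
  have hgeo := summable_geometric_of_lt_one hy0.le hy1
  have h2 : Summable fun n => (Dset A c).indicator (fun n => y ^ n) n := hgeo.indicator _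
  have hm := rep_mass A hy0.le hy1
  have hcs : Summable fun j => |(c j : ℝ)| := by
    refine summable_of_sum_range_le (c := V) (fun n => abs_nonneg _) fun n => ?_
    exact (sum_le_sum fun j _ => abs_le_sq _).trans (hV n)
  have hct : ∑' j, |(c j : ℝ)| ≤ V :=
    Real.tsum_le_of_sum_range_le (fun n => abs_nonneg _) fun n =>
      (sum_le_sum fun j _ => abs_le_sq _).trans (hV n)
  have hcy : ∀ j, |(c j : ℝ)| * y ^ j ≤ |(c j : ℝ)| := fun j => by
    calc |(c j : ℝ)| * y ^ j ≤ |(c j : ℝ)| * 1 :=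
          mul_le_mul_of_nonneg_left (pow_le_one₀ hy0.le hy1.le) (abs_nonneg _)
      _ = _ := mul_one _
  have hcys : Summable fun j => |(c j : ℝ)| * y ^ j :=
    Summable.of_nonneg_of_le (fun j => by positivity) hcy hcs
  have hcyt : ∑' j, |(c j : ℝ)| * y ^ j ≤ V := (hcys.tsum_le_tsum hcy hcs).trans hct
  have hprod := tsum_mul_tsum_eq_tsum_sum_range_of_summable_norm
    (f := fun j => |(c j : ℝ)| * y ^ j) (g := fun n => (rep A n : ℝ) * y ^ n)
    (hcys.congr fun j => (Real.norm_of_nonneg (by positivity)).symm)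
    (hm.summable.congr fun j => (Real.norm_of_nonneg (by positivity)).symm)
  have hps := summable_norm_sum_mul_range_of_summable_norm
    (f := fun j => |(c j : ℝ)| * y ^ j) (g := fun n => (rep A n : ℝ) * y ^ n)
    (hcys.congr fun j => (Real.norm_of_nonneg (by positivity)).symm)
    (hm.summable.congr fun j => (Real.norm_of_nonneg (by positivity)).symm)
  have h3 : ∀ n, (Dset A c).indicator (fun n => y ^ n) n ≤
      ∑ k ∈ range (n + 1), |(c k : ℝ)| * y ^ k * ((rep A (n - k) : ℝ) * y ^ (n - k)) := by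
    intro n
    have hn0 : ∀ k ∈ range (n + 1), |(c k : ℝ)| * y ^ k * ((rep A (n - k) : ℝ) * y ^ (n - k)) =
        |(c k : ℝ)| * (rep A (n - k) : ℝ) * y ^ n := by
      intro k hk
      have hk' : k ≤ n := Nat.lt_succ_iff.1 (mem_range.1 hk)
      have e : y ^ n = y ^ k * y ^ (n - k) := by
        rw [← pow_add]
        congr 1
        omega
      rw [e]
      ring
    rw [sum_congr rfl hn0, ← sum_mul]
    by_cases hn : n ∈ Dset A c
    · rw [Set.indicator_of_mem hn]
      have h4 : (1 : ℝ) ≤ ∑ k ∈ range (n + 1), |(c k : ℝ)| * (rep A (n - k) : ℝ) := by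
        have h5 : cv A (fun j => (c j : ℝ)) n =
            ((∑ j ∈ range (n + 1), c j * (rep A (n - j) : ℤ) : ℤ) : ℝ) := by
          unfold cv
          push_cast
          rfl
        have h6 : (∑ j ∈ range (n + 1), c j * (rep A (n - j) : ℤ)) ≠ 0 := by
          intro h7
          apply hn
          rw [h5, h7]
          simp
        have h8 : (1 : ℤ) ≤ |∑ j ∈ range (n + 1), c j * (rep A (n - j) : ℤ)| :=
          Int.one_le_abs h6
        have h9 : |∑ j ∈ range (n + 1), c j * (rep A (n - j) : ℤ)| ≤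
            ∑ j ∈ range (n + 1), |c j| * (rep A (n - j) : ℤ) := by
          refine (abs_sum_le_sum_abs _ _).trans (sum_le_sum fun j _ => ?_)
          rw [abs_mul, Nat.abs_cast]
        exact_mod_cast h8.trans h9
      have h10 : (0 : ℝ) < y ^ n := by positivity
      nlinarith
    · rw [Set.indicator_of_notMem hn]
      positivity
  have h4 : Summable fun n => ∑ k ∈ range (n + 1), |(c k : ℝ)| * y ^ k *
      ((rep A (n - k) : ℝ) * y ^ (n - k)) := hps.of_norm
  calc _ ≤ _ := h2.tsum_le_tsum h3 h4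
    _ = (∑' j, |(c j : ℝ)| * y ^ j) * ∑' n, (rep A n : ℝ) * y ^ n := hprod.symm
    _ ≤ V * mass A y ^ 2 := by
        rw [hm.tsum_eq]
        gcongr

end Run7.h326.TR
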