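import Pool.Agent.Run7.h326.TR3

set_option autoImplicit false

open Finset MeasureTheory Pool.Agent.H303R3 Filter Topology

namespace Run7.h326.TR

open Run7.h326.SP
open Pool.Agent.H303R3.ET (Pw conv_Pw Pw_add)

open Classical in
/-- the number of the elements of `A` in `[0, n]` -/
noncomputable def cnt (A : Set ℕ) (n : ℕ) : ℕ := ((range (n + 1)).filter fun a => a ∈ A).card

theorem cnt_mono (A : Set ℕ) : Monotone (cnt A) := by
  classical
  intro m n h
  unfold cnt
  apply card_le_card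
  apply filter_subset_filter
  exact range_subset_range.2 (by omega)

theorem mass_eq (A : Set ℕ) {x : ℝ} (h0 : 0 ≤ x) (h1 : x < 1) :
    (Summable fun n => (cnt A n : ℝ) * x ^ n) ∧
      mass A x = (1 - x) * ∑' n, (cnt A n : ℝ) * x ^ n := by
  classical
  have hgeo := summable_geometric_of_lt_one h0 h1
  have hs := mass_summable A h0 h1
  have hn1 : Summable fun n => ‖A.indicator (fun n => x ^ n) n‖ :=
    hs.congr fun n => (Real.norm_of_nonneg (Set.indicator_nonneg (fun _ _ => by positivity) n)).symm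
  have hn2 : Summable fun n => ‖x ^ n‖ :=
    hgeo.congr fun n => (Real.norm_of_nonneg (by positivity)).symm
  have hprod := tsum_mul_tsum_eq_tsum_sum_range_of_summable_norm hn1 hn2
  have hps := summable_norm_sum_mul_range_of_summable_norm hn1 hn2
  have h2 : ∀ n, ∑ k ∈ range (n + 1), A.indicator (fun n => x ^ n) k * x ^ (n - k) =
      (cnt A n : ℝ) * x ^ n := by
    intro n
    have h3 : ∀ k ∈ range (n + 1), A.indicator (fun n => x ^ n) k * x ^ (n - k) =
        if k ∈ A then x ^ n else 0 := by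
      intro k hk
      have hk' : k ≤ n := Nat.lt_succ_iff.1 (mem_range.1 hk)
      by_cases h : k ∈ A
      · rw [Set.indicator_of_mem h, if_pos h, ← pow_add]
        congr 1
        omega
      · rw [Set.indicator_of_notMem h, if_neg h, zero_mul]
    rw [sum_congr rfl h3, ← sum_filter, sum_const, nsmul_eq_mul]
    unfold cnt
    congr!
  rw [tsum_geometric_of_lt_one h0 h1] at hprod
  simp only [h2] at hprod hps
  constructor
  · exact hps.of_norm
  · rw [← hprod]
    unfold mass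
    have : (1 : ℝ) - x ≠ 0 := by linarith
    field_simp

theorem tsum_pow_le (p : ℕ) {x : ℝ} (h0 : 0 ≤ x) (h1 : x < 1) :
    (Summable fun n : ℕ => (n : ℝ) ^ p * x ^ n) ∧
      ∑' n : ℕ, (n : ℝ) ^ p * x ^ n ≤ (p.factorial : ℝ) / (1 - x) ^ (p + 1) := by
  have hx : ‖x‖ < 1 := by rwa [Real.norm_of_nonneg h0]
  have hs := summable_choose_mul_geometric_of_norm_lt_one (R := ℝ) p hx
  have ht := tsum_choose_mul_geometric_of_norm_lt_one (𝕜 := ℝ) p hx
  have h2 : ∀ n : ℕ, (n : ℝ) ^ p * x ^ n ≤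
      (p.factorial : ℝ) * (((n + p).choose p : ℝ) * x ^ n) := by
    intro n
    have h3 : n ^ p ≤ p.factorial * (n + p).choose p := by
      rw [← Nat.ascFactorial_eq_factorial_mul_choose]
      exact (Nat.pow_le_pow_left (Nat.le_succ n) p).trans (Nat.pow_succ_le_ascFactorial (n + 1) p)
    have h4 : (n : ℝ) ^ p ≤ (p.factorial : ℝ) * ((n + p).choose p : ℝ) := by exact_mod_cast h3
    calc (n : ℝ) ^ p * x ^ n ≤ ((p.factorial : ℝ) * ((n + p).choose p : ℝ)) * x ^ n :=
          mul_le_mul_of_nonneg_right h4 (by positivity)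
      _ = _ := by ring
  have hs2 : Summable fun n : ℕ => (n : ℝ) ^ p * x ^ n :=
    Summable.of_nonneg_of_le (fun n => by positivity) h2 (hs.mul_left _)
  refine ⟨hs2, ?_⟩
  calc _ ≤ _ := hs2.tsum_le_tsum h2 (hs.mul_left _)
    _ = _ := by
      rw [tsum_mul_left, ht]
      ring

/-- the mass at `1 - 1 / N`, if the growth beyond `N` is controlled -/
theorem mass_upper (A : Set ℕ) {H : ℝ} {p N : ℕ} (hH : 0 ≤ H) (hN : 2 ≤ N)
    (hg : ∀ n, N ≤ n → (cnt A n : ℝ) ≤ H * ((n : ℝ) / N) ^ p * cnt A N) :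
    mass A (1 - 1 / N) ≤ (1 + H * p.factorial) * cnt A N := by
  have hN0 : (0 : ℝ) < N := by
    have : (2 : ℝ) ≤ N := by exact_mod_cast hN
    linarith
  have hN2 : (2 : ℝ) ≤ N := by exact_mod_cast hN
  set x : ℝ := 1 - 1 / N with hx
  have h1N : 1 / (N : ℝ) ≤ 1 / 2 := by
    apply one_div_le_one_div_of_le <;> linarith
  have h1N0 : 0 < 1 / (N : ℝ) := by positivity
  have h0 : 0 ≤ x := by linarith
  have h1 : x < 1 := by linarith
  have h1x : 1 - x = 1 / N := by rw [hx]; ring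
  obtain ⟨hs, he⟩ := mass_eq A h0 h1
  obtain ⟨hs2, he2⟩ := tsum_pow_le p h0 h1
  have hgeo := summable_geometric_of_lt_one h0 h1
  have h3 : ∀ n : ℕ, (cnt A n : ℝ) * x ^ n ≤ cnt A N * x ^ n +
      (H / (N : ℝ) ^ p * cnt A N) * ((n : ℝ) ^ p * x ^ n) := by
    intro n
    rcases le_total N n with h | h
    · have h4 := hg n h
      have h5 : (cnt A n : ℝ) * x ^ n ≤ (H * ((n : ℝ) / N) ^ p * cnt A N) * x ^ n :=
        mul_le_mul_of_nonneg_right h4 (by positivity)
      have h6 : (H * ((n : ℝ) / N) ^ p * cnt A N) * x ^ n =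
          (H / (N : ℝ) ^ p * cnt A N) * ((n : ℝ) ^ p * x ^ n) := by
        rw [div_pow]
        ring
      have h7 : 0 ≤ (cnt A N : ℝ) * x ^ n := by positivity
      linarith
    · have h4 : (cnt A n : ℝ) ≤ cnt A N := by exact_mod_cast cnt_mono A h
      have h5 : (cnt A n : ℝ) * x ^ n ≤ cnt A N * x ^ n :=
        mul_le_mul_of_nonneg_right h4 (by positivity)
      have h7 : 0 ≤ (H / (N : ℝ) ^ p * cnt A N) * ((n : ℝ) ^ p * x ^ n) := by positivity
      linarith
  have h4 : ∑' n, (cnt A n : ℝ) * x ^ n ≤ cnt A N * (1 - x)⁻¹ +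
      (H / (N : ℝ) ^ p * cnt A N) * ((p.factorial : ℝ) / (1 - x) ^ (p + 1)) := by
    calc ∑' n, (cnt A n : ℝ) * x ^ n ≤ ∑' n : ℕ, ((cnt A N : ℝ) * x ^ n +
          (H / (N : ℝ) ^ p * cnt A N) * ((n : ℝ) ^ p * x ^ n)) :=
          hs.tsum_le_tsum h3 ((hgeo.mul_left _).add (hs2.mul_left _))
      _ = cnt A N * (1 - x)⁻¹ + (H / (N : ℝ) ^ p * cnt A N) * ∑' n : ℕ, (n : ℝ) ^ p * x ^ n := by
          rw [(hgeo.mul_left _).tsum_add (hs2.mul_left _), tsum_mul_left, tsum_mul_left,
            tsum_geometric_of_lt_one h0 h1]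
      _ ≤ _ := by gcongr
  rw [he]
  have h5 : (1 - x) * (cnt A N * (1 - x)⁻¹ +
      (H / (N : ℝ) ^ p * cnt A N) * ((p.factorial : ℝ) / (1 - x) ^ (p + 1))) =
      (1 + H * p.factorial) * cnt A N := by
    rw [h1x, one_div_pow, pow_succ]
    field_simp
  rw [← h5]
  have h6 : 0 ≤ 1 - x := by linarith
  gcongr

theorem pow_low {N : ℕ} (hN : 2 ≤ N) : Real.exp (-2) ≤ (1 - 1 / (N : ℝ)) ^ N := by
  have hN2 : (2 : ℝ) ≤ N := by exact_mod_cast hN
  have hN0 : (0 : ℝ) < N := by linarith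
  have h1 : Real.exp (-(2 / N)) ≤ 1 - 1 / (N : ℝ) := by
    have h2 := Real.add_one_le_exp (1 / ((N : ℝ) - 1))
    have h3 : 1 / ((N : ℝ) - 1) ≤ 2 / N := by
      rw [div_le_div_iff₀ (by linarith) hN0]
      linarith
    have h4 : 1 / ((N : ℝ) - 1) + 1 = (1 - 1 / (N : ℝ))⁻¹ := by
      have : (N : ℝ) - 1 ≠ 0 := by linarith
      rw [one_sub_div hN0.ne', inv_div]
      field_simp
      ring
    have h5 : (1 - 1 / (N : ℝ))⁻¹ ≤ Real.exp (2 / N) := by
      rw [← h4]
      exact h2.trans (Real.exp_le_exp.2 h3)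
    have h6 : 0 < 1 - 1 / (N : ℝ) := by
      rw [sub_pos, div_lt_one hN0]
      linarith
    rw [Real.exp_neg]
    rw [inv_le_comm₀ h6 (Real.exp_pos _)] at h5
    exact h5
  calc Real.exp (-2) = (Real.exp (-(2 / N))) ^ N := by
        rw [← Real.exp_nat_mul]
        congr 1
        field_simp
    _ ≤ _ := by gcongr

theorem mass_lower (A : Set ℕ) {N : ℕ} (hN : 2 ≤ N) :
    Real.exp (-4) * cnt A N ≤ mass A ((1 - 1 / (N : ℝ)) ^ 2) := by
  classical
  have hN2 : (2 : ℝ) ≤ N := by exact_mod_cast hN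
  have h1N : 1 / (N : ℝ) ≤ 1 / 2 := by
    apply one_div_le_one_div_of_le <;> linarith
  have h1N0 : 0 < 1 / (N : ℝ) := by
    have : (0 : ℝ) < N := by linarith
    positivity
  set x : ℝ := 1 - 1 / N with hx
  have h0 : 0 ≤ x := by linarith
  have h1 : x < 1 := by linarith
  have hy0 : 0 ≤ x ^ 2 := by positivity
  have hy1 : x ^ 2 < 1 := by nlinarith
  have hs := mass_summable A hy0 hy1
  unfold mass
  refine le_trans ?_ (hs.sum_le_tsum (range (N + 1)) fun n _ =>
    Set.indicator_nonneg (fun _ _ => by positivity) n)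
  have h2 : ∑ n ∈ range (N + 1), A.indicator (fun n => (x ^ 2) ^ n) n =
      ∑ n ∈ (range (N + 1)).filter (fun a => a ∈ A), (x ^ 2) ^ n := by
    rw [sum_filter]
    refine sum_congr rfl fun n _ => ?_
    by_cases h : n ∈ A
    · rw [Set.indicator_of_mem h, if_pos h]
    · rw [Set.indicator_of_notMem h, if_neg h]
  rw [h2]
  have h3 : Real.exp (-4) ≤ (x ^ 2) ^ N := by
    have h4 := pow_low hN
    calc Real.exp (-4) = Real.exp (-2) ^ 2 := by
          rw [← Real.exp_nat_mul]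
          congr 1
          norm_num
      _ ≤ (x ^ N) ^ 2 := by gcongr
      _ = _ := by rw [← pow_mul, ← pow_mul, mul_comm]
  calc Real.exp (-4) * cnt A N = ∑ n ∈ (range (N + 1)).filter (fun a => a ∈ A), Real.exp (-4) := by
        rw [sum_const, nsmul_eq_mul, mul_comm]
        unfold cnt
        congr!
    _ ≤ _ := by
        refine sum_le_sum fun n hn => ?_
        rw [mem_filter, mem_range] at hn
        refine h3.trans (pow_le_pow_of_le_one hy0 hy1.le (by omega))

end Run7.h326.TR
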