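import Pool.Agent.Run7.h326.TR4

set_option autoImplicit false

open Finset MeasureTheory Pool.Agent.H303R3 Filter Topology

namespace Run7.h326.TR

open Run7.h326.SP
open Pool.Agent.H303R3.ET (Pw conv_Pw Pw_add)

open Classical in
/-- the number of the elements of `D` below `T` -/
noncomputable def dcnt (D : Set ℕ) (T : ℕ) : ℕ := ((range T).filter fun n => n ∈ D).card

theorem dcnt_mono (D : Set ℕ) : Monotone (dcnt D) := by
  classical
  intro m n h
  unfold dcnt
  apply card_le_card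
  apply filter_subset_filter
  exact range_subset_range.2 h

theorem count_at (K V p : ℕ) (H : ℝ) (hK0 : 0 < K) (hV0 : 0 < V) (hH : 0 ≤ H) :
    ∃ c₂ : ℝ, 0 < c₂ ∧ ∃ l : ℕ, 1 ≤ l ∧ ∀ (A : Set ℕ) (c : ℕ → ℤ), (∀ n, rep A n ≤ K) →
      c 0 ≠ 0 → (∀ n, ∑ j ∈ range n, (c j : ℝ) ^ 2 ≤ V) → ∀ N : ℕ, 2 ≤ N →
      (∀ n, N ≤ n → (cnt A n : ℝ) ≤ H * ((n : ℝ) / N) ^ p * cnt A N) →
      c₂ * (cnt A N : ℝ) ^ 2 ≤ dcnt (Dset A c) (l * N) := by
  have hKr : (0 : ℝ) < K := by exact_mod_cast hK0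
  have hVr : (0 : ℝ) < V := by exact_mod_cast hV0
  set c₁ : ℝ := (1 / 4) * Real.exp (-(4 * K * Real.log (1 + V))) with hc₁
  have hc₁0 : 0 < c₁ := by positivity
  set W : ℝ := (K * V) ^ 2 * (V * (1 + H * p.factorial) ^ 2) with hW
  have hW0 : 0 < W := by positivity
  set e8 : ℝ := Real.exp (-4) ^ 2 with he8
  have he80 : 0 < e8 := by positivity
  obtain ⟨l, hl⟩ : ∃ l : ℕ, 2 * W / (c₁ * e8) ≤ l := exists_nat_ge _
  refine ⟨c₁ * e8 / (2 * (K * V) ^ 2), by positivity, l + 1, by omega,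
    fun A c hK hc0 hV N hN hg => ?_⟩
  have hN2 : (2 : ℝ) ≤ N := by exact_mod_cast hN
  have hN0 : (0 : ℝ) < N := by linarith
  have h1N : 1 / (N : ℝ) ≤ 1 / 2 := by
    apply one_div_le_one_div_of_le <;> linarith
  have h1N0 : 0 < 1 / (N : ℝ) := by positivity
  have hup := mass_upper A hH hN hg
  have hlo := mass_lower A hN
  set x : ℝ := 1 - 1 / N with hx
  have h0 : 0 < x := by linarith
  have h1 : x < 1 := by linarith
  have hy0 : 0 < x ^ 2 := by positivity
  have hy1 : x ^ 2 < 1 := by nlinarith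
  set F : ℝ := (cnt A N : ℝ) with hF
  have hF0 : 0 ≤ F := Nat.cast_nonneg _
  have hm0 := mass_nonneg A h0.le
  have hA := dset_lower A hK0 hK hc0 hV hy0 hy1
  have hB := dset_upper A hV h0 h1
  rw [← hc₁] at hA
  -- head and tail
  set T : ℕ := (l + 1) * N with hT
  have hgeo := summable_geometric_of_lt_one hy0.le hy1
  have hgeox := summable_geometric_of_lt_one h0.le h1
  have hs : Summable fun n => (Dset A c).indicator (fun n => (x ^ 2) ^ n) n := hgeo.indicator _
  have hsx : Summable fun n => (Dset A c).indicator (fun n => x ^ n) n := hgeox.indicator _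
  have hhead : ∑ n ∈ range T, (Dset A c).indicator (fun n => (x ^ 2) ^ n) n ≤
      dcnt (Dset A c) T := by
    classical
    calc ∑ n ∈ range T, (Dset A c).indicator (fun n => (x ^ 2) ^ n) n
        ≤ ∑ n ∈ range T, if n ∈ Dset A c then (1 : ℝ) else 0 := by
          refine sum_le_sum fun n _ => ?_
          by_cases h : n ∈ Dset A c
          · rw [Set.indicator_of_mem h, if_pos h]
            exact pow_le_one₀ hy0.le hy1.le
          · rw [Set.indicator_of_notMem h, if_neg h]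
      _ = dcnt (Dset A c) T := by
          rw [← sum_filter, sum_const, nsmul_eq_mul, mul_one]
          unfold dcnt
          congr!
  have htail : ∑' n, (Dset A c).indicator (fun n => (x ^ 2) ^ n) (n + T) ≤
      x ^ T * ∑' n, (Dset A c).indicator (fun n => x ^ n) n := by
    have h2 : ∀ n, (Dset A c).indicator (fun n => (x ^ 2) ^ n) (n + T) ≤
        x ^ T * (Dset A c).indicator (fun n => x ^ n) (n + T) := by
      intro n
      by_cases h : n + T ∈ Dset A c
      · rw [Set.indicator_of_mem h, Set.indicator_of_mem h]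
        have e1 : (x ^ 2) ^ (n + T) = x ^ (n + T) * x ^ (n + T) := by ring
        rw [e1]
        have e2 : x ^ (n + T) ≤ x ^ T := pow_le_pow_of_le_one h0.le h1.le (by omega)
        gcongr
      · rw [Set.indicator_of_notMem h, Set.indicator_of_notMem h, mul_zero]
    have h3 := ((summable_nat_add_iff T).2 hs).tsum_le_tsum h2
      (((summable_nat_add_iff T).2 hsx).mul_left _)
    refine h3.trans ?_
    rw [tsum_mul_left]
    apply mul_le_mul_of_nonneg_left _ (by positivity)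
    rw [← hsx.sum_add_tsum_nat_add T]
    have : 0 ≤ ∑ n ∈ range T, (Dset A c).indicator (fun n => x ^ n) n :=
      sum_nonneg fun n _ => Set.indicator_nonneg (fun _ _ => by positivity) n
    linarith
  have hxT : x ^ T ≤ Real.exp (-((l : ℝ) + 1)) := by
    have h4 : x ≤ Real.exp (-(1 / N)) := by
      have := Real.add_one_le_exp (-(1 / (N : ℝ)))
      rw [hx]
      linarith
    calc x ^ T ≤ (Real.exp (-(1 / N))) ^ T := by gcongr
      _ = Real.exp (-((l : ℝ) + 1)) := by
          rw [← Real.exp_nat_mul, hT]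
          congr 1
          push_cast
          field_simp
  have hexp : Real.exp (-((l : ℝ) + 1)) * W ≤ c₁ * e8 / 2 := by
    have h5 := Real.add_one_le_exp ((l : ℝ) + 1)
    have h6 : 2 * W / (c₁ * e8) ≤ Real.exp ((l : ℝ) + 1) := by linarith
    rw [div_le_iff₀ (by positivity)] at h6
    rw [Real.exp_neg, inv_mul_le_iff₀ (Real.exp_pos _)]
    linarith
  have hsum := hs.sum_add_tsum_nat_add T
  have hmass2 : e8 * F ^ 2 ≤ mass A (x ^ 2) ^ 2 := by
    rw [he8, ← mul_pow]
    gcongr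
  have hmx : mass A x ^ 2 ≤ ((1 + H * p.factorial) * F) ^ 2 := by gcongr
  have hI : ∑' n, (Dset A c).indicator (fun n => (x ^ 2) ^ n) n ≤
      dcnt (Dset A c) T + x ^ T * (V * mass A x ^ 2) := by
    rw [← hsum]
    refine add_le_add hhead (htail.trans ?_)
    gcongr
  have hfinal : c₁ * (e8 * F ^ 2) ≤ (K * V) ^ 2 * (dcnt (Dset A c) T) + c₁ * e8 / 2 * F ^ 2 := by
    calc c₁ * (e8 * F ^ 2) ≤ c₁ * mass A (x ^ 2) ^ 2 := by gcongr
      _ ≤ (K * V) ^ 2 * ∑' n, (Dset A c).indicator (fun n => (x ^ 2) ^ n) n := hA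
      _ ≤ (K * V) ^ 2 * (dcnt (Dset A c) T + x ^ T * (V * mass A x ^ 2)) := by gcongr
      _ ≤ (K * V) ^ 2 * (dcnt (Dset A c) T + Real.exp (-((l : ℝ) + 1)) *
            (V * ((1 + H * p.factorial) * F) ^ 2)) := by gcongr
      _ = (K * V) ^ 2 * (dcnt (Dset A c) T) + (Real.exp (-((l : ℝ) + 1)) * W) * F ^ 2 := by
          rw [hW]
          ring
      _ ≤ _ := by gcongr
  rw [div_mul_eq_mul_div, div_le_iff₀ (by positivity)]
  nlinarith

/-- the counting function of a set with bounded representation function -/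
theorem cnt_sq (A : Set ℕ) {K : ℕ} (hK : ∀ n, rep A n ≤ K) (n : ℕ) :
    cnt A n ^ 2 ≤ K * (2 * n + 1) := by
  classical
  set S := (range (n + 1)).filter (fun a => a ∈ A) with hS
  have hcard : cnt A n = S.card := by
    unfold cnt
    congr!
  have h1 : (S ×ˢ S).card ≤ ∑ m ∈ range (2 * n + 1), rep A m := by
    rw [card_eq_sum_card_fiberwise (f := fun q : ℕ × ℕ => q.1 + q.2) (t := range (2 * n + 1))]
    · refine sum_le_sum fun m _ => ?_
      unfold rep
      rw [← Set.ncard_coe_finset]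
      refine Set.ncard_le_ncard ?_ ?_
      · intro q hq
        simp only [coe_filter, mem_product, hS, mem_filter] at hq
        exact ⟨hq.1.1.2, hq.1.2.2, hq.2⟩
      · refine Set.Finite.subset (Finset.finite_toSet (Finset.HasAntidiagonal.antidiagonal m)) ?_
        intro q hq
        rw [Finset.mem_coe, Finset.HasAntidiagonal.mem_antidiagonal]
        exact hq.2.2
    · intro q hq
      simp only [coe_product, hS, coe_filter, Set.mem_prod, mem_range] at hq
      simp only [coe_range, Set.mem_Iio]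
      have h2 := hq.1.1
      have h3 := hq.2.1
      omega
  rw [card_product] at h1
  rw [hcard, sq]
  refine h1.trans ?_
  calc ∑ m ∈ range (2 * n + 1), rep A m ≤ ∑ m ∈ range (2 * n + 1), K := sum_le_sum fun m _ => hK m
    _ = _ := by rw [sum_const, card_range, smul_eq_mul, mul_comm]

theorem cnt_pos {A : Set ℕ} (hA : A.Infinite) (B : ℕ) : ∃ n, B ≤ cnt A n := by
  classical
  obtain ⟨t, ht, htc⟩ := hA.exists_subset_card_eq B
  refine ⟨t.sup id, ?_⟩
  rw [← htc]
  unfold cnt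
  refine card_le_card ?_
  intro a ha
  rw [mem_filter, mem_range]
  exact ⟨Nat.lt_succ_of_le (le_sup (f := id) ha), ht ha⟩

theorem exists_max (A : Set ℕ) {K : ℕ} (hK : ∀ n, rep A n ≤ K) (hA : A.Infinite) (N₀ : ℕ) :
    ∃ N, N₀ ≤ N ∧ ∀ n, N ≤ n → cnt A n * N ≤ n * cnt A N := by
  classical
  obtain ⟨n₁, hn₁⟩ := cnt_pos hA 1
  set M : ℕ := max (max N₀ n₁) 1 with hM
  have hM1 : 1 ≤ M := le_max_right _ _
  have hMc : 1 ≤ cnt A M := hn₁.trans (cnt_mono A ((le_max_right _ _).trans (le_max_left _ _)))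
  -- beyond `B` the ratio is smaller than at `M`
  have hsmall : ∀ n, 3 * K * M ^ 2 < n → cnt A n * M < n * cnt A M := by
    intro n hn
    have h1 := cnt_sq A hK n
    by_contra h2
    push Not at h2
    have hn1 : 1 ≤ n := by omega
    have h3 : n ≤ cnt A n * M := by
      calc n = n * 1 := (mul_one n).symm
        _ ≤ n * cnt A M := Nat.mul_le_mul_left _ hMc
        _ ≤ _ := h2
    have h4 : n * n ≤ (3 * K * M ^ 2) * n := by
      calc n * n ≤ (cnt A n * M) * (cnt A n * M) := Nat.mul_le_mul h3 h3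
        _ = cnt A n ^ 2 * M ^ 2 := by ring
        _ ≤ (K * (2 * n + 1)) * M ^ 2 := Nat.mul_le_mul_right _ h1
        _ ≤ (K * (3 * n)) * M ^ 2 := by gcongr; omega
        _ = _ := by ring
    have h5 : n ≤ 3 * K * M ^ 2 := Nat.le_of_mul_le_mul_right h4 (by omega)
    omega
  obtain ⟨N, hN, hmax⟩ := exists_max_image (Icc M (max M (3 * K * M ^ 2)))
    (fun n => (cnt A n : ℚ) / n) ⟨M, by simp⟩
  rw [mem_Icc] at hN
  have hNpos : 0 < N := by omega
  refine ⟨N, ((le_max_left _ _).trans (le_max_left _ _)).trans hN.1, fun n hn => ?_⟩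
  have hnpos : 0 < n := by omega
  have key : (cnt A n : ℚ) / n ≤ (cnt A N : ℚ) / N := by
    by_cases h : n ≤ max M (3 * K * M ^ 2)
    · exact hmax n (mem_Icc.2 ⟨hN.1.trans hn, h⟩)
    · push Not at h
      have h1 : 3 * K * M ^ 2 < n := lt_of_le_of_lt (le_max_right _ _) h
      have h2 := hsmall n h1
      have h3 := hmax M (mem_Icc.2 ⟨le_refl _, le_max_left _ _⟩)
      refine le_trans ?_ h3
      have hnq : (0 : ℚ) < n := by exact_mod_cast hnpos
      have hMq : (0 : ℚ) < M := by exact_mod_cast hM1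
      rw [div_le_div_iff₀ hnq hMq]
      have h4 : (cnt A n : ℚ) * M < n * cnt A M := by exact_mod_cast h2
      linarith
  have hnq : (0 : ℚ) < n := by exact_mod_cast hnpos
  have hNq : (0 : ℚ) < N := by exact_mod_cast hNpos
  rw [div_le_div_iff₀ hnq hNq] at key
  have h5 : (cnt A n : ℚ) * N ≤ n * cnt A N := by linarith
  exact_mod_cast h5

/-- doubling gives polynomial growth -/
theorem growth_of_doubling (A : Set ℕ) {C : ℝ} {p N₀ : ℕ} (hC1 : 1 ≤ C) (hCp : C ≤ 2 ^ p)
    (hN₀ : 1 ≤ N₀) (hd : ∀ n, N₀ ≤ n → (cnt A (2 * n) : ℝ) ≤ C * cnt A n) {N : ℕ} (hN : N₀ ≤ N)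
    (n : ℕ) (hn : N ≤ n) : (cnt A n : ℝ) ≤ C * ((n : ℝ) / N) ^ p * cnt A N := by
  have hNr : (0 : ℝ) < N := by
    have : 1 ≤ N := hN₀.trans hN
    exact_mod_cast this
  have h1 : ∀ k : ℕ, (cnt A (2 ^ k * N) : ℝ) ≤ C ^ k * cnt A N := by
    intro k
    induction k with
    | zero => simp
    | succ k ih =>
      have h2 : N₀ ≤ 2 ^ k * N := by
        have : 1 ≤ 2 ^ k := Nat.one_le_two_pow
        nlinarith
      have h3 := hd _ h2
      have h4 : 2 ^ (k + 1) * N = 2 * (2 ^ k * N) := by ring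
      rw [h4]
      calc (cnt A (2 * (2 ^ k * N)) : ℝ) ≤ C * cnt A (2 ^ k * N) := h3
        _ ≤ C * (C ^ k * cnt A N) := by gcongr
        _ = _ := by ring
  -- the dyadic scale
  have hN1 : 1 ≤ N := hN₀.trans hN
  have hdiv : 1 ≤ n / N := (Nat.one_le_div_iff (by omega)).2 hn
  set k := Nat.log 2 (n / N) with hk
  have hk1 : 2 ^ k ≤ n / N := Nat.pow_log_le_self 2 (by omega)
  have hk2 : n / N < 2 ^ (k + 1) := Nat.lt_pow_succ_log_self (by norm_num) _
  have hn2 : n ≤ 2 ^ (k + 1) * N := by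
    have : n < 2 ^ (k + 1) * N := (Nat.div_lt_iff_lt_mul (by omega)).1 hk2
    omega
  have hk1r : (2 : ℝ) ^ k ≤ (n : ℝ) / N := by
    rw [le_div_iff₀ hNr]
    have : 2 ^ k * N ≤ n := (Nat.le_div_iff_mul_le (by omega)).1 hk1
    exact_mod_cast this
  calc (cnt A n : ℝ) ≤ cnt A (2 ^ (k + 1) * N) := by exact_mod_cast cnt_mono A hn2
    _ ≤ C ^ (k + 1) * cnt A N := h1 _
    _ = C * C ^ k * cnt A N := by ring
    _ ≤ C * (2 ^ p) ^ k * cnt A N := by gcongr
    _ = C * (2 ^ k) ^ p * cnt A N := by rw [← pow_mul, ← pow_mul, mul_comm p k]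
    _ ≤ C * ((n : ℝ) / N) ^ p * cnt A N := by gcongr

end Run7.h326.TR
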