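import Pool.Agent.Run7.h326.TR5

set_option autoImplicit false

open Finset MeasureTheory Pool.Agent.H303R3 Filter Topology

namespace Run7.h326.TR

open Run7.h326.SP
open Pool.Agent.H303R3.ET (Pw conv_Pw Pw_add rep_Pw)

/-- the number of the `n < N` where the recurrence fails -/
noncomputable def lcnt (A : Set ℕ) (g : Polynomial ℤ) (N : ℕ) : ℕ :=
  {n : ℕ | n < N ∧ ∑ j ∈ g.support, g.coeff j * (rep A (n + j) : ℤ) ≠ 0}.ncard

theorem cv_rev (A : Set ℕ) (g : Polynomial ℤ) (n : ℕ) :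
    cv A (fun j => (g.reverse.coeff j : ℝ)) (n + g.natDegree) =
      lin g (fun m => (rep A m : ℝ)) n := by
  have h1 := coeff_rev g (fun m => (rep A m : ℝ)) n
  have h2 := coeff_cv A (fun j => (g.reverse.coeff j : ℝ)) (n + g.natDegree)
  rw [rep_Pw] at h2
  have h3 : Pw (fun j => (g.reverse.coeff j : ℝ)) =
      ((g.reverse.map (Int.castRingHom ℂ) : Polynomial ℂ) : PowerSeries ℂ) := by
    ext i
    rw [Polynomial.coeff_coe, Polynomial.coeff_map]
    unfold Pw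
    rw [PowerSeries.coeff_mk]
    simp
  rw [h3, h1] at h2
  exact_mod_cast h2.symm

theorem lin_cast (A : Set ℕ) (g : Polynomial ℤ) (n : ℕ) :
    lin g (fun m => (rep A m : ℝ)) n =
      ((∑ j ∈ g.support, g.coeff j * (rep A (n + j) : ℤ) : ℤ) : ℝ) := by
  unfold lin
  push_cast
  rfl

theorem dcnt_le (A : Set ℕ) (g : Polynomial ℤ) (T : ℕ) :
    dcnt (Dset A fun j => g.reverse.coeff j) T ≤ g.natDegree + lcnt A g T := by
  classical
  set k := g.natDegree with hk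
  unfold dcnt lcnt
  have hfin : {n : ℕ | n < T ∧ ∑ j ∈ g.support, g.coeff j * (rep A (n + j) : ℤ) ≠ 0}.Finite :=
    (Set.finite_lt_nat T).subset fun n hn => hn.1
  rw [Set.ncard_eq_toFinset_card _ hfin]
  calc _ ≤ (range k ∪ hfin.toFinset.map (addRightEmbedding k)).card := by
        refine card_le_card ?_
        intro m hm
        rw [mem_filter, mem_range] at hm
        rw [mem_union, mem_range]
        by_cases h : m < k
        · exact Or.inl h
        · right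
          push Not at h
          rw [Finset.mem_map]
          refine ⟨m - k, ?_, ?_⟩
          · rw [Set.Finite.mem_toFinset]
            refine ⟨by omega, ?_⟩
            have h1 : cv A (fun j => (g.reverse.coeff j : ℝ)) m ≠ 0 := hm.2
            have h2 : m = (m - k) + g.natDegree := by omega
            rw [h2, cv_rev, lin_cast] at h1
            exact_mod_cast h1
          · simp only [addRightEmbedding_apply]
            omega
    _ ≤ (range k).card + (hfin.toFinset.map (addRightEmbedding k)).card := card_union_le _ _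
    _ = _ := by rw [card_range, card_map]

theorem rev_sum_le (g : Polynomial ℤ) {V : ℕ} (hV : ∑ i ∈ g.support, g.coeff i ^ 2 ≤ (V : ℤ))
    (n : ℕ) : ∑ j ∈ range n, (g.reverse.coeff j : ℝ) ^ 2 ≤ V := by
  classical
  have h1 : (∑ i ∈ g.support, (g.coeff i : ℝ) ^ 2) ≤ V := by exact_mod_cast hV
  rw [← sum_rev] at h1
  refine le_trans ?_ h1
  have h2 : ∑ j ∈ range n, (g.reverse.coeff j : ℝ) ^ 2 =
      ∑ j ∈ (range n).filter (fun j => j ∈ g.reverse.support), (g.reverse.coeff j : ℝ) ^ 2 := by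
    rw [sum_filter]
    refine sum_congr rfl fun j _ => ?_
    split_ifs with h
    · rfl
    · rw [Polynomial.notMem_support_iff.1 h]
      simp
  rw [h2]
  refine sum_le_sum_of_subset_of_nonneg ?_ fun _ _ _ => sq_nonneg _
  intro j hj
  exact (mem_filter.1 hj).2

theorem rep_pos {A : Set ℕ} (hA : A.Infinite) {K : ℕ} (hK : ∀ n, rep A n ≤ K) : 0 < K := by
  obtain ⟨a, ha⟩ := hA.nonempty
  refine lt_of_lt_of_le ?_ (hK (a + a))
  unfold rep
  have hfin : {p : ℕ × ℕ | p.1 ∈ A ∧ p.2 ∈ A ∧ p.1 + p.2 = a + a}.Finite := by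
    refine Set.Finite.subset
      (Finset.finite_toSet (Finset.HasAntidiagonal.antidiagonal (a + a))) ?_
    intro q hq
    rw [Finset.mem_coe, Finset.HasAntidiagonal.mem_antidiagonal]
    exact hq.2.2
  rw [Set.ncard_pos hfin]
  exact ⟨(a, a), ha, ha, rfl⟩

theorem V_pos {g : Polynomial ℤ} (hg : g ≠ 0) {V : ℕ}
    (hV : ∑ i ∈ g.support, g.coeff i ^ 2 ≤ (V : ℤ)) : 0 < V := by
  by_contra h
  have h0 : V = 0 := by omega
  subst h0
  have h1 : g.leadingCoeff ^ 2 ≤ ∑ i ∈ g.support, g.coeff i ^ 2 :=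
    single_le_sum (f := fun i => g.coeff i ^ 2) (fun i _ => sq_nonneg _)
      (Polynomial.natDegree_mem_support_of_nonzero hg)
  have h2 : 0 < g.leadingCoeff ^ 2 := by
    have : g.leadingCoeff ≠ 0 := Polynomial.leadingCoeff_ne_zero.2 hg
    positivity
  push_cast at hV
  omega

/-- one scale -/
theorem one_scale (K V p : ℕ) (H : ℝ) (hH : 1 ≤ H) :
    ∃ c : ℝ, 0 < c ∧ ∃ l : ℕ, 1 ≤ l ∧ ∀ A : Set ℕ, A.Infinite → (∀ n, rep A n ≤ K) →
      ∀ g : Polynomial ℤ, g ≠ 0 → ∑ i ∈ g.support, g.coeff i ^ 2 ≤ (V : ℤ) →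
      ∃ n₀ : ℕ, ∀ N T : ℕ, n₀ ≤ N → l * N ≤ T → T ≤ 2 * (l * N) →
        (∀ n, N ≤ n → (cnt A n : ℝ) ≤ H * ((n : ℝ) / N) ^ p * cnt A N) →
        c * (cnt A T : ℝ) ^ 2 ≤ lcnt A g T := by
  by_cases hKV : 0 < K ∧ 0 < V
  swap
  · refine ⟨1, one_pos, 1, le_refl _, fun A hA hK g hg hV => ?_⟩
    exact absurd ⟨rep_pos hA hK, V_pos hg hV⟩ hKV
  obtain ⟨c₂, hc₂, l, hl, hmain⟩ := count_at K V p H hKV.1 hKV.2 (by linarith)
  have hlr : (1 : ℝ) ≤ l := by exact_mod_cast hl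
  set G : ℝ := H * (2 * l) ^ p with hG
  have hG0 : 0 < G := by positivity
  refine ⟨c₂ / G ^ 2 / 2, by positivity, l, hl, fun A hA hK g hg hV => ?_⟩
  -- the size making the degree negligible
  obtain ⟨B, hB⟩ : ∃ B : ℕ, (g.natDegree : ℝ) / (c₂ / G ^ 2 / 2) ≤ B := exists_nat_ge _
  obtain ⟨n₁, hn₁⟩ := cnt_pos hA (B + 1)
  refine ⟨max n₁ 2, fun N T hN hT1 hT2 hgrow => ?_⟩
  have hN2 : 2 ≤ N := (le_max_right _ _).trans hN
  have hNr : (0 : ℝ) < N := by
    have : 0 < N := by omega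
    exact_mod_cast this
  have hlead : (fun j => g.reverse.coeff j) 0 ≠ 0 := by
    simp only [Polynomial.coeff_zero_reverse]
    exact Polynomial.leadingCoeff_ne_zero.2 hg
  have h1 := hmain A (fun j => g.reverse.coeff j) hK hlead
    (fun n => rev_sum_le g hV n) N hN2 hgrow
  have h2 : dcnt (Dset A fun j => g.reverse.coeff j) (l * N) ≤ g.natDegree + lcnt A g T :=
    (dcnt_mono _ hT1).trans (dcnt_le A g T)
  have h2r : (dcnt (Dset A fun j => g.reverse.coeff j) (l * N) : ℝ) ≤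
      g.natDegree + lcnt A g T := by exact_mod_cast h2
  have hNT : N ≤ T := by
    calc N = 1 * N := (one_mul N).symm
      _ ≤ l * N := Nat.mul_le_mul_right _ hl
      _ ≤ T := hT1
  have h3 : (cnt A T : ℝ) ≤ G * cnt A N := by
    have h4 := hgrow T hNT
    have h5 : (T : ℝ) / N ≤ 2 * l := by
      rw [div_le_iff₀ hNr]
      have : (T : ℝ) ≤ 2 * (l * N) := by exact_mod_cast hT2
      linarith
    calc (cnt A T : ℝ) ≤ H * ((T : ℝ) / N) ^ p * cnt A N := h4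
      _ ≤ H * (2 * l) ^ p * cnt A N := by gcongr
  have h4 : c₂ / G ^ 2 * (cnt A T : ℝ) ^ 2 ≤ c₂ * (cnt A N : ℝ) ^ 2 := by
    calc c₂ / G ^ 2 * (cnt A T : ℝ) ^ 2 ≤ c₂ / G ^ 2 * (G * cnt A N) ^ 2 := by gcongr
      _ = _ := by field_simp
  have h5 : (g.natDegree : ℝ) ≤ c₂ / G ^ 2 / 2 * (cnt A T : ℝ) ^ 2 := by
    have h6 : B + 1 ≤ cnt A T := hn₁.trans (cnt_mono A
      (((le_max_left _ _).trans hN).trans hNT))
    have h7 : (B : ℝ) + 1 ≤ cnt A T := by exact_mod_cast h6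
    have h8 : (B : ℝ) ≤ (cnt A T : ℝ) ^ 2 := by
      have : (0 : ℝ) ≤ B := Nat.cast_nonneg _
      nlinarith
    rw [div_le_iff₀ (by positivity)] at hB
    calc (g.natDegree : ℝ) ≤ B * (c₂ / G ^ 2 / 2) := hB
      _ ≤ (cnt A T : ℝ) ^ 2 * (c₂ / G ^ 2 / 2) := by gcongr
      _ = _ := by ring
  have h6 : c₂ / G ^ 2 / 2 * (cnt A T : ℝ) ^ 2 = c₂ / G ^ 2 * (cnt A T : ℝ) ^ 2 / 2 := by ring
  linarith

theorem final_freq (K V : ℕ) : ∃ c : ℝ, 0 < c ∧ ∀ A : Set ℕ, A.Infinite →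
    (∀ n, rep A n ≤ K) → ∀ g : Polynomial ℤ, g ≠ 0 → ∑ i ∈ g.support, g.coeff i ^ 2 ≤ (V : ℤ) →
    ∃ᶠ N : ℕ in atTop, c * (cnt A N : ℝ) ^ 2 ≤ lcnt A g N := by
  obtain ⟨c, hc, l, hl, h⟩ := one_scale K V 1 1 (le_refl _)
  refine ⟨c, hc, fun A hA hK g hg hV => ?_⟩
  obtain ⟨n₀, hn₀⟩ := h A hA hK g hg hV
  rw [frequently_atTop]
  intro M
  obtain ⟨N, hN, hmax⟩ := exists_max A hK hA (max (max n₀ M) 1)
  have hNn : n₀ ≤ N := ((le_max_left _ _).trans (le_max_left _ _)).trans hN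
  have hNM : M ≤ N := ((le_max_right _ _).trans (le_max_left _ _)).trans hN
  have hN1 : 1 ≤ N := (le_max_right _ _).trans hN
  have hNr : (0 : ℝ) < N := by exact_mod_cast hN1
  refine ⟨l * N, ?_, hn₀ N (l * N) hNn le_rfl (by omega) ?_⟩
  · calc M ≤ N := hNM
      _ = 1 * N := (one_mul N).symm
      _ ≤ l * N := Nat.mul_le_mul_right _ hl
  · intro n hn
    have h1 := hmax n hn
    have h2 : (cnt A n : ℝ) * N ≤ n * cnt A N := by exact_mod_cast h1
    rw [one_mul, pow_one, div_mul_eq_mul_div, le_div_iff₀ hNr]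
    exact h2

theorem final_ev (K V : ℕ) (C : ℝ) : ∃ c : ℝ, 0 < c ∧ ∀ A : Set ℕ, A.Infinite →
    (∀ n, rep A n ≤ K) → (∀ᶠ N : ℕ in atTop, (cnt A (2 * N) : ℝ) ≤ C * cnt A N) →
    ∀ g : Polynomial ℤ, g ≠ 0 → ∑ i ∈ g.support, g.coeff i ^ 2 ≤ (V : ℤ) →
    ∀ᶠ N : ℕ in atTop, c * (cnt A N : ℝ) ^ 2 ≤ lcnt A g N := by
  set C' : ℝ := max C 1 with hC'
  obtain ⟨p, hp⟩ : ∃ p : ℕ, C' ≤ 2 ^ p := by
    obtain ⟨p, hp⟩ := pow_unbounded_of_one_lt C' (show (1 : ℝ) < 2 by norm_num)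
    exact ⟨p, hp.le⟩
  obtain ⟨c, hc, l, hl, h⟩ := one_scale K V p C' (le_max_right _ _)
  refine ⟨c, hc, fun A hA hK hd g hg hV => ?_⟩
  obtain ⟨n₀, hn₀⟩ := h A hA hK g hg hV
  obtain ⟨n₁, hn₁⟩ := eventually_atTop.1 hd
  have hd' : ∀ n, max n₁ 1 ≤ n → (cnt A (2 * n) : ℝ) ≤ C' * cnt A n := by
    intro n hn
    refine (hn₁ n ((le_max_left _ _).trans hn)).trans ?_
    exact mul_le_mul_of_nonneg_right (le_max_left _ _) (Nat.cast_nonneg _)
  filter_upwards [eventually_ge_atTop (l * (max n₀ (max n₁ 1) + 1))] with T hT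
  set N := T / l with hN
  have hl0 : 0 < l := hl
  have hN1 : max n₀ (max n₁ 1) + 1 ≤ N := by
    rw [hN, Nat.le_div_iff_mul_le hl0, mul_comm]
    exact hT
  have hdm := Nat.div_add_mod T l
  have hmod := Nat.mod_lt T hl0
  have hm0 : n₀ ≤ max n₀ (max n₁ 1) := le_max_left _ _
  have hm1 : max n₁ 1 ≤ max n₀ (max n₁ 1) := le_max_right _ _
  have hm2 : 1 ≤ max n₁ 1 := le_max_right _ _
  have hlN : l * 1 ≤ l * N := Nat.mul_le_mul_left _ (by omega)
  refine hn₀ N T (by omega) ?_ ?_ ?_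
  · rw [hN]
    omega
  · rw [hN] at hlN ⊢
    omega
  · intro n hn
    exact growth_of_doubling A (le_max_right _ _) hp hm2 hd' (by omega) n hn

end Run7.h326.TR
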