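import Mathlib
import Pool.Agent.Run7.h326.V6

set_option autoImplicit false

open Finset Filter

namespace Run7.h326.VL

theorem card_mixing_le (α β : Type) [Fintype α] [DecidableEq α] [Fintype β] [DecidableEq β] :
    (mixing α β).card ≤ (Fintype.card α + Fintype.card β).factorial := by
  unfold mixing
  refine (card_filter_le _ _).trans ?_
  rw [card_univ, Fintype.card_perm, Fintype.card_sum]

open scoped Classical in
theorem dens_seq {h : ℕ} (hh : 2 ≤ h) (A : Set ℕ) (l g K n₁ : ℕ) (hl : 1 ≤ l) (hlg : l ≤ g)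
    (hg : √(g : ℝ) - √(l : ℝ) < √(1 - 1 / (h.choose (h / 2) : ℝ)))
    (hK : ∀ n, n₁ ≤ n → r A h n ≤ K) (hA : ∀ n, n₁ ≤ n → l ≤ r A h n) :
    ∃ M₀ B₀ : ℕ, ∃ δ₀ : ℝ, 0 < δ₀ ∧ ∀ M : ℕ, M₀ ≤ M →
      δ₀ * (M : ℝ) ^ (2 * h) ≤
        (((range (B₀ * M ^ (2 * h))).filter (fun n => g < r A h n)).card : ℝ) := by
  set p := h - h / 2 with hp
  set q := h / 2 with hq
  have hpq : p + q = h := by omega
  have hcα : Fintype.card (Fin p) = p := Fintype.card_fin p
  have hcβ : Fintype.card (Fin q) = q := Fintype.card_fin q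
  have hcard : Fintype.card (Fin p ⊕ Fin q) = h := by simp [hpq]
  set fh : ℝ := (h.factorial : ℝ) with hfh
  have hfh0 : 0 < fh := by
    rw [hfh]
    exact_mod_cast Nat.factorial_pos h
  set U : ℝ := fh * g with hU
  set L : ℝ := fh * l with hL
  set cm : ℝ := ((mixing (Fin p) (Fin q)).card : ℝ) with hcm
  have hcm1 : cm ≤ fh := by
    have := card_mixing_le (Fin p) (Fin q)
    rw [hcα, hcβ, hpq] at this
    rw [hcm, hfh]
    exact_mod_cast this
  have hcm2 : fh * (1 - 1 / (h.choose q : ℝ)) ≤ cm := by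
    have h1 := card_mixing (Fin p) (Fin q)
    rw [hcα, hcβ, hpq] at h1
    have h2 : (h.factorial : ℝ) ≤ cm + (p.factorial : ℝ) * (q.factorial : ℝ) := by
      rw [hcm]
      exact_mod_cast h1
    have h3 : (h.choose q : ℝ) * (q.factorial : ℝ) * (p.factorial : ℝ) = (h.factorial : ℝ) := by
      have := Nat.choose_mul_factorial_mul_factorial (show q ≤ h by omega)
      exact_mod_cast this
    have h4 : (0 : ℝ) < (h.choose q : ℝ) := by
      exact_mod_cast Nat.choose_pos (show q ≤ h by omega)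
    have h5 : fh * (1 / (h.choose q : ℝ)) = (p.factorial : ℝ) * (q.factorial : ℝ) := by
      rw [hfh, ← h3]
      field_simp
    rw [mul_sub, mul_one, h5]
    linarith
  set lam : ℝ := (U + L - cm) / 2 with hlam
  have hl1 : (1 : ℝ) ≤ l := by exact_mod_cast hl
  have hU0 : 0 ≤ U := by positivity
  have hL0 : 0 ≤ L := by positivity
  have hlam0 : 0 ≤ lam := by
    have h1 : fh * 1 ≤ L := mul_le_mul_of_nonneg_left hl1 hfh0.le
    rw [hlam]
    linarith
  have hδ : lam ^ 2 < U * L := by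
    have hs0 : 0 ≤ √(g : ℝ) - √(l : ℝ) := by
      rw [sub_nonneg]
      exact Real.sqrt_le_sqrt (by exact_mod_cast hlg)
    have hc0 : 0 < 1 - 1 / (h.choose q : ℝ) := by
      by_contra h0
      push Not at h0
      rw [Real.sqrt_eq_zero_of_nonpos h0] at hg
      linarith
    have h1 : (√(g : ℝ) - √(l : ℝ)) ^ 2 < 1 - 1 / (h.choose q : ℝ) := by
      have := pow_lt_pow_left₀ hg hs0 (two_ne_zero)
      rwa [Real.sq_sqrt hc0.le] at this
    have hk := Real.sq_sqrt (show (0 : ℝ) ≤ g by positivity)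
    have hll := Real.sq_sqrt (show (0 : ℝ) ≤ l by positivity)
    set sk := √(g : ℝ) with hsk
    set sl := √(l : ℝ) with hsl
    have hsk0 : 0 ≤ sk := Real.sqrt_nonneg _
    have hsl0 : 0 ≤ sl := Real.sqrt_nonneg _
    have hUeq : U = fh * sk ^ 2 := by rw [hU, hk]
    have hLeq : L = fh * sl ^ 2 := by rw [hL, hll]
    have h2 : lam < fh * (sk * sl) := by
      have h3 : fh * (sk - sl) ^ 2 < cm := by
        calc fh * (sk - sl) ^ 2 < fh * (1 - 1 / (h.choose q : ℝ)) :=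
              mul_lt_mul_of_pos_left h1 hfh0
          _ ≤ cm := hcm2
      rw [hlam, hUeq, hLeq]
      nlinarith
    have h4 : U * L = (fh * (sk * sl)) ^ 2 := by rw [hUeq, hLeq]; ring
    rw [h4]
    exact pow_lt_pow_left₀ h2 hlam0 two_ne_zero
  have hRr : ∀ (N n : ℕ), (Rn (Fin p ⊕ Fin q) ((range N).filter (fun a => a ∈ A)) n : ℝ) ≤
      fh * (r A h n : ℝ) := by
    intro N n
    have h1 := Rn_le (γ := Fin p ⊕ Fin q) A ((range N).filter (fun a => a ∈ A))
      (fun a ha => (mem_filter.1 ha).2) n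
    rw [hcard] at h1
    rw [hfh]
    exact_mod_cast h1
  have hmain := asym (fun n => g < r A h n) (α := Fin p) (β := Fin q)
    (by rw [hcα, hcβ, hpq]; exact hh) n₁ U (fh * K) L
    ((n₁ + 1 : ℕ) ^ h : ℝ) fh lam hU0 (by positivity) hL0 (by positivity) hfh0.le hlam0
    (by rw [hlam]; ring) hδ ?_
  · rw [hcα, hcβ, hpq] at hmain
    obtain ⟨M₀, B₀, δ₀, hδ₀, hM⟩ := hmain
    refine ⟨M₀, B₀, δ₀, hδ₀, fun M hM' => ?_⟩
    convert hM M hM'
  intro N
  refine ⟨(range N).filter (fun a => a ∈ A), fun a ha => mem_range.1 (mem_filter.1 ha).1, ?_, ?_,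
    ?_, ?_⟩
  · intro n hn hE
    push Not at hE
    refine (hRr N n).trans ?_
    have h2 : (r A h n : ℝ) ≤ g := by exact_mod_cast hE
    exact mul_le_mul_of_nonneg_left h2 hfh0.le
  · intro n hn
    refine (hRr N n).trans ?_
    have h2 : (r A h n : ℝ) ≤ K := by exact_mod_cast hK n hn
    exact mul_le_mul_of_nonneg_left h2 hfh0.le
  · intro n hn
    have h1 : Rn (Fin p ⊕ Fin q) ((range N).filter (fun a => a ∈ A)) n ≤ (n₁ + 1) ^ h := by
      unfold Rn
      calc _ ≤ (tp (Fin p ⊕ Fin q) (range (n₁ + 1))).card := by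
            apply card_le_card
            intro c hc
            rw [mem_filter] at hc
            refine mem_tp.2 fun i => ?_
            rw [mem_range, Nat.lt_succ_iff]
            have h2 : c i ≤ sm c := single_le_sum (f := c) (fun _ _ => Nat.zero_le _) (mem_univ i)
            omega
        _ = (n₁ + 1) ^ h := by
            unfold tp
            rw [Fintype.card_piFinset, prod_const, card_univ, hcard, card_range]
    exact_mod_cast h1
  · intro n hn hnN
    have h1 := le_Rn (γ := Fin p ⊕ Fin q) A ((range N).filter (fun a => a ∈ A)) n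
      (fun a ha han => mem_filter.2 ⟨mem_range.2 (by omega), ha⟩)
      (fun a ha => (mem_filter.1 ha).2)
    rw [hcard] at h1
    have h2 : (h.factorial : ℝ) * (r A h n : ℝ) ≤
        (Rn (Fin p ⊕ Fin q) ((range N).filter (fun a => a ∈ A)) n : ℝ) +
        (h.factorial : ℝ) * (Rep (Fin p ⊕ Fin q) ((range N).filter (fun a => a ∈ A)) n : ℝ) := by
      exact_mod_cast h1
    have h3 : (l : ℝ) ≤ (r A h n : ℝ) := by exact_mod_cast hA n hn
    have h4 := mul_le_mul_of_nonneg_left h3 hfh0.le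
    rw [hL]
    linarith

/-- from a sequence of scales to all scales -/
theorem dens_all (f : ℕ → ℕ) (hf : Monotone f) (k M₀ B₀ : ℕ) (hk : 1 ≤ k) (δ₀ : ℝ) (hδ₀ : 0 < δ₀)
    (h : ∀ M : ℕ, M₀ ≤ M → δ₀ * (M : ℝ) ^ k ≤ (f (B₀ * M ^ k) : ℝ)) (h0 : f 0 = 0) :
    ∃ δ : ℝ, 0 < δ ∧ ∀ᶠ N : ℕ in atTop, δ * N ≤ (f N : ℝ) := by
  have hB : 1 ≤ B₀ := by
    by_contra hB
    have : B₀ = 0 := by omega
    have h1 := h (M₀ + 1) (by omega)
    rw [this, zero_mul, h0] at h1
    have : 0 < δ₀ * ((M₀ + 1 : ℕ) : ℝ) ^ k := by positivity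
    simp only [Nat.cast_zero] at h1
    linarith
  have hBr : (1 : ℝ) ≤ B₀ := by exact_mod_cast hB
  refine ⟨δ₀ / (B₀ * 2 ^ k), by positivity, ?_⟩
  filter_upwards [eventually_ge_atTop (B₀ * (M₀ + 1) ^ k)] with N hN
  set M := Nat.findGreatest (fun M => B₀ * M ^ k ≤ N) N with hM
  have hM0 : M₀ + 1 ≤ N := by
    refine le_trans ?_ hN
    calc M₀ + 1 = 1 * (M₀ + 1) ^ 1 := by ring
      _ ≤ B₀ * (M₀ + 1) ^ k := Nat.mul_le_mul hB (Nat.pow_le_pow_right (by omega) hk)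
  have hM1 : M₀ + 1 ≤ M := Nat.le_findGreatest hM0 hN
  have hM2 : B₀ * M ^ k ≤ N := Nat.findGreatest_spec (P := fun M => B₀ * M ^ k ≤ N) hM0 hN
  have hM3 : N < B₀ * (M + 1) ^ k := by
    by_contra hcon
    push Not at hcon
    have h1 : M + 1 ≤ N := by
      refine le_trans ?_ hcon
      calc M + 1 = 1 * (M + 1) ^ 1 := by ring
        _ ≤ B₀ * (M + 1) ^ k := Nat.mul_le_mul hB (Nat.pow_le_pow_right (by omega) hk)
    have h2 : M + 1 ≤ M := Nat.le_findGreatest h1 hcon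
    omega
  have h1 := h M (by omega)
  have h2 : (f (B₀ * M ^ k) : ℝ) ≤ f N := by exact_mod_cast hf hM2
  have h3 : (N : ℝ) ≤ B₀ * 2 ^ k * M ^ k := by
    have h4 : N ≤ B₀ * (2 * M) ^ k := hM3.le.trans
      (Nat.mul_le_mul_left _ (Nat.pow_le_pow_left (by omega) _))
    rw [mul_pow, ← mul_assoc] at h4
    exact_mod_cast h4
  calc δ₀ / (B₀ * 2 ^ k) * N ≤ δ₀ / (B₀ * 2 ^ k) * (B₀ * 2 ^ k * M ^ k) := by gcongr
    _ = δ₀ * M ^ k := by field_simp
    _ ≤ _ := h1.trans h2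

open scoped Classical in
theorem main {h : ℕ} (hh : 2 ≤ h) (A : Set ℕ) (l : ℕ) (hl : 1 ≤ l)
    (hA : ∀ᶠ n in atTop, l ≤ r A h n) (hb : ∃ C, ∀ n, r A h n ≤ C) :
    ∃ δ : ℝ, 0 < δ ∧ ∀ᶠ N : ℕ in atTop, δ * N ≤ (((range N).filter (fun n =>
      √(l : ℝ) + √(1 - 1 / (h.choose (h / 2) : ℝ)) ≤ √(r A h n : ℝ))).card : ℝ) := by
  obtain ⟨K, hK⟩ := hb
  set y := √(l : ℝ) + √(1 - 1 / (h.choose (h / 2) : ℝ)) with hy
  have hy0 : 0 ≤ y := by positivity
  have hc0 : 0 < 1 - 1 / (h.choose (h / 2) : ℝ) := by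
    have h1 : 2 ≤ h.choose (h / 2) := by
      have h2 : h.choose 1 ≤ h.choose (h / 2) := Nat.choose_le_middle 1 h
      rw [Nat.choose_one_right] at h2
      omega
    have h2 : (2 : ℝ) ≤ (h.choose (h / 2) : ℝ) := by exact_mod_cast h1
    have h3 : 1 / (h.choose (h / 2) : ℝ) ≤ 1 / 2 :=
      one_div_le_one_div_of_le (by norm_num) h2
    linarith
  have hyl : (l : ℝ) < y ^ 2 := by
    have h1 := Real.sq_sqrt (show (0 : ℝ) ≤ l by positivity)
    have h2 := Real.sqrt_nonneg (l : ℝ)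
    have h3 := Real.sqrt_pos.2 hc0
    rw [hy]
    nlinarith [mul_nonneg h2 h3.le]
  have hl1 : (1 : ℝ) ≤ l := by exact_mod_cast hl
  have hy2 : 0 < y ^ 2 := by linarith
  have hc1 : 1 ≤ ⌈y ^ 2⌉₊ := Nat.one_le_ceil_iff.2 hy2
  set g := ⌈y ^ 2⌉₊ - 1 with hg
  have hlg : l ≤ g := by
    have h1 : (l : ℝ) < (⌈y ^ 2⌉₊ : ℝ) := hyl.trans_le (Nat.le_ceil _)
    have h2 : l < ⌈y ^ 2⌉₊ := by exact_mod_cast h1
    omega
  have hgy : (g : ℝ) < y ^ 2 := by
    have := Nat.ceil_lt_add_one hy2.le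
    rw [hg, Nat.cast_sub hc1]
    push_cast
    linarith
  have hgs : √(g : ℝ) - √(l : ℝ) < √(1 - 1 / (h.choose (h / 2) : ℝ)) := by
    have h1 : √(g : ℝ) < y := by
      rw [Real.sqrt_lt' (by nlinarith [Real.sqrt_pos.2 hc0, Real.sqrt_nonneg (l : ℝ)])]
      exact hgy
    rw [hy] at h1
    linarith
  obtain ⟨n₁, hn₁⟩ := eventually_atTop.1 hA
  obtain ⟨M₀, B₀, δ₀, hδ₀, hM⟩ := dens_seq hh A l g K n₁ hl hlg hgs (fun n _ => hK n) hn₁
  obtain ⟨δ, hδ, hN⟩ := dens_all (fun N => ((range N).filter (fun n => g < r A h n)).card)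
    (fun N N' hNN => card_le_card (filter_subset_filter _ (range_subset_range.2 hNN)))
    (2 * h) M₀ B₀ (by omega) δ₀ hδ₀ hM (by simp)
  refine ⟨δ, hδ, ?_⟩
  filter_upwards [hN] with N hN
  refine hN.trans ?_
  have : ((range N).filter (fun n => g < r A h n)).card ≤
      ((range N).filter (fun n => y ≤ √(r A h n : ℝ))).card := by
    apply card_le_card
    intro n hn
    rw [mem_filter] at hn ⊢
    refine ⟨hn.1, ?_⟩
    apply Real.le_sqrt_of_sq_le
    have h1 : ⌈y ^ 2⌉₊ ≤ r A h n := by omega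
    exact (Nat.le_ceil _).trans (by exact_mod_cast h1)
  exact_mod_cast this

end Run7.h326.VL
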